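import Pool.Agent.Lib.MP_058a58_ag.MT.DStm3
import Pool.Agent.Lib.MP_058a58_ag.FieldFamily

set_option autoImplicit false

/-!
# Twists by modular forms, piece BS4: the two-sided Bessel inequality, defect form
-/

open Polynomial Filter Topology UpperHalfPlane Set
open scoped MatrixGroups
open TatePole (RR BddPrimes)

namespace Pool.Agent.Lib.MP_058a58_ag.MT

/-- the sum over the primes converges at `x` -/
private def SMq (g : ℕ → ℝ) (x : ℝ) : Prop := Summable (fun p : Nat.Primes => g p * (p : ℝ) ^ (-x))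

private lemma BS4_mono {g h : ℕ → ℝ} {x : ℝ} (bg : SMq g x) (bh : SMq h x)
    (hle : ∀ p : ℕ, p.Prime → g p ≤ h p) : RR g x ≤ RR h x := by
  unfold RR
  refine bg.tsum_le_tsum (fun p => ?_) bh
  exact mul_le_mul_of_nonneg_right (hle p p.2) (Real.rpow_nonneg (Nat.cast_nonneg _) _)

private lemma BS4_cm {g : ℕ → ℝ} {x : ℝ} (c : ℝ) (bg : SMq g x) : SMq (fun p => c * g p) x := by
  have h := Summable.mul_left c bg
  exact h.congr fun p => by ring

private lemma BS4_sum {J : Type} [Fintype J] {g : J → ℕ → ℝ} {x : ℝ} (bg : ∀ i, SMq (g i) x) :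
    RR (fun p => ∑ i, g i p) x = ∑ i, RR (g i) x := by
  unfold RR
  rw [← Summable.tsum_finsetSum (fun i _ => bg i)]
  refine tsum_congr fun p => ?_
  rw [Finset.sum_mul]

private lemma BS4_bsum {J : Type} [Fintype J] {g : J → ℕ → ℝ} {x : ℝ} (bg : ∀ i, SMq (g i) x) :
    SMq (fun p => ∑ i, g i p) x := by
  have h := summable_sum (s := Finset.univ) (f := fun i (p : Nat.Primes) => g i p * (p : ℝ) ^ (-x))
    (fun i _ => bg i)
  exact h.congr fun p => by rw [Finset.sum_mul]

private lemma BS4_badd {g h : ℕ → ℝ} {x : ℝ} (bg : SMq g x) (bh : SMq h x) :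
    SMq (fun p => g p + h p) x := by
  exact (Summable.add bg bh).congr fun p => by ring

private lemma BS4_add {g h : ℕ → ℝ} {x : ℝ} (bg : SMq g x) (bh : SMq h x) :
    RR (fun p => g p + h p) x = RR g x + RR h x := by
  unfold RR
  rw [← Summable.tsum_add bg bh]
  exact tsum_congr fun p => by ring

private lemma BS4_mul {g h : ℕ → ℝ} {x : ℝ} (bg : SMq (fun p => g p ^ 2) x)
    (bh : SMq (fun p => h p ^ 2) x) : SMq (fun p => g p * h p) x := by
  refine Summable.of_norm_bounded (BS4_badd bg bh) fun p => ?_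
  have h0 : (0:ℝ) ≤ (p : ℝ) ^ (-x) := Real.rpow_nonneg (Nat.cast_nonneg _) _
  rw [Real.norm_eq_abs, abs_mul, abs_of_nonneg h0]
  refine mul_le_mul_of_nonneg_right ?_ h0
  show |g p * h p| ≤ g p ^ 2 + h p ^ 2
  rw [abs_mul, ← sq_abs (g p), ← sq_abs (h p)]
  nlinarith [sq_nonneg (|g p| - |h p|), sq_nonneg (|g p|), sq_nonneg (|h p|)]

private lemma BS4_bdd {g : ℕ → ℝ} {x : ℝ} (bg : BddPrimes g) (hx : 1 < x) : SMq g x := by
  obtain ⟨C, hC⟩ := bg
  exact TatePole.summable_RR hC hx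

/-- functions with finitely many nonzero values at the primes -/
private lemma BS4_fin {e : ℕ → ℝ} {S : Finset ℕ} (he : ∀ p : ℕ, p.Prime → p ∉ S → e p = 0) :
    ∃ C : ℝ, ∀ x : ℝ, 1 < x → SMq e x ∧ |RR e x| ≤ C := by
  classical
  let s : Finset Nat.Primes := S.preimage (fun p : Nat.Primes => (p : ℕ))
    (Subtype.val_injective.injOn)
  have hs : ∀ p : Nat.Primes, p ∉ s → e p = 0 := by
    intro p hp
    apply he p p.2
    intro h
    exact hp (Finset.mem_preimage.2 h)
  refine ⟨∑ p ∈ s, |e p|, fun x hx => ?_⟩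
  have h0 : ∀ p : Nat.Primes, p ∉ s → e p * (p : ℝ) ^ (-x) = 0 := fun p hp => by
    rw [hs p hp, zero_mul]
  refine ⟨summable_of_ne_finset_zero h0, ?_⟩
  unfold RR
  rw [tsum_eq_sum h0]
  refine (Finset.abs_sum_le_sum_abs _ _).trans (Finset.sum_le_sum fun p _ => ?_)
  rw [abs_mul, abs_of_nonneg (Real.rpow_nonneg (Nat.cast_nonneg _) _)]
  refine mul_le_of_le_one_right (abs_nonneg _) ?_
  exact Real.rpow_le_one_of_one_le_of_nonpos (by exact_mod_cast p.2.one_lt.le) (by linarith)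

theorem p_BS4 : S_BS4 := by
  intro J _ _ A A' D D' θ r Y hD hD' hA hA' hS hθ hG hY ε hε
  obtain ⟨S₂, hS₂⟩ := hS
  obtain ⟨K1, hK1⟩ := TatePole.hasMean_one
  choose c0 hc0 using hY
  have bA2 : BddPrimes (fun p => A p ^ 2) := ⟨D ^ 2, fun p hp => by
    rw [abs_pow]
    exact pow_le_pow_left₀ (abs_nonneg _) (hA p hp) 2⟩
  have bA2' : BddPrimes (fun p => A' p ^ 2) := ⟨D' ^ 2, fun p hp => by
    rw [abs_pow]
    exact pow_le_pow_left₀ (abs_nonneg _) (hA' p hp) 2⟩
  set K : ℝ := |K1| with hK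
  have hK0 : 0 ≤ K := abs_nonneg _
  have hmean : ∀ x : ℝ, 1 < x → |RR (fun _ => (1 : ℝ)) x - 1 * Real.log (1 / (x - 1))| ≤ K1 →
      RR (fun p => A' p ^ 2) x ≤ D' ^ 2 * (Real.log (1 / (x - 1)) + K) := by
    intro x hx h1
    have h5 : RR (fun p => A' p ^ 2) x ≤ RR (fun p => D' ^ 2 * (fun _ => (1 : ℝ)) p) x := by
      refine BS4_mono (BS4_bdd bA2' hx) (BS4_bdd (TatePole.bdd_one.const_mul _) hx)
        (fun p hp => ?_)
      rw [mul_one, ← sq_abs]
      exact pow_le_pow_left₀ (abs_nonneg _) (hA' p hp) 2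
    rw [TatePole.RR_const_mul] at h5
    refine h5.trans (mul_le_mul_of_nonneg_left ?_ (sq_nonneg _))
    have h6 := (abs_le.mp h1).2
    have h7 := le_abs_self K1
    linarith
  constructor
  swap
  · have hlog : ∀ᶠ x in 𝓝[>] (1 : ℝ), D' ^ 2 * K / ε ≤ Real.log (1 / (x - 1)) :=
      TatePole.AT.tendsto_log.eventually_ge_atTop _
    filter_upwards [hK1, self_mem_nhdsWithin, hlog] with x h1 h3 h4
    have h5 := hmean x h3 h1
    rw [div_le_iff₀ hε] at h4
    linarith
  -- the constants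
  set m : ℝ := ((Fintype.card J : ℕ) : ℝ) with hm
  have hm0 : 0 ≤ m := Nat.cast_nonneg _
  set ρ : ℝ := ∑ j, |r j| with hρ
  have hρ0 : 0 ≤ ρ := Finset.sum_nonneg fun j _ => abs_nonneg _
  set N0 : ℝ := 2 * D' + 2 * m with hN0
  have hN00 : 0 ≤ N0 := by positivity
  obtain ⟨η1, h11, h12, h13⟩ : ∃ η1 : ℝ, 0 < η1 ∧ η1 ≤ 1 ∧ 2 * η1 * m * N0 ≤ ε / 2 := by
    refine ⟨min 1 (ε / (4 * (m * N0) + 1)), ?_, min_le_left _ _, ?_⟩
    · exact lt_min one_pos (by positivity)
    · have h1 : min 1 (ε / (4 * (m * N0) + 1)) ≤ ε / (4 * (m * N0) + 1) := min_le_right _ _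
      have h2 : min 1 (ε / (4 * (m * N0) + 1)) * (4 * (m * N0) + 1) ≤ ε := by
        rwa [← le_div_iff₀ (by positivity)]
      have h3 : 0 < min 1 (ε / (4 * (m * N0) + 1)) := lt_min one_pos (by positivity)
      nlinarith
  obtain ⟨η2, h21, h22, h23⟩ : ∃ η2 : ℝ, 0 < η2 ∧ m ^ 2 * η2 ≤ 1 ∧
      m ^ 2 * η2 * (2 * D' ^ 2) ≤ ε / 2 := by
    refine ⟨min (1 / (m ^ 2 + 1)) (ε / (4 * (m ^ 2 * D' ^ 2) + 1)), ?_, ?_, ?_⟩
    · exact lt_min (by positivity) (by positivity)
    · have h1 : min (1 / (m ^ 2 + 1)) (ε / (4 * (m ^ 2 * D' ^ 2) + 1)) ≤ 1 / (m ^ 2 + 1) :=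
        min_le_left _ _
      have h2 : min (1 / (m ^ 2 + 1)) (ε / (4 * (m ^ 2 * D' ^ 2) + 1)) * (m ^ 2 + 1) ≤ 1 := by
        rwa [← le_div_iff₀ (by positivity)]
      have h3 : 0 < min (1 / (m ^ 2 + 1)) (ε / (4 * (m ^ 2 * D' ^ 2) + 1)) :=
        lt_min (by positivity) (by positivity)
      nlinarith
    · have h1 : min (1 / (m ^ 2 + 1)) (ε / (4 * (m ^ 2 * D' ^ 2) + 1)) ≤
          ε / (4 * (m ^ 2 * D' ^ 2) + 1) := min_le_right _ _
      have h2 : min (1 / (m ^ 2 + 1)) (ε / (4 * (m ^ 2 * D' ^ 2) + 1)) *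
          (4 * (m ^ 2 * D' ^ 2) + 1) ≤ ε := by
        rwa [← le_div_iff₀ (by positivity)]
      have h3 : 0 < min (1 / (m ^ 2 + 1)) (ε / (4 * (m ^ 2 * D' ^ 2) + 1)) :=
        lt_min (by positivity) (by positivity)
      nlinarith
  -- the exceptional primes
  have hE : ∀ i, ∃ C : ℝ, ∀ x : ℝ, 1 < x →
      SMq (fun p => (A p - A' p - ∑ j, r j * θ j p) * θ i p) x ∧
      |RR (fun p => (A p - A' p - ∑ j, r j * θ j p) * θ i p) x| ≤ C := by
    intro i
    refine BS4_fin (S := S₂) fun p hp hpS => ?_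
    show (A p - A' p - ∑ j, r j * θ j p) * θ i p = 0
    rw [hS₂ p hp hpS]
    ring
  choose cE hcE using hE
  have hlogi : ∀ i, ∀ᶠ x in 𝓝[>] (1 : ℝ), 2 * (|c0 i| + |cE i|) / η1 ≤ Real.log (1 / (x - 1)) :=
    fun i => TatePole.AT.tendsto_log.eventually_ge_atTop _
  have hd : ∀ᶠ x in 𝓝[>] (1 : ℝ), ∀ i,
      |Y i x - r i * Real.log (1 / (x - 1)) - RR (fun p => A' p * θ i p) x| ≤
        η1 * Real.log (1 / (x - 1)) := by
    rw [Filter.eventually_all]
    intro i
    have hGi : ∀ᶠ x in 𝓝[>] (1 : ℝ), ∀ j,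
        |RR (fun p => θ j p * θ i p) x - (if j = i then Real.log (1 / (x - 1)) else 0)| ≤
          η1 / (2 * (ρ + 1)) * Real.log (1 / (x - 1)) := by
      rw [Filter.eventually_all]
      exact fun j => hG j i _ (by positivity)
    have hlog1 : ∀ᶠ x in 𝓝[>] (1 : ℝ), 1 ≤ Real.log (1 / (x - 1)) :=
      TatePole.AT.tendsto_log.eventually_ge_atTop _
    filter_upwards [hc0 i, hGi, hlogi i, Ioo_mem_nhdsGT (show (1 : ℝ) < 2 by norm_num), hlog1]
      with x h1 h2 h3 h4 h5
    have hx : 1 < x := h4.1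
    set L := Real.log (1 / (x - 1)) with hL
    have hL0 : 0 ≤ L := zero_le_one.trans h5
    have sA : SMq (fun p => A p ^ 2) x := BS4_bdd bA2 hx
    have sA' : SMq (fun p => A' p ^ 2) x := BS4_bdd bA2' hx
    have sθ : ∀ i, SMq (fun p => θ i p ^ 2) x := fun i => hθ i x hx h4.2.le
    have sθθ : ∀ i j, SMq (fun p => θ i p * θ j p) x := fun i j => BS4_mul (sθ i) (sθ j)
    have e1 : RR (fun p => A p * θ i p) x = RR (fun p => A' p * θ i p) x +
        ∑ j, r j * RR (fun p => θ j p * θ i p) x +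
        RR (fun p => (A p - A' p - ∑ j, r j * θ j p) * θ i p) x := by
      have e2 : RR (fun p => ∑ j, r j * (θ j p * θ i p)) x =
          ∑ j, r j * RR (fun p => θ j p * θ i p) x := by
        rw [BS4_sum (fun j => BS4_cm (r j) (sθθ j i))]
        exact Finset.sum_congr rfl fun j _ => TatePole.RR_const_mul _ _ _
      rw [← e2, ← BS4_add (BS4_mul sA' (sθ i)) (BS4_bsum fun j => BS4_cm (r j) (sθθ j i)),
        ← BS4_add (BS4_badd (BS4_mul sA' (sθ i)) (BS4_bsum fun j => BS4_cm (r j) (sθθ j i)))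
          (hcE i x hx).1]
      refine TatePole.RR_congr (fun p _ => ?_) x
      show A p * θ i p = A' p * θ i p + ∑ j, r j * (θ j p * θ i p) +
        (A p - A' p - ∑ j, r j * θ j p) * θ i p
      have e3 : ∑ j, r j * (θ j p * θ i p) = (∑ j, r j * θ j p) * θ i p := by
        rw [Finset.sum_mul]
        exact Finset.sum_congr rfl fun j _ => by ring
      rw [e3]
      ring
    have e4 : r i * L = ∑ j, r j * (if j = i then L else 0) := by
      simp
    have e5 : |∑ j, r j * RR (fun p => θ j p * θ i p) x - r i * L| ≤ η1 / 2 * L := by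
      rw [e4, ← Finset.sum_sub_distrib]
      refine (Finset.abs_sum_le_sum_abs _ _).trans ?_
      have h6 : ∀ j, |r j * RR (fun p => θ j p * θ i p) x - r j * (if j = i then L else 0)| ≤
          |r j| * (η1 / (2 * (ρ + 1)) * L) := by
        intro j
        rw [← mul_sub, abs_mul]
        exact mul_le_mul_of_nonneg_left (h2 j) (abs_nonneg _)
      refine (Finset.sum_le_sum fun j _ => h6 j).trans ?_
      rw [← Finset.sum_mul]
      have h7 : ρ * (η1 / (2 * (ρ + 1)) * L) = η1 / 2 * L * (ρ / (ρ + 1)) := by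
        field_simp
      rw [h7]
      refine mul_le_of_le_one_right (by positivity) ?_
      rw [div_le_one (by positivity)]
      linarith
    have e6 : |c0 i| + |cE i| ≤ η1 / 2 * L := by
      rw [div_le_iff₀ h11] at h3
      linarith
    have e7 := (abs_le.mp h1)
    have e8 := (abs_le.mp ((hcE i x hx).2))
    have e9 := abs_le.mp e5
    have e10 := le_abs_self (c0 i)
    have e11 := le_abs_self (cE i)
    rw [e1] at e7
    rw [abs_le]
    constructor <;> linarith [e7.1, e7.2, e8.1, e8.2, e9.1, e9.2]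
  have hGG : ∀ᶠ x in 𝓝[>] (1 : ℝ), ∀ i j,
      |RR (fun p => θ i p * θ j p) x - (if i = j then Real.log (1 / (x - 1)) else 0)| ≤
        η2 * Real.log (1 / (x - 1)) := by
    rw [Filter.eventually_all]
    intro i
    rw [Filter.eventually_all]
    exact fun j => hG i j _ h21
  have hlog1 : ∀ᶠ x in 𝓝[>] (1 : ℝ), 1 ≤ Real.log (1 / (x - 1)) :=
    TatePole.AT.tendsto_log.eventually_ge_atTop _
  have hlogK : ∀ᶠ x in 𝓝[>] (1 : ℝ), K ≤ Real.log (1 / (x - 1)) :=
    TatePole.AT.tendsto_log.eventually_ge_atTop _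
  filter_upwards [hK1, hd, Ioo_mem_nhdsGT (show (1 : ℝ) < 2 by norm_num), hGG, hlog1, hlogK]
    with x h1 h2 h3 h4 hL1 hLK
  have hx : 1 < x := h3.1
  set L := Real.log (1 / (x - 1)) with hL
  have hL0 : 0 ≤ L := zero_le_one.trans hL1
  set d : J → ℝ := fun i => Y i x - r i * L with hdd
  set n2 : ℝ := ∑ i, (d i) ^ 2 with hn2
  have hn20 : 0 ≤ n2 := Finset.sum_nonneg fun i _ => sq_nonneg _
  set n : ℝ := Real.sqrt n2 with hn
  have hnn : n ^ 2 = n2 := Real.sq_sqrt hn20
  have hn0' : 0 ≤ n := Real.sqrt_nonneg _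
  have hcn : ∀ i, |d i| ≤ n := by
    intro i
    apply Real.le_sqrt_of_sq_le
    rw [sq_abs]
    exact Finset.single_le_sum (f := fun i => (d i) ^ 2) (fun _ _ => sq_nonneg _)
      (Finset.mem_univ i)
  set q : ℝ := RR (fun p => A' p ^ 2) x with hq
  show n2 ≤ (q + ε * L) * L
  set F : ℕ → ℝ := fun p => ∑ i, d i * θ i p with hF
  have sA : SMq (fun p => A' p ^ 2) x := BS4_bdd bA2' hx
  have sθ : ∀ i, SMq (fun p => θ i p ^ 2) x := fun i => hθ i x hx h3.2.le
  have sθθ : ∀ i j, SMq (fun p => θ i p * θ j p) x := fun i j => BS4_mul (sθ i) (sθ j)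
  have sAθ : ∀ i, SMq (fun p => A' p * θ i p) x := fun i => BS4_mul sA (sθ i)
  have hF2 : ∀ p : ℕ, F p ^ 2 = ∑ i, ∑ j, (d i * d j) * (θ i p * θ j p) := by
    intro p
    show (∑ i, d i * θ i p) ^ 2 = _
    rw [sq, Finset.sum_mul_sum]
    exact Finset.sum_congr rfl fun i _ => Finset.sum_congr rfl fun j _ => by ring
  have sF : SMq (fun p => F p ^ 2) x := by
    have h5 : (fun p => F p ^ 2) = fun p => ∑ i, ∑ j, (d i * d j) * (θ i p * θ j p) := funext hF2
    rw [h5]
    exact BS4_bsum fun i => BS4_bsum fun j => BS4_cm _ (sθθ i j)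
  have e2 : RR (fun p => A' p * F p) x = ∑ i, d i * RR (fun p => A' p * θ i p) x := by
    have e3 : RR (fun p => A' p * F p) x = RR (fun p => ∑ i, d i * (A' p * θ i p)) x := by
      refine TatePole.RR_congr (fun p _ => ?_) x
      rw [hF]
      show A' p * ∑ i, d i * θ i p = _
      rw [Finset.mul_sum]
      exact Finset.sum_congr rfl fun i _ => by ring
    rw [e3, BS4_sum (fun i => BS4_cm (d i) (sAθ i))]
    exact Finset.sum_congr rfl fun i _ => TatePole.RR_const_mul _ _ _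
  have e4 : n2 ≤ RR (fun p => A' p * F p) x + η1 * L * (m * n) := by
    rw [e2]
    have h5 : ∀ i, d i ^ 2 ≤ d i * RR (fun p => A' p * θ i p) x + η1 * L * n := by
      intro i
      have h6 : d i * (d i - RR (fun p => A' p * θ i p) x) ≤ |d i| * (η1 * L) := by
        refine (le_abs_self _).trans ?_
        rw [abs_mul]
        exact mul_le_mul_of_nonneg_left (h2 i) (abs_nonneg _)
      have h7 : |d i| * (η1 * L) ≤ n * (η1 * L) :=
        mul_le_mul_of_nonneg_right (hcn i) (by positivity)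
      have h8 : d i ^ 2 = d i * (d i - RR (fun p => A' p * θ i p) x) +
          d i * RR (fun p => A' p * θ i p) x := by ring
      linarith
    refine (Finset.sum_le_sum fun i _ => h5 i).trans ?_
    rw [Finset.sum_add_distrib, Finset.sum_const, nsmul_eq_mul, Finset.card_univ]
    apply le_of_eq
    rw [hm]
    ring
  -- the squares
  have e5 : q ≤ 2 * D' ^ 2 * L := by
    have h5 := hmean x hx h1
    have h6 : D' ^ 2 * (L + K) ≤ D' ^ 2 * (2 * L) :=
      mul_le_mul_of_nonneg_left (by linarith) (sq_nonneg _)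
    linarith
  have hq0 : 0 ≤ q := by
    rw [hq]
    unfold RR
    exact tsum_nonneg fun p => mul_nonneg (sq_nonneg _) (Real.rpow_nonneg (Nat.cast_nonneg _) _)
  set u : ℝ := L * (1 + m ^ 2 * η2) with hu
  have hupos : 0 < u := by positivity
  have e6 : RR (fun p => F p ^ 2) x ≤ n2 * u := by
    have h5 : RR (fun p => F p ^ 2) x = ∑ i, ∑ j, (d i * d j) * RR (fun p => θ i p * θ j p) x := by
      have h6 : RR (fun p => F p ^ 2) x =
          RR (fun p => ∑ i, ∑ j, (d i * d j) * (θ i p * θ j p)) x := by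
        exact TatePole.RR_congr (fun p _ => hF2 p) x
      rw [h6, BS4_sum (fun i => BS4_bsum fun j => BS4_cm _ (sθθ i j))]
      refine Finset.sum_congr rfl fun i _ => ?_
      rw [BS4_sum (fun j => BS4_cm _ (sθθ i j))]
      exact Finset.sum_congr rfl fun j _ => TatePole.RR_const_mul _ _ _
    rw [h5]
    have h6 : ∀ i j, (d i * d j) * RR (fun p => θ i p * θ j p) x ≤
        (if i = j then (d i) ^ 2 * L else 0) + n2 * (η2 * L) := by
      intro i j
      have h7 := h4 i j
      have h9 : |d i * d j| ≤ n2 := by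
        rw [abs_mul, ← hnn, sq]
        exact mul_le_mul (hcn i) (hcn j) (abs_nonneg _) hn0'
      have h10 : (d i * d j) * (RR (fun p => θ i p * θ j p) x - (if i = j then L else 0)) ≤
          n2 * (η2 * L) := by
        refine (le_abs_self _).trans ?_
        rw [abs_mul]
        exact mul_le_mul h9 h7 (abs_nonneg _) hn20
      by_cases hij : i = j
      · subst hij
        rw [if_pos rfl] at h10 ⊢
        have : d i * d i * L = (d i) ^ 2 * L := by ring
        linarith
      · rw [if_neg hij] at h10 ⊢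
        linarith
    refine (Finset.sum_le_sum fun i _ => Finset.sum_le_sum fun j _ => h6 i j).trans ?_
    have h7 : ∑ i, ∑ j, ((if i = j then (d i) ^ 2 * L else 0) + n2 * (η2 * L)) =
        n2 * L + m * (m * (n2 * (η2 * L))) := by
      have h8 : ∀ i, ∑ j, ((if i = j then (d i) ^ 2 * L else 0) + n2 * (η2 * L)) =
          (d i) ^ 2 * L + m * (n2 * (η2 * L)) := by
        intro i
        rw [Finset.sum_add_distrib, Finset.sum_ite_eq, if_pos (Finset.mem_univ i),
          Finset.sum_const, nsmul_eq_mul, Finset.card_univ]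
      rw [Finset.sum_congr rfl fun i _ => h8 i, Finset.sum_add_distrib, ← Finset.sum_mul,
        Finset.sum_const, nsmul_eq_mul, Finset.card_univ]
    rw [h7, hu]
    apply le_of_eq
    ring
  -- Cauchy-Schwarz
  have e7 : RR (fun p => A' p * F p) x ≤ u / 2 * q + n2 / 2 := by
    have h5 : RR (fun p => A' p * F p) x ≤
        RR (fun p => (u / 2) * A' p ^ 2 + (1 / (2 * u)) * F p ^ 2) x := by
      refine BS4_mono (BS4_mul sA sF) (BS4_badd (BS4_cm _ sA) (BS4_cm _ sF)) (fun p _ => ?_)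
      have h6 : (u / 2) * A' p ^ 2 + (1 / (2 * u)) * F p ^ 2 - A' p * F p =
          (u * A' p - F p) ^ 2 / (2 * u) := by
        field_simp
        ring
      have h7 : 0 ≤ (u * A' p - F p) ^ 2 / (2 * u) := by positivity
      linarith
    rw [BS4_add (BS4_cm _ sA) (BS4_cm _ sF),
      TatePole.RR_const_mul, TatePole.RR_const_mul] at h5
    have h7 : (1 / (2 * u)) * RR (fun p => F p ^ 2) x ≤ (1 / (2 * u)) * (n2 * u) :=
      mul_le_mul_of_nonneg_left e6 (by positivity)
    have h8 : (1 / (2 * u)) * (n2 * u) = n2 / 2 := by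
      field_simp
    linarith
  set b : ℝ := η1 * m * L with hb
  have hb0 : 0 ≤ b := by positivity
  have e8 : n ^ 2 ≤ u * q + 2 * b * n := by
    have h5 : η1 * L * (m * n) = b * n := by rw [hb]; ring
    rw [hnn]
    linarith
  have e12 : u ≤ 2 * L := by
    have h5 : L * (1 + m ^ 2 * η2) ≤ L * (1 + 1) :=
      mul_le_mul_of_nonneg_left (by linarith) hL0
    have h6 : L * (1 + 1) = 2 * L := by ring
    rw [hu, ← h6]
    exact h5
  have e9 : n ≤ N0 * L := by
    have h5 : u * q ≤ (2 * D' * L) ^ 2 := by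
      calc u * q ≤ (2 * L) * q := mul_le_mul_of_nonneg_right e12 hq0
        _ ≤ (2 * L) * (2 * D' ^ 2 * L) := mul_le_mul_of_nonneg_left e5 (by positivity)
        _ = (2 * D' * L) ^ 2 := by ring
    have h6 : (n - b) ^ 2 ≤ (2 * D' * L + b) ^ 2 := by
      have h7 : 0 ≤ 2 * D' * L * b := by positivity
      have h71 : (n - b) ^ 2 = n ^ 2 - 2 * b * n + b ^ 2 := by ring
      have h72 : (2 * D' * L + b) ^ 2 = (2 * D' * L) ^ 2 + 2 * (2 * D' * L * b) + b ^ 2 := by ring
      rw [h71, h72]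
      linarith
    have h8 : n - b ≤ 2 * D' * L + b := by
      apply abs_le_of_sq_le_sq' h6 (by positivity) |>.2
    have h9 : b ≤ m * L := by
      rw [hb]
      have : η1 * (m * L) ≤ 1 * (m * L) := mul_le_mul_of_nonneg_right h12 (by positivity)
      linarith
    have h10 : N0 * L = 2 * D' * L + 2 * (m * L) := by rw [hN0]; ring
    linarith
  have e10 : n ^ 2 ≤ u * q + 2 * b * (N0 * L) := by
    have := mul_le_mul_of_nonneg_left e9 (show 0 ≤ 2 * b by positivity)
    linarith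
  have e11 : u * q ≤ L * q + ε / 2 * L * L := by
    have h5 : u * q = L * q + m ^ 2 * η2 * L * q := by rw [hu]; ring
    have h6 : m ^ 2 * η2 * L * q ≤ m ^ 2 * η2 * L * (2 * D' ^ 2 * L) :=
      mul_le_mul_of_nonneg_left e5 (by positivity)
    have h7 : m ^ 2 * η2 * L * (2 * D' ^ 2 * L) = m ^ 2 * η2 * (2 * D' ^ 2) * (L * L) := by ring
    have h8 := mul_le_mul_of_nonneg_right h23 (show 0 ≤ L * L by positivity)
    linarith
  have e13 : 2 * b * (N0 * L) ≤ ε / 2 * L * L := by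
    have h7 : 2 * b * (N0 * L) = 2 * η1 * m * N0 * (L * L) := by rw [hb]; ring
    have h8 := mul_le_mul_of_nonneg_right h13 (show 0 ≤ L * L by positivity)
    rw [h7]
    linarith
  rw [← hnn]
  linarith

end Pool.Agent.Lib.MP_058a58_ag.MT
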