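import Pool.Agent.Lib.MP_058a58_ag.MT.DStm2

set_option autoImplicit false

/-!
# Piece CCP: the function `cc` and sums over prime powers
-/

namespace Pool.Agent.Lib.MP_058a58_ag.MT

private theorem CCP_eq : (fun q : Nat.Primes × ℕ => (q.1 : ℕ) ^ (q.2 + 1)) =
    (Subtype.val : {n : ℕ // IsPrimePow n} → ℕ) ∘ Nat.Primes.prodNatEquiv := by
  funext q
  obtain ⟨p, k⟩ := q
  rw [Function.comp_apply, Nat.Primes.prodNatEquiv_apply]

private theorem CCP_inj :
    Function.Injective (fun q : Nat.Primes × ℕ => (q.1 : ℕ) ^ (q.2 + 1)) := by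
  rw [CCP_eq]
  exact Subtype.val_injective.comp Nat.Primes.prodNatEquiv.injective

private theorem CCP_range {n : ℕ}
    (hn : n ∉ Set.range (fun q : Nat.Primes × ℕ => (q.1 : ℕ) ^ (q.2 + 1))) : ¬ IsPrimePow n := by
  intro h
  apply hn
  rw [CCP_eq]
  refine ⟨Nat.Primes.prodNatEquiv.symm ⟨n, h⟩, ?_⟩
  rw [Function.comp_apply, Equiv.apply_symm_apply]

theorem p_CCP : S_CCP := by
  refine ⟨?_, ?_, ?_, ?_⟩
  · intro E x y p m hp
    have h1 : (p ^ (m + 1)).minFac = p := hp.pow_minFac (Nat.succ_ne_zero m)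
    have h2 : IsPrimePow (p ^ (m + 1)) := hp.isPrimePow.pow (Nat.succ_ne_zero m)
    have h3 : ex (p ^ (m + 1)) = m + 1 := by
      rw [ex, h1, hp.factorization_pow, Finsupp.single_eq_same]
    rw [cc, h1, h3]
    by_cases hE : p ∈ E
    · rw [if_neg (fun h => h.2 hE), if_pos hE]
    · rw [if_pos ⟨h2, hE⟩, if_neg hE]
      push_cast
      rfl
  · intro E x y n hn
    rw [cc, if_neg (fun h => hn h.1)]
  · intro h hh
    refine ⟨(CCP_inj.summable_iff (f := h) (fun n hn => hh n (CCP_range hn))).symm, ?_⟩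
    exact (CCP_inj.tsum_eq (f := h) (Function.support_subset_iff'.2
      (fun n hn => hh n (CCP_range hn)))).symm
  · intro h hh
    refine ⟨(CCP_inj.summable_iff (f := h) (fun n hn => hh n (CCP_range hn))).symm, ?_⟩
    exact (CCP_inj.tsum_eq (f := h) (Function.support_subset_iff'.2
      (fun n hn => hh n (CCP_range hn)))).symm

end Pool.Agent.Lib.MP_058a58_ag.MT
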