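import Pool.Agent.Lib.MP_058a58_ag.MT.DStm2
import Pool.Agent.Lib.MP_058a58_ag.MT.P.LGF

set_option autoImplicit false

/-!
# Defect form, piece CCS: absolute convergence of the logarithm of the Euler product
-/

open UpperHalfPlane MeasureTheory Filter Topology
open scoped MatrixGroups Modular ComplexConjugate

namespace Pool.Agent.Lib.MP_058a58_ag.MT

theorem CCS_tw {x : ℝ} {α : ℂ} (h0 : α ≠ 0) (hx : α + α⁻¹ = x) (m : ℕ) :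
    ((tw x m : ℝ) : ℂ) = α ^ m + α⁻¹ ^ m ∧
      ((tw x (m + 1) : ℝ) : ℂ) = α ^ (m + 1) + α⁻¹ ^ (m + 1) := by
  have h1 : α * α⁻¹ = 1 := mul_inv_cancel₀ h0
  induction m with
  | zero =>
    constructor
    · simp [tw]
      norm_num
    · rw [zero_add, pow_one, pow_one, hx]
      simp [tw]
  | succ m ih =>
    refine ⟨ih.2, ?_⟩
    have h2 : tw x (m + 1 + 1) = x * tw x (m + 1) - tw x m := rfl
    rw [h2]
    push_cast
    rw [ih.1, ih.2, ← hx]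
    have e1 : α * α⁻¹ ^ (m + 1) = α⁻¹ ^ m := by
      rw [pow_succ, ← mul_assoc, mul_comm α, mul_assoc, h1, mul_one]
    have e2 : α⁻¹ * α ^ (m + 1) = α ^ m := by
      rw [pow_succ, ← mul_assoc, mul_comm α⁻¹, mul_assoc, mul_comm α⁻¹, h1, mul_one]
    linear_combination e1 + e2

theorem CCS_tw_le {x B : ℝ} {α : ℂ} (h : Sat x B α) (m : ℕ) : |tw x m| ≤ 2 * ‖α‖ ^ m := by
  have h0 := (LGF_sat h).1
  have h1 := (CCS_tw h0 h.add m).1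
  have h2 : |tw x m| = ‖((tw x m : ℝ) : ℂ)‖ := by
    rw [Complex.norm_real, Real.norm_eq_abs]
  rw [h2, h1]
  have h3 : ‖α⁻¹ ^ m‖ ≤ ‖α‖ ^ m := by
    rw [norm_pow, norm_inv]
    exact pow_le_pow_left₀ (by positivity) ((inv_le_one_of_one_le₀ h.one_le).trans h.one_le) m
  calc ‖α ^ m + α⁻¹ ^ m‖ ≤ ‖α ^ m‖ + ‖α⁻¹ ^ m‖ := norm_add_le _ _
    _ ≤ ‖α‖ ^ m + ‖α‖ ^ m := add_le_add (norm_pow _ _).le h3
    _ = 2 * ‖α‖ ^ m := by ring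

/-- the bound for one prime -/
theorem CCS_prime {x y : ℝ} {α γ : ℂ} {σ : ℝ} (hσ : 1 < σ) {p : ℕ} (hp : p.Prime)
    (hα : Sat x (Real.sqrt p) α) (hγ : Sat y (Real.sqrt p) γ) (m : ℕ) :
    |tw x (m + 1) * tw y (m + 1) / ((m : ℝ) + 1)| * (((p ^ (m + 1) : ℕ) : ℝ)) ^ (-σ) ≤
      (2 * (x ^ 2 + y ^ 2 + 4) * (p : ℝ) ^ (-σ)) * ((2 : ℝ) ^ (1 - σ)) ^ m := by
  have hp2 : (2 : ℝ) ≤ p := by exact_mod_cast hp.two_le
  have hp0 : (0 : ℝ) < p := by linarith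
  set X : ℝ := (p : ℝ) ^ (-σ) with hX
  have hX0 : 0 < X := Real.rpow_pos_of_pos hp0 _
  have e1 : (((p ^ (m + 1) : ℕ) : ℝ)) ^ (-σ) = X ^ (m + 1) := by
    rw [hX, Nat.cast_pow, ← Real.rpow_natCast, ← Real.rpow_mul hp0.le, mul_comm,
      Real.rpow_mul hp0.le, Real.rpow_natCast]
  rw [e1]
  -- the local quantities
  have key : ∀ (z : ℝ) (β : ℂ), Sat z (Real.sqrt p) β →
      (‖β‖ ^ 2 * X) ^ (m + 1) ≤ ((z ^ 2 + 2) * X) * ((2 : ℝ) ^ (1 - σ)) ^ m := by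
    intro z β hβ
    have h1 : ‖β‖ ^ 2 * X ≤ (z ^ 2 + 2) * X :=
      mul_le_mul_of_nonneg_right (LGF_sat hβ).2 hX0.le
    have h2 : ‖β‖ ^ 2 * X ≤ (2 : ℝ) ^ (1 - σ) := by
      have h3 : ‖β‖ ^ 2 ≤ p := by
        have := pow_le_pow_left₀ (norm_nonneg β) hβ.le 2
        rwa [Real.sq_sqrt hp0.le] at this
      have h4 : (p : ℝ) * X = (p : ℝ) ^ (1 - σ) := by
        rw [hX, sub_eq_add_neg, Real.rpow_add hp0, Real.rpow_one]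
      calc ‖β‖ ^ 2 * X ≤ p * X := mul_le_mul_of_nonneg_right h3 hX0.le
        _ = (p : ℝ) ^ (1 - σ) := h4
        _ ≤ (2 : ℝ) ^ (1 - σ) :=
            Real.rpow_le_rpow_of_nonpos (by norm_num) hp2 (by linarith)
    have h0 : 0 ≤ ‖β‖ ^ 2 * X := by positivity
    calc (‖β‖ ^ 2 * X) ^ (m + 1) = (‖β‖ ^ 2 * X) * (‖β‖ ^ 2 * X) ^ m := by ring
      _ ≤ ((z ^ 2 + 2) * X) * ((2 : ℝ) ^ (1 - σ)) ^ m :=
          mul_le_mul h1 (pow_le_pow_left₀ h0 h2 m) (by positivity) (by positivity)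
  have hx1 := CCS_tw_le hα (m + 1)
  have hy1 := CCS_tw_le hγ (m + 1)
  have hm1 : (1 : ℝ) ≤ (m : ℝ) + 1 := by
    have : (0 : ℝ) ≤ m := Nat.cast_nonneg m
    linarith
  have h5 : |tw x (m + 1) * tw y (m + 1) / ((m : ℝ) + 1)| ≤
      (2 * ‖α‖ ^ (m + 1)) * (2 * ‖γ‖ ^ (m + 1)) := by
    rw [abs_div, abs_mul, abs_of_pos (by linarith : (0 : ℝ) < (m : ℝ) + 1)]
    refine (div_le_self (by positivity) hm1).trans ?_
    exact mul_le_mul hx1 hy1 (abs_nonneg _) (by positivity)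
  have h6 : (2 * ‖α‖ ^ (m + 1)) * (2 * ‖γ‖ ^ (m + 1)) ≤
      2 * (‖α‖ ^ 2) ^ (m + 1) + 2 * (‖γ‖ ^ 2) ^ (m + 1) := by
    have h7 := sq_nonneg (‖α‖ ^ (m + 1) - ‖γ‖ ^ (m + 1))
    have h8 : (‖α‖ ^ 2) ^ (m + 1) = (‖α‖ ^ (m + 1)) ^ 2 := by ring
    have h9 : (‖γ‖ ^ 2) ^ (m + 1) = (‖γ‖ ^ (m + 1)) ^ 2 := by ring
    rw [h8, h9]
    nlinarith
  have hX1 : 0 ≤ X ^ (m + 1) := by positivity
  calc |tw x (m + 1) * tw y (m + 1) / ((m : ℝ) + 1)| * X ^ (m + 1)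
      ≤ (2 * (‖α‖ ^ 2) ^ (m + 1) + 2 * (‖γ‖ ^ 2) ^ (m + 1)) * X ^ (m + 1) :=
        mul_le_mul_of_nonneg_right (h5.trans h6) hX1
    _ = 2 * (‖α‖ ^ 2 * X) ^ (m + 1) + 2 * (‖γ‖ ^ 2 * X) ^ (m + 1) := by
        rw [mul_pow, mul_pow]
        ring
    _ ≤ 2 * (((x ^ 2 + 2) * X) * ((2 : ℝ) ^ (1 - σ)) ^ m) +
        2 * (((y ^ 2 + 2) * X) * ((2 : ℝ) ^ (1 - σ)) ^ m) := by
        have := key x α hα
        have := key y γ hγ
        linarith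
    _ = (2 * (x ^ 2 + y ^ 2 + 4) * X) * ((2 : ℝ) ^ (1 - σ)) ^ m := by ring

theorem p_CCS : S_CCS := by
  intro hccp N N' k k' a b E ha hb hE σ hσ
  obtain ⟨hcp, hcz, _, hsum⟩ := hccp
  have hz : ∀ n, ¬ IsPrimePow n →
      |cc E (lam k a) (lam k' b) n| * (n : ℝ) ^ (-σ) = 0 := by
    intro n hn
    rw [hcz E _ _ n hn, abs_zero, zero_mul]
  rw [(hsum (fun n : ℕ => |cc E (lam k a) (lam k' b) n| * (n : ℝ) ^ (-σ)) hz).1]
  have hρ0 : (0 : ℝ) ≤ (2 : ℝ) ^ (1 - σ) := by positivity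
  have hρ1 : (2 : ℝ) ^ (1 - σ) < 1 := Real.rpow_lt_one_of_one_lt_of_neg (by norm_num) (by linarith)
  have hinj : Function.Injective (fun p : Nat.Primes => (p : ℕ)) := Nat.Primes.coe_nat_injective
  have s1 : Summable (fun p : Nat.Primes => lam k a p ^ 2 * ((p : ℕ) : ℝ) ^ (-σ)) :=
    (ha.sq σ hσ).comp_injective hinj
  have s2 : Summable (fun p : Nat.Primes => lam k' b p ^ 2 * ((p : ℕ) : ℝ) ^ (-σ)) :=
    (hb.sq σ hσ).comp_injective hinj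
  have s3 : Summable (fun p : Nat.Primes => ((p : ℕ) : ℝ) ^ (-σ)) :=
    (Real.summable_nat_rpow.2 (by linarith)).comp_injective hinj
  have s4 : Summable (fun p : Nat.Primes =>
      2 * (lam k a p ^ 2 + lam k' b p ^ 2 + 4) * ((p : ℕ) : ℝ) ^ (-σ)) := by
    have := ((s1.add s2).add (s3.mul_left 4)).mul_left 2
    refine this.congr fun p => ?_
    ring
  have s5 : Summable (fun m : ℕ => ((2 : ℝ) ^ (1 - σ)) ^ m) :=
    summable_geometric_of_lt_one hρ0 hρ1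
  have s6 := s4.mul_of_nonneg s5 (fun p => by positivity) (fun m => by positivity)
  refine Summable.of_nonneg_of_le (fun q => by positivity) ?_ s6
  rintro ⟨p, m⟩
  change |cc E (lam k a) (lam k' b) ((p : ℕ) ^ (m + 1))| * (((p : ℕ) ^ (m + 1) : ℕ) : ℝ) ^ (-σ) ≤
    2 * (lam k a p ^ 2 + lam k' b p ^ 2 + 4) * ((p : ℕ) : ℝ) ^ (-σ) * ((2 : ℝ) ^ (1 - σ)) ^ m
  rw [hcp E _ _ (p : ℕ) m p.2]
  split_ifs with hpE
  · rw [abs_zero, zero_mul]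
    positivity
  · have hpN : ¬ (p : ℕ) ∣ N := fun h => hpE (hE _ p.2 (h.mul_right _))
    have hpN' : ¬ (p : ℕ) ∣ N' := fun h => hpE (hE _ p.2 (h.mul_left _))
    obtain ⟨α, hα⟩ := ha.sat _ p.2 hpN
    obtain ⟨γ, hγ⟩ := hb.sat _ p.2 hpN'
    exact CCS_prime hσ p.2 hα hγ m

end Pool.Agent.Lib.MP_058a58_ag.MT
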