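import Pool.Agent.Lib.MP_058a58_ag.MT.DStm2

set_option autoImplicit false

/-! # [MD CND] the diagonal (helper40) -/

open UpperHalfPlane MeasureTheory Filter Topology
open scoped MatrixGroups Modular

namespace Pool.Agent.Lib.MP_058a58_ag.MT

theorem CND_isQ_zero (k : ℕ) : IsQ k (fun _ => 0) (fun _ => 0) where
  cont := continuous_const
  bdd := ⟨0, fun z => by simp⟩
  zero := rfl
  sum := fun z => by
    simp

theorem CND_Fl_zero (k k' : ℕ) (z : ℍ) : Fl k k' (fun _ => 0) (fun _ => 0) z = 0 := by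
  unfold Fl
  simp

theorem CND_term (k : ℕ) (a : ℕ → ℝ) (h0 : a 0 = 0) (s : ℂ) (n : ℕ) :
    ((a n * a n - 0 * 0 : ℝ) : ℂ) * (n : ℂ) ^ (-(s + ((((k : ℝ) + k) / 2 : ℝ) : ℂ) - 1)) =
      ((lam k a n * lam k a n : ℝ) : ℂ) * (n : ℂ) ^ (-s) := by
  rcases Nat.eq_zero_or_pos n with rfl | hn
  · simp [lam, h0]
  · have hn0 : (0 : ℝ) < n := by exact_mod_cast hn
    have hnc : (n : ℂ) ≠ 0 := by exact_mod_cast hn.ne'
    have h1 : lam k a n * lam k a n = a n * a n * (n : ℝ) ^ (-((k : ℝ) - 1)) := by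
      unfold lam
      rw [Real.rpow_neg hn0.le]
      have h2 : (n : ℝ) ^ ((k : ℝ) - 1) = (n : ℝ) ^ (((k : ℝ) - 1) / 2) *
          (n : ℝ) ^ (((k : ℝ) - 1) / 2) := by
        rw [← Real.rpow_add hn0]
        congr 1
        ring
      rw [h2]
      have h3 : (n : ℝ) ^ (((k : ℝ) - 1) / 2) ≠ 0 := (Real.rpow_pos_of_pos hn0 _).ne'
      field_simp
    have h4 : -(s + ((((k : ℝ) + k) / 2 : ℝ) : ℂ) - 1) = (((-((k : ℝ) - 1) : ℝ)) : ℂ) + -s := by
      push_cast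
      ring
    rw [h1, h4, Complex.cpow_add _ _ hnc]
    have h5 : ((n : ℂ)) ^ (((-((k : ℝ) - 1) : ℝ)) : ℂ) = (((n : ℝ) ^ (-((k : ℝ) - 1)) : ℝ) : ℂ) := by
      rw [Complex.ofReal_cpow hn0.le]
      norm_cast
    rw [h5]
    push_cast
    ring

theorem p_CND : S_CND := by
  intro hCONT hPW hHL hPOS N k f a hN hk hf hH
  obtain ⟨R, w, hw⟩ := hPW (2 * (N * N)) (by nlinarith [Nat.mul_pos hN hN])
  obtain ⟨hc, ⟨C, hC⟩, hm⟩ := hHL N N k 0 f f a a hf hf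
  have hdvd : N ∣ 2 * (N * N) := ⟨2 * N, by ring⟩
  have hM1 : 1 ≤ 2 * (N * N) := by nlinarith [Nat.mul_pos hN hN]
  have hM2 : 2 ≤ 2 * (N * N) := by nlinarith [Nat.mul_pos hN hN]
  obtain ⟨r, hr, hint⟩ := hPOS N (2 * (N * N)) k f a R w hN hdvd hM1 hf hH.one hw
  have hF : ∀ z : ℍ, Fl k k f f z - Fl k k (fun _ => 0) (fun _ => 0) z = Fl k k f f z := by
    intro z
    rw [CND_Fl_zero, sub_zero]
  obtain ⟨ρ, G, hρ, hG, hs⟩ := hCONT (2 * (N * N)) 0 k k f f (fun _ => 0) (fun _ => 0) a a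
    (fun _ => 0) (fun _ => 0) R w hM2 hk hk hf.toIsQ hf.toIsQ (CND_isQ_zero k) (CND_isQ_zero k) hw
    (by
      simp only [hF]
      exact hc)
    ⟨C, fun z => by
      rw [hF]
      exact hC z⟩
    (by
      intro γ hγ z
      rw [hF, hF]
      refine hm γ ?_ z
      rw [CongruenceSubgroup.Gamma0_mem] at hγ ⊢
      have h1 : ((2 * (N * N) : ℕ) : ℤ) ∣ γ 1 0 := (ZMod.intCast_zmod_eq_zero_iff_dvd _ _).1 hγ
      refine (ZMod.intCast_zmod_eq_zero_iff_dvd _ _).2 (dvd_trans ?_ h1)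
      exact_mod_cast (Dvd.intro_left 2 rfl : N * N ∣ 2 * (N * N)))
  refine ⟨2 * (N * N), ρ * r, G, hM1, mul_pos hρ hr, hG, ?_⟩
  intro s hs1
  have h1 := hs s hs1
  have h2 : DQ (((k : ℝ) + k) / 2) (fun n => a n * a n - (fun _ => (0 : ℝ)) n *
      (fun _ => (0 : ℝ)) n) s = DDc k k a a s := by
    unfold DQ DDc
    exact tsum_congr fun n => CND_term k a hH.zero s n
  rw [h2, if_pos rfl] at h1
  have h3 : (∫ z, (w z : ℂ) * (Fl k k f f z - Fl k k (fun _ => 0) (fun _ => 0) z)) = (r : ℂ) := by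
    simp only [hF]
    exact hint
  rw [h3] at h1
  rw [h1]
  push_cast
  ring

end Pool.Agent.Lib.MP_058a58_ag.MT
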