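import Pool.Agent.Lib.MP_058a58_ag.MT.DStm2

set_option autoImplicit false

/-!
# Piece CNE: continuation for equal weights and different eigenvalues at one prime
-/

open UpperHalfPlane MeasureTheory Filter Topology
open scoped MatrixGroups Modular ComplexConjugate

namespace Pool.Agent.Lib.MP_058a58_ag.MT

theorem CNE_F (p : ℕ) (hp : 0 < p) (k : ℕ) (f g : ℍ → ℂ) (z : ℍ) :
    Fl k k (fun z => f (dil p hp z)) g z - Fl k k f (fun z => g (dil p hp z)) z =
      Fp p hp k f g z := by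
  have h1 : ((k : ℝ) + k) / 2 = (k : ℝ) := by ring
  have h2 : ((z.im ^ (((k : ℝ) + k) / 2) : ℝ) : ℂ) = (z.im : ℂ) ^ k := by
    rw [h1, Real.rpow_natCast]
    push_cast
    ring
  simp only [Fl, Fp]
  rw [h2]
  ring

theorem CNE_DD {k : ℕ} {a b : ℕ → ℝ} (ha : a 0 = 0) (s : ℂ) :
    DDc k k a b s = ∑' n : ℕ, ((a n * b n : ℝ) : ℂ) * (n : ℂ) ^ (-(s + k - 1)) := by
  unfold DDc
  apply tsum_congr
  intro n
  rcases Nat.eq_zero_or_pos n with rfl | hn
  · simp [lam, ha]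
  · have hn0 : (0 : ℝ) < n := by exact_mod_cast hn
    have hnc : (n : ℂ) ≠ 0 := by
      exact_mod_cast hn.ne'
    have h2 : (n : ℝ) ^ (((k : ℝ) - 1) / 2) ≠ 0 := (Real.rpow_pos_of_pos hn0 _).ne'
    have h3 : (n : ℝ) ^ (((k : ℝ) - 1) / 2) * (n : ℝ) ^ (((k : ℝ) - 1) / 2) =
        (n : ℝ) ^ ((k : ℝ) - 1) := by
      rw [← Real.rpow_add hn0]
      congr 1
      ring
    have h4 : (((n : ℝ) ^ ((k : ℝ) - 1) : ℝ) : ℂ) = (n : ℂ) ^ ((k : ℂ) - 1) := by
      rw [Complex.ofReal_cpow hn0.le]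
      push_cast
      rfl
    have h5 : (n : ℂ) ^ (-s) = (n : ℂ) ^ (-(s + k - 1)) * (n : ℂ) ^ ((k : ℂ) - 1) := by
      rw [← Complex.cpow_add _ _ hnc]
      congr 1
      ring
    have h6 : lam k a n * lam k b n * (n : ℝ) ^ ((k : ℝ) - 1) = a n * b n := by
      simp only [lam]
      rw [← h3]
      field_simp
    rw [h5, ← h4, ← h6]
    push_cast
    ring

theorem CNE_sum {k : ℕ} {f : ℍ → ℂ} {a : ℕ → ℝ} (hMS : R_MS) (hk : 2 ≤ k) (hf : IsQ k f a)
    (s : ℂ) (hs : 1 < s.re) :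
    Summable (fun n : ℕ => a n ^ 2 * (n : ℝ) ^ (-(s + k - 1 : ℂ).re)) := by
  obtain ⟨C, _, hM⟩ := hMS k f a hk hf
  have hre : (s + k - 1 : ℂ).re = s.re + k - 1 := by simp
  rw [hre]
  rcases le_or_gt s.re 2 with h2 | h2
  · exact (hM s.re hs h2).1
  · refine Summable.of_nonneg_of_le (fun n => by positivity) (fun n => ?_)
      (hM 2 (by norm_num) le_rfl).1
    rcases Nat.eq_zero_or_pos n with rfl | hn
    · rw [hf.zero]
      simp
    · have hn1 : (1 : ℝ) ≤ n := by exact_mod_cast hn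
      refine mul_le_mul_of_nonneg_left ?_ (sq_nonneg _)
      exact Real.rpow_le_rpow_of_exponent_le hn1 (by linarith)

theorem p_CNE : S_CNE := by
  intro hCONT hPW hUP hHI hOR hHR hMS N N' k f g a b hP hex
  obtain ⟨p, hpp, hpN, hab⟩ := hex
  have hp : 0 < p := hpp.pos
  obtain ⟨hcont, hbd, hinv⟩ := hHI hUP N N' k p hp f g a b hP.hf hP.hg
  have hM2 : 2 ≤ N * N' * p := by
    have h1 : 1 ≤ N * N' := Nat.mul_pos hP.hN hP.hN'
    have h2 := hpp.two_le
    calc 2 = 1 * 2 := by norm_num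
      _ ≤ N * N' * p := Nat.mul_le_mul h1 h2
  have hM : 1 ≤ N * N' * p := by omega
  obtain ⟨R, w, hw⟩ := hPW (N * N' * p) hM
  have hFF : (fun z : ℍ => Fl k k (fun z => f (dil p hp z)) g z -
      Fl k k f (fun z => g (dil p hp z)) z) = Fp p hp k f g := by
    funext z
    exact CNE_F p hp k f g z
  have hor := hOR N N' k p hp f g a b R w hpp hP.hN hP.hN' hpN hP.hf hP.hg hw
  obtain ⟨ρ, G, -, hG, hGs⟩ := hCONT (N * N' * p) 0 k k (fun z => f (dil p hp z)) g f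
    (fun z => g (dil p hp z)) (upc p a) b a (upc p b) R w hM2 hP.hk hP.hk
    (hUP k p hp f a hP.hf.toIsQ) hP.hg.toIsQ hP.hf.toIsQ (hUP k p hp g b hP.hg.toIsQ) hw
    (by rw [hFF]; exact hcont)
    (by
      obtain ⟨C, hC⟩ := hbd
      refine ⟨C, fun z => ?_⟩
      rw [CNE_F]
      exact hC z)
    (by
      intro γ hγ z
      rw [pow_zero, one_mul, CNE_F, CNE_F]
      exact hinv γ hγ z)
  have hint : ∫ z, (w z : ℂ) * (Fl k k (fun z => f (dil p hp z)) g z -
      Fl k k f (fun z => g (dil p hp z)) z) = 0 := by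
    have h2 : (fun z : ℍ => (w z : ℂ) * (Fl k k (fun z => f (dil p hp z)) g z -
        Fl k k f (fun z => g (dil p hp z)) z)) = fun z : ℍ => (w z : ℂ) * Fp p hp k f g z := by
      funext z
      rw [CNE_F]
    rw [h2]
    exact hor
  have hd : ((b p - a p : ℝ) : ℂ) ≠ 0 := by
    rw [Ne, Complex.ofReal_eq_zero]
    exact sub_ne_zero.mpr hab.symm
  have hpc : (p : ℂ) ≠ 0 := by exact_mod_cast hpp.ne_zero
  refine ⟨N * N' * p, fun s => (((p : ℂ) ^ (s + k - 1) - (p : ℂ) ^ (k - 1)) /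
    ((b p - a p : ℝ) : ℂ)) * G s, hM, ?_, ?_⟩
  · refine DifferentiableOn.mul ?_ hG
    refine DifferentiableOn.div_const ?_ _
    refine DifferentiableOn.sub_const ?_ _
    intro s _
    refine DifferentiableAt.differentiableWithinAt ?_
    refine DifferentiableAt.const_cpow ?_ (Or.inl hpc)
    fun_prop
  · intro s hs
    have h1 := hGs s hs
    rw [hint, mul_zero, zero_div, if_pos rfl, add_zero] at h1
    have h2 := hHR N N' k p a b (s + k - 1) hP.ha hP.hb hpp hpN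
      (CNE_sum hMS hP.hk hP.hf.toIsQ s hs) (CNE_sum hMS hP.hk hP.hg.toIsQ s hs)
    rw [← CNE_DD hP.ha.zero s] at h2
    have h3 : DQ (((k : ℝ) + k) / 2) (fun n => upc p a n * b n - a n * upc p b n) s =
        ∑' n : ℕ, ((upc p a n * b n - a n * upc p b n : ℝ) : ℂ) * (n : ℂ) ^ (-(s + k - 1)) := by
      unfold DQ
      have h4 : ((((k : ℝ) + k) / 2 : ℝ) : ℂ) = (k : ℂ) := by
        push_cast
        ring
      rw [h4]
    rw [← h3] at h2
    show (((p : ℂ) ^ (s + k - 1) - (p : ℂ) ^ (k - 1)) / ((b p - a p : ℝ) : ℂ)) * G s = _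
    rw [← h1]
    have h5 : DDc k k a b s = ((p : ℂ) ^ (s + k - 1) - (p : ℂ) ^ (k - 1)) *
        DQ (((k : ℝ) + k) / 2) (fun n => upc p a n * b n - a n * upc p b n) s /
          ((b p - a p : ℝ) : ℂ) := by
      rw [eq_div_iff hd, ← h2]
      ring
    rw [h5]
    ring

end Pool.Agent.Lib.MP_058a58_ag.MT
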