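import Pool.Agent.Lib.MP_058a58_ag.MT.DStm2

set_option autoImplicit false

/-!
# Defect form: different weights
-/

open UpperHalfPlane MeasureTheory Filter Topology
open scoped MatrixGroups Modular ComplexConjugate

namespace Pool.Agent.Lib.MP_058a58_ag.MT

private theorem CNL_zero (k : ℕ) : IsQ k (fun _ => (0 : ℂ)) (fun _ => (0 : ℝ)) where
  cont := continuous_const
  bdd := ⟨0, fun z => by simp⟩
  zero := rfl
  sum := fun z => by
    simp only [Complex.ofReal_zero, zero_mul]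
    exact hasSum_zero

/-- the normalised coefficient as a complex number -/
theorem CNL_lam (k : ℕ) (a : ℕ → ℝ) (n : ℕ) (hn : 0 < n) :
    ((lam k a n : ℝ) : ℂ) = (a n : ℂ) * (n : ℂ) ^ (-(((k : ℂ) - 1) / 2)) := by
  have hn' : (0 : ℝ) < n := by exact_mod_cast hn
  have e1 : lam k a n = a n * (n : ℝ) ^ (-(((k : ℝ) - 1) / 2)) := by
    rw [lam, Real.rpow_neg hn'.le, ← div_eq_mul_inv]
  rw [e1, Complex.ofReal_mul, Complex.ofReal_cpow hn'.le]
  push_cast
  rfl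

/-- the terms of the Dirichlet series `DDc` and `DQ` -/
theorem CNL_term (k k' : ℕ) (a b c : ℕ → ℝ) (hc : ∀ n, c n = a n * b n) (ha : a 0 = 0)
    (s : ℂ) (n : ℕ) :
    ((lam k a n * lam k' b n : ℝ) : ℂ) * (n : ℂ) ^ (-s) =
      (c n : ℂ) * (n : ℂ) ^ (-(s + ((((k : ℝ) + k') / 2 : ℝ) : ℂ) - 1)) := by
  rcases Nat.eq_zero_or_pos n with h | h
  · subst h
    simp [lam, ha, hc]
  · have hn : (n : ℂ) ≠ 0 := Nat.cast_ne_zero.2 h.ne'
    rw [Complex.ofReal_mul, CNL_lam k a n h, CNL_lam k' b n h, hc, Complex.ofReal_mul]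
    have e : -(s + ((((k : ℝ) + k') / 2 : ℝ) : ℂ) - 1) =
        -(((k : ℂ) - 1) / 2) + (-(((k' : ℂ) - 1) / 2)) + (-s) := by
      push_cast
      ring
    rw [e, Complex.cpow_add _ _ hn, Complex.cpow_add _ _ hn]
    ring

/-- `DQ` for the products of the coefficients is `DDc` -/
theorem CNL_DQ (k k' : ℕ) (a b c : ℕ → ℝ) (hc : ∀ n, c n = a n * b n) (ha : a 0 = 0) (s : ℂ) :
    DQ (((k : ℝ) + k') / 2) c s = DDc k k' a b s := by
  unfold DQ DDc
  exact tsum_congr fun n => (CNL_term k k' a b c hc ha s n).symm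

theorem CNL_mem {N M : ℕ} (h : N ∣ M) {γ : SL(2, ℤ)}
    (hγ : γ ∈ CongruenceSubgroup.Gamma0 M) : γ ∈ CongruenceSubgroup.Gamma0 N := by
  rw [CongruenceSubgroup.Gamma0_mem, ZMod.intCast_zmod_eq_zero_iff_dvd] at hγ ⊢
  exact dvd_trans (by exact_mod_cast h) hγ

theorem p_CNL : S_CNL := by
  intro hCONT hPW hHL N N' k' l f g a b hP hl
  have hNN : 1 ≤ N * N' := Nat.one_le_iff_ne_zero.2
    (Nat.mul_ne_zero (Nat.one_le_iff_ne_zero.1 hP.hN) (Nat.one_le_iff_ne_zero.1 hP.hN'))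
  have hM : 2 ≤ 2 * (N * N') := by omega
  obtain ⟨R, w, hw⟩ := hPW (2 * (N * N')) (by omega)
  obtain ⟨hc, hb, hmod⟩ := hHL N N' k' l f g a b hP.hf hP.hg
  have hFl : ∀ z : ℍ, Fl (k' + l) k' (fun _ => (0 : ℂ)) (fun _ => (0 : ℂ)) z = 0 := by
    intro z
    simp [Fl]
  obtain ⟨ρ, G, -, hG, h⟩ := hCONT (2 * (N * N')) l (k' + l) k' f g (fun _ => 0) (fun _ => 0) a b
    (fun _ => 0) (fun _ => 0) R w hM hP.hk hP.hk' hP.hf.toIsQ hP.hg.toIsQ (CNL_zero _) (CNL_zero _)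
    hw (by simpa only [hFl, sub_zero] using hc) (by simpa only [hFl, sub_zero] using hb) (by
      intro γ hγ z
      simp only [hFl, sub_zero]
      exact hmod γ (CNL_mem (Dvd.intro_left 2 rfl) hγ) z)
  refine ⟨2 * (N * N'), G, by omega, hG, fun s hs => ?_⟩
  have h1 := h s hs
  rw [if_neg (by omega), add_zero] at h1
  rw [← h1, CNL_DQ (k' + l) k' a b _ (fun n => by simp) hP.hf.zero s]

end Pool.Agent.Lib.MP_058a58_ag.MT
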