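import Pool.Agent.Lib.MP_058a58_ag.MT.DStm

set_option autoImplicit false

/-!
# Defect form, CON0: continuation of a Mellin transform
-/

open UpperHalfPlane MeasureTheory Filter Topology Asymptotics
open scoped MatrixGroups Modular ComplexConjugate

namespace Pool.Agent.Lib.MP_058a58_ag.MT

/-- The function `T ^ (-1)` on `(0, 1]`. -/
private noncomputable def CON0_psi : ℝ → ℂ :=
  Set.indicator (Set.Ioc 0 1) (fun t : ℝ => (t : ℂ) ^ (-1 : ℂ))

private lemma CON0_psi_loc : LocallyIntegrableOn CON0_psi (Set.Ioi 0) := by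
  have h : LocallyIntegrableOn (fun t : ℝ => (t : ℂ) ^ (-1 : ℂ)) (Set.Ioi 0) := by
    apply ContinuousOn.locallyIntegrableOn _ measurableSet_Ioi
    intro t ht
    apply ContinuousAt.continuousWithinAt
    apply ContinuousAt.comp (f := fun t : ℝ => (t : ℂ)) (g := fun z : ℂ => z ^ (-1 : ℂ))
    · exact continuousAt_cpow_const (Or.inl (by simpa using ht))
    · exact Complex.continuous_ofReal.continuousAt
  intro t ht
  obtain ⟨u, hu, hi⟩ := h t ht
  exact ⟨u, hu, hi.indicator measurableSet_Ioc⟩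

/-- **CON0.** Continuation of a Mellin transform. -/
theorem p_CON0 : S_CON0 := by
  intro Φ c hloc htop hbot
  set Φ₁ : ℝ → ℂ := fun T => Φ T - c • CON0_psi T with hΦ₁
  have hloc₁ : LocallyIntegrableOn Φ₁ (Set.Ioi 0) := by
    intro t ht
    obtain ⟨u, hu, hi⟩ := hloc t ht
    obtain ⟨v, hv, hj⟩ := CON0_psi_loc t ht
    exact ⟨u ∩ v, Filter.inter_mem hu hv, (hi.mono_set Set.inter_subset_left).sub
      ((hj.mono_set Set.inter_subset_right).smul c)⟩
  have htop₁ : ∀ a : ℝ, Φ₁ =O[atTop] (fun T : ℝ => T ^ (-a)) := by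
    intro a
    obtain ⟨C, hC⟩ := htop a
    refine IsBigO.of_bound C ?_
    filter_upwards [eventually_gt_atTop 1] with T hT
    have h1 : CON0_psi T = 0 := Set.indicator_of_notMem (by simp [hT]) _
    have h2 : (0 : ℝ) ≤ T ^ (-a) := Real.rpow_nonneg (by linarith) _
    simp only [hΦ₁, h1, smul_zero, sub_zero]
    rw [Real.norm_of_nonneg h2]
    exact hC T hT.le
  have hbot₁ : Φ₁ =O[𝓝[>] 0] (fun T : ℝ => T ^ (-(1 / 4 : ℝ))) := by
    obtain ⟨C, hC⟩ := hbot
    refine IsBigO.of_bound C ?_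
    have h0 : Set.Ioc (0 : ℝ) 1 ∈ 𝓝[>] (0 : ℝ) := Ioc_mem_nhdsGT one_pos
    filter_upwards [h0] with T hT
    have h1 : CON0_psi T = (T : ℂ)⁻¹ := by
      rw [CON0_psi, Set.indicator_of_mem hT, Complex.cpow_neg_one]
    have h2 : (0 : ℝ) ≤ T ^ (-(1 / 4 : ℝ)) := Real.rpow_nonneg hT.1.le _
    rw [Real.norm_of_nonneg h2]
    have h3 := hC T hT.1 hT.2
    simpa only [hΦ₁, h1, smul_eq_mul, ← div_eq_mul_inv] using h3
  refine ⟨mellin Φ₁, ?_, ?_⟩
  · intro s hs
    exact (mellin_differentiableAt_of_isBigO_rpow hloc₁ (htop₁ (s.re + 1)) (by linarith)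
      hbot₁ hs).differentiableWithinAt
  · intro s hs
    have hc₁ : MellinConvergent Φ₁ s :=
      mellinConvergent_of_isBigO_rpow hloc₁ (htop₁ (s.re + 1)) (by linarith) hbot₁
        (by linarith)
    have hψ : HasMellin CON0_psi s (1 / (s + (-1))) :=
      hasMellin_cpow_Ioc (-1) (by simpa using hs)
    have hψc := hψ.1.const_smul c
    have hsum := (hasMellin_add hc₁ hψc).2
    have he : (fun t => Φ₁ t + c • CON0_psi t) = Φ := by
      funext t
      simp [hΦ₁]
    rw [he] at hsum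
    rw [hsum, mellin_const_smul, hψ.2, smul_eq_mul, mul_one_div, ← sub_eq_add_neg]

end Pool.Agent.Lib.MP_058a58_ag.MT
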