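import Pool.Agent.Lib.MP_058a58_ag.MT.P.CMP
import Pool.Agent.Lib.MP_058a58_ag.MT.DStm

set_option autoImplicit false

open UpperHalfPlane MeasureTheory Filter Topology
open scoped MatrixGroups Modular ComplexConjugate

namespace Pool.Agent.Lib.MP_058a58_ag.MT

/-- the entire factor -/
noncomputable def CONT_e (l : ℕ) (K : ℝ) (s : ℂ) : ℂ :=
  (Real.pi : ℂ) ^ (s + l / 2) * (4 * Real.pi : ℂ) ^ (s + K - 1) * (Complex.Gamma (s + l / 2))⁻¹ *
    (Complex.Gamma (s + K - 1))⁻¹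

theorem CONT_e_diff (l : ℕ) (K : ℝ) : Differentiable ℂ (CONT_e l K) := by
  have hpi : (Real.pi : ℂ) ≠ 0 := by exact_mod_cast Real.pi_ne_zero
  have hpi4 : (4 * Real.pi : ℂ) ≠ 0 := mul_ne_zero (by norm_num) hpi
  have d1 : Differentiable ℂ (fun s : ℂ => s + l / 2) := differentiable_id.add_const _
  have d2 : Differentiable ℂ (fun s : ℂ => s + K - 1) := (differentiable_id.add_const _).sub_const _
  unfold CONT_e
  refine Differentiable.mul (Differentiable.mul (Differentiable.mul ?_ ?_) ?_) ?_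
  · exact d1.const_cpow (Or.inl hpi)
  · exact d2.const_cpow (Or.inl hpi4)
  · exact Complex.differentiable_one_div_Gamma.comp d1
  · exact Complex.differentiable_one_div_Gamma.comp d2

theorem CONT_e_mul (l : ℕ) (K : ℝ) (hK : 2 ≤ K) (s : ℂ) (hs : 1 < s.re) (z D : ℂ) :
    CONT_e l K s * (Complex.Gamma (s + l / 2) * (Real.pi : ℂ) ^ (-(s + l / 2)) * z *
      Complex.Gamma (s + K - 1) * (4 * Real.pi : ℂ) ^ (-(s + K - 1)) * D) = z * D := by
  have hpi : (Real.pi : ℂ) ≠ 0 := by exact_mod_cast Real.pi_ne_zero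
  have hpi4 : (4 * Real.pi : ℂ) ≠ 0 := mul_ne_zero (by norm_num) hpi
  have h1 : Complex.Gamma (s + l / 2) ≠ 0 := by
    refine Complex.Gamma_ne_zero_of_re_pos ?_
    have : (0 : ℝ) ≤ l := Nat.cast_nonneg l
    have e : (s + l / 2 : ℂ).re = s.re + l / 2 := by
      rw [Complex.add_re]
      congr 1
      have : ((l : ℂ) / 2) = (((l : ℝ) / 2 : ℝ) : ℂ) := by push_cast; ring
      rw [this, Complex.ofReal_re]
    rw [e]
    linarith
  have h2 : Complex.Gamma (s + K - 1) ≠ 0 := by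
    refine Complex.Gamma_ne_zero_of_re_pos ?_
    rw [Complex.sub_re, Complex.add_re, Complex.ofReal_re, Complex.one_re]
    linarith
  have h3 : (Real.pi : ℂ) ^ (s + l / 2) ≠ 0 := by simp [Complex.cpow_eq_zero_iff, hpi]
  have h4 : (4 * Real.pi : ℂ) ^ (s + K - 1) ≠ 0 := by
    rw [Ne, Complex.cpow_eq_zero_iff]
    exact fun h => hpi4 h.1
  unfold CONT_e
  rw [Complex.cpow_neg, Complex.cpow_neg]
  generalize Complex.Gamma (s + l / 2) = g1 at h1 ⊢
  generalize Complex.Gamma (s + K - 1) = g2 at h2 ⊢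
  field_simp

theorem CONT_e_one (K : ℝ) (hK : 2 ≤ K) : ∃ r : ℝ, 0 < r ∧ CONT_e 0 K 1 = r := by
  refine ⟨Real.pi * (4 * Real.pi) ^ K * (Real.Gamma K)⁻¹, ?_, ?_⟩
  · have h1 : 0 < Real.Gamma K := Real.Gamma_pos_of_pos (by linarith)
    have h2 : 0 < Real.pi := Real.pi_pos
    positivity
  · unfold CONT_e
    have e1 : (1 : ℂ) + ((0 : ℕ) : ℂ) / 2 = 1 := by simp
    have e2 : (1 : ℂ) + K - 1 = K := by ring
    rw [e1, e2, Complex.cpow_one, Complex.Gamma_one, inv_one, mul_one]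
    push_cast
    rw [Complex.Gamma_ofReal, ← Complex.ofReal_inv]
    rw [Complex.ofReal_cpow (by positivity)]
    push_cast
    ring

theorem CONT_summ (hMS : R_MS) {k k' : ℕ} {f g : ℍ → ℂ} {a b : ℕ → ℝ} (hk : 2 ≤ k) (hk' : 2 ≤ k')
    (hf : IsQ k f a) (hg : IsQ k' g b) {s : ℝ} (h1 : 1 < s) :
    Summable (fun n : ℕ => |a n * b n| * (n : ℝ) ^ (-(s + ((k : ℝ) + k') / 2 - 1))) := by
  by_cases h2 : s ≤ 2
  · exact CMP_summ hMS hk hk' hf hg h1 h2
  · have h3 := CMP_summ hMS hk hk' hf hg (s := 2) (by norm_num) le_rfl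
    refine Summable.of_nonneg_of_le (fun n => ?_) (fun n => ?_) h3
    · have := Real.rpow_nonneg (Nat.cast_nonneg n : (0 : ℝ) ≤ n) (-(s + ((k : ℝ) + k') / 2 - 1))
      positivity
    · rcases Nat.eq_zero_or_pos n with rfl | hn
      · rw [hf.zero, zero_mul, abs_zero, zero_mul, zero_mul]
      · refine mul_le_mul_of_nonneg_left ?_ (abs_nonneg _)
        exact Real.rpow_le_rpow_of_exponent_le (by exact_mod_cast hn) (by linarith)

theorem CONT_pair (hGHT : R_GHT) (hFC : R_FC) {M l k k' : ℕ} {f g : ℍ → ℂ} {a b : ℕ → ℝ}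
    (hM : 1 ≤ M) (hf : IsQ k f a) (hg : IsQ k' g b) {T : ℝ} (hT : 0 < T) :
    Summable (fun n : ℕ => a n * b n * IG (((k : ℝ) + k') / 2) (ug M l T) n) ∧
    IntegrableOn (fun z : ℍ => Fl k k' f g z * (ug M l T z.im : ℂ)) strip ∧
    ∫ z in strip, Fl k k' f g z * (ug M l T z.im : ℂ) =
      ((∑' n : ℕ, a n * b n * IG (((k : ℝ) + k') / 2) (ug M l T) n : ℝ) : ℂ) := by
  obtain ⟨-, hT'⟩ := hGHT M l hM
  obtain ⟨hm, hnn, -, hi, -⟩ := hT' T hT
  obtain ⟨f1, f2, f3⟩ := hFC k k' f g a b hf hg (ug M l T) hm (fun y _ => hnn y) hi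
  refine ⟨?_, f2, f3⟩
  have h3 := f1.abs
  refine Summable.of_norm ?_
  refine h3.congr (fun n => ?_)
  rw [Real.norm_eq_abs, abs_mul |a n * b n|, abs_abs, ← abs_mul]

theorem p_CONT : S_CONT := by
  intro hGM hGHT hFC hMS hMEL hCON0 M l k k' f₁ g₁ f₂ g₂ a₁ b₁ a₂ b₂ R w hM hk hk' hf₁ hg₁ hf₂
    hg₂ hw hFc hFb hFa
  have hkr : (2 : ℝ) ≤ k := by exact_mod_cast hk
  have hkr' : (2 : ℝ) ≤ k' := by exact_mod_cast hk'
  have hM1 : 1 ≤ M := by omega
  obtain ⟨K, hKdef⟩ : ∃ K : ℝ, K = ((k : ℝ) + k') / 2 := ⟨_, rfl⟩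
  have hK : 2 ≤ K := by rw [hKdef]; linarith
  obtain ⟨c, hc⟩ : ∃ c : ℕ → ℝ, c = fun n => a₁ n * b₁ n - a₂ n * b₂ n := ⟨_, rfl⟩
  have hc0 : c 0 = 0 := by rw [hc]; simp [hf₁.zero, hf₂.zero]
  have hcs : ∀ σ : ℝ, 1 < σ → Summable (fun n : ℕ => |c n| * (n : ℝ) ^ (-(σ + K - 1))) := by
    intro σ hσ
    have t1 := CONT_summ hMS hk hk' hf₁ hg₁ hσ
    have t2 := CONT_summ hMS hk hk' hf₂ hg₂ hσ
    rw [← hKdef] at t1 t2
    refine Summable.of_nonneg_of_le (fun n => ?_) (fun n => ?_) (t1.add t2)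
    · exact mul_nonneg (abs_nonneg _) (Real.rpow_nonneg (Nat.cast_nonneg n : (0 : ℝ) ≤ n) _)
    · rw [← add_mul, hc]
      exact mul_le_mul_of_nonneg_right (abs_sub _ _)
        (Real.rpow_nonneg (Nat.cast_nonneg n : (0 : ℝ) ≤ n) _)
  obtain ⟨hli, hdec, hmel⟩ := hMEL M l K c hM1 hK hc0 hcs
  obtain ⟨κ, C, hκ, hb⟩ := hGM M l R w _ hM hw hFc hFb hFa
  have hPh : ∀ T : ℝ, 0 < T → (∫ z in strip, (Fl k k' f₁ g₁ z - Fl k k' f₂ g₂ z) *
      (ug M l T z.im : ℂ)) = ((Ph M l K c T : ℝ) : ℂ) := by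
    intro T hT
    obtain ⟨p1, p2, p3⟩ := CONT_pair (l := l) hGHT hFC hM1 hf₁ hg₁ hT
    obtain ⟨q1, q2, q3⟩ := CONT_pair (l := l) hGHT hFC hM1 hf₂ hg₂ hT
    have h5 : ∀ z : ℍ, (Fl k k' f₁ g₁ z - Fl k k' f₂ g₂ z) * (ug M l T z.im : ℂ) =
        Fl k k' f₁ g₁ z * (ug M l T z.im : ℂ) - Fl k k' f₂ g₂ z * (ug M l T z.im : ℂ) :=
      fun z => sub_mul _ _ _
    simp_rw [h5]
    rw [integral_sub p2 q2, p3, q3, ← Complex.ofReal_sub, ← p1.tsum_sub q1]
    congr 1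
    unfold Ph
    rw [hc, hKdef]
    exact tsum_congr (fun n => (sub_mul _ _ _).symm)
  set I : ℂ := ∫ z, (w z : ℂ) * (Fl k k' f₁ g₁ z - Fl k k' f₂ g₂ z) with hI
  set c₀ : ℂ := if l = 0 then (κ : ℂ) * I else 0 with hc₀
  obtain ⟨G₀, hG₀, hG₀e⟩ := hCON0 (fun T : ℝ => (Ph M l K c T : ℂ)) c₀ hli
    (fun A => by
      obtain ⟨C', hC'⟩ := hdec A
      refine ⟨C', fun T hT => ?_⟩
      rw [Complex.norm_real, Real.norm_eq_abs]
      exact hC' T hT)
    ⟨C, fun T hT hT1 => by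
      have h := hb T hT hT1
      rw [hPh T hT] at h
      refine le_trans (le_of_eq ?_) h
      congr 2
      rw [hc₀]
      split_ifs
      · push_cast
        ring
      · rw [zero_div]⟩
  have hek : ∀ s : ℂ, 1 < s.re → zM M (2 * s) * DQ K c s =
      CONT_e l K s * (G₀ s + c₀ / (s - 1)) := by
    intro s hs
    rw [← hG₀e s hs, hmel s hs, CONT_e_mul l K hK s hs]
  have hde := CONT_e_diff l K
  have hHPo : IsOpen HP := isOpen_lt continuous_const Complex.continuous_re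
  have hnhds : HP ∈ 𝓝 (1 : ℂ) := by
    refine hHPo.mem_nhds ?_
    show (1 / 4 : ℝ) < (1 : ℂ).re
    rw [Complex.one_re]
    norm_num
  by_cases hl : l = 0
  · subst hl
    obtain ⟨r, hr, hr1⟩ := CONT_e_one K hK
    have hds : DifferentiableOn ℂ (dslope (CONT_e 0 K) 1) HP :=
      (Complex.differentiableOn_dslope hnhds).2 hde.differentiableOn
    refine ⟨κ * r, fun s => CONT_e 0 K s * G₀ s + c₀ * dslope (CONT_e 0 K) 1 s, by positivity,
      (hde.differentiableOn.mul hG₀).add (hds.const_mul _), fun s hs => ?_⟩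
    rw [← hKdef, ← hc, hek s hs, if_pos rfl]
    have hs1 : s ≠ 1 := by
      rintro rfl
      rw [Complex.one_re] at hs
      exact lt_irrefl _ hs
    have hs0 : s - 1 ≠ 0 := sub_ne_zero.mpr hs1
    show _ = CONT_e 0 K s * G₀ s + c₀ * dslope (CONT_e 0 K) 1 s + ↑(κ * r) * I / (s - 1)
    rw [dslope_of_ne _ hs1, slope_def_field, hr1, hc₀, if_pos rfl]
    push_cast
    field_simp
    ring
  · refine ⟨1, fun s => CONT_e l K s * G₀ s, one_pos, hde.differentiableOn.mul hG₀, fun s hs => ?_⟩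
    rw [← hKdef, ← hc, hek s hs, if_neg hl, hc₀, if_neg hl, zero_div, add_zero, add_zero]

end Pool.Agent.Lib.MP_058a58_ag.MT
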