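import Pool.Agent.Lib.MP_058a58_ag.MT.DStm2
import Pool.Agent.Lib.MP_058a58_ag.MT.P.F1

set_option autoImplicit false

namespace Pool.Agent.Lib.MP_058a58_ag.MT

theorem EL1_ne {x B : ℝ} {α : ℂ} (h : Sat x B α) : α ≠ 0 := by
  intro h0
  have := h.one_le
  rw [h0, norm_zero] at this
  norm_num at this

theorem EL1_tw {x B : ℝ} {α : ℂ} (h : Sat x B α) (m : ℕ) :
    ((tw x m : ℝ) : ℂ) = α ^ m + α⁻¹ ^ m := by
  have h0 := EL1_ne h
  induction m using Nat.strong_induction_on with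
  | _ m ih =>
    match m, ih with
    | 0, _ =>
      have e : tw x 0 = 2 := rfl
      rw [e]
      push_cast
      norm_num
    | 1, _ =>
      have e : tw x 1 = x := rfl
      rw [e, ← h.add]
      ring
    | m + 2, ih =>
      have e : tw x (m + 2) = x * tw x (m + 1) - tw x m := rfl
      rw [e, Complex.ofReal_sub, Complex.ofReal_mul, ih (m + 1) (by omega), ih m (by omega),
        ← h.add]
      have h5 : α * α⁻¹ = 1 := mul_inv_cancel₀ h0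
      linear_combination (α ^ m + α⁻¹ ^ m) * h5

theorem EL1_tw_bd {x B : ℝ} {α : ℂ} (h : Sat x B α) (m : ℕ) : |tw x m| ≤ 2 * ‖α‖ ^ m := by
  have h1 : ‖((tw x m : ℝ) : ℂ)‖ = |tw x m| := by
    rw [Complex.norm_real, Real.norm_eq_abs]
  rw [← h1, EL1_tw h m]
  have hinv : ‖α⁻¹ ^ m‖ ≤ 1 := by
    rw [norm_pow, norm_inv]
    exact pow_le_one₀ (by positivity) (inv_le_one_of_one_le₀ h.one_le)
  have hp : 1 ≤ ‖α‖ ^ m := one_le_pow₀ h.one_le
  have h2 := norm_add_le (α ^ m) (α⁻¹ ^ m)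
  rw [norm_pow] at h2
  linarith

theorem EL1_nn {x y B : ℝ} {α γ u : ℂ} (hx : Sat x B α) (hy : Sat y B γ) :
    ‖α‖ * ‖γ‖ * ‖u‖ ≤ B ^ 2 * ‖u‖ := by
  have hB : 0 ≤ B := le_trans (norm_nonneg _) hx.le
  rw [sq]
  exact mul_le_mul_of_nonneg_right (mul_le_mul hx.le hy.le (norm_nonneg _) hB) (norm_nonneg _)

theorem EL1_sumU {x y B : ℝ} {α γ u : ℂ} (hx : Sat x B α) (hy : Sat y B γ)
    (h1 : B ^ 2 * ‖u‖ < 1) :
    Summable (fun r : ℕ => ‖((U x r * U y r : ℝ) : ℂ) * u ^ r‖) := by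
  have hv := EL1_nn (u := u) hx hy
  refine Summable.of_nonneg_of_le (fun r => norm_nonneg _) (fun r => ?_)
    (F1_sumb (‖α‖ * ‖γ‖ * ‖u‖) (by positivity) (by linarith))
  rw [norm_mul, norm_pow, Complex.norm_real, Real.norm_eq_abs, abs_mul]
  have b1 := F1_bd hx r
  have b2 := F1_bd hy r
  calc |U x r| * |U y r| * ‖u‖ ^ r ≤ ((r + 1) * ‖α‖ ^ r) * ((r + 1) * ‖γ‖ ^ r) * ‖u‖ ^ r := by
        refine mul_le_mul_of_nonneg_right (mul_le_mul b1 b2 (abs_nonneg _) (by positivity))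
          (by positivity)
    _ = _ := by
        rw [mul_pow, mul_pow]
        ring

theorem EL1_sumT {x y B : ℝ} {α γ u : ℂ} (hx : Sat x B α) (hy : Sat y B γ)
    (h1 : B ^ 2 * ‖u‖ < 1) : Summable (fun m : ℕ =>
      ‖((tw x (m + 1) * tw y (m + 1) / ((m : ℝ) + 1) : ℝ) : ℂ) * u ^ (m + 1)‖) := by
  have hv := EL1_nn (u := u) hx hy
  have hg : Summable (fun m : ℕ => 4 * (‖α‖ * ‖γ‖ * ‖u‖) ^ (m + 1)) := by
    refine Summable.mul_left 4 ?_
    exact (summable_nat_add_iff 1).2 (summable_geometric_of_lt_one (by positivity) (by linarith))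
  refine Summable.of_nonneg_of_le (fun m => norm_nonneg _) (fun m => ?_) hg
  rw [norm_mul, norm_pow, Complex.norm_real, Real.norm_eq_abs, abs_div, abs_mul]
  have b1 := EL1_tw_bd hx (m + 1)
  have b2 := EL1_tw_bd hy (m + 1)
  have hm : (1 : ℝ) ≤ |(m : ℝ) + 1| := by
    rw [abs_of_nonneg (by positivity)]
    have : (0 : ℝ) ≤ m := by positivity
    linarith
  have b3 : |tw x (m + 1)| * |tw y (m + 1)| / |(m : ℝ) + 1| ≤ |tw x (m + 1)| * |tw y (m + 1)| :=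
    div_le_self (by positivity) hm
  calc |tw x (m + 1)| * |tw y (m + 1)| / |(m : ℝ) + 1| * ‖u‖ ^ (m + 1)
      ≤ (|tw x (m + 1)| * |tw y (m + 1)|) * ‖u‖ ^ (m + 1) :=
        mul_le_mul_of_nonneg_right b3 (by positivity)
    _ ≤ ((2 * ‖α‖ ^ (m + 1)) * (2 * ‖γ‖ ^ (m + 1))) * ‖u‖ ^ (m + 1) :=
        mul_le_mul_of_nonneg_right (mul_le_mul b1 b2 (abs_nonneg _) (by positivity)) (by positivity)
    _ = _ := by
        rw [mul_pow, mul_pow]
        ring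

/-- the denominator -/
noncomputable def EL1_Q (x y : ℝ) (u : ℂ) : ℂ :=
  1 - x * y * u + (x ^ 2 + y ^ 2 - 2) * u ^ 2 - x * y * u ^ 3 + u ^ 4

theorem EL1_gen (x y : ℝ) (u : ℂ)
    (hs' : Summable (fun r : ℕ => ‖((U x r * U y r : ℝ) : ℂ) * u ^ r‖)) :
    (∑' r : ℕ, ((U x r * U y r : ℝ) : ℂ) * u ^ r) * EL1_Q x y u = 1 - u ^ 2 := by
  have hs : Summable (fun r : ℕ => ((U x r * U y r : ℝ) : ℂ) * u ^ r) := hs'.of_norm
  have hk : ∀ k : ℕ, Summable (fun r : ℕ => ((U x (r + k) * U y (r + k) : ℝ) : ℂ) *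
    u ^ (r + k)) := fun k => (summable_nat_add_iff k).2 hs
  obtain ⟨D, hD⟩ : ∃ D, D = ∑' r : ℕ, ((U x r * U y r : ℝ) : ℂ) * u ^ r := ⟨_, rfl⟩
  have hsum : ∀ k : ℕ, ∑' r : ℕ, ((U x (r + k) * U y (r + k) : ℝ) : ℂ) * u ^ (r + k) =
      D - ∑ i ∈ Finset.range k, ((U x i * U y i : ℝ) : ℂ) * u ^ i := by
    intro k
    rw [hD, ← hs.sum_add_tsum_nat_add k]
    ring
  have key : ∑' r : ℕ, ((U x (r + 4) * U y (r + 4) : ℝ) : ℂ) * u ^ (r + 4) =
      x * y * u * (∑' r : ℕ, ((U x (r + 3) * U y (r + 3) : ℝ) : ℂ) * u ^ (r + 3)) -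
      (x ^ 2 + y ^ 2 - 2) * u ^ 2 *
        (∑' r : ℕ, ((U x (r + 2) * U y (r + 2) : ℝ) : ℂ) * u ^ (r + 2)) +
      x * y * u ^ 3 * (∑' r : ℕ, ((U x (r + 1) * U y (r + 1) : ℝ) : ℂ) * u ^ (r + 1)) -
      u ^ 4 * ∑' r : ℕ, ((U x r * U y r : ℝ) : ℂ) * u ^ r := by
    rw [← tsum_mul_left, ← tsum_mul_left, ← tsum_mul_left, ← tsum_mul_left,
      ← ((hk 3).mul_left _).tsum_sub ((hk 2).mul_left _),
      ← (((hk 3).mul_left _).sub ((hk 2).mul_left _)).tsum_add ((hk 1).mul_left _),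
      ← ((((hk 3).mul_left _).sub ((hk 2).mul_left _)).add ((hk 1).mul_left _)).tsum_sub
        (hs.mul_left _)]
    refine tsum_congr fun r => ?_
    rw [F1_rec]
    push_cast
    ring
  rw [hsum, hsum, hsum, hsum, ← hD] at key
  rw [← hD, EL1_Q]
  simp only [Finset.sum_range_succ, Finset.sum_range_zero] at key
  have u0 : ∀ z, U z 0 = 1 := fun z => rfl
  have u1 : ∀ z, U z 1 = z := fun z => rfl
  have u2 : ∀ z, U z 2 = z * z - 1 := fun z => rfl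
  have u3 : ∀ z, U z 3 = z * (z * z - 1) - z := fun z => rfl
  rw [u0, u0, u1, u1, u2, u2, u3, u3] at key
  push_cast at key
  linear_combination key

theorem EL1_fac {x y B : ℝ} {α γ : ℂ} (hx : Sat x B α) (hy : Sat y B γ) (u : ℂ) :
    EL1_Q x y u = (1 - α * γ * u) * (1 - α⁻¹ * γ⁻¹ * u) *
      ((1 - α * γ⁻¹ * u) * (1 - α⁻¹ * γ * u)) := by
  have ha := EL1_ne hx
  have hg := EL1_ne hy
  rw [EL1_Q, ← hx.add, ← hy.add]
  field_simp
  ring

theorem EL1_log (v : ℂ) (hv : ‖v‖ < 1) :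
    HasSum (fun m : ℕ => v ^ (m + 1) / ((m : ℂ) + 1)) (-Complex.log (1 - v)) := by
  have h := Complex.hasSum_taylorSeries_neg_log hv
  have h2 := (hasSum_nat_add_iff' 1).2 h
  simp only [Finset.range_one, Finset.sum_singleton, Nat.cast_zero, div_zero, sub_zero] at h2
  refine h2.congr_fun ?_
  intro m
  push_cast
  rfl

theorem p_EL1 : S_EL1 := by
  intro x y B α γ u hx hy _ h1
  have hs := EL1_sumU hx hy h1
  have ht := EL1_sumT hx hy h1
  have hg := EL1_gen x y u hs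
  have hB : 0 ≤ B := le_trans (norm_nonneg _) hx.le
  have hB1 : 1 ≤ B := le_trans hx.one_le hx.le
  have hai : ‖α⁻¹‖ ≤ B := by
    rw [norm_inv]
    exact (inv_le_one_of_one_le₀ hx.one_le).trans hB1
  have hgi : ‖γ⁻¹‖ ≤ B := by
    rw [norm_inv]
    exact (inv_le_one_of_one_le₀ hy.one_le).trans hB1
  have hn : ∀ z w : ℂ, ‖z‖ ≤ B → ‖w‖ ≤ B → ‖z * w * u‖ < 1 := by
    intro z w hz hw
    rw [norm_mul, norm_mul]
    have h4 : ‖z‖ * ‖w‖ * ‖u‖ ≤ B ^ 2 * ‖u‖ := by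
      rw [sq]
      exact mul_le_mul_of_nonneg_right (mul_le_mul hz hw (norm_nonneg _) hB) (norm_nonneg _)
    linarith
  have hne : ∀ v : ℂ, ‖v‖ < 1 → 1 - v ≠ 0 := by
    intro v hv h
    have h2 : v = 1 := (sub_eq_zero.1 h).symm
    rw [h2, norm_one] at hv
    exact lt_irrefl _ hv
  have v1 := hn α γ hx.le hy.le
  have v2 := hn α⁻¹ γ⁻¹ hai hgi
  have v3 := hn α γ⁻¹ hx.le hgi
  have v4 := hn α⁻¹ γ hai hy.le
  have hsum := (((EL1_log _ v1).add (EL1_log _ v2)).add ((EL1_log _ v3).add (EL1_log _ v4)))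
  have hcongr : (fun m : ℕ => ((tw x (m + 1) * tw y (m + 1) / ((m : ℝ) + 1) : ℝ) : ℂ) *
      u ^ (m + 1)) = fun m : ℕ => ((α * γ * u) ^ (m + 1) / ((m : ℂ) + 1) +
        (α⁻¹ * γ⁻¹ * u) ^ (m + 1) / ((m : ℂ) + 1)) +
        ((α * γ⁻¹ * u) ^ (m + 1) / ((m : ℂ) + 1) + (α⁻¹ * γ * u) ^ (m + 1) / ((m : ℂ) + 1)) := by
    funext m
    rw [Complex.ofReal_div, Complex.ofReal_mul, EL1_tw hx, EL1_tw hy]
    push_cast
    simp only [mul_pow]
    ring
  have hexp : Complex.exp (∑' m : ℕ, ((tw x (m + 1) * tw y (m + 1) / ((m : ℝ) + 1) : ℝ) : ℂ) *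
      u ^ (m + 1)) * EL1_Q x y u = 1 := by
    rw [hcongr, hsum.tsum_eq, EL1_fac hx hy, Complex.exp_add, Complex.exp_add, Complex.exp_add,
      Complex.exp_neg, Complex.exp_neg, Complex.exp_neg, Complex.exp_neg,
      Complex.exp_log (hne _ v1), Complex.exp_log (hne _ v2), Complex.exp_log (hne _ v3),
      Complex.exp_log (hne _ v4)]
    have e1 := hne _ v1
    have e2 := hne _ v2
    have e3 := hne _ v3
    have e4 := hne _ v4
    generalize 1 - α * γ * u = a at *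
    generalize 1 - α⁻¹ * γ⁻¹ * u = b at *
    generalize 1 - α * γ⁻¹ * u = c at *
    generalize 1 - α⁻¹ * γ * u = d at *
    field_simp
  refine ⟨hs, ht, hg, ?_⟩
  rw [← hg]
  linear_combination (∑' r : ℕ, ((U x r * U y r : ℝ) : ℂ) * u ^ r) * hexp

end Pool.Agent.Lib.MP_058a58_ag.MT
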