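import Pool.Agent.Lib.MP_058a58_ag.MT.DStm2
import Pool.Agent.Lib.MP_058a58_ag.MT.P.F2

set_option autoImplicit false

/-! # Defect form: the piece ELB (inverses of the local factors), helper93 -/

namespace Pool.Agent.Lib.MP_058a58_ag.MT

private theorem ELB_norm (p : ℕ) (hp : p.Prime) (s : ℂ) : ‖(p : ℂ) ^ (-s)‖ = (p : ℝ) ^ (-s.re) := by
  rw [Complex.norm_natCast_cpow_of_pos hp.pos, Complex.neg_re]

private theorem ELB_lt (p : ℕ) (hp : p.Prime) (z : ℂ) (hz : 0 < z.re) : ‖(p : ℂ) ^ (-z)‖ < 1 := by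
  rw [ELB_norm p hp]
  have h1 : (1 : ℝ) < p := by exact_mod_cast hp.one_lt
  exact Real.rpow_lt_one_of_one_lt_of_neg h1 (by linarith)

private theorem ELB_lt' (p : ℕ) (hp : p.Prime) (z : ℂ) (hz : 1 < z.re) :
    (p : ℝ) * ‖(p : ℂ) ^ (-z)‖ < 1 := by
  rw [ELB_norm p hp]
  have h1 : (1 : ℝ) < p := by exact_mod_cast hp.one_lt
  have h2 : (p : ℝ) * (p : ℝ) ^ (-z.re) = (p : ℝ) ^ (1 - z.re) := by
    rw [sub_eq_add_neg, Real.rpow_add (by linarith), Real.rpow_one]
  rw [h2]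
  exact Real.rpow_lt_one_of_one_lt_of_neg h1 (by linarith)

private theorem ELB_ne {u : ℂ} (hu : ‖u‖ < 1) : (1 : ℂ) - u ≠ 0 := by
  intro h
  rw [sub_eq_zero] at h
  rw [← h, norm_one] at hu
  exact lt_irrefl _ hu

private theorem ELB_diff (p : ℕ) (hp : p.Prime) : Differentiable ℂ (fun s : ℂ => (p : ℂ) ^ (-s)) :=
  differentiable_id.neg.const_cpow (Or.inl (by exact_mod_cast hp.ne_zero))

private theorem ELB_diff2 (p : ℕ) (hp : p.Prime) :
    Differentiable ℂ (fun s : ℂ => (p : ℂ) ^ (-(2 * s))) :=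
  ((differentiable_const (2 : ℂ)).mul differentiable_id).neg.const_cpow
    (Or.inl (by exact_mod_cast hp.ne_zero))

private theorem ELB_core (M p : ℕ) (hp : p.Prime) (D P : ℂ → ℂ)
    (hP : DifferentiableOn ℂ P {s : ℂ | 0 < s.re}) (h : ∀ s : ℂ, 1 < s.re → D s * P s = 1) :
    ∃ e : ℂ → ℂ, DifferentiableOn ℂ e {s : ℂ | 0 < s.re} ∧ ∀ s : ℂ, 1 < s.re →
      D s * (if p ∣ M then (1 : ℂ) else (1 - (p : ℂ) ^ (-(2 * s)))⁻¹) * e s = 1 := by
  by_cases hd : p ∣ M
  · refine ⟨P, hP, fun s hs => ?_⟩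
    rw [if_pos hd, mul_one]
    exact h s hs
  · refine ⟨fun s => P s * (1 - (p : ℂ) ^ (-(2 * s))),
      hP.mul ((differentiable_const _).sub (ELB_diff2 p hp)).differentiableOn, fun s hs => ?_⟩
    rw [if_neg hd]
    have h2 : ‖(p : ℂ) ^ (-(2 * s))‖ < 1 := by
      refine ELB_lt p hp (2 * s) ?_
      simp
      linarith
    have h3 := ELB_ne h2
    have h4 := h s hs
    calc D s * (1 - (p : ℂ) ^ (-(2 * s)))⁻¹ * (P s * (1 - (p : ℂ) ^ (-(2 * s))))
        = D s * P s * ((1 - (p : ℂ) ^ (-(2 * s)))⁻¹ * (1 - (p : ℂ) ^ (-(2 * s)))) := by ring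
      _ = 1 := by rw [h4, inv_mul_cancel₀ h3, mul_one]

/-- the generating function of the `U y r` -/
private theorem ELB_gen {y B : ℝ} {γ v : ℂ} (hy : Sat y B γ) (hv : ‖γ‖ * ‖v‖ < 1) :
    (∑' r : ℕ, ((U y r : ℝ) : ℂ) * v ^ r) * (1 - y * v + v ^ 2) = 1 := by
  have hs' : Summable (fun r : ℕ => ‖((U y r : ℝ) : ℂ) * v ^ r‖) := by
    have hw : ‖‖γ‖ * ‖v‖‖ < 1 := by rwa [Real.norm_of_nonneg (by positivity)]
    have s1 := summable_pow_mul_geometric_of_norm_lt_one 1 hw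
    have s0 := summable_geometric_of_norm_lt_one hw
    refine Summable.of_nonneg_of_le (fun r => norm_nonneg _) (fun r => ?_) (s1.add s0)
    rw [norm_mul, norm_pow, Complex.norm_real, Real.norm_eq_abs]
    calc |U y r| * ‖v‖ ^ r ≤ (((r : ℝ) + 1) * ‖γ‖ ^ r) * ‖v‖ ^ r :=
          mul_le_mul_of_nonneg_right (F2_bd hy r) (by positivity)
      _ = _ := by
          rw [mul_pow]
          ring
  have hs : Summable (fun r : ℕ => ((U y r : ℝ) : ℂ) * v ^ r) := hs'.of_norm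
  have hk : ∀ k : ℕ, Summable (fun r : ℕ => ((U y (r + k) : ℝ) : ℂ) * v ^ (r + k)) :=
    fun k => (summable_nat_add_iff (f := fun r : ℕ => ((U y r : ℝ) : ℂ) * v ^ r) k).2 hs
  obtain ⟨D, hD⟩ : ∃ D, D = ∑' r : ℕ, ((U y r : ℝ) : ℂ) * v ^ r := ⟨_, rfl⟩
  have hsum : ∀ k : ℕ, ∑' r : ℕ, ((U y (r + k) : ℝ) : ℂ) * v ^ (r + k) =
      D - ∑ i ∈ Finset.range k, ((U y i : ℝ) : ℂ) * v ^ i := by
    intro k
    rw [hD, ← hs.sum_add_tsum_nat_add k]
    ring
  have key : ∑' r : ℕ, ((U y (r + 2) : ℝ) : ℂ) * v ^ (r + 2) =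
      y * v * (∑' r : ℕ, ((U y (r + 1) : ℝ) : ℂ) * v ^ (r + 1)) -
        v ^ 2 * ∑' r : ℕ, ((U y r : ℝ) : ℂ) * v ^ r := by
    rw [← tsum_mul_left, ← tsum_mul_left, ← ((hk 1).mul_left _).tsum_sub (hs.mul_left _)]
    refine tsum_congr fun r => ?_
    have h2 : U y (r + 2) = y * U y (r + 1) - U y r := rfl
    rw [h2]
    push_cast
    ring
  rw [hsum, hsum, ← hD] at key
  rw [← hD]
  simp only [Finset.sum_range_succ, Finset.sum_range_zero] at key
  have u0 : U y 0 = 1 := rfl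
  have u1 : U y 1 = y := rfl
  rw [u0, u1] at key
  push_cast at key
  linear_combination key

/-- one bad and one good sequence -/
private theorem ELB_bg {p : ℕ} (hp : p.Prime) {x y : ℝ} {γ s : ℂ} (hx : |x| ≤ Real.sqrt p)
    (hy : Sat y (Real.sqrt p) γ) (hs : 1 < s.re) :
    (∑' r : ℕ, ((U y r : ℝ) : ℂ) * (x * (p : ℂ) ^ (-s)) ^ r) *
      (1 - y * (x * (p : ℂ) ^ (-s)) + (x * (p : ℂ) ^ (-s)) ^ 2) = 1 := by
  refine ELB_gen hy ?_
  rw [norm_mul, Complex.norm_real, Real.norm_eq_abs]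
  have h1 : ‖γ‖ * |x| ≤ (p : ℝ) := by
    calc ‖γ‖ * |x| ≤ Real.sqrt p * Real.sqrt p :=
          mul_le_mul hy.le hx (abs_nonneg _) (Real.sqrt_nonneg _)
      _ = p := Real.mul_self_sqrt (Nat.cast_nonneg _)
  calc ‖γ‖ * (|x| * ‖(p : ℂ) ^ (-s)‖) = (‖γ‖ * |x|) * ‖(p : ℂ) ^ (-s)‖ := by ring
    _ ≤ (p : ℝ) * ‖(p : ℂ) ^ (-s)‖ := mul_le_mul_of_nonneg_right h1 (norm_nonneg _)
    _ < 1 := ELB_lt' p hp s hs

theorem p_ELB : S_ELB := by
  intro hEL1 N N' k k' M p a b ha hb hp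
  obtain ⟨x, hx⟩ : ∃ x, x = lam k a p := ⟨_, rfl⟩
  obtain ⟨y, hy⟩ : ∃ y, y = lam k' b p := ⟨_, rfl⟩
  have hu : DifferentiableOn ℂ (fun s : ℂ => (p : ℂ) ^ (-s)) {s : ℂ | 0 < s.re} :=
    (ELB_diff p hp).differentiableOn
  by_cases hN : p ∣ N
  · obtain ⟨hxb, hxr⟩ := ha.bad p hp hN
    rw [← hx] at hxb hxr
    by_cases hN' : p ∣ N'
    · -- both bad
      obtain ⟨hyb, hyr⟩ := hb.bad p hp hN'
      rw [← hy] at hyb hyr
      refine ELB_core M p hp _ (fun s => 1 - x * y * (p : ℂ) ^ (-s))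
        ((differentiableOn_const _).sub ((differentiableOn_const _).mul hu)) ?_
      intro s hs
      have e1 : DpC (fun n => lam k a n * lam k' b n) s p =
          ∑' r : ℕ, (x * y * (p : ℂ) ^ (-s)) ^ r := by
        unfold DpC
        refine tsum_congr fun r => ?_
        beta_reduce
        rw [hxr, hyr, mul_pow, mul_pow]
        push_cast
        ring
      have h1 : ‖(x : ℂ) * y * (p : ℂ) ^ (-s)‖ < 1 := by
        rw [norm_mul, norm_mul, Complex.norm_real, Complex.norm_real, Real.norm_eq_abs,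
          Real.norm_eq_abs]
        have h2 : |x| * |y| ≤ (p : ℝ) := by
          calc |x| * |y| ≤ Real.sqrt p * Real.sqrt p :=
                mul_le_mul hxb hyb (abs_nonneg _) (Real.sqrt_nonneg _)
            _ = p := Real.mul_self_sqrt (Nat.cast_nonneg _)
        exact lt_of_le_of_lt (mul_le_mul_of_nonneg_right h2 (norm_nonneg _)) (ELB_lt' p hp s hs)
      rw [e1, tsum_geometric_of_norm_lt_one h1]
      exact inv_mul_cancel₀ (ELB_ne h1)
    · obtain ⟨γ, hγ⟩ := hb.sat p hp hN'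
      have hyr := hb.good p hp hN'
      rw [← hy] at hγ hyr
      refine ELB_core M p hp _ (fun s => 1 - y * (x * (p : ℂ) ^ (-s)) + (x * (p : ℂ) ^ (-s)) ^ 2)
        (((differentiableOn_const _).sub ((differentiableOn_const _).mul
          ((differentiableOn_const _).mul hu))).add (((differentiableOn_const _).mul hu).pow 2)) ?_
      intro s hs
      have e1 : DpC (fun n => lam k a n * lam k' b n) s p =
          ∑' r : ℕ, ((U y r : ℝ) : ℂ) * (x * (p : ℂ) ^ (-s)) ^ r := by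
        unfold DpC
        refine tsum_congr fun r => ?_
        beta_reduce
        rw [hxr, hyr, mul_pow]
        push_cast
        ring
      rw [e1]
      exact ELB_bg hp hxb hγ hs
  · obtain ⟨α, hα⟩ := ha.sat p hp hN
    have hxr := ha.good p hp hN
    rw [← hx] at hα hxr
    by_cases hN' : p ∣ N'
    · obtain ⟨hyb, hyr⟩ := hb.bad p hp hN'
      rw [← hy] at hyb hyr
      refine ELB_core M p hp _ (fun s => 1 - x * (y * (p : ℂ) ^ (-s)) + (y * (p : ℂ) ^ (-s)) ^ 2)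
        (((differentiableOn_const _).sub ((differentiableOn_const _).mul
          ((differentiableOn_const _).mul hu))).add (((differentiableOn_const _).mul hu).pow 2)) ?_
      intro s hs
      have e1 : DpC (fun n => lam k a n * lam k' b n) s p =
          ∑' r : ℕ, ((U x r : ℝ) : ℂ) * (y * (p : ℂ) ^ (-s)) ^ r := by
        unfold DpC
        refine tsum_congr fun r => ?_
        beta_reduce
        rw [hxr, hyr, mul_pow]
        push_cast
        ring
      rw [e1]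
      exact ELB_bg hp hyb hα hs
    · -- both good
      obtain ⟨γ, hγ⟩ := hb.sat p hp hN'
      have hyr := hb.good p hp hN'
      rw [← hy] at hγ hyr
      have hne : ∀ s : ℂ, 0 < s.re → 1 - ((p : ℂ) ^ (-s)) ^ 2 ≠ 0 := by
        intro s hs
        refine ELB_ne ?_
        rw [norm_pow]
        exact pow_lt_one₀ (norm_nonneg _) (ELB_lt p hp s hs) (by norm_num)
      refine ELB_core M p hp _ (fun s => (1 - x * y * (p : ℂ) ^ (-s) +
          (x ^ 2 + y ^ 2 - 2) * ((p : ℂ) ^ (-s)) ^ 2 - x * y * ((p : ℂ) ^ (-s)) ^ 3 +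
            ((p : ℂ) ^ (-s)) ^ 4) / (1 - ((p : ℂ) ^ (-s)) ^ 2)) ?_ ?_
      · refine DifferentiableOn.div ?_ ((differentiableOn_const _).sub (hu.pow 2))
          fun s hs => hne s hs
        exact ((((differentiableOn_const _).sub ((differentiableOn_const _).mul hu)).add
          ((differentiableOn_const _).mul (hu.pow 2))).sub
            ((differentiableOn_const _).mul (hu.pow 3))).add (hu.pow 4)
      · intro s hs
        have h0 : 0 < s.re := by linarith
        have hB : Real.sqrt p ^ 2 * ‖(p : ℂ) ^ (-s)‖ < 1 := by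
          rw [Real.sq_sqrt (Nat.cast_nonneg _)]
          exact ELB_lt' p hp s hs
        obtain ⟨_, _, h3, _⟩ := hEL1 x y (Real.sqrt p) α γ ((p : ℂ) ^ (-s)) hα hγ
          (ELB_lt p hp s h0) hB
        have e1 : DpC (fun n => lam k a n * lam k' b n) s p =
            ∑' r : ℕ, ((U x r * U y r : ℝ) : ℂ) * ((p : ℂ) ^ (-s)) ^ r := by
          unfold DpC
          refine tsum_congr fun r => ?_
          beta_reduce
          rw [hxr, hyr]
        rw [e1, mul_div_assoc', h3]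
        exact div_self (hne s h0)

end Pool.Agent.Lib.MP_058a58_ag.MT
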