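import Pool.Agent.Lib.MP_058a58_ag.MT.DStm

/-!
# Comparison of a sum with an integral, second order (piece EM2, helper28)
-/

set_option autoImplicit false

open MeasureTheory Set

namespace Pool.Agent.Lib.MP_058a58_ag.MT

private lemma EM2_pt (a b c : ℝ) (hac : a ≤ c) (hcb : c ≤ b) (g g' g'' : ℝ → ℂ)
    (hd : ∀ x, HasDerivAt g (g' x) x) (hd' : ∀ x, HasDerivAt g' (g'' x) x)
    (hg'' : Integrable g'') (x : ℝ) (hx : x ∈ Icc a b) :
    ‖g c + (x - c : ℝ) * g' c - g x‖ ≤ (b - a) * ∫ y in Ioc a b, ‖g'' y‖ := by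
  set I : ℝ := ∫ y in Ioc a b, ‖g'' y‖ with hI
  have hI0 : 0 ≤ I := setIntegral_nonneg measurableSet_Ioc fun y _ => norm_nonneg _
  have h1 : ∀ y ∈ Icc a b, ‖g' y - g' c‖ ≤ I := by
    intro y hy
    rw [← intervalIntegral.integral_eq_sub_of_hasDerivAt (fun z _ => hd' z)
      hg''.intervalIntegrable]
    refine intervalIntegral.norm_integral_le_integral_norm_uIoc.trans ?_
    refine setIntegral_mono_set hg''.norm.integrableOn
      (Filter.Eventually.of_forall fun y => norm_nonneg _) ?_
    have : uIoc c y ⊆ Ioc a b := Ioc_subset_Ioc (le_min hac hy.1) (max_le hcb hy.2)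
    exact this.eventuallyLE
  have h2 : ∀ y : ℝ, HasDerivAt (fun y : ℝ => g y - (y - c : ℝ) * g' c) (g' y - g' c) y := by
    intro y
    have h3 : HasDerivAt (fun y : ℝ => ((y - c : ℝ) : ℂ)) 1 y := by
      have := ((hasDerivAt_id y).sub_const c).ofReal_comp
      simpa using this
    have h4 := (hd y).sub (h3.mul_const (g' c))
    rw [one_mul] at h4
    exact h4
  have h5 := Convex.norm_image_sub_le_of_norm_hasDerivWithin_le (s := Icc a b) (C := I)
    (f := fun y : ℝ => g y - (y - c : ℝ) * g' c) (f' := fun y => g' y - g' c)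
    (fun y _ => (h2 y).hasDerivWithinAt) h1 (convex_Icc a b) ⟨hac, hcb⟩ hx
  have e1 : g c + (x - c : ℝ) * g' c - g x =
      -((g x - (x - c : ℝ) * g' c) - (g c - (c - c : ℝ) * g' c)) := by
    push_cast
    ring
  rw [e1, norm_neg]
  refine h5.trans ?_
  have h6 : ‖x - c‖ ≤ b - a := by
    rw [Real.norm_eq_abs, abs_le]
    constructor <;> linarith [hx.1, hx.2]
  calc I * ‖x - c‖ ≤ I * (b - a) := mul_le_mul_of_nonneg_left h6 hI0
    _ = (b - a) * I := by ring

private lemma EM2_lin (c M : ℝ) (hM : 0 < M) (w : ℂ) :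
    ∫ x in Ioc (c - M / 2) (c + M / 2), ((x - c : ℝ) : ℂ) * w = 0 := by
  rw [← intervalIntegral.integral_of_le (by linarith), intervalIntegral.integral_mul_const,
    intervalIntegral.integral_ofReal]
  have h1 : ∫ x in (c - M / 2)..(c + M / 2), (x - c) = 0 := by
    rw [intervalIntegral.integral_comp_sub_right (fun x => x) c, integral_id]
    ring
  rw [h1]
  simp

theorem p_EM2 : S_EM2 := by
  intro M r g g' g'' hM hd hd' hg hg''
  have hU0 := iUnion_Ioc_add_zsmul hM (r - M / 2)
  have hdis0 := pairwise_disjoint_Ioc_add_zsmul (r - M / 2) M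
  set J : ℤ → Set ℝ := fun n => Ioc ((r + M * n) - M / 2) ((r + M * n) + M / 2) with hJ
  have hJe : (fun n : ℤ => Ioc (r - M / 2 + n • M) (r - M / 2 + (n + 1) • M)) = J := by
    funext n
    have e1 : r - M / 2 + n • M = (r + M * n) - M / 2 := by
      simp only [zsmul_eq_mul]; ring
    have e2 : r - M / 2 + (n + 1) • M = (r + M * n) + M / 2 := by
      simp only [zsmul_eq_mul]; push_cast; ring
    simp only [hJ, e1, e2]
  have hU : (⋃ n : ℤ, J n) = univ := by rw [← hJe]; exact hU0
  have hdis : Pairwise (Function.onFun Disjoint J) := by rw [← hJe]; exact hdis0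
  have hmeas : ∀ n, MeasurableSet (J n) := fun n => measurableSet_Ioc
  have h1 : HasSum (fun n => ∫ x in J n, g x) (∫ x, g x) := by
    have := hasSum_integral_iUnion hmeas hdis (f := g) (μ := volume) (by rw [hU]; exact hg.integrableOn)
    rwa [hU, setIntegral_univ] at this
  have h2 : HasSum (fun n => ∫ x in J n, ‖g'' x‖) (∫ x, ‖g'' x‖) := by
    have := hasSum_integral_iUnion hmeas hdis (f := fun x => ‖g'' x‖) (μ := volume)
      (by rw [hU]; exact hg''.norm.integrableOn)
    rwa [hU, setIntegral_univ] at this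
  -- the local estimate
  have h3 : ∀ n : ℤ, ‖(M : ℂ) * g (r + M * n) - ∫ x in J n, g x‖ ≤ M ^ 2 * ∫ x in J n, ‖g'' x‖ := by
    intro n
    set c : ℝ := r + M * n with hc
    have hvol : volume.real (J n) = M := by
      rw [measureReal_def, hJ]
      simp only [← hc]
      rw [Real.volume_Ioc, ENNReal.toReal_ofReal (by linarith)]
      ring
    have hfin : volume (J n) < ⊤ := by rw [hJ]; simp [Real.volume_Ioc]
    have e1 : (M : ℂ) * g c = ∫ x in J n, g c := by
      rw [setIntegral_const, hvol]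
      simp
    have hi1 : Integrable (fun _ : ℝ => g c) (volume.restrict (J n)) :=
      (integrableOn_const_iff).2 (Or.inr hfin)
    have hi2 : Integrable (fun x : ℝ => ((x - c : ℝ) : ℂ) * g' c) (volume.restrict (J n)) := by
      have hcont : Continuous (fun x : ℝ => ((x - c : ℝ) : ℂ) * g' c) := by fun_prop
      exact (hcont.integrableOn_Icc (μ := volume) (a := c - M / 2) (b := c + M / 2)).mono_set
        Ioc_subset_Icc_self
    have e2 : ∫ x in J n, ((x - c : ℝ) : ℂ) * g' c = 0 := EM2_lin c M hM (g' c)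
    have e3 : (M : ℂ) * g c - ∫ x in J n, g x =
        ∫ x in J n, (g c + ((x - c : ℝ) : ℂ) * g' c - g x) := by
      have e4 : ∫ x in J n, (g c + ((x - c : ℝ) : ℂ) * g' c - g x) =
          (∫ x in J n, (g c + ((x - c : ℝ) : ℂ) * g' c)) - ∫ x in J n, g x :=
        integral_sub (hi1.add hi2) hg.integrableOn
      have e5 : ∫ x in J n, (g c + ((x - c : ℝ) : ℂ) * g' c) =
          (∫ x in J n, g c) + ∫ x in J n, ((x - c : ℝ) : ℂ) * g' c := integral_add hi1 hi2
      rw [e4, e5, e2, add_zero, e1]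
    rw [e3]
    have h4 : ∀ x ∈ J n, ‖g c + ((x - c : ℝ) : ℂ) * g' c - g x‖ ≤ M * ∫ x in J n, ‖g'' x‖ := by
      intro x hx
      have := EM2_pt (c - M / 2) (c + M / 2) c (by linarith) (by linarith) g g' g'' hd hd' hg'' x
        (Ioc_subset_Icc_self hx)
      have e4 : (c + M / 2) - (c - M / 2) = M := by ring
      rw [e4] at this
      exact this
    have h5 := norm_setIntegral_le_of_norm_le_const (μ := volume) (s := J n)
      (f := fun x => g c + ((x - c : ℝ) : ℂ) * g' c - g x) hfin h4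
    refine h5.trans (le_of_eq ?_)
    rw [hvol]; ring
  have h4 : Summable (fun n : ℤ => (M : ℂ) * g (r + M * n) - ∫ x in J n, g x) :=
    Summable.of_norm_bounded (g := fun n => M ^ 2 * ∫ x in J n, ‖g'' x‖)
      (h2.summable.mul_left (M ^ 2)) h3
  have h5 : Summable (fun n : ℤ => (M : ℂ) * g (r + M * n)) := by
    have := h4.add h1.summable
    simpa using this
  have hMC : (M : ℂ) ≠ 0 := by exact_mod_cast hM.ne'
  have h6 : Summable (fun n : ℤ => g (r + M * n)) := by
    have := h5.mul_left (M : ℂ)⁻¹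
    simpa [← mul_assoc, inv_mul_cancel₀ hMC] using this
  refine ⟨h6, ?_⟩
  rw [← tsum_mul_left, ← h1.tsum_eq, ← Summable.tsum_sub h5 h1.summable]
  exact tsum_of_norm_bounded (h2.mul_left (M ^ 2)) h3

end Pool.Agent.Lib.MP_058a58_ag.MT
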