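import Pool.Agent.Lib.MP_058a58_ag.MT.DStm2

set_option autoImplicit false

/-! # Defect form: the piece EPC (Euler products) -/

namespace Pool.Agent.Lib.MP_058a58_ag.MT

private theorem EPC_pow (p e : ℕ) (s : ℂ) :
    (((p ^ e : ℕ)) : ℂ) ^ (-s) = ((p : ℂ) ^ (-s)) ^ e := by
  rw [Nat.cast_pow, ← Complex.natCast_cpow_natCast_mul, Complex.cpow_nat_mul]

theorem p_EPC : S_EPC := by
  intro u s h0 h1 hmul hsum
  have hf1 : ((u 1 : ℝ) : ℂ) * ((1 : ℕ) : ℂ) ^ (-s) = 1 := by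
    rw [h1, Nat.cast_one, Complex.one_cpow, Complex.ofReal_one, one_mul]
  have hf0 : ((u 0 : ℝ) : ℂ) * ((0 : ℕ) : ℂ) ^ (-s) = 0 := by
    rw [h0, Complex.ofReal_zero, zero_mul]
  have hfm : ∀ {m n : ℕ}, m.Coprime n → ((u (m * n) : ℝ) : ℂ) * ((m * n : ℕ) : ℂ) ^ (-s) =
      (((u m : ℝ) : ℂ) * (m : ℂ) ^ (-s)) * (((u n : ℝ) : ℂ) * (n : ℂ) ^ (-s)) := by
    intro m n hmn
    rw [hmul m n hmn, Nat.cast_mul, Complex.natCast_mul_natCast_cpow, Complex.ofReal_mul]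
    ring
  have hfs : Summable (fun n : ℕ => ‖((u n : ℝ) : ℂ) * (n : ℂ) ^ (-s)‖) := by
    refine hsum.congr fun n => ?_
    rcases Nat.eq_zero_or_pos n with rfl | hn
    · rw [h0]; simp
    · rw [norm_mul, Complex.norm_real, Real.norm_eq_abs, Complex.norm_natCast_cpow_of_pos hn,
        Complex.neg_re]
  have key := EulerProduct.eulerProduct_hasProd (f := fun n : ℕ => ((u n : ℝ) : ℂ) * (n : ℂ) ^ (-s))
    hf1 hfm hfs hf0
  have hfun : (fun p : Nat.Primes => DpC u s p) = fun p : Nat.Primes =>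
      ∑' e : ℕ, ((u ((p : ℕ) ^ e) : ℝ) : ℂ) * (((p : ℕ) ^ e : ℕ) : ℂ) ^ (-s) := by
    funext p
    unfold DpC
    refine tsum_congr fun e => ?_
    rw [EPC_pow]
  rw [hfun]
  exact key

end Pool.Agent.Lib.MP_058a58_ag.MT
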