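import Pool.Agent.Lib.MP_058a58_ag.MT.DStm

set_option autoImplicit false

/-!
# Defect form, piece GHT: the function `ug`
-/

open UpperHalfPlane MeasureTheory Filter Topology
open scoped MatrixGroups Modular

namespace Pool.Agent.Lib.MP_058a58_ag.MT

private theorem GHT_nonneg (l : ℕ) (x : ℝ) (hx : 0 ≤ x) : 0 ≤ gr l x := by
  unfold gr
  positivity

private theorem GHT_bd (l : ℕ) (e : ℝ) (he : 0 < e) :
    ∃ C : ℝ, 0 ≤ C ∧ ∀ x : ℝ, 0 < x → gr l x ≤ C * x ^ (-e) := by
  have h1 := tendsto_rpow_mul_exp_neg_mul_atTop_nhds_zero ((l : ℝ) / 2 + e) Real.pi Real.pi_pos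
  have h2 : ∀ᶠ x : ℝ in atTop, x ^ ((l : ℝ) / 2 + e) * Real.exp (-Real.pi * x) ≤ 1 :=
    (h1.eventually (gt_mem_nhds one_pos)).mono fun x hx => le_of_lt hx
  obtain ⟨R, hR⟩ := eventually_atTop.1 h2
  have ha : 0 ≤ (l : ℝ) / 2 + e := by positivity
  refine ⟨1 + |R| ^ ((l : ℝ) / 2 + e), by positivity, ?_⟩
  intro x hx
  have h3 : gr l x = (x ^ ((l : ℝ) / 2 + e) * Real.exp (-Real.pi * x)) * x ^ (-e) := by
    unfold gr
    rw [Real.rpow_add hx, Real.rpow_neg hx.le]
    have : x ^ e ≠ 0 := (Real.rpow_pos_of_pos hx e).ne'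
    field_simp
  rw [h3]
  refine mul_le_mul_of_nonneg_right ?_ (by positivity)
  rcases le_total R x with h | h
  · refine (hR x h).trans ?_
    have : 0 ≤ |R| ^ ((l : ℝ) / 2 + e) := by positivity
    linarith
  · have h4 : x ^ ((l : ℝ) / 2 + e) ≤ |R| ^ ((l : ℝ) / 2 + e) :=
      Real.rpow_le_rpow hx.le (h.trans (le_abs_self R)) ha
    have h5 : Real.exp (-Real.pi * x) ≤ 1 := by
      rw [Real.exp_le_one_iff]
      have := Real.pi_pos
      nlinarith
    calc x ^ ((l : ℝ) / 2 + e) * Real.exp (-Real.pi * x)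
        ≤ |R| ^ ((l : ℝ) / 2 + e) * 1 :=
          mul_le_mul h4 h5 (Real.exp_pos _).le (by positivity)
      _ ≤ 1 + |R| ^ ((l : ℝ) / 2 + e) := by linarith

/-- the general term -/
private noncomputable def GHT_a (M l : ℕ) (n : ℕ) (q : ℝ × ℝ) : ℝ :=
  if 1 ≤ n ∧ n.Coprime M then gr l (q.1 * (n : ℝ) ^ 2 / q.2) else 0

private theorem GHT_meas (M l n : ℕ) : Measurable (GHT_a M l n) := by
  unfold GHT_a
  split_ifs
  · unfold gr
    fun_prop
  · exact measurable_const

private theorem GHT_bound (M l : ℕ) (e C : ℝ) (hC : 0 ≤ C)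
    (hb : ∀ x : ℝ, 0 < x → gr l x ≤ C * x ^ (-e)) (T y : ℝ) (hT : 0 < T) (hy : 0 < y) (n : ℕ) :
    0 ≤ GHT_a M l n (T, y) ∧ GHT_a M l n (T, y) ≤ C * (y / T) ^ e * (n : ℝ) ^ (-(2 * e)) := by
  unfold GHT_a
  split_ifs with h
  · have hn : (0 : ℝ) < n := by
      have := h.1
      exact_mod_cast this
    have h1 : 0 < T * (n : ℝ) ^ 2 / y := by positivity
    refine ⟨GHT_nonneg l _ h1.le, (hb _ h1).trans (le_of_eq ?_)⟩
    rw [mul_assoc]
    congr 1
    have h2 : T * (n : ℝ) ^ 2 / y = (y / T)⁻¹ * (n : ℝ) ^ 2 := by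
      field_simp
    rw [h2, Real.mul_rpow (by positivity) (by positivity), Real.rpow_neg (by positivity),
      Real.inv_rpow (by positivity), inv_inv]
    congr 1
    rw [← Real.rpow_natCast (n : ℝ) 2, ← Real.rpow_mul hn.le]
    congr 1
    push_cast
    ring
  · exact ⟨le_refl _, by positivity⟩

private theorem GHT_summable (M l : ℕ) (T y : ℝ) (hT : 0 < T) (hy : 0 < y) :
    Summable (fun n => GHT_a M l n (T, y)) := by
  obtain ⟨C, hC, hb⟩ := GHT_bd l 1 one_pos
  refine Summable.of_nonneg_of_le (fun n => (GHT_bound M l 1 C hC hb T y hT hy n).1)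
    (fun n => (GHT_bound M l 1 C hC hb T y hT hy n).2) ?_
  refine Summable.mul_left _ ?_
  exact Real.summable_nat_rpow.2 (by norm_num)

private theorem GHT_ug (M l : ℕ) (T y : ℝ) (hy : 0 < y) :
    ug M l T y = ∑' n, GHT_a M l n (T, y) := by
  unfold ug
  rw [if_pos hy]
  rfl

private theorem GHT_measurable (M l : ℕ) :
    Measurable (fun q : ℝ × ℝ => if 0 < q.1 then ug M l q.1 q.2 else 0) := by
  have hS : MeasurableSet {q : ℝ × ℝ | 0 < q.1 ∧ 0 < q.2} :=
    (measurableSet_lt measurable_const measurable_fst).inter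
      (measurableSet_lt measurable_const measurable_snd)
  refine measurable_of_tendsto_metrizable
    (f := fun N => Set.indicator {q : ℝ × ℝ | 0 < q.1 ∧ 0 < q.2}
      (fun q => ∑ n ∈ Finset.range N, GHT_a M l n q))
    (fun N => (Finset.measurable_sum _ fun n _ => GHT_meas M l n).indicator hS) ?_
  rw [tendsto_pi_nhds]
  intro q
  by_cases hq : 0 < q.1 ∧ 0 < q.2
  · have h1 : ∀ N : ℕ, Set.indicator {q : ℝ × ℝ | 0 < q.1 ∧ 0 < q.2}
      (fun q => ∑ n ∈ Finset.range N, GHT_a M l n q) q = ∑ n ∈ Finset.range N, GHT_a M l n q :=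
      fun N => Set.indicator_of_mem (s := {q : ℝ × ℝ | 0 < q.1 ∧ 0 < q.2}) hq _
    simp only [h1]
    rw [if_pos hq.1, GHT_ug M l q.1 q.2 hq.2]
    exact (GHT_summable M l q.1 q.2 hq.1 hq.2).hasSum.tendsto_sum_nat
  · have h1 : ∀ N : ℕ, Set.indicator {q : ℝ × ℝ | 0 < q.1 ∧ 0 < q.2}
      (fun q => ∑ n ∈ Finset.range N, GHT_a M l n q) q = 0 :=
      fun N => Set.indicator_of_notMem (s := {q : ℝ × ℝ | 0 < q.1 ∧ 0 < q.2}) hq _
    simp only [h1]
    have h2 : (if 0 < q.1 then ug M l q.1 q.2 else 0) = 0 := by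
      by_cases h3 : 0 < q.1
      · rw [if_pos h3]
        unfold ug
        rw [if_neg fun h4 => hq ⟨h3, h4⟩]
      · rw [if_neg h3]
    rw [h2]
    exact tendsto_const_nhds

private theorem GHT_measurable' (M l : ℕ) (T : ℝ) (hT : 0 < T) : Measurable (ug M l T) := by
  have h1 := (GHT_measurable M l).comp (measurable_prodMk_left (x := T))
  have h2 : (fun q : ℝ × ℝ => if 0 < q.1 then ug M l q.1 q.2 else 0) ∘ (Prod.mk T) =
      ug M l T := by
    funext y
    change (if 0 < T then ug M l T y else 0) = ug M l T y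
    rw [if_pos hT]
  rw [h2] at h1
  exact h1

private theorem GHT_ug_nonneg (M l : ℕ) (T y : ℝ) (hT : 0 < T) : 0 ≤ ug M l T y := by
  by_cases hy : 0 < y
  · rw [GHT_ug M l T y hy]
    obtain ⟨C, hC, hb⟩ := GHT_bd l 1 one_pos
    exact tsum_nonneg fun n => (GHT_bound M l 1 C hC hb T y hT hy n).1
  · unfold ug
    rw [if_neg hy]

private theorem GHT_le (M l : ℕ) (e : ℝ) (he : 1 / 2 < e) (T : ℝ) (hT : 0 < T) :
    ∃ D : ℝ, ∀ y : ℝ, 0 < y → ug M l T y ≤ D * y ^ e := by
  obtain ⟨C, hC, hb⟩ := GHT_bd l e (by linarith)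
  refine ⟨C * T ^ (-e) * ∑' n : ℕ, (n : ℝ) ^ (-(2 * e)), fun y hy => ?_⟩
  rw [GHT_ug M l T y hy]
  have hs : Summable (fun n : ℕ => (n : ℝ) ^ (-(2 * e))) :=
    Real.summable_nat_rpow.2 (by linarith)
  have h1 : ∑' n, GHT_a M l n (T, y) ≤ ∑' n : ℕ, C * (y / T) ^ e * (n : ℝ) ^ (-(2 * e)) :=
    Summable.tsum_le_tsum (fun n => (GHT_bound M l e C hC hb T y hT hy n).2)
      (GHT_summable M l T y hT hy) (hs.mul_left _)
  refine h1.trans (le_of_eq ?_)
  rw [tsum_mul_left, Real.div_rpow hy.le hT.le, Real.rpow_neg hT.le]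
  ring

private theorem GHT_int (M l : ℕ) (T : ℝ) (hT : 0 < T) :
    IntegrableOn (fun y : ℝ => ug M l T y / y ^ 2) (Set.Ioi 0) := by
  have hm : Measurable (fun y : ℝ => ug M l T y / y ^ 2) :=
    (GHT_measurable' M l T hT).div (by fun_prop)
  rw [← Set.Ioc_union_Ioi_eq_Ioi (zero_le_one (α := ℝ))]
  refine IntegrableOn.union ?_ ?_
  · obtain ⟨D, hD⟩ := GHT_le M l 2 (by norm_num) T hT
    have h1 : IntegrableOn (fun _ : ℝ => D) (Set.Ioc 0 1) := by
      simp
    refine Integrable.mono' h1 hm.aestronglyMeasurable ?_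
    rw [ae_restrict_iff' measurableSet_Ioc]
    refine Eventually.of_forall fun y hy => ?_
    have hy0 : 0 < y := hy.1
    rw [Real.norm_of_nonneg (div_nonneg (GHT_ug_nonneg M l T y hT) (by positivity)),
      div_le_iff₀ (by positivity)]
    refine (hD y hy0).trans (le_of_eq ?_)
    norm_cast
  · obtain ⟨D, hD⟩ := GHT_le M l (3 / 4) (by norm_num) T hT
    have h1 : IntegrableOn (fun y : ℝ => D * y ^ (-(5 / 4) : ℝ)) (Set.Ioi 1) := by
      refine Integrable.const_mul ?_ _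
      exact integrableOn_Ioi_rpow_of_lt (by norm_num) zero_lt_one
    refine Integrable.mono' h1 hm.aestronglyMeasurable ?_
    rw [ae_restrict_iff' measurableSet_Ioi]
    refine Eventually.of_forall fun y hy => ?_
    have hy0 : 0 < y := lt_trans zero_lt_one hy
    rw [Real.norm_of_nonneg (div_nonneg (GHT_ug_nonneg M l T y hT) (by positivity)),
      div_le_iff₀ (by positivity)]
    refine (hD y hy0).trans (le_of_eq ?_)
    rw [mul_assoc]
    congr 1
    rw [← Real.rpow_natCast y 2, ← Real.rpow_add hy0]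
    norm_num

theorem p_GHT : S_GHT := by
  intro hSI M l _
  refine ⟨GHT_measurable M l, fun T hT => ⟨GHT_measurable' M l T hT,
    fun y => GHT_ug_nonneg M l T y hT, fun y hy => GHT_summable M l T y hT hy,
    GHT_int M l T hT, ?_⟩⟩
  have hG : Measurable (fun z : ℂ => ((ug M l T z.im : ℝ) : ℂ)) :=
    Complex.measurable_ofReal.comp ((GHT_measurable' M l T hT).comp Complex.measurable_im)
  have h1 := (hSI (fun z : ℂ => ((ug M l T z.im : ℝ) : ℂ)) hG).1.2 ?_
  · have h2 := h1.re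
    refine h2.congr (Eventually.of_forall fun z => ?_)
    simp
  · have h3 : Integrable (fun y : ℝ => ((1 / y ^ 2 : ℝ) : ℂ) * ((ug M l T y : ℝ) : ℂ))
        (volume.restrict (Set.Ioi (0 : ℝ))) := by
      have h4 := (GHT_int M l T hT).ofReal (𝕜 := ℂ)
      refine h4.congr (Eventually.of_forall fun y => ?_)
      simp only [RCLike.ofReal_alg]
      push_cast
      simp [div_eq_mul_inv, mul_comm]
    have h5 := h3.comp_snd (volume.restrict (Set.Ico (0 : ℝ) 1))
    refine h5.congr (Eventually.of_forall fun q => ?_)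
    simp

end Pool.Agent.Lib.MP_058a58_ag.MT
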