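import Pool.Agent.Lib.MP_058a58_ag.MT.D.GPD

set_option autoImplicit false

/-!
# Defect form: piece GJ
-/

open UpperHalfPlane MeasureTheory Filter Topology
open scoped MatrixGroups Modular ComplexConjugate

namespace Pool.Agent.Lib.MP_058a58_ag.MT

private theorem GJ_gauss : ∫ x : ℝ, Real.exp (-Real.pi * x ^ 2) = 1 := by
  rw [integral_gaussian, div_self Real.pi_pos.ne', Real.sqrt_one]

private theorem GJ_int1 : Integrable (fun x : ℝ => Real.exp (-x ^ 2)) := by
  have h := integrable_exp_neg_mul_sq (b := 1) one_pos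
  simpa using h

private theorem GJ_zero (l : ℕ) (hl : l ≠ 0) :
    ∫ η : ℝ, ∫ ξ : ℝ, gl l (ξ + η * Complex.I) = 0 := by
  obtain ⟨C, gx, gxx, gy, gyy, hC, -, -, -, -, -, hb⟩ := p_GPD l
  have hcont : Continuous (gl l) := by
    unfold gl
    fun_prop
  have hint : Integrable (fun p : ℝ × ℝ => gl l (p.1 + p.2 * Complex.I))
      (volume.prod volume) := by
    refine Integrable.mono' ((GJ_int1.const_mul C).mul_prod GJ_int1) ?_
      (Filter.Eventually.of_forall fun p => (hb p.1 p.2).1)
    exact (hcont.comp (by fun_prop)).aestronglyMeasurable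
  have h1 : ∫ η : ℝ, ∫ ξ : ℝ, gl l (ξ + η * Complex.I) =
      ∫ p : ℝ × ℝ, gl l (p.1 + p.2 * Complex.I) := (integral_prod_symm _ hint).symm
  have h2 : ∫ p : ℝ × ℝ, gl l (p.1 + p.2 * Complex.I) = ∫ v : ℂ, gl l v := by
    rw [← Complex.volume_preserving_equiv_real_prod.integral_comp
      Complex.measurableEquivRealProd.measurableEmbedding]
    refine integral_congr_ae (Filter.Eventually.of_forall fun v => ?_)
    show gl l (v.re + v.im * Complex.I) = gl l v
    rw [Complex.re_add_im]
  have hl' : (l : ℂ) ≠ 0 := by exact_mod_cast hl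
  set t : ℝ := Real.pi / l with ht
  set a : Circle := Circle.exp t with ha
  have hal : (a : ℂ) ^ l = -1 := by
    rw [ha, Circle.coe_exp, ← Complex.exp_nat_mul]
    have : (l : ℂ) * ((t : ℂ) * Complex.I) = Real.pi * Complex.I := by
      rw [ht]; push_cast; field_simp
    rw [this, Complex.exp_pi_mul_I]
  have h3 : ∫ v : ℂ, gl l (rotation a v) = ∫ v : ℂ, gl l v :=
    (rotation a).measurePreserving.integral_comp
      (rotation a).toHomeomorph.measurableEmbedding _
  have h4 : ∫ v : ℂ, gl l (rotation a v) = - ∫ v : ℂ, gl l v := by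
    have : ∀ v : ℂ, gl l (rotation a v) = - gl l v := by
      intro v
      unfold gl
      rw [rotation_apply, mul_pow, hal, norm_mul, Circle.norm_coe a, one_mul]; ring
    simp only [this]
    rw [integral_neg]
  rw [h1, h2]
  have h5 := h3.symm.trans h4
  have h6 : (2 : ℂ) * ∫ v : ℂ, gl l v = 0 := by linear_combination h5
  simpa using h6

theorem p_GJ : S_GJ := by
  intro l
  by_cases hl : l = 0
  · rw [if_pos hl, hl]
    have h1 : ∀ ξ η : ℝ, gl 0 (ξ + η * Complex.I) =
        ((Real.exp (-Real.pi * ξ ^ 2) : ℝ) : ℂ) * ((Real.exp (-Real.pi * η ^ 2) : ℝ) : ℂ) := by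
      intro ξ η
      unfold gl
      rw [pow_zero, one_mul, ← Complex.normSq_eq_norm_sq, Complex.normSq_add_mul_I, mul_add,
        Real.exp_add, Complex.ofReal_mul]
    have h2 : ∀ η : ℝ, ∫ ξ : ℝ, gl 0 (ξ + η * Complex.I) =
        ((Real.exp (-Real.pi * η ^ 2) : ℝ) : ℂ) := by
      intro η
      simp only [h1]
      rw [integral_mul_const, integral_complex_ofReal, GJ_gauss]
      simp
    simp only [h2]
    rw [integral_complex_ofReal, GJ_gauss]
    simp
  · rw [if_neg hl]
    exact GJ_zero l hl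

end Pool.Agent.Lib.MP_058a58_ag.MT
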