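import Pool.Agent.Lib.MP_058a58_ag.MT.DStm
import Pool.Agent.Lib.MP_058a58_ag.MT.P.Lat2

set_option autoImplicit false

/-!
# Defect form: the theta sum on the translates of the fundamental domain (piece GL)
-/

open UpperHalfPlane MeasureTheory Filter Topology
open scoped MatrixGroups Modular

namespace Pool.Agent.Lib.MP_058a58_ag.MT

theorem GL_rot (l : ℕ) (a v : ℂ) (ha : ‖a‖ = 1) : gl l (a * v) = a ^ l * gl l v := by
  unfold gl
  rw [norm_mul, ha, one_mul, mul_pow, mul_assoc]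

/-- the elementary inequality for the three error terms -/
theorem GL_ineq (T y : ℝ) (hT : 0 < T) (hT1 : T ≤ 1) (hy : 1 / 2 ≤ y) :
    Real.sqrt T / Real.sqrt y + (Real.sqrt T / Real.sqrt y) / (Real.sqrt T * Real.sqrt y) +
      (Real.sqrt T / Real.sqrt y)⁻¹ * min 1 (Real.sqrt T * Real.sqrt y) ≤
      9 * (T ^ (-(1 / 4 : ℝ)) * y ^ (3 / 4 : ℝ)) := by
  have hy0 : 0 < y := by linarith
  set t : ℝ := T ^ (1 / 4 : ℝ) with ht
  set q : ℝ := y ^ (1 / 4 : ℝ) with hq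
  have ht0 : 0 < t := Real.rpow_pos_of_pos hT _
  have hq0 : 0 < q := Real.rpow_pos_of_pos hy0 _
  have ht1 : t ≤ 1 := Real.rpow_le_one hT.le hT1 (by norm_num)
  have e1 : Real.sqrt T = t ^ 2 := by
    rw [ht, Real.sqrt_eq_rpow, ← Real.rpow_natCast, ← Real.rpow_mul hT.le]
    norm_num
  have e2 : Real.sqrt y = q ^ 2 := by
    rw [hq, Real.sqrt_eq_rpow, ← Real.rpow_natCast, ← Real.rpow_mul hy0.le]
    norm_num
  have e3 : T ^ (-(1 / 4 : ℝ)) = t⁻¹ := Real.rpow_neg hT.le _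
  have e4 : y ^ (3 / 4 : ℝ) = q ^ 3 := by
    rw [hq, ← Real.rpow_natCast, ← Real.rpow_mul hy0.le]
    norm_num
  have e5 : q ^ 4 = y := by
    rw [hq, ← Real.rpow_natCast, ← Real.rpow_mul hy0.le]
    norm_num
  rw [e1, e2, e3, e4]
  have hq4 : 1 / 2 ≤ q ^ 4 := by rw [e5]; exact hy
  have hq3 : 1 / 2 ≤ q ^ 3 := by
    rcases le_total q 1 with h | h
    · have : q ^ 4 ≤ q ^ 3 := pow_le_pow_of_le_one hq0.le h (by norm_num)
      linarith
    · have : 1 ≤ q ^ 3 := one_le_pow₀ h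
      linarith
  have hq2 : 1 / 2 ≤ q ^ 2 := by
    rcases le_total q 1 with h | h
    · have : q ^ 4 ≤ q ^ 2 := pow_le_pow_of_le_one hq0.le h (by norm_num)
      linarith
    · have : 1 ≤ q ^ 2 := one_le_pow₀ h
      linarith
  have ht3 : t ^ 3 ≤ 1 := pow_le_one₀ ht0.le ht1
  have f1 : t ^ 2 / q ^ 2 ≤ 4 * (t⁻¹ * q ^ 3) := by
    rw [div_le_iff₀ (by positivity)]
    have h1 : 4 * (t⁻¹ * q ^ 3) * q ^ 2 = 4 * (q ^ 3 * q ^ 2) / t := by
      field_simp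
    rw [h1, le_div_iff₀ ht0]
    have h2 : (1 / 2 : ℝ) * (1 / 2) ≤ q ^ 3 * q ^ 2 :=
      mul_le_mul hq3 hq2 (by norm_num) (by positivity)
    calc t ^ 2 * t = t ^ 3 := by ring
      _ ≤ 1 := ht3
      _ ≤ _ := by linarith
  have f2 : t ^ 2 / q ^ 2 / (t ^ 2 * q ^ 2) ≤ 4 * (t⁻¹ * q ^ 3) := by
    have h1 : t ^ 2 / q ^ 2 / (t ^ 2 * q ^ 2) = 1 / q ^ 4 := by
      field_simp
    rw [h1]
    have h2 : 1 / q ^ 4 ≤ 2 := by
      rw [div_le_iff₀ (by positivity)]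
      linarith
    have h3 : 1 ≤ t⁻¹ := (one_le_inv₀ ht0).2 ht1
    have h4 : 1 / 2 ≤ t⁻¹ * q ^ 3 := by
      calc (1 / 2 : ℝ) = 1 * (1 / 2) := by ring
        _ ≤ t⁻¹ * q ^ 3 := mul_le_mul h3 hq3 (by norm_num) (by positivity)
    linarith
  have f3 : (t ^ 2 / q ^ 2)⁻¹ * min 1 (t ^ 2 * q ^ 2) ≤ t⁻¹ * q ^ 3 := by
    have h1 : min 1 (t ^ 2 * q ^ 2) ≤ t * q := by
      have h0 : 0 < t * q := by positivity
      rcases le_total (t * q) 1 with h | h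
      · refine (min_le_right _ _).trans ?_
        have : t ^ 2 * q ^ 2 = (t * q) * (t * q) := by ring
        rw [this]
        exact mul_le_of_le_one_left h0.le h
      · exact (min_le_left _ _).trans h
    calc (t ^ 2 / q ^ 2)⁻¹ * min 1 (t ^ 2 * q ^ 2) ≤ (t ^ 2 / q ^ 2)⁻¹ * (t * q) :=
          mul_le_mul_of_nonneg_left h1 (by positivity)
      _ = t⁻¹ * q ^ 3 := by field_simp
  linarith

/-- The number of classes is positive. -/
theorem GL_KK_pos (M : ℕ) [NeZero M] : 0 < KK M := by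
  classical
  unfold KK
  rw [tsum_fintype]
  refine Finset.sum_pos' (fun ρ _ => ?_) ⟨((0 : ZMod M), (1 : ZMod M)), Finset.mem_univ _, ?_⟩
  · split_ifs <;> norm_num
  · rw [if_pos ⟨rfl, isUnit_one⟩]
    exact one_pos

/-- One coset, on the fundamental domain. -/
theorem GL_coset (M l : ℕ) [NeZero M] (hG : R_GRW) : ∃ C : ℝ, 0 ≤ C ∧ ∀ T : ℝ, 0 < T → T ≤ 1 →
    ∀ z : ℍ, z ∈ 𝒟 → ∀ ρ : ZMod M × ZMod M,
    Summable (fun m : ℤ × ℤ =>
      gl l ((Real.sqrt T : ℂ) * vz z (e1 M (ρ, m)).1 (e1 M (ρ, m)).2)) ∧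
    ‖(M : ℂ) ^ 2 * (∑' m : ℤ × ℤ,
        gl l ((Real.sqrt T : ℂ) * vz z (e1 M (ρ, m)).1 (e1 M (ρ, m)).2)) -
      ((T⁻¹ : ℝ) : ℂ) * ∫ η : ℝ, ∫ ξ : ℝ, gl l (ξ + η * Complex.I)‖ ≤
      C * (9 * (T ^ (-(1 / 4 : ℝ)) * z.im ^ (3 / 4 : ℝ))) := by
  have hM : 1 ≤ M := Nat.one_le_iff_ne_zero.2 (NeZero.ne M)
  obtain ⟨C, hC, h⟩ := hG M l hM
  refine ⟨C, hC, fun T hT hT1 z hz ρ => ?_⟩
  have hq0 : (0 : ℝ) < Real.sqrt z.im := Real.sqrt_pos.2 z.im_pos
  have hT0 : (0 : ℝ) < Real.sqrt T := Real.sqrt_pos.2 hT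
  have hq1 : (Real.sqrt z.im) * (Real.sqrt z.im) = z.im := Real.mul_self_sqrt z.im_pos.le
  have hT2 : (Real.sqrt T) * (Real.sqrt T) = T := Real.mul_self_sqrt hT.le
  have hy : 1 / 2 ≤ z.im := by
    have h3 := ModularGroup.three_le_four_mul_im_sq_of_mem_fd hz
    nlinarith [z.im_pos]
  obtain ⟨a1, a2⟩ := h (Real.sqrt T / Real.sqrt z.im) (Real.sqrt T * Real.sqrt z.im) z.re
    ρ.1.val ρ.2.val (by positivity) (by positivity)
  have key : ∀ m : ℤ × ℤ, gl l ((Real.sqrt T : ℂ) * vz z (e1 M (ρ, m)).1 (e1 M (ρ, m)).2) =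
      gl l (((Real.sqrt T / Real.sqrt z.im *
        (((ρ.1.val : ℝ) + M * m.1) * z.re + ((ρ.2.val : ℝ) + M * m.2)) : ℝ) : ℂ) +
        ((((ρ.1.val : ℝ) + M * m.1) * (Real.sqrt T * Real.sqrt z.im) : ℝ) : ℂ) * Complex.I) := by
    intro m
    rw [e1_apply]
    congr 1
    unfold vz
    have hq' : (Real.sqrt z.im : ℂ) ≠ 0 := by exact_mod_cast hq0.ne'
    have hz' : (z : ℂ) = z.re + z.im * Complex.I := (Complex.re_add_im (z : ℂ)).symm
    have hi : (z.im : ℂ) = (Real.sqrt z.im : ℂ) * (Real.sqrt z.im : ℂ) := by exact_mod_cast hq1.symm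
    rw [hz', hi]
    push_cast
    field_simp
    ring
  have hAB : ((Real.sqrt T / Real.sqrt z.im) * (Real.sqrt T * Real.sqrt z.im))⁻¹ = T⁻¹ := by
    congr 1
    calc (Real.sqrt T / Real.sqrt z.im) * (Real.sqrt T * Real.sqrt z.im)
        = Real.sqrt T * Real.sqrt T := by field_simp
      _ = T := hT2
  rw [hAB] at a2
  simp only [← key] at a1 a2
  refine ⟨a1, a2.trans ?_⟩
  exact mul_le_mul_of_nonneg_left (GL_ineq T z.im hT hT1 hy) hC

open Classical in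
theorem p_GL : S_GL := by
  intro hG hJ M l hM
  have : NeZero M := ⟨by omega⟩
  have hM0 : 0 < M := hM
  obtain ⟨C, hC, hcos0⟩ := GL_coset M l hG
  have hKK := GL_KK_pos M
  refine ⟨KK M / (M : ℝ) ^ 2, 9 * C, by positivity, by positivity, ?_⟩
  intro T hT hT1 δ z hδ
  set w0 : ℍ := δ • z with hw0
  have hM1 : (1 : ℝ) ≤ M := by exact_mod_cast hM
  have hj : jf δ z ≠ 0 := by
    have := UpperHalfPlane.denom_ne_zero (δ : GL (Fin 2) ℝ) z
    simpa [jf, ModularGroup.denom_apply] using this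
  set a : ℂ := jf δ z / (‖jf δ z‖ : ℂ) with ha
  have hna : ‖a‖ = 1 := by
    rw [ha, norm_div, Complex.norm_real, norm_norm, div_self (norm_ne_zero_iff.2 hj)]
  set H : ℤ × ℤ → ℂ := fun v => if (M : ℤ) ∣ v.1 ∧ IsCoprime v.2 (M : ℤ) then
      gl l ((Real.sqrt T : ℂ) * vz z v.1 v.2) else 0 with hH
  -- transported to the fundamental domain
  set P : (ZMod M × ZMod M) × (ℤ × ℤ) → ℂ := fun x =>
    (if (actZ M δ x.1).1 = 0 ∧ IsUnit (actZ M δ x.1).2 then a ^ l else 0) *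
      gl l ((Real.sqrt T : ℂ) * vz w0 (e1 M x).1 (e1 M x).2) with hP
  have hHP : ∀ x, H (act δ (e1 M x)) = P x := by
    intro x
    obtain ⟨ρ, m⟩ := x
    have h1 := cond_iff M (act δ (e1 M (ρ, m)))
    have h2 := cond_act M δ ρ m
    have h3 : (((act δ (e1 M (ρ, m))).1 : ZMod M)) = (actZ M δ ρ).1 := congrArg Prod.fst h2
    have h4 : (((act δ (e1 M (ρ, m))).2 : ZMod M)) = (actZ M δ ρ).2 := congrArg Prod.snd h2
    rw [h3, h4] at h1
    simp only [hH, hP]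
    rw [if_congr h1 rfl rfl, vz_act, ← ha, mul_left_comm, GL_rot _ _ _ hna, ← hw0]
    split_ifs
    · rfl
    · rw [zero_mul]
  have hcos := fun ρ => hcos0 T hT hT1 w0 hδ ρ
  -- summability
  have hPs : Summable P := by
    have hB : Summable fun x : (ZMod M × ZMod M) × (ℤ × ℤ) =>
        ‖gl l ((Real.sqrt T : ℂ) * vz w0 (e1 M x).1 (e1 M x).2)‖ := by
      rw [summable_prod_of_nonneg (fun x => norm_nonneg _)]
      exact ⟨fun ρ => (hcos ρ).1.norm, (hasSum_fintype _).summable⟩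
    refine Summable.of_norm_bounded hB fun x => ?_
    simp only [hP, norm_mul]
    have : ‖(if (actZ M δ x.1).1 = 0 ∧ IsUnit (actZ M δ x.1).2 then a ^ l else 0)‖ ≤ 1 := by
      split_ifs
      · rw [norm_pow, hna, one_pow]
      · simp
    exact mul_le_of_le_one_left (norm_nonneg _) this
  have hZ : Th M l T z = ∑ ρ : ZMod M × ZMod M,
      (if (actZ M δ ρ).1 = 0 ∧ IsUnit (actZ M δ ρ).2 then a ^ l else 0) *
        ∑' m : ℤ × ℤ, gl l ((Real.sqrt T : ℂ) * vz w0 (e1 M (ρ, m)).1 (e1 M (ρ, m)).2) := by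
    have h1 : Th M l T z = ∑' v, H v := by
      unfold Th
      rw [hH]
    rw [h1, ← ((e1 M).trans (act δ)).tsum_eq H]
    have h2 : ∀ x, H (((e1 M).trans (act δ)) x) = P x := hHP
    simp only [h2]
    rw [hPs.tsum_prod, tsum_fintype]
    refine Finset.sum_congr rfl fun ρ _ => ?_
    have h3 : ∀ m : ℤ × ℤ, P (ρ, m) =
        (if (actZ M δ ρ).1 = 0 ∧ IsUnit (actZ M δ ρ).2 then a ^ l else 0) *
        gl l ((Real.sqrt T : ℂ) * vz w0 (e1 M (ρ, m)).1 (e1 M (ρ, m)).2) := fun m => rfl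
    simp only [h3]
    rw [tsum_mul_left]
  set J : ℂ := ((T⁻¹ : ℝ) : ℂ) * ∫ η : ℝ, ∫ ξ : ℝ, gl l (ξ + η * Complex.I) with hJdef
  have hM2 : ((M : ℂ) ^ 2) ≠ 0 := pow_ne_zero _ (by exact_mod_cast hM0.ne')
  -- the main term
  have hmain : ((if l = 0 then KK M / (M : ℝ) ^ 2 / T else 0 : ℝ) : ℂ) = ∑ ρ : ZMod M × ZMod M,
      (if (actZ M δ ρ).1 = 0 ∧ IsUnit (actZ M δ ρ).2 then a ^ l else 0) * (J / (M : ℂ) ^ 2) := by
    rw [← Finset.sum_mul]
    have hcount : ∑ ρ : ZMod M × ZMod M,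
        (if (actZ M δ ρ).1 = 0 ∧ IsUnit (actZ M δ ρ).2 then a ^ l else 0) =
        ∑ ρ : ZMod M × ZMod M, (if ρ.1 = 0 ∧ IsUnit ρ.2 then a ^ l else 0) :=
      (actZ M δ).sum_comp (fun ρ => if ρ.1 = 0 ∧ IsUnit ρ.2 then a ^ l else 0)
    rw [hcount]
    by_cases hl : l = 0
    · subst hl
      rw [if_pos rfl, hJdef, hJ 0, if_pos rfl]
      have hk : (KK M : ℂ) = ∑ ρ : ZMod M × ZMod M,
          (if ρ.1 = 0 ∧ IsUnit ρ.2 then (1 : ℂ) else 0) := by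
        unfold KK
        rw [tsum_fintype, Complex.ofReal_sum]
        refine Finset.sum_congr rfl fun ρ _ => ?_
        split_ifs <;> simp
      simp only [pow_zero]
      rw [← hk]
      have hTc : (T : ℂ) ≠ 0 := by exact_mod_cast hT.ne'
      push_cast
      field_simp
    · rw [if_neg hl, hJdef, hJ l, if_neg hl]
      simp
  rw [hZ, hmain, ← Finset.sum_sub_distrib]
  simp only [← mul_sub]
  have hterm : ∀ ρ : ZMod M × ZMod M,
      ‖(if (actZ M δ ρ).1 = 0 ∧ IsUnit (actZ M δ ρ).2 then a ^ l else 0) *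
        ((∑' m : ℤ × ℤ, gl l ((Real.sqrt T : ℂ) * vz w0 (e1 M (ρ, m)).1 (e1 M (ρ, m)).2)) -
          J / (M : ℂ) ^ 2)‖ ≤
      C * (9 * (T ^ (-(1 / 4 : ℝ)) * w0.im ^ (3 / 4 : ℝ))) / (M : ℝ) ^ 2 := by
    intro ρ
    have h1 : ‖(if (actZ M δ ρ).1 = 0 ∧ IsUnit (actZ M δ ρ).2 then a ^ l else 0)‖ ≤ 1 := by
      split_ifs
      · rw [norm_pow, hna, one_pow]
      · simp
    rw [norm_mul]
    refine (mul_le_of_le_one_left (norm_nonneg _) h1).trans ?_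
    have h2 := (hcos ρ).2
    set T' := ∑' m : ℤ × ℤ, gl l ((Real.sqrt T : ℂ) * vz w0 (e1 M (ρ, m)).1 (e1 M (ρ, m)).2)
      with hT'
    have h3 : T' - J / (M : ℂ) ^ 2 = ((M : ℂ) ^ 2 * T' - J) / (M : ℂ) ^ 2 := by
      rw [sub_div, mul_div_cancel_left₀ _ hM2]
    rw [h3, norm_div, norm_pow, Complex.norm_natCast]
    exact div_le_div_of_nonneg_right h2 (by positivity)
  refine (norm_sum_le _ _).trans ((Finset.sum_le_sum fun ρ _ => hterm ρ).trans (le_of_eq ?_))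
  rw [Finset.sum_const, Finset.card_univ, Fintype.card_prod, ZMod.card, nsmul_eq_mul]
  have hMr : (M : ℝ) ≠ 0 := by positivity
  push_cast
  field_simp

end Pool.Agent.Lib.MP_058a58_ag.MT
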