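import Pool.Agent.Lib.MP_058a58_ag.MT.DStm
import Pool.Agent.Lib.MP_058a58_ag.MT.P.OR

set_option autoImplicit false

/-!
# Defect form, piece GM: the unfolded integral
-/

open UpperHalfPlane MeasureTheory Filter Topology
open scoped MatrixGroups Modular

namespace Pool.Agent.Lib.MP_058a58_ag.MT

private lemma GM_strip : MeasurableSet strip := by
  have h1 : MeasurableSet {z : ℍ | 0 ≤ z.re} :=
    measurableSet_le measurable_const UpperHalfPlane.continuous_re.measurable
  have h2 : MeasurableSet {z : ℍ | z.re < 1} :=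
    measurableSet_lt UpperHalfPlane.continuous_re.measurable measurable_const
  exact h1.inter h2

theorem p_GM : S_GM := by
  classical
  intro hGL hAU hCO hHT hGV hVOL M l R w F hM hw hFc hFb hF
  have hM1 : 1 ≤ M := le_trans (by norm_num) hM
  obtain ⟨κ, CL, hκ, hCL0, hL⟩ := hGL M l hM1
  obtain ⟨CF, hCF⟩ := hFb
  have hCF0 : 0 ≤ CF := (norm_nonneg _).trans (hCF UpperHalfPlane.I)
  -- the bounding function
  obtain ⟨b, hb⟩ : ∃ b : ℍ → ℝ, b = fun z => ∑ δ ∈ R,
    Set.indicator (𝒟 : Set ℍ) (fun z : ℍ => z.im ^ (3 / 4 : ℝ)) (δ • z) := ⟨_, rfl⟩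
  have hD : MeasurableSet (𝒟 : Set ℍ) := ModularGroup.isClosed_fd.measurableSet
  have hbi : Integrable b := by
    rw [hb]
    refine integrable_finsetSum _ fun δ _ => ?_
    exact (OR_mp δ).integrable_comp_of_integrable ((integrable_indicator_iff hD).2 hGV)
  have hterm0 : ∀ (δ : SL(2, ℤ)) (z : ℍ),
      0 ≤ Set.indicator (𝒟 : Set ℍ) (fun z : ℍ => z.im ^ (3 / 4 : ℝ)) (δ • z) := fun δ z =>
    Set.indicator_nonneg (fun z _ => Real.rpow_nonneg z.im_pos.le _) _
  refine ⟨κ, ∫ z, CF * CL * b z, hκ, fun T hT hT1 => ?_⟩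
  have hκb := hL T hT hT1
  -- integrability of the function on the strip
  have hE : Integrable (strip.indicator (fun z : ℍ => F z * (ug M l T z.im : ℂ))) := by
    rw [integrable_indicator_iff GM_strip]
    have h1 : Integrable (fun z : ℍ => (ug M l T z.im : ℂ)) (volume.restrict strip) :=
      ((hHT M l hM1).2 T hT).2.2.2.2.ofReal
    exact h1.bdd_mul (c := CF) hFc.aestronglyMeasurable (Eventually.of_forall hCF)
  have hcount : Countable (CongruenceSubgroup.Gamma0 M) := OR_count _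
  obtain ⟨h1, h2⟩ := hAU (CongruenceSubgroup.Gamma0 M) ℍ volume (fun γ => OR_mp γ) w hw.meas
    hw.nn hw.sum _ hE
  have h3 : ∀ z : ℍ, ∑' γ : CongruenceSubgroup.Gamma0 M,
      strip.indicator (fun z => F z * (ug M l T z.im : ℂ)) (γ • z) = F z * Th M l T z := fun z =>
    hCO M l T hM hT F hF z
  simp_rw [h3] at h1 h2
  rw [integral_indicator GM_strip] at h2
  have h4 : Integrable (fun z => (w z : ℂ) * F z) := OR_int hVOL M R w hw F hFc CF hCF
  have h5 : (if l = 0 then ((κ / T : ℝ) : ℂ) * ∫ z, (w z : ℂ) * F z else 0) =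
      ((if l = 0 then κ / T else 0 : ℝ) : ℂ) * ∫ z, (w z : ℂ) * F z := by
    split_ifs
    · rfl
    · simp
  rw [h5]
  obtain ⟨k, hk⟩ : ∃ k : ℂ, k = ((if l = 0 then κ / T else 0 : ℝ) : ℂ) := ⟨_, rfl⟩
  rw [← hk] at hκb ⊢
  have hT0 : 0 ≤ T ^ (-(1 / 4 : ℝ)) := Real.rpow_nonneg hT.le _
  rw [h2, ← integral_const_mul, ← integral_sub h1 (h4.const_mul k), ← integral_mul_const]
  refine norm_integral_le_of_norm_le ((hbi.const_mul (CF * CL)).mul_const _)
    (Eventually.of_forall fun z => ?_)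
  have e : (w z : ℂ) * (F z * Th M l T z) - k * ((w z : ℂ) * F z) =
      (w z : ℂ) * F z * (Th M l T z - k) := by ring
  rw [e, norm_mul, norm_mul, Complex.norm_real, Real.norm_of_nonneg (hw.nn z)]
  have hb0 : 0 ≤ b z := by
    rw [hb]
    exact Finset.sum_nonneg fun δ _ => hterm0 δ z
  by_cases hz : w z = 0
  · rw [hz, zero_mul, zero_mul]
    exact mul_nonneg (mul_nonneg (mul_nonneg hCF0 hCL0) hb0) hT0
  · obtain ⟨δ, hδ, hδz⟩ := hw.supp z hz
    have h6 := hκb δ z hδz
    have h7 : (δ • z).im ^ (3 / 4 : ℝ) ≤ b z := by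
      have h8 : Set.indicator (𝒟 : Set ℍ) (fun z : ℍ => z.im ^ (3 / 4 : ℝ)) (δ • z) ≤ b z := by
        rw [hb]
        exact Finset.single_le_sum
          (f := fun δ => Set.indicator (𝒟 : Set ℍ) (fun z : ℍ => z.im ^ (3 / 4 : ℝ)) (δ • z))
          (fun δ _ => hterm0 δ z) hδ
      rwa [Set.indicator_of_mem hδz] at h8
    calc w z * ‖F z‖ * ‖Th M l T z - k‖
        ≤ 1 * CF * (CL * T ^ (-(1 / 4 : ℝ)) * b z) := by
          refine mul_le_mul (mul_le_mul (hw.le z) (hCF z) (norm_nonneg _) zero_le_one)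
            (h6.trans (mul_le_mul_of_nonneg_left h7 (mul_nonneg hCL0 hT0))) (norm_nonneg _)
            (by positivity)
      _ = CF * CL * b z * T ^ (-(1 / 4 : ℝ)) := by ring

end Pool.Agent.Lib.MP_058a58_ag.MT
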