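import Pool.Agent.Lib.MP_058a58_ag.MT.DStm2

set_option autoImplicit false

/-!
# Defect form: the two-sided Gram matrix of the Hecke eigenvalues
-/

open UpperHalfPlane MeasureTheory Filter Topology
open scoped MatrixGroups Modular ComplexConjugate

namespace Pool.Agent.Lib.MP_058a58_ag.MT

private lemma GM2_split {F : Nat.Primes × ℕ → ℝ} (hF : Summable F) :
    Summable (fun p : Nat.Primes => F (p, 0)) ∧
    Summable (fun q : Nat.Primes × ℕ => F (q.1, q.2 + 1)) ∧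
    ∑' q, F q = ∑' p : Nat.Primes, F (p, 0) + ∑' q : Nat.Primes × ℕ, F (q.1, q.2 + 1) := by
  have h0 : Summable (fun p : Nat.Primes => F (p, 0)) :=
    hF.comp_injective (i := fun p : Nat.Primes => (p, 0)) (fun p q h => by simpa using h)
  have h1 : Summable (fun q : Nat.Primes × ℕ => F (q.1, q.2 + 1)) :=
    hF.comp_injective (i := fun q : Nat.Primes × ℕ => (q.1, q.2 + 1)) (fun p q h => by
      simp only [Prod.mk.injEq, add_left_inj] at h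
      exact Prod.ext h.1 h.2)
  refine ⟨h0, h1, ?_⟩
  rw [hF.tsum_prod, h1.tsum_prod, ← Summable.tsum_add h0 h1.prod]
  refine tsum_congr fun p => ?_
  rw [Summable.tsum_eq_zero_add (hF.prod_factor p)]

private lemma GM2_cmp (hCCP : S_CCP) (E : Finset ℕ) (x y : ℕ → ℝ) (s A B : ℝ)
    (hs : Summable (fun n : ℕ => |cc E x y n| * (n : ℝ) ^ (-s)))
    (hA : Summable (fun q : Nat.Primes × ℕ => if (q.1 : ℕ) ∈ E then 0 else
        tw (x q.1) (q.2 + 2) ^ 2 / ((q.2 : ℝ) + 2) * (((q.1 : ℕ) : ℝ) ^ (-s)) ^ (q.2 + 2)))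
    (hA' : ∑' q : Nat.Primes × ℕ, (if (q.1 : ℕ) ∈ E then 0 else
        tw (x q.1) (q.2 + 2) ^ 2 / ((q.2 : ℝ) + 2) * (((q.1 : ℕ) : ℝ) ^ (-s)) ^ (q.2 + 2)) ≤ A)
    (hB : Summable (fun q : Nat.Primes × ℕ => if (q.1 : ℕ) ∈ E then 0 else
        tw (y q.1) (q.2 + 2) ^ 2 / ((q.2 : ℝ) + 2) * (((q.1 : ℕ) : ℝ) ^ (-s)) ^ (q.2 + 2)))
    (hB' : ∑' q : Nat.Primes × ℕ, (if (q.1 : ℕ) ∈ E then 0 else
        tw (y q.1) (q.2 + 2) ^ 2 / ((q.2 : ℝ) + 2) * (((q.1 : ℕ) : ℝ) ^ (-s)) ^ (q.2 + 2)) ≤ B) :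
    Summable (fun p : Nat.Primes => if (p : ℕ) ∈ E then 0 else
      x p * y p * ((p : ℕ) : ℝ) ^ (-s)) ∧
    |CS E x y s - ∑' p : Nat.Primes, (if (p : ℕ) ∈ E then 0 else
      x p * y p * ((p : ℕ) : ℝ) ^ (-s))| ≤ (A + B) / 2 := by
  obtain ⟨h1, h2, -, h4⟩ := hCCP
  have h5 := h4 (fun n => cc E x y n * (n : ℝ) ^ (-s)) (fun n hn => by simp [h2 E x y n hn])
  have hs' : Summable (fun n : ℕ => cc E x y n * (n : ℝ) ^ (-s)) := by
    refine Summable.of_norm (hs.congr fun n => ?_)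
    rw [norm_mul, Real.norm_eq_abs, Real.norm_of_nonneg (by positivity)]
  have hf : ∀ q : Nat.Primes × ℕ, cc E x y ((q.1 : ℕ) ^ (q.2 + 1)) *
      (((q.1 : ℕ) ^ (q.2 + 1) : ℕ) : ℝ) ^ (-s) = if (q.1 : ℕ) ∈ E then 0 else
        tw (x q.1) (q.2 + 1) * tw (y q.1) (q.2 + 1) / ((q.2 : ℝ) + 1) *
          (((q.1 : ℕ) : ℝ) ^ (-s)) ^ (q.2 + 1) := by
    intro q
    rw [h1 E x y q.1 q.2 q.1.2, Nat.cast_pow, ← Real.rpow_pow_comm (by positivity)]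
    split_ifs with h
    · simp
    · rfl
  have h6 : Summable (fun q : Nat.Primes × ℕ => if (q.1 : ℕ) ∈ E then 0 else
        tw (x q.1) (q.2 + 1) * tw (y q.1) (q.2 + 1) / ((q.2 : ℝ) + 1) *
          (((q.1 : ℕ) : ℝ) ^ (-s)) ^ (q.2 + 1)) := (h5.1.1 hs').congr hf
  have h7 : CS E x y s = ∑' q : Nat.Primes × ℕ, (if (q.1 : ℕ) ∈ E then 0 else
        tw (x q.1) (q.2 + 1) * tw (y q.1) (q.2 + 1) / ((q.2 : ℝ) + 1) *
          (((q.1 : ℕ) : ℝ) ^ (-s)) ^ (q.2 + 1)) := by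
    rw [CS]
    exact h5.2.trans (tsum_congr hf)
  obtain ⟨h8, h9, h10⟩ := GM2_split h6
  have h0 : ∀ p : Nat.Primes, (if (p : ℕ) ∈ E then 0 else
      tw (x p) (0 + 1) * tw (y p) (0 + 1) / (((0 : ℕ) : ℝ) + 1) *
        (((p : ℕ) : ℝ) ^ (-s)) ^ (0 + 1)) = if (p : ℕ) ∈ E then 0 else
      x p * y p * ((p : ℕ) : ℝ) ^ (-s) := by
    intro p
    simp [tw]
  refine ⟨h8.congr h0, ?_⟩
  rw [h7, h10, tsum_congr h0, add_sub_cancel_left]
  have hab : Summable (fun q : Nat.Primes × ℕ => ((if (q.1 : ℕ) ∈ E then 0 else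
        tw (x q.1) (q.2 + 2) ^ 2 / ((q.2 : ℝ) + 2) * (((q.1 : ℕ) : ℝ) ^ (-s)) ^ (q.2 + 2)) +
        (if (q.1 : ℕ) ∈ E then 0 else
        tw (y q.1) (q.2 + 2) ^ 2 / ((q.2 : ℝ) + 2) * (((q.1 : ℕ) : ℝ) ^ (-s)) ^ (q.2 + 2))) / 2) :=
    (hA.add hB).div_const 2
  have hle : ∀ q : Nat.Primes × ℕ, ‖(if (q.1 : ℕ) ∈ E then 0 else
        tw (x q.1) (q.2 + 1 + 1) * tw (y q.1) (q.2 + 1 + 1) / (((q.2 + 1 : ℕ) : ℝ) + 1) *
          (((q.1 : ℕ) : ℝ) ^ (-s)) ^ (q.2 + 1 + 1))‖ ≤ ((if (q.1 : ℕ) ∈ E then 0 else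
        tw (x q.1) (q.2 + 2) ^ 2 / ((q.2 : ℝ) + 2) * (((q.1 : ℕ) : ℝ) ^ (-s)) ^ (q.2 + 2)) +
        (if (q.1 : ℕ) ∈ E then 0 else
        tw (y q.1) (q.2 + 2) ^ 2 / ((q.2 : ℝ) + 2) * (((q.1 : ℕ) : ℝ) ^ (-s)) ^ (q.2 + 2))) / 2 := by
    intro q
    split_ifs with h
    · simp
    · have e1 : (((q.2 + 1 : ℕ) : ℝ) + 1) = (q.2 : ℝ) + 2 := by push_cast; ring
      have e2 : q.2 + 1 + 1 = q.2 + 2 := rfl
      rw [e1, e2, norm_mul, norm_div, Real.norm_of_nonneg (by positivity : (0 : ℝ) ≤ (q.2 : ℝ) + 2),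
        Real.norm_of_nonneg (by positivity : (0 : ℝ) ≤ (((q.1 : ℕ) : ℝ) ^ (-s)) ^ (q.2 + 2)),
        ← add_mul, ← add_div, mul_div_right_comm, Real.norm_eq_abs, abs_mul]
      refine mul_le_mul_of_nonneg_right ?_ (by positivity)
      rw [div_div, mul_comm ((q.2 : ℝ) + 2) 2, ← div_div]
      refine div_le_div_of_nonneg_right ?_ (by positivity)
      have h3 := two_mul_le_add_sq |tw (x q.1) (q.2 + 2)| |tw (y q.1) (q.2 + 2)|
      rw [sq_abs, sq_abs] at h3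
      linarith
  calc |∑' q : Nat.Primes × ℕ, (if (q.1 : ℕ) ∈ E then 0 else
        tw (x q.1) (q.2 + 1 + 1) * tw (y q.1) (q.2 + 1 + 1) / (((q.2 + 1 : ℕ) : ℝ) + 1) *
          (((q.1 : ℕ) : ℝ) ^ (-s)) ^ (q.2 + 1 + 1))|
      ≤ ∑' q : Nat.Primes × ℕ, ((if (q.1 : ℕ) ∈ E then 0 else
        tw (x q.1) (q.2 + 2) ^ 2 / ((q.2 : ℝ) + 2) * (((q.1 : ℕ) : ℝ) ^ (-s)) ^ (q.2 + 2)) +
        (if (q.1 : ℕ) ∈ E then 0 else
        tw (y q.1) (q.2 + 2) ^ 2 / ((q.2 : ℝ) + 2) * (((q.1 : ℕ) : ℝ) ^ (-s)) ^ (q.2 + 2))) / 2 := by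
        rw [← Real.norm_eq_abs]
        exact tsum_of_norm_bounded hab.hasSum hle
    _ ≤ (A + B) / 2 := by
        rw [tsum_div_const, Summable.tsum_add hA hB]
        linarith

/-- Comparison of `RR` with `CS`: up to a bounded term and the terms `m ≥ 2`. -/
private lemma GM2_RR (hCCP : S_CCP) (E : Finset ℕ) (x y u : ℕ → ℝ)
    (hu : ∀ p : ℕ, p.Prime → p ∉ E → u p = x p * y p) :
    ∃ C : ℝ, ∀ s A B : ℝ, 1 < s →
    Summable (fun n : ℕ => |cc E x y n| * (n : ℝ) ^ (-s)) →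
    Summable (fun q : Nat.Primes × ℕ => if (q.1 : ℕ) ∈ E then 0 else
        tw (x q.1) (q.2 + 2) ^ 2 / ((q.2 : ℝ) + 2) * (((q.1 : ℕ) : ℝ) ^ (-s)) ^ (q.2 + 2)) →
    ∑' q : Nat.Primes × ℕ, (if (q.1 : ℕ) ∈ E then 0 else
        tw (x q.1) (q.2 + 2) ^ 2 / ((q.2 : ℝ) + 2) * (((q.1 : ℕ) : ℝ) ^ (-s)) ^ (q.2 + 2)) ≤ A →
    Summable (fun q : Nat.Primes × ℕ => if (q.1 : ℕ) ∈ E then 0 else
        tw (y q.1) (q.2 + 2) ^ 2 / ((q.2 : ℝ) + 2) * (((q.1 : ℕ) : ℝ) ^ (-s)) ^ (q.2 + 2)) →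
    ∑' q : Nat.Primes × ℕ, (if (q.1 : ℕ) ∈ E then 0 else
        tw (y q.1) (q.2 + 2) ^ 2 / ((q.2 : ℝ) + 2) * (((q.1 : ℕ) : ℝ) ^ (-s)) ^ (q.2 + 2)) ≤ B →
    |TatePole.RR u s - CS E x y s| ≤ C + (A + B) / 2 := by
  classical
  have hfin : {p : Nat.Primes | (p : ℕ) ∈ E}.Finite :=
    Set.Finite.preimage (Nat.Primes.coe_nat_injective.injOn) E.finite_toSet
  refine ⟨∑ p ∈ hfin.toFinset, |u p|, fun s A B hs1 hs hA hA' hB hB' => ?_⟩
  obtain ⟨h1, h2⟩ := GM2_cmp hCCP E x y s A B hs hA hA' hB hB'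
  have h3 : ∀ p : Nat.Primes, u p * ((p : ℕ) : ℝ) ^ (-s) =
      (if (p : ℕ) ∈ E then 0 else x p * y p * ((p : ℕ) : ℝ) ^ (-s)) +
      (if (p : ℕ) ∈ E then u p * ((p : ℕ) : ℝ) ^ (-s) else 0) := by
    intro p
    split_ifs with h
    · simp
    · rw [hu p p.2 h, add_zero]
  have h4 : ∀ p ∉ hfin.toFinset, (if (p : ℕ) ∈ E then u p * ((p : ℕ) : ℝ) ^ (-s) else 0) = 0 := by
    intro p hp
    rw [if_neg]
    simpa using hp
  have h5 : Summable (fun p : Nat.Primes =>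
      if (p : ℕ) ∈ E then u p * ((p : ℕ) : ℝ) ^ (-s) else 0) :=
    summable_of_ne_finset_zero (s := hfin.toFinset) h4
  have h6 : TatePole.RR u s = ∑' p : Nat.Primes, (if (p : ℕ) ∈ E then 0 else
      x p * y p * ((p : ℕ) : ℝ) ^ (-s)) + ∑ p ∈ hfin.toFinset,
      (if (p : ℕ) ∈ E then u p * ((p : ℕ) : ℝ) ^ (-s) else 0) := by
    rw [TatePole.RR, tsum_congr h3, Summable.tsum_add h1 h5, tsum_eq_sum h4]
  have h7 : |∑ p ∈ hfin.toFinset, (if (p : ℕ) ∈ E then u p * ((p : ℕ) : ℝ) ^ (-s) else 0)| ≤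
      ∑ p ∈ hfin.toFinset, |u p| := by
    refine (Finset.abs_sum_le_sum_abs _ _).trans (Finset.sum_le_sum fun p _ => ?_)
    split_ifs with h
    · rw [abs_mul]
      refine mul_le_of_le_one_right (abs_nonneg _) ?_
      rw [abs_of_nonneg (by positivity)]
      exact Real.rpow_le_one_of_one_le_of_nonpos (by exact_mod_cast p.2.one_lt.le) (by linarith)
    · simp
  rw [h6]
  have h8 := abs_le.1 h2
  have h9 := abs_le.1 h7
  exact abs_le.2 ⟨by linarith [h8.1, h8.2], by linarith [h8.1, h8.2]⟩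

private lemma GM2_log : Tendsto (fun s : ℝ => Real.log (1 / (s - 1))) (𝓝[>] 1) atTop := by
  refine Real.tendsto_log_atTop.comp ?_
  simp only [one_div]
  refine tendsto_inv_nhdsGT_zero.comp ?_
  refine tendsto_nhdsWithin_iff.2 ⟨?_, ?_⟩
  · have h : Tendsto (fun s : ℝ => s - 1) (𝓝 1) (𝓝 (1 - 1)) := tendsto_id.sub_const 1
    rw [sub_self] at h
    exact h.mono_left nhdsWithin_le_nhds
  · filter_upwards [self_mem_nhdsWithin] with s hs
    simpa using hs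

theorem p_GM2 : S_GM2 := by
  intro hNZD hNZO hREM hCCP hES hCCS N N' k k' f g a b P η hη
  have hEa := hES N k f a P.hN P.hk P.hf P.ha
  have hEb := hES N' k' g b P.hN' P.hk' P.hg P.hb
  obtain ⟨Ea, hEa1, hEa2, hEa3⟩ := hREM N k f a P.hN P.hk P.hf P.ha (η / 2) (by positivity)
  obtain ⟨Eb, hEb1, hEb2, hEb3⟩ := hREM N' k' g b P.hN' P.hk' P.hg P.hb (η / 2) (by positivity)
  constructor
  · obtain ⟨E₀, hE1, hE2, hE3⟩ := hNZD N k f a P.hN P.hk P.hf P.ha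
    have hE : ∀ p ∈ E₀ ∪ Ea, p.Prime := by
      intro p hp
      rcases Finset.mem_union.1 hp with h | h
      · exact hE1 p h
      · exact hEa1 p h
    obtain ⟨g₀, hg₀⟩ := hE3 (E₀ ∪ Ea) hE Finset.subset_union_left
    have hr := hEa3 (E₀ ∪ Ea) hE Finset.subset_union_right
    obtain ⟨C, hC⟩ := GM2_RR hCCP (E₀ ∪ Ea) (lam k a) (lam k a)
      (fun p => th N k a p * th N k a p) (fun p hp hpE => by
        have h : ¬ p ∣ N := fun h => hpE (Finset.mem_union_left _ (hE2 p hp h))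
        simp only [th, if_neg h])
    have h1 := hg₀.eventually (Metric.ball_mem_nhds g₀ one_pos)
    filter_upwards [h1, hr, GM2_log.eventually_ge_atTop ((C + |g₀| + 1) / (η / 2)),
      self_mem_nhdsWithin] with s hs1 hs2 hs3 hs4
    have hs4' : 1 < s := hs4
    rw [div_le_iff₀ (by positivity)] at hs3
    have h2 := hC s _ _ hs4' (hCCS N N k k a a (E₀ ∪ Ea) hEa hEa (fun p hp h => by
      rcases hp.dvd_mul.1 h with h | h
      · exact Finset.mem_union_left _ (hE2 p hp h)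
      · exact Finset.mem_union_left _ (hE2 p hp h)) s hs4') hs2.1 hs2.2 hs2.1 hs2.2
    rw [Real.dist_eq] at hs1
    have h3 := abs_le.1 h2
    have h4 := abs_lt.1 hs1
    have h5 := abs_le.1 (le_refl |g₀|)
    exact abs_le.2 ⟨by linarith [h3.1, h4.1, h5.1], by linarith [h3.2, h4.2, h5.2]⟩
  · intro hne
    obtain ⟨E₀, hE1, hE2, hE3⟩ := hNZO N N' k k' f g a b P hne
    have hE : ∀ p ∈ E₀ ∪ (Ea ∪ Eb), p.Prime := by
      intro p hp
      rcases Finset.mem_union.1 hp with h | h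
      · exact hE1 p h
      · rcases Finset.mem_union.1 h with h | h
        · exact hEa1 p h
        · exact hEb1 p h
    obtain ⟨g₀, hg₀⟩ := hE3 (E₀ ∪ (Ea ∪ Eb)) hE Finset.subset_union_left
    have hr := hEa3 (E₀ ∪ (Ea ∪ Eb)) hE
      (Finset.subset_union_left.trans Finset.subset_union_right)
    have hr' := hEb3 (E₀ ∪ (Ea ∪ Eb)) hE
      (Finset.subset_union_right.trans Finset.subset_union_right)
    obtain ⟨C, hC⟩ := GM2_RR hCCP (E₀ ∪ (Ea ∪ Eb)) (lam k a) (lam k' b)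
      (fun p => th N k a p * th N' k' b p) (fun p hp hpE => by
        have h : ¬ p ∣ N := fun h => hpE (Finset.mem_union_left _ (hE2 p hp (h.mul_right N')))
        have h' : ¬ p ∣ N' := fun h => hpE (Finset.mem_union_left _ (hE2 p hp (h.mul_left N)))
        simp only [th, if_neg h, if_neg h'])
    have h1 := hg₀.eventually (Metric.ball_mem_nhds g₀ one_pos)
    filter_upwards [h1, hr, hr', GM2_log.eventually_ge_atTop ((C + |g₀| + 1) / (η / 2)),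
      self_mem_nhdsWithin] with s hs1 hs2 hs2' hs3 hs4
    have hs4' : 1 < s := hs4
    rw [div_le_iff₀ (by positivity)] at hs3
    have h2 := hC s _ _ hs4' (hCCS N N' k k' a b (E₀ ∪ (Ea ∪ Eb)) hEa hEb (fun p hp h =>
      Finset.mem_union_left _ (hE2 p hp h)) s hs4') hs2.1 hs2.2 hs2'.1 hs2'.2
    rw [Real.dist_eq] at hs1
    have h3 := abs_le.1 h2
    have h4 := abs_lt.1 hs1
    have h5 := abs_le.1 (le_refl |g₀|)
    exact abs_le.2 ⟨by linarith [h3.1, h4.1, h5.1], by linarith [h3.2, h4.2, h5.2]⟩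

end Pool.Agent.Lib.MP_058a58_ag.MT
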