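import Pool.Agent.Lib.MP_058a58_ag.MT.DStm

set_option autoImplicit false

/-!
# Defect form: piece GPD
-/

open UpperHalfPlane MeasureTheory Filter Topology
open scoped MatrixGroups Modular ComplexConjugate

namespace Pool.Agent.Lib.MP_058a58_ag.MT

/-- the Gaussian factor -/
private noncomputable def GPD_E (s t : ℝ) : ℂ := (Real.exp (-Real.pi * (t ^ 2 + s ^ 2)) : ℂ)

private noncomputable def GPD_0 (l : ℕ) (u c : ℂ) (s t : ℝ) : ℂ := (c + t * u) ^ l * GPD_E s t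

private noncomputable def GPD_1 (l : ℕ) (u c : ℂ) (s t : ℝ) : ℂ :=
  (l * (c + t * u) ^ (l - 1) * u + (c + t * u) ^ l * (-2 * Real.pi * t)) * GPD_E s t

private noncomputable def GPD_2 (l : ℕ) (u c : ℂ) (s t : ℝ) : ℂ :=
  (l * (((l - 1 : ℕ) : ℂ) * (c + t * u) ^ (l - 1 - 1) * u) * u +
    (l * (c + t * u) ^ (l - 1) * u * (-2 * Real.pi * t) + (c + t * u) ^ l * (-2 * Real.pi))) *
    GPD_E s t +
  (l * (c + t * u) ^ (l - 1) * u + (c + t * u) ^ l * (-2 * Real.pi * t)) *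
    (GPD_E s t * (-2 * Real.pi * t))

private theorem GPD_dE (s t : ℝ) : HasDerivAt (fun t : ℝ => GPD_E s t)
    (GPD_E s t * (-2 * Real.pi * t)) t := by
  have h1 : HasDerivAt (fun t : ℝ => -Real.pi * (t ^ 2 + s ^ 2)) (-Real.pi * (2 * t)) t := by
    have := (((hasDerivAt_id t).pow 2).add_const (s ^ 2)).const_mul (-Real.pi)
    simpa using this
  have h2 := h1.exp.ofReal_comp
  unfold GPD_E
  refine h2.congr_deriv ?_
  push_cast
  ring

private theorem GPD_dv (u c : ℂ) (t : ℝ) : HasDerivAt (fun t : ℝ => c + t * u) u t := by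
  have h := ((Complex.ofRealCLM.hasDerivAt (x := t)).mul_const u).const_add c
  simpa using h

private theorem GPD_dp (k : ℕ) (u c : ℂ) (t : ℝ) : HasDerivAt (fun t : ℝ => (c + t * u) ^ k)
    (k * (c + t * u) ^ (k - 1) * u) t := (GPD_dv u c t).pow k

private theorem GPD_dl (t : ℝ) : HasDerivAt (fun t : ℝ => (-2 * Real.pi * t : ℂ))
    (-2 * Real.pi) t := by
  have h := (Complex.ofRealCLM.hasDerivAt (x := t)).const_mul (-2 * Real.pi : ℂ)
  simpa using h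

private theorem GPD_d0 (l : ℕ) (u c : ℂ) (s t : ℝ) :
    HasDerivAt (fun t : ℝ => GPD_0 l u c s t) (GPD_1 l u c s t) t := by
  have h := (GPD_dp l u c t).mul (GPD_dE s t)
  refine h.congr_deriv ?_
  unfold GPD_1
  ring

private theorem GPD_d1 (l : ℕ) (u c : ℂ) (s t : ℝ) :
    HasDerivAt (fun t : ℝ => GPD_1 l u c s t) (GPD_2 l u c s t) t := by
  have h := ((((GPD_dp (l - 1) u c t).const_mul (l : ℂ)).mul_const u).add
    ((GPD_dp l u c t).mul (GPD_dl t))).mul (GPD_dE s t)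
  exact h

private theorem GPD_pi : (2 : ℝ) * Real.pi ≤ 7 ∧ (2 : ℝ) ≤ Real.pi := by
  have h1 := Real.pi_lt_d2
  have h2 := Real.pi_gt_three
  constructor <;> linarith

private theorem GPD_bd (m : ℕ) (ρ : ℝ) (hρ : 0 ≤ ρ) : (1 + ρ) ^ m * Real.exp (-Real.pi * ρ ^ 2) ≤
    (m.factorial * Real.exp 2) * Real.exp (-ρ ^ 2) := by
  have h1 := Real.pow_div_factorial_le_exp (1 + ρ) (by linarith) m
  have h2 : (0 : ℝ) < m.factorial := by exact_mod_cast m.factorial_pos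
  rw [div_le_iff₀ h2] at h1
  have h3 : Real.exp (1 + ρ) * Real.exp (-Real.pi * ρ ^ 2) ≤ Real.exp 2 * Real.exp (-ρ ^ 2) := by
    rw [← Real.exp_add, ← Real.exp_add]
    apply Real.exp_le_exp.2
    have := GPD_pi.2
    nlinarith [sq_nonneg (ρ - 1), sq_nonneg ρ]
  calc (1 + ρ) ^ m * Real.exp (-Real.pi * ρ ^ 2)
      ≤ (Real.exp (1 + ρ) * m.factorial) * Real.exp (-Real.pi * ρ ^ 2) :=
        mul_le_mul_of_nonneg_right h1 (Real.exp_pos _).le
    _ = m.factorial * (Real.exp (1 + ρ) * Real.exp (-Real.pi * ρ ^ 2)) := by ring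
    _ ≤ m.factorial * (Real.exp 2 * Real.exp (-ρ ^ 2)) := by gcongr
    _ = _ := by ring

/-- the three bounds -/
private theorem GPD_bds (l : ℕ) (u c : ℂ) (s t : ℝ) (hu : ‖u‖ = 1)
    (hv : ‖c + t * u‖ ^ 2 = t ^ 2 + s ^ 2) :
    ‖GPD_0 l u c s t‖ ≤ ((l + 8 : ℝ) ^ 2 * ((l + 2).factorial * Real.exp 2)) *
      Real.exp (-t ^ 2) * Real.exp (-s ^ 2) ∧
    ‖GPD_1 l u c s t‖ ≤ ((l + 8 : ℝ) ^ 2 * ((l + 2).factorial * Real.exp 2)) *
      Real.exp (-t ^ 2) * Real.exp (-s ^ 2) ∧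
    ‖GPD_2 l u c s t‖ ≤ ((l + 8 : ℝ) ^ 2 * ((l + 2).factorial * Real.exp 2)) *
      Real.exp (-t ^ 2) * Real.exp (-s ^ 2) := by
  set v : ℂ := c + t * u with hvd
  set ρ : ℝ := ‖v‖ with hρd
  have hρ : 0 ≤ ρ := norm_nonneg _
  have htρ : |t| ≤ ρ := by
    refine abs_le_of_sq_le_sq ?_ hρ
    rw [hv]; nlinarith [sq_nonneg s]
  have hE : ‖GPD_E s t‖ = Real.exp (-Real.pi * ρ ^ 2) := by
    unfold GPD_E
    rw [Complex.norm_real, Real.norm_eq_abs, abs_of_pos (Real.exp_pos _), hv]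
  have hEs : Real.exp (-t ^ 2) * Real.exp (-s ^ 2) = Real.exp (-ρ ^ 2) := by
    rw [← Real.exp_add, hv]; ring_nf
  have hfin : ∀ (x : ℝ), x ≤ (l + 8 : ℝ) ^ 2 * (1 + ρ) ^ (l + 2) →
      x * Real.exp (-Real.pi * ρ ^ 2) ≤ ((l + 8 : ℝ) ^ 2 * ((l + 2).factorial * Real.exp 2)) *
      Real.exp (-t ^ 2) * Real.exp (-s ^ 2) := by
    intro x hx
    rw [mul_assoc ((l + 8 : ℝ) ^ 2 * _), hEs]
    calc x * Real.exp (-Real.pi * ρ ^ 2)
        ≤ ((l + 8 : ℝ) ^ 2 * (1 + ρ) ^ (l + 2)) * Real.exp (-Real.pi * ρ ^ 2) :=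
          mul_le_mul_of_nonneg_right hx (Real.exp_pos _).le
      _ = (l + 8 : ℝ) ^ 2 * ((1 + ρ) ^ (l + 2) * Real.exp (-Real.pi * ρ ^ 2)) := by ring
      _ ≤ (l + 8 : ℝ) ^ 2 * (((l + 2).factorial * Real.exp 2) * Real.exp (-ρ ^ 2)) :=
          mul_le_mul_of_nonneg_left (GPD_bd _ _ hρ) (by positivity)
      _ = _ := by ring
  have hl0 : (0 : ℝ) ≤ l := Nat.cast_nonneg l
  set R : ℝ := (1 + ρ) ^ (l + 2) with hR
  have h1ρ : 1 ≤ 1 + ρ := by linarith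
  have hpw : ∀ k, k ≤ l + 2 → ρ ^ k ≤ R := fun k hk =>
    (pow_le_pow_left₀ hρ (by linarith) k).trans (pow_le_pow_right₀ h1ρ hk)
  have hR1 : 1 ≤ R := one_le_pow₀ h1ρ
  have hpi := GPD_pi
  have hpi0 : 0 < Real.pi := Real.pi_pos
  have hn2 : ‖(-2 * Real.pi : ℂ)‖ ≤ 7 := by
    have : (-2 * Real.pi : ℂ) = ((-(2 * Real.pi) : ℝ) : ℂ) := by push_cast; ring
    rw [this, Complex.norm_real, norm_neg, Real.norm_eq_abs, abs_of_pos (by positivity)]
    exact hpi.1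
  have hnt : ‖(-2 * Real.pi * t : ℂ)‖ ≤ 7 * ρ := by
    rw [norm_mul, Complex.norm_real, Real.norm_eq_abs]
    exact mul_le_mul hn2 htρ (abs_nonneg _) (by norm_num)
  have hnv : ∀ k, ‖v ^ k‖ = ρ ^ k := fun k => norm_pow _ _
  have hnl : ‖(l : ℂ)‖ = l := Complex.norm_natCast l
  have hnl1 : ‖((l - 1 : ℕ) : ℂ)‖ ≤ l := by
    rw [Complex.norm_natCast]; exact_mod_cast Nat.sub_le l 1
  -- the inner factor of the first derivative
  have hA : ‖(l * v ^ (l - 1) * u + v ^ l * (-2 * Real.pi * t) : ℂ)‖ ≤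
      l * ρ ^ (l - 1) + 7 * ρ ^ (l + 1) := by
    refine (norm_add_le _ _).trans (add_le_add ?_ ?_)
    · rw [norm_mul, norm_mul, hu, mul_one, hnl, hnv]
    · rw [norm_mul, hnv]
      calc ρ ^ l * ‖(-2 * Real.pi * t : ℂ)‖ ≤ ρ ^ l * (7 * ρ) := by gcongr
        _ = 7 * ρ ^ (l + 1) := by ring
  refine ⟨?_, ?_, ?_⟩
  · unfold GPD_0
    rw [norm_mul, hE, hnv]
    refine hfin _ ((hpw l (by omega)).trans ?_)
    nlinarith [sq_nonneg (l + 7 : ℝ)]
  · unfold GPD_1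
    rw [norm_mul, hE]
    refine (mul_le_mul_of_nonneg_right hA (Real.exp_pos _).le).trans (hfin _ ?_)
    have e1 := hpw (l - 1) (by omega)
    have e2 := hpw (l + 1) (by omega)
    calc (l : ℝ) * ρ ^ (l - 1) + 7 * ρ ^ (l + 1) ≤ l * R + 7 * R := by gcongr
      _ = (l + 7) * R := by ring
      _ ≤ (l + 8 : ℝ) ^ 2 * R := by gcongr; nlinarith
  · unfold GPD_2
    have hB : ‖(l * (((l - 1 : ℕ) : ℂ) * v ^ (l - 1 - 1) * u) * u +
        (l * v ^ (l - 1) * u * (-2 * Real.pi * t) + v ^ l * (-2 * Real.pi)) : ℂ)‖ ≤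
        l * l * R + (l * 7 * R + 7 * R) := by
      refine (norm_add_le _ _).trans (add_le_add ?_ ((norm_add_le _ _).trans (add_le_add ?_ ?_)))
      · rw [norm_mul, norm_mul, norm_mul, norm_mul, hu, mul_one, mul_one, hnl, hnv]
        calc (l : ℝ) * (‖((l - 1 : ℕ) : ℂ)‖ * ρ ^ (l - 1 - 1)) ≤ l * (l * R) := by
              gcongr
              exact hpw _ (by omega)
          _ = _ := by ring
      · rw [norm_mul, norm_mul, norm_mul, hu, mul_one, hnl, hnv]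
        rcases Nat.eq_zero_or_pos l with h0 | h0
        · rw [h0]; simp
        · calc (l : ℝ) * ρ ^ (l - 1) * ‖(-2 * Real.pi * t : ℂ)‖
              ≤ l * ρ ^ (l - 1) * (7 * ρ) := by gcongr
            _ = l * 7 * ρ ^ (l - 1 + 1) := by ring
            _ ≤ l * 7 * R := by gcongr; exact hpw _ (by omega)
      · rw [norm_mul, hnv]
        calc ρ ^ l * ‖(-2 * Real.pi : ℂ)‖ ≤ R * 7 := by
              gcongr
              exact hpw _ (by omega)
          _ = _ := by ring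
    have hC : ‖(l * v ^ (l - 1) * u + v ^ l * (-2 * Real.pi * t) : ℂ)‖ *
        ‖(-2 * Real.pi * t : ℂ)‖ ≤ l * 7 * R + 49 * R := by
      calc ‖(l * v ^ (l - 1) * u + v ^ l * (-2 * Real.pi * t) : ℂ)‖ *
          ‖(-2 * Real.pi * t : ℂ)‖ ≤ (l * ρ ^ (l - 1) + 7 * ρ ^ (l + 1)) * (7 * ρ) := by gcongr
        _ = l * 7 * (ρ ^ (l - 1) * ρ) + 49 * ρ ^ (l + 2) := by ring
        _ ≤ l * 7 * R + 49 * R := by
            gcongr
            · rw [← pow_succ]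
              exact hpw _ (by omega)
            · exact hpw _ le_rfl
    have hfull : ‖(l * (((l - 1 : ℕ) : ℂ) * v ^ (l - 1 - 1) * u) * u +
        (l * v ^ (l - 1) * u * (-2 * Real.pi * t) + v ^ l * (-2 * Real.pi)) : ℂ)‖ +
        ‖(l * v ^ (l - 1) * u + v ^ l * (-2 * Real.pi * t) : ℂ)‖ *
        ‖(-2 * Real.pi * t : ℂ)‖ ≤ (l + 8 : ℝ) ^ 2 * R := by
      refine (add_le_add hB hC).trans ?_
      have : l * l * R + (l * 7 * R + 7 * R) + (l * 7 * R + 49 * R) =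
          ((l : ℝ) * l + 14 * l + 56) * R := by ring
      rw [this]
      refine mul_le_mul_of_nonneg_right ?_ (by linarith)
      nlinarith
    refine le_trans ?_ (hfin _ hfull)
    refine (norm_add_le _ _).trans (le_of_eq ?_)
    rw [norm_mul, norm_mul, norm_mul (GPD_E s t), hE]
    ring

private theorem GPD_glx (l : ℕ) (ξ η : ℝ) :
    gl l (ξ + η * Complex.I) = GPD_0 l 1 (η * Complex.I) η ξ := by
  unfold gl GPD_0 GPD_E
  rw [← Complex.normSq_eq_norm_sq, Complex.normSq_add_mul_I]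
  ring

private theorem GPD_gly (l : ℕ) (ξ η : ℝ) :
    gl l (ξ + η * Complex.I) = GPD_0 l Complex.I ξ ξ η := by
  unfold gl GPD_0 GPD_E
  rw [← Complex.normSq_eq_norm_sq, Complex.normSq_add_mul_I, add_comm (ξ ^ 2)]

private theorem GPD_n1 (ξ η : ℝ) : ‖(η * Complex.I : ℂ) + ξ * 1‖ ^ 2 = ξ ^ 2 + η ^ 2 := by
  rw [mul_one, add_comm, ← Complex.normSq_eq_norm_sq, Complex.normSq_add_mul_I]

private theorem GPD_n2 (ξ η : ℝ) : ‖(ξ : ℂ) + η * Complex.I‖ ^ 2 = η ^ 2 + ξ ^ 2 := by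
  rw [← Complex.normSq_eq_norm_sq, Complex.normSq_add_mul_I, add_comm]

theorem p_GPD : S_GPD := by
  intro l
  refine ⟨(l + 8 : ℝ) ^ 2 * ((l + 2).factorial * Real.exp 2),
    fun ξ η => GPD_1 l 1 (η * Complex.I) η ξ, fun ξ η => GPD_2 l 1 (η * Complex.I) η ξ,
    fun ξ η => GPD_1 l Complex.I ξ ξ η, fun ξ η => GPD_2 l Complex.I ξ ξ η, by positivity,
    fun ξ η => ⟨?_, ?_, ?_, ?_⟩, ?_, ?_, ?_, ?_, fun ξ η => ?_⟩
  · have h := GPD_d0 l 1 (η * Complex.I) η ξ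
    simpa only [GPD_glx] using h
  · exact GPD_d1 l 1 (η * Complex.I) η ξ
  · have h := GPD_d0 l Complex.I ξ ξ η
    simpa only [GPD_gly] using h
  · exact GPD_d1 l Complex.I ξ ξ η
  · unfold GPD_1 GPD_E
    fun_prop
  · unfold GPD_2 GPD_E
    fun_prop
  · unfold GPD_1 GPD_E
    fun_prop
  · unfold GPD_2 GPD_E
    fun_prop
  · have hx := GPD_bds l 1 (η * Complex.I) η ξ norm_one (GPD_n1 ξ η)
    have hy := GPD_bds l Complex.I ξ ξ η Complex.norm_I (GPD_n2 ξ η)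
    refine ⟨?_, hx.2.1, hx.2.2, ?_, ?_⟩
    · rw [GPD_glx]; exact hx.1
    · exact hy.2.1.trans (le_of_eq (by ring))
    · exact hy.2.2.trans (le_of_eq (by ring))

end Pool.Agent.Lib.MP_058a58_ag.MT
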