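import Pool.Agent.Lib.MP_058a58_ag.MT.DStm

set_option autoImplicit false

/-!
# Piece GRW: the lattice lemma for the Gaussian function
-/

open UpperHalfPlane MeasureTheory Filter Topology
open scoped MatrixGroups Modular ComplexConjugate

namespace Pool.Agent.Lib.MP_058a58_ag.MT

/-- The Gaussian majorant. -/
noncomputable def GRW_E (t : ℝ) : ℝ := Real.exp (-t ^ 2)

/-- Its derivative. -/
noncomputable def GRW_E' (t : ℝ) : ℝ := -(2 * t) * GRW_E t

/-- Its integral. -/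
noncomputable def GRW_S : ℝ := ∫ t, GRW_E t

/-- The integral of the absolute value of the derivative. -/
noncomputable def GRW_K : ℝ := ∫ t, |GRW_E' t|

theorem GRW_E_pos (t : ℝ) : 0 < GRW_E t := Real.exp_pos _

theorem GRW_E_le_one (t : ℝ) : GRW_E t ≤ 1 := by
  unfold GRW_E
  rw [Real.exp_le_one_iff]
  nlinarith [sq_nonneg t]

theorem GRW_E_int : Integrable GRW_E := by
  have h := integrable_exp_neg_mul_sq (b := 1) one_pos
  refine h.congr (Filter.Eventually.of_forall fun t => ?_)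
  simp [GRW_E]

theorem GRW_E_hasDerivAt (t : ℝ) : HasDerivAt GRW_E (GRW_E' t) t := by
  have h1 : HasDerivAt (fun t : ℝ => -t ^ 2) (-(2 * t)) t := by
    simpa using (hasDerivAt_pow 2 t).fun_neg
  have h2 := h1.exp
  refine h2.congr_deriv ?_
  unfold GRW_E' GRW_E
  ring

theorem GRW_E'_int : Integrable GRW_E' := by
  have h := (integrable_mul_exp_neg_mul_sq (b := 1) one_pos).const_mul (-2)
  refine h.congr (Filter.Eventually.of_forall fun t => ?_)
  simp only [GRW_E', GRW_E, neg_mul, one_mul]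
  ring

theorem GRW_S_nonneg : 0 ≤ GRW_S := integral_nonneg fun t => (GRW_E_pos t).le

theorem GRW_K_nonneg : 0 ≤ GRW_K := integral_nonneg fun _ => abs_nonneg _

theorem GRW_sum (hEM : S_EM) (q M : ℝ) (hq : 0 < q) (hM : 0 < M) (r : ℝ) :
    Summable (fun n : ℤ => GRW_E ((r + M * n) * q)) ∧
      M * ∑' n : ℤ, GRW_E ((r + M * n) * q) ≤ GRW_S / q + M * GRW_K := by
  have hd : ∀ x, HasDerivAt (fun x : ℝ => ((GRW_E (x * q) : ℝ) : ℂ))
      ((GRW_E' (x * q) * q : ℝ) : ℂ) x := by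
    intro x
    have h1 : HasDerivAt (fun x : ℝ => x * q) q x := by simpa using (hasDerivAt_id x).mul_const q
    exact ((GRW_E_hasDerivAt (x * q)).comp x h1).ofReal_comp
  have hg : Integrable (fun x : ℝ => ((GRW_E (x * q) : ℝ) : ℂ)) :=
    (GRW_E_int.comp_mul_right' hq.ne').ofReal
  have hg' : Integrable (fun x : ℝ => ((GRW_E' (x * q) * q : ℝ) : ℂ)) :=
    ((GRW_E'_int.comp_mul_right' hq.ne').mul_const q).ofReal
  obtain ⟨hS, hE⟩ := hEM M r _ _ hM hd hg hg'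
  have hS' : Summable (fun n : ℤ => GRW_E ((r + M * n) * q)) := by exact_mod_cast hS
  refine ⟨hS', ?_⟩
  have e1 : ∫ x : ℝ, ((GRW_E (x * q) : ℝ) : ℂ) = ((GRW_S / q : ℝ) : ℂ) := by
    have e0 : ∫ x : ℝ, ((GRW_E (x * q) : ℝ) : ℂ) = ((∫ x : ℝ, GRW_E (x * q) : ℝ) : ℂ) :=
      integral_ofReal
    rw [e0, Measure.integral_comp_mul_right GRW_E q, abs_of_pos (inv_pos.2 hq)]
    congr 1
    unfold GRW_S
    rw [smul_eq_mul, div_eq_inv_mul]
  have e2 : ∫ x : ℝ, ‖((GRW_E' (x * q) * q : ℝ) : ℂ)‖ = GRW_K := by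
    have e3 : ∀ x : ℝ, ‖((GRW_E' (x * q) * q : ℝ) : ℂ)‖ = |GRW_E' (x * q)| * q := by
      intro x
      rw [Complex.norm_real, norm_mul, Real.norm_eq_abs, Real.norm_eq_abs, abs_of_pos hq]
    simp only [e3]
    rw [integral_mul_const, Measure.integral_comp_mul_right (fun x => |GRW_E' x|) q,
      abs_of_pos (inv_pos.2 hq), smul_eq_mul]
    unfold GRW_K
    field_simp
  rw [e1, e2] at hE
  have e3 : (M : ℂ) * ∑' n : ℤ, ((GRW_E ((r + M * n) * q) : ℝ) : ℂ) =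
      ((M * ∑' n : ℤ, GRW_E ((r + M * n) * q) : ℝ) : ℂ) := by push_cast; rfl
  rw [e3, ← Complex.ofReal_sub, Complex.norm_real] at hE
  have := (le_abs_self _).trans hE
  linarith

/-- Hypotheses on the function of two real variables. -/
structure GRW_H (C : ℝ) (f f1 f11 f2 f22 : ℝ → ℝ → ℂ) : Prop where
  c0 : 0 ≤ C
  d1 : ∀ u e, HasDerivAt (fun u => f u e) (f1 u e) u
  d11 : ∀ u e, HasDerivAt (fun u => f1 u e) (f11 u e) u
  d2 : ∀ u e, HasDerivAt (fun e => f u e) (f2 u e) e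
  d22 : ∀ u e, HasDerivAt (fun e => f2 u e) (f22 u e) e
  m11 : ∀ e, Continuous fun u => f11 u e
  m2 : ∀ e, Continuous fun u => f2 u e
  m22 : ∀ e, Continuous fun u => f22 u e
  b0 : ∀ u e, ‖f u e‖ ≤ C * GRW_E u * GRW_E e
  b11 : ∀ u e, ‖f11 u e‖ ≤ C * GRW_E u * GRW_E e
  b2 : ∀ u e, ‖f2 u e‖ ≤ C * GRW_E u * GRW_E e
  b22 : ∀ u e, ‖f22 u e‖ ≤ C * GRW_E u * GRW_E e

theorem GRW_int {C : ℝ} {h : ℝ → ℝ → ℂ} (hm : ∀ e, Continuous fun u => h u e)
    (hb : ∀ u e, ‖h u e‖ ≤ C * GRW_E u * GRW_E e) (e : ℝ) : Integrable fun u => h u e :=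
  Integrable.mono' ((GRW_E_int.const_mul C).mul_const (GRW_E e)) (hm e).aestronglyMeasurable
    (Filter.Eventually.of_forall fun u => hb u e)

theorem GRW_nn {C : ℝ} {h : ℝ → ℝ → ℂ} (hm : ∀ e, Continuous fun u => h u e)
    (hb : ∀ u e, ‖h u e‖ ≤ C * GRW_E u * GRW_E e) (e : ℝ) :
    ∫ u, ‖h u e‖ ≤ C * GRW_S * GRW_E e := by
  refine (integral_mono (GRW_int hm hb e).norm ((GRW_E_int.const_mul C).mul_const (GRW_E e))
    fun u => hb u e).trans (le_of_eq ?_)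
  rw [integral_mul_const, integral_const_mul]
  rfl

theorem GRW_ni {C : ℝ} {h : ℝ → ℝ → ℂ} (hm : ∀ e, Continuous fun u => h u e)
    (hb : ∀ u e, ‖h u e‖ ≤ C * GRW_E u * GRW_E e) (e : ℝ) :
    ‖∫ u, h u e‖ ≤ C * GRW_S * GRW_E e :=
  (norm_integral_le_integral_norm _).trans (GRW_nn hm hb e)

/-- Derivative under the integral sign. -/
theorem GRW_dint {C : ℝ} (hC : 0 ≤ C) {h h' : ℝ → ℝ → ℂ} (hm : ∀ e, Continuous fun u => h u e)
    (hm' : ∀ e, Continuous fun u => h' u e)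
    (hd : ∀ u e, HasDerivAt (fun e => h u e) (h' u e) e)
    (hb : ∀ u e, ‖h u e‖ ≤ C * GRW_E u * GRW_E e)
    (hb' : ∀ u e, ‖h' u e‖ ≤ C * GRW_E u * GRW_E e) (e : ℝ) :
    HasDerivAt (fun e => ∫ u, h u e) (∫ u, h' u e) e := by
  refine (hasDerivAt_integral_of_dominated_loc_of_deriv_le (μ := volume)
    (F := fun e u => h u e) (F' := fun e u => h' u e) (x₀ := e) (s := Set.univ)
    (bound := fun u => C * GRW_E u) Filter.univ_mem
    (Filter.Eventually.of_forall fun e => (hm e).aestronglyMeasurable)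
    (GRW_int hm hb e) (hm' e).aestronglyMeasurable ?_ ?_ ?_).2
  · refine Filter.Eventually.of_forall fun u x _ => (hb' u x).trans ?_
    have h1 : 0 ≤ C * GRW_E u := mul_nonneg hC (GRW_E_pos u).le
    calc C * GRW_E u * GRW_E x ≤ C * GRW_E u * 1 :=
          mul_le_mul_of_nonneg_left (GRW_E_le_one x) h1
      _ = C * GRW_E u := mul_one _
  · exact GRW_E_int.const_mul _
  · exact Filter.Eventually.of_forall fun u x _ => hd u x

section

variable {C : ℝ} {f f1 f11 f2 f22 : ℝ → ℝ → ℂ}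

theorem GRW_H.m0 (h : GRW_H C f f1 f11 f2 f22) (e : ℝ) : Continuous fun u => f u e :=
  continuous_iff_continuousAt.2 fun u => (h.d1 u e).continuousAt

theorem GRW_H.dPsi (h : GRW_H C f f1 f11 f2 f22) (e : ℝ) :
    HasDerivAt (fun e => ∫ u, f u e) (∫ u, f2 u e) e :=
  GRW_dint h.c0 h.m0 h.m2 h.d2 h.b0 h.b2 e

theorem GRW_H.dPsi2 (h : GRW_H C f f1 f11 f2 f22) (e : ℝ) :
    HasDerivAt (fun e => ∫ u, f2 u e) (∫ u, f22 u e) e :=
  GRW_dint h.c0 h.m2 h.m22 h.d22 h.b2 h.b22 e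

theorem GRW_intc {P : ℝ → ℂ} {c : ℝ} (hm : AEStronglyMeasurable P) (hb : ∀ e, ‖P e‖ ≤ c * GRW_E e) :
    Integrable P ∧ ∫ e, ‖P e‖ ≤ c * GRW_S := by
  have h1 : Integrable P := Integrable.mono' (GRW_E_int.const_mul c) hm
    (Filter.Eventually.of_forall hb)
  refine ⟨h1, ?_⟩
  refine (integral_mono h1.norm (GRW_E_int.const_mul c) hb).trans (le_of_eq ?_)
  rw [integral_const_mul]
  rfl

theorem GRW_H.intPsi (h : GRW_H C f f1 f11 f2 f22) : Integrable (fun e => ∫ u, f u e) := by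
  have hc : Continuous (fun e => ∫ u, f u e) :=
    continuous_iff_continuousAt.2 fun e => (h.dPsi e).continuousAt
  exact (GRW_intc hc.aestronglyMeasurable fun e => GRW_ni h.m0 h.b0 e).1

theorem GRW_H.intPsi1 (h : GRW_H C f f1 f11 f2 f22) : Integrable (fun e => ∫ u, f2 u e) ∧
    ∫ e, ‖∫ u, f2 u e‖ ≤ C * GRW_S * GRW_S := by
  have hc : Continuous (fun e => ∫ u, f2 u e) :=
    continuous_iff_continuousAt.2 fun e => (h.dPsi2 e).continuousAt
  exact GRW_intc hc.aestronglyMeasurable fun e => GRW_ni h.m2 h.b2 e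

theorem GRW_H.intPsi2 (h : GRW_H C f f1 f11 f2 f22) : Integrable (fun e => ∫ u, f22 u e) ∧
    ∫ e, ‖∫ u, f22 u e‖ ≤ C * GRW_S * GRW_S := by
  have hc : (fun e => ∫ u, f22 u e) = deriv (fun e => ∫ u, f2 u e) := by
    ext e
    exact (h.dPsi2 e).deriv.symm
  refine GRW_intc ?_ fun e => GRW_ni h.m22 h.b22 e
  rw [hc]
  exact (measurable_deriv _).aestronglyMeasurable

/-- One row. -/
theorem GRW_H.row (h : GRW_H C f f1 f11 f2 f22) (hEM2 : S_EM2) (A M : ℝ) (hA : 0 < A) (hM : 0 < M)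
    (k r e : ℝ) :
    ‖(M : ℂ) * ∑' n : ℤ, f (A * (k + (r + M * n))) e - ((A⁻¹ : ℝ) : ℂ) * ∫ u, f u e‖ ≤
        M ^ 2 * A * C * GRW_S * GRW_E e := by
  have h0 : ∀ x : ℝ, HasDerivAt (fun x : ℝ => A * (k + x)) A x := by
    intro x
    simpa using ((hasDerivAt_id x).const_add k).const_mul A
  have hd : ∀ x, HasDerivAt (fun x : ℝ => f (A * (k + x)) e) ((A : ℂ) * f1 (A * (k + x)) e) x := by
    intro x
    have := (h.d1 (A * (k + x)) e).scomp x (h0 x)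
    simpa [Function.comp_def] using this
  have hd2 : ∀ x, HasDerivAt (fun x : ℝ => (A : ℂ) * f1 (A * (k + x)) e)
      ((A : ℂ) * ((A : ℂ) * f11 (A * (k + x)) e)) x := by
    intro x
    have h1 := (h.d11 (A * (k + x)) e).scomp x (h0 x)
    have h2 : HasDerivAt (fun x : ℝ => f1 (A * (k + x)) e) ((A : ℂ) * f11 (A * (k + x)) e) x := by
      simpa [Function.comp_def] using h1
    exact h2.const_mul (A : ℂ)
  have hg : Integrable (fun x : ℝ => f (A * (k + x)) e) :=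
    ((GRW_int h.m0 h.b0 e).comp_mul_left' hA.ne').comp_add_left k
  have hg1 : Integrable (fun x : ℝ => f11 (A * (k + x)) e) :=
    ((GRW_int h.m11 h.b11 e).comp_mul_left' hA.ne').comp_add_left k
  have hg' : Integrable (fun x : ℝ => (A : ℂ) * ((A : ℂ) * f11 (A * (k + x)) e)) :=
    (hg1.const_mul _).const_mul _
  obtain ⟨-, hE⟩ := hEM2 M r _ _ _ hM hd hd2 hg hg'
  have e1 : ∫ x : ℝ, f (A * (k + x)) e = ((A⁻¹ : ℝ) : ℂ) * ∫ u, f u e := by
    rw [integral_add_left_eq_self (fun x => f (A * x) e) k,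
      Measure.integral_comp_mul_left (fun u => f u e) A, abs_of_pos (inv_pos.2 hA),
      Complex.real_smul]
  have e2 : ∫ x : ℝ, ‖(A : ℂ) * ((A : ℂ) * f11 (A * (k + x)) e)‖ = A * ∫ u, ‖f11 u e‖ := by
    simp only [norm_mul, Complex.norm_real, Real.norm_eq_abs, abs_of_pos hA]
    rw [integral_const_mul, integral_const_mul,
      integral_add_left_eq_self (fun x => ‖f11 (A * x) e‖) k,
      Measure.integral_comp_mul_left (fun u => ‖f11 u e‖) A, abs_of_pos (inv_pos.2 hA),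
      smul_eq_mul, ← mul_assoc A A⁻¹, mul_inv_cancel₀ hA.ne', one_mul]
  rw [e1, e2] at hE
  refine hE.trans ?_
  have h3 := mul_le_mul_of_nonneg_left (GRW_nn h.m11 h.b11 e) hA.le
  have h4 := mul_le_mul_of_nonneg_left h3 (sq_nonneg M)
  refine h4.trans (le_of_eq ?_)
  ring

/-- The column of row integrals. -/
theorem GRW_H.col (h : GRW_H C f f1 f11 f2 f22) (hEM : S_EM) (hEM2 : S_EM2) (B M : ℝ) (hB : 0 < B)
    (hM : 1 ≤ M) (r : ℝ) :
    Summable (fun m : ℤ => ∫ u, f u ((r + M * m) * B)) ∧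
      ‖(M : ℂ) * (∑' m : ℤ, ∫ u, f u ((r + M * m) * B)) -
        ((B⁻¹ : ℝ) : ℂ) * ∫ e, ∫ u, f u e‖ ≤ M ^ 2 * (C * GRW_S * GRW_S) * min 1 B := by
  have hM0 : 0 < M := by linarith
  have hS := GRW_S_nonneg
  have hCS : 0 ≤ C * GRW_S * GRW_S := mul_nonneg (mul_nonneg h.c0 hS) hS
  have h0 : ∀ x : ℝ, HasDerivAt (fun x : ℝ => x * B) B x := by
    intro x
    simpa using (hasDerivAt_id x).mul_const B
  have hd : ∀ x, HasDerivAt (fun x : ℝ => ∫ u, f u (x * B)) ((B : ℂ) * ∫ u, f2 u (x * B)) x := by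
    intro x
    have h2 := (h.dPsi (x * B)).scomp x (h0 x)
    simpa [Function.comp_def] using h2
  have hd2 : ∀ x, HasDerivAt (fun x : ℝ => (B : ℂ) * ∫ u, f2 u (x * B))
      ((B : ℂ) * ((B : ℂ) * ∫ u, f22 u (x * B))) x := by
    intro x
    have h2 := (h.dPsi2 (x * B)).scomp x (h0 x)
    have h3 : HasDerivAt (fun x : ℝ => ∫ u, f2 u (x * B)) ((B : ℂ) * ∫ u, f22 u (x * B)) x := by
      simpa [Function.comp_def] using h2
    exact h3.const_mul (B : ℂ)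
  have hg : Integrable (fun x : ℝ => ∫ u, f u (x * B)) := h.intPsi.comp_mul_right' hB.ne'
  have hg1 : Integrable (fun x : ℝ => (B : ℂ) * ∫ u, f2 u (x * B)) :=
    (h.intPsi1.1.comp_mul_right' hB.ne').const_mul _
  have hg2 : Integrable (fun x : ℝ => (B : ℂ) * ((B : ℂ) * ∫ u, f22 u (x * B))) :=
    ((h.intPsi2.1.comp_mul_right' hB.ne').const_mul _).const_mul _
  obtain ⟨hs, hE1⟩ := hEM M r _ _ hM0 hd hg hg1
  obtain ⟨-, hE2⟩ := hEM2 M r _ _ _ hM0 hd hd2 hg hg2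
  refine ⟨hs, ?_⟩
  have e1 : ∫ x : ℝ, ∫ u, f u (x * B) = ((B⁻¹ : ℝ) : ℂ) * ∫ e, ∫ u, f u e := by
    rw [Measure.integral_comp_mul_right (fun e => ∫ u, f u e) B, abs_of_pos (inv_pos.2 hB),
      Complex.real_smul]
  have e2 : ∫ x : ℝ, ‖(B : ℂ) * ∫ u, f2 u (x * B)‖ = ∫ e, ‖∫ u, f2 u e‖ := by
    simp only [norm_mul, Complex.norm_real, Real.norm_eq_abs, abs_of_pos hB]
    rw [integral_const_mul, Measure.integral_comp_mul_right (fun e => ‖∫ u, f2 u e‖) B,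
      abs_of_pos (inv_pos.2 hB), smul_eq_mul, ← mul_assoc B B⁻¹, mul_inv_cancel₀ hB.ne', one_mul]
  have e3 : ∫ x : ℝ, ‖(B : ℂ) * ((B : ℂ) * ∫ u, f22 u (x * B))‖ =
      B * ∫ e, ‖∫ u, f22 u e‖ := by
    simp only [norm_mul, Complex.norm_real, Real.norm_eq_abs, abs_of_pos hB]
    rw [integral_const_mul, integral_const_mul,
      Measure.integral_comp_mul_right (fun e => ‖∫ u, f22 u e‖) B,
      abs_of_pos (inv_pos.2 hB), smul_eq_mul, ← mul_assoc B B⁻¹, mul_inv_cancel₀ hB.ne', one_mul]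
  rw [e1, e2] at hE1
  rw [e1, e3] at hE2
  rcases le_total 1 B with h1 | h1
  · rw [min_eq_left h1, mul_one]
    refine hE1.trans ?_
    have h2 := mul_le_mul_of_nonneg_left h.intPsi1.2 hM0.le
    refine h2.trans ?_
    have h3 : M ≤ M ^ 2 := by nlinarith
    exact mul_le_mul_of_nonneg_right h3 hCS
  · rw [min_eq_right h1]
    refine hE2.trans ?_
    have h2 := mul_le_mul_of_nonneg_left (mul_le_mul_of_nonneg_left h.intPsi2.2 hB.le)
      (sq_nonneg M)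
    refine h2.trans (le_of_eq ?_)
    ring

theorem GRW_H.summ (h : GRW_H C f f1 f11 f2 f22) (hEM : S_EM) (A B M : ℝ) (hA : 0 < A) (hB : 0 < B)
    (hM : 0 < M) (x r1 r2 : ℝ) :
    Summable (fun v : ℤ × ℤ => f (A * ((r1 + M * v.1) * x + (r2 + M * v.2)))
      ((r1 + M * v.1) * B)) := by
  set L : ℝ := (GRW_S / A + M * GRW_K) / M with hL
  have hrow : ∀ m : ℤ, Summable (fun n : ℤ => GRW_E (A * ((r1 + M * m) * x + (r2 + M * n)))) ∧
      ∑' n : ℤ, GRW_E (A * ((r1 + M * m) * x + (r2 + M * n))) ≤ L := by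
    intro m
    obtain ⟨a1, a2⟩ := GRW_sum hEM A M hA hM ((r1 + M * m) * x + r2)
    have e : ∀ n : ℤ, ((r1 + M * m) * x + r2 + M * n) * A =
        A * ((r1 + M * m) * x + (r2 + M * n)) := by
      intro n
      ring
    simp only [e] at a1 a2
    refine ⟨a1, ?_⟩
    rw [hL, le_div_iff₀ hM]
    linarith
  have hcol := (GRW_sum hEM B M hB hM r1).1
  have hmaj : Summable (fun v : ℤ × ℤ => GRW_E (A * ((r1 + M * v.1) * x + (r2 + M * v.2))) *
      GRW_E ((r1 + M * v.1) * B)) := by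
    have hnn : (0 : ℤ × ℤ → ℝ) ≤ fun v : ℤ × ℤ =>
        GRW_E (A * ((r1 + M * v.1) * x + (r2 + M * v.2))) * GRW_E ((r1 + M * v.1) * B) := by
      intro v
      exact (mul_pos (GRW_E_pos _) (GRW_E_pos _)).le
    refine (summable_prod_of_nonneg hnn).2 ⟨?_, ?_⟩
    · intro m
      exact (hrow m).1.mul_right (GRW_E ((r1 + M * m) * B))
    · refine Summable.of_nonneg_of_le ?_ ?_ (hcol.mul_left L)
      · intro m
        exact tsum_nonneg fun n => (mul_pos (GRW_E_pos _) (GRW_E_pos _)).le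
      · intro m
        have e1 : ∑' n : ℤ, GRW_E (A * ((r1 + M * m) * x + (r2 + M * n))) *
            GRW_E ((r1 + M * m) * B) =
            (∑' n : ℤ, GRW_E (A * ((r1 + M * m) * x + (r2 + M * n)))) *
              GRW_E ((r1 + M * m) * B) := tsum_mul_right
        refine (le_of_eq e1).trans ?_
        exact mul_le_mul_of_nonneg_right (hrow m).2 (GRW_E_pos _).le
  refine Summable.of_norm_bounded (hmaj.mul_left C) fun v => ?_
  refine (h.b0 _ _).trans (le_of_eq ?_)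
  ring

theorem GRW_H.main (h : GRW_H C f f1 f11 f2 f22) (hEM : S_EM) (hEM2 : S_EM2) (A B M : ℝ)
    (hA : 0 < A) (hB : 0 < B) (hM : 1 ≤ M) (x r1 r2 : ℝ) :
    ‖(M : ℂ) ^ 2 * (∑' v : ℤ × ℤ, f (A * ((r1 + M * v.1) * x + (r2 + M * v.2)))
      ((r1 + M * v.1) * B)) - (((A * B)⁻¹ : ℝ) : ℂ) * ∫ e, ∫ u, f u e‖ ≤
      (M ^ 2 * (C * GRW_S * GRW_S) + M ^ 3 * C * GRW_S * GRW_K) *
        (A + A / B + A⁻¹ * min 1 B) := by
  have hM0 : 0 < M := by linarith
  have hS := GRW_S_nonneg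
  have hK := GRW_K_nonneg
  have hCS : 0 ≤ C * GRW_S := mul_nonneg h.c0 hS
  have hsum := h.summ hEM A B M hA hB hM0 x r1 r2
  set T : ℤ → ℂ := fun m => ∑' n : ℤ, f (A * ((r1 + M * m) * x + (r2 + M * n)))
    ((r1 + M * m) * B) with hT
  set P : ℤ → ℂ := fun m => ((A⁻¹ : ℝ) : ℂ) * ∫ u, f u ((r1 + M * m) * B) with hP
  have hTs : Summable T := hsum.prod
  have e1 : ∑' v : ℤ × ℤ, f (A * ((r1 + M * v.1) * x + (r2 + M * v.2)))
      ((r1 + M * v.1) * B) = ∑' m, T m := hsum.tsum_prod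
  obtain ⟨c1, c2⟩ := h.col hEM hEM2 B M hB hM r1
  have hrow : ∀ m : ℤ, ‖(M : ℂ) * T m - P m‖ ≤
      M ^ 2 * A * C * GRW_S * GRW_E ((r1 + M * m) * B) := fun m =>
    h.row hEM2 A M hA hM0 ((r1 + M * m) * x) r2 ((r1 + M * m) * B)
  obtain ⟨g1, g2⟩ := GRW_sum hEM B M hB hM0 r1
  have hs1 : ‖∑' m, ((M : ℂ) * T m - P m)‖ ≤
      M ^ 2 * A * C * GRW_S * ∑' m : ℤ, GRW_E ((r1 + M * m) * B) :=
    tsum_of_norm_bounded (g1.hasSum.mul_left _) hrow
  have hMT : Summable fun m => (M : ℂ) * T m := hTs.mul_left _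
  have hPs : Summable P := c1.mul_left _
  have hPt : ∑' m, P m = ((A⁻¹ : ℝ) : ℂ) * ∑' m : ℤ, ∫ u, f u ((r1 + M * m) * B) := tsum_mul_left
  have e2 : (M : ℂ) ^ 2 * (∑' m, T m) - (((A * B)⁻¹ : ℝ) : ℂ) * ∫ e, ∫ u, f u e =
      (M : ℂ) * (∑' m, ((M : ℂ) * T m - P m)) + ((A⁻¹ : ℝ) : ℂ) *
        ((M : ℂ) * (∑' m : ℤ, ∫ u, f u ((r1 + M * m) * B)) -
          ((B⁻¹ : ℝ) : ℂ) * ∫ e, ∫ u, f u e) := by
    rw [hMT.tsum_sub hPs, tsum_mul_left, hPt, mul_inv]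
    push_cast
    ring
  rw [e1, e2]
  refine (norm_add_le _ _).trans ?_
  have h3 : ‖(M : ℂ) * (∑' m, ((M : ℂ) * T m - P m))‖ ≤
      M ^ 2 * A * C * GRW_S * (GRW_S / B + M * GRW_K) := by
    rw [norm_mul, Complex.norm_real, Real.norm_eq_abs, abs_of_pos hM0]
    have h4 := mul_le_mul_of_nonneg_left hs1 hM0.le
    have h5 : 0 ≤ M ^ 2 * A * C * GRW_S := by
      have := h.c0
      positivity
    have h6 := mul_le_mul_of_nonneg_left g2 h5
    refine h4.trans (le_trans (le_of_eq ?_) h6)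
    ring
  have h4 : ‖((A⁻¹ : ℝ) : ℂ) * ((M : ℂ) * (∑' m : ℤ, ∫ u, f u ((r1 + M * m) * B)) -
      ((B⁻¹ : ℝ) : ℂ) * ∫ e, ∫ u, f u e)‖ ≤
      A⁻¹ * (M ^ 2 * (C * GRW_S * GRW_S) * min 1 B) := by
    rw [norm_mul, Complex.norm_real, Real.norm_eq_abs, abs_of_pos (inv_pos.2 hA)]
    exact mul_le_mul_of_nonneg_left c2 (inv_pos.2 hA).le
  refine (add_le_add h3 h4).trans ?_
  have hm : 0 ≤ min 1 B := le_min zero_le_one hB.le
  have hAi : 0 ≤ A⁻¹ := (inv_pos.2 hA).le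
  have hAB : 0 ≤ A / B := by positivity
  have hc := h.c0
  have t1 : 0 ≤ M ^ 2 * (C * GRW_S * GRW_S) := by positivity
  have t2 : 0 ≤ M ^ 3 * C * GRW_S * GRW_K := by positivity
  have e5 : M ^ 2 * A * C * GRW_S * (GRW_S / B + M * GRW_K) =
      M ^ 2 * (C * GRW_S * GRW_S) * (A / B) + M ^ 3 * C * GRW_S * GRW_K * A := by
    rw [div_eq_mul_inv, div_eq_mul_inv]
    ring
  rw [e5]
  generalize M ^ 2 * (C * GRW_S * GRW_S) = t at t1 ⊢
  generalize M ^ 3 * C * GRW_S * GRW_K = s at t2 ⊢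
  generalize A / B = y at hAB ⊢
  generalize min 1 B = z at hm ⊢
  nlinarith [mul_nonneg t1 hA.le, mul_nonneg t2 hAB, mul_nonneg t2 (mul_nonneg hAi hm)]

end

theorem p_GRW : S_GRW := by
  intro hEM hEM2 hGPD M l hM
  obtain ⟨C, gx, gxx, gy, gyy, hC, hd, hc1, hc2, hc3, hc4, hb⟩ := hGPD l
  have hH : GRW_H C (fun ξ η => gl l (ξ + η * Complex.I)) gx gxx gy gyy := by
    refine ⟨hC, fun u e => (hd u e).1, fun u e => (hd u e).2.1, fun u e => (hd u e).2.2.1,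
      fun u e => (hd u e).2.2.2, ?_, ?_, ?_, fun u e => (hb u e).1, fun u e => (hb u e).2.2.1,
      fun u e => (hb u e).2.2.2.1, fun u e => (hb u e).2.2.2.2⟩
    · intro e
      exact hc2.comp (Continuous.prodMk continuous_id continuous_const)
    · intro e
      exact hc3.comp (Continuous.prodMk continuous_id continuous_const)
    · intro e
      exact hc4.comp (Continuous.prodMk continuous_id continuous_const)
  have hM1 : (1 : ℝ) ≤ (M : ℝ) := by exact_mod_cast hM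
  have hS := GRW_S_nonneg
  have hK := GRW_K_nonneg
  refine ⟨(M : ℝ) ^ 2 * (C * GRW_S * GRW_S) + (M : ℝ) ^ 3 * C * GRW_S * GRW_K, by positivity, ?_⟩
  intro A B x r₁ r₂ hA hB
  refine ⟨?_, ?_⟩
  · exact hH.summ hEM A B M hA hB (by linarith) x r₁ r₂
  · exact hH.main hEM hEM2 A B M hA hB hM1 x r₁ r₂

end Pool.Agent.Lib.MP_058a58_ag.MT
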