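import Pool.Agent.Lib.MP_058a58_ag.MT.DStm

set_option autoImplicit false

/-!
# Defect form: absolute convergence of the theta sums (piece GSM)
-/

open UpperHalfPlane MeasureTheory Filter Topology
open scoped MatrixGroups Modular

namespace Pool.Agent.Lib.MP_058a58_ag.MT

theorem GSM_norm (l : ℕ) (u : ℂ) :
    ‖gl l u‖ = ‖u‖ ^ l * Real.exp (-Real.pi * ‖u‖ ^ 2) := by
  unfold gl
  rw [norm_mul, norm_pow, Complex.norm_real, Real.norm_of_nonneg (Real.exp_nonneg _)]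

theorem GSM_bound (l : ℕ) (u : ℂ) (hu : u ≠ 0) :
    ‖gl l u‖ ≤ (1 + (l + 4).factorial) * ‖u‖ ^ (-4 : ℝ) := by
  have hr : 0 < ‖u‖ := norm_pos_iff.2 hu
  set r : ℝ := ‖u‖ with hrdef
  have h1 : (r ^ 2) ^ (l + 4) / ((l + 4).factorial : ℝ) ≤ Real.exp (r ^ 2) :=
    Real.pow_div_factorial_le_exp (r ^ 2) (by positivity) (l + 4)
  have hf : (0 : ℝ) < (l + 4).factorial := by exact_mod_cast Nat.factorial_pos _
  have h2 : (r ^ 2) ^ (l + 4) ≤ Real.exp (r ^ 2) * (l + 4).factorial := by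
    rwa [div_le_iff₀ hf] at h1
  have h3 : r ^ (l + 4) ≤ 1 + (r ^ 2) ^ (l + 4) := by
    have h4 : (r ^ 2) ^ (l + 4) = (r ^ (l + 4)) ^ 2 := by rw [← pow_mul, ← pow_mul, mul_comm]
    rw [h4]
    nlinarith [sq_nonneg (r ^ (l + 4) - 1), sq_nonneg (r ^ (l + 4))]
  have h5 : 1 ≤ Real.exp (r ^ 2) := Real.one_le_exp (by positivity)
  have h6 : r ^ (l + 4) ≤ Real.exp (r ^ 2) * (1 + (l + 4).factorial) := by
    calc r ^ (l + 4) ≤ 1 + (r ^ 2) ^ (l + 4) := h3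
      _ ≤ Real.exp (r ^ 2) + Real.exp (r ^ 2) * (l + 4).factorial := add_le_add h5 h2
      _ = _ := by ring
  have h7 : Real.exp (r ^ 2) * Real.exp (-Real.pi * r ^ 2) ≤ 1 := by
    rw [← Real.exp_add]
    apply Real.exp_le_one_iff.2
    nlinarith [Real.pi_gt_three, sq_nonneg r]
  have h8 : r ^ (l + 4) * Real.exp (-Real.pi * r ^ 2) ≤ 1 + (l + 4).factorial := by
    calc r ^ (l + 4) * Real.exp (-Real.pi * r ^ 2)
        ≤ (Real.exp (r ^ 2) * (1 + (l + 4).factorial)) * Real.exp (-Real.pi * r ^ 2) :=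
          mul_le_mul_of_nonneg_right h6 (Real.exp_nonneg _)
      _ = (Real.exp (r ^ 2) * Real.exp (-Real.pi * r ^ 2)) * (1 + (l + 4).factorial) := by ring
      _ ≤ 1 * (1 + (l + 4).factorial) := mul_le_mul_of_nonneg_right h7 (by positivity)
      _ = _ := one_mul _
  rw [GSM_norm, ← hrdef]
  have h9 : r ^ (-4 : ℝ) = (r ^ 4)⁻¹ := by
    rw [Real.rpow_neg hr.le]
    norm_cast
  rw [h9, ← div_eq_mul_inv, le_div_iff₀ (by positivity)]
  calc r ^ l * Real.exp (-Real.pi * r ^ 2) * r ^ 4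
      = r ^ (l + 4) * Real.exp (-Real.pi * r ^ 2) := by ring
    _ ≤ _ := h8

theorem p_GSM : S_GSM := by
  intro l T hT z
  have hy : 0 < z.im := z.im_pos
  have hsq : 0 < Real.sqrt z.im := Real.sqrt_pos.2 hy
  have hsT : 0 < Real.sqrt T := Real.sqrt_pos.2 hT
  have hS : Summable fun x : Fin 2 → ℤ => ‖x‖ ^ (-(4 : ℝ)) :=
    EisensteinSeries.summable_one_div_norm_rpow (by norm_num)
  set K : ℝ := (1 + (l + 4).factorial) * ((z.im / T) ^ 2 * EisensteinSeries.r z ^ (-(4 : ℝ)))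
    with hK
  have hr := EisensteinSeries.r_pos z
  have hK0 : 0 ≤ K := by
    rw [hK]
    have := Real.rpow_nonneg hr.le (-(4 : ℝ))
    positivity
  have hS2 : Summable fun v : ℤ × ℤ =>
      K * ‖(finTwoArrowEquiv ℤ).symm v‖ ^ (-(4 : ℝ)) := by
    refine Summable.mul_left _ ?_
    exact (finTwoArrowEquiv ℤ).symm.summable_iff.2 hS
  have hS3 : Summable fun v : ℤ × ℤ => if v = 0 then (1 : ℝ) else 0 :=
    (hasSum_ite_eq (0 : ℤ × ℤ) (1 : ℝ)).summable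
  refine Summable.of_nonneg_of_le (fun _ => norm_nonneg _) (fun v => ?_) (hS2.add hS3)
  by_cases hv : (finTwoArrowEquiv ℤ).symm v = 0
  · have h3 : v = 0 := by
      have h4 : v = finTwoArrowEquiv ℤ 0 := by rw [← hv, Equiv.apply_symm_apply]
      rw [h4]; rfl
    have h5 : vz z v.1 v.2 = 0 := by
      rw [h3]
      unfold vz
      simp
    rw [h5, mul_zero, if_pos h3, GSM_norm, norm_zero]
    have h6 : (0 : ℝ) ^ l * Real.exp (-Real.pi * 0 ^ 2) ≤ 1 := by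
      rcases l with _ | l
      · simp
      · simp
    have h7 : 0 ≤ K * ‖(finTwoArrowEquiv ℤ).symm v‖ ^ (-(4 : ℝ)) :=
      mul_nonneg hK0 (Real.rpow_nonneg (norm_nonneg _) _)
    linarith
  · have h3 := EisensteinSeries.r_mul_max_le z hv
    have h4 := EisensteinSeries.summand_bound z (k := 4) (by norm_num)
      ((finTwoArrowEquiv ℤ).symm v)
    have h5 : (((finTwoArrowEquiv ℤ).symm v 0 : ℤ) : ℂ) * (z : ℂ) +
        (((finTwoArrowEquiv ℤ).symm v 1 : ℤ) : ℂ) = (v.1 : ℂ) * z + v.2 := rfl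
    rw [h5] at h3 h4
    have hN : 0 < ‖(v.1 : ℂ) * z + v.2‖ :=
      lt_of_lt_of_le (mul_pos hr (norm_pos_iff.2 hv)) h3
    have h6 : ‖(Real.sqrt T : ℂ) * vz z v.1 v.2‖ =
        Real.sqrt T * ‖(v.1 : ℂ) * z + v.2‖ / Real.sqrt z.im := by
      unfold vz
      rw [norm_mul, norm_div, Complex.norm_real, Complex.norm_real,
        Real.norm_of_nonneg hsq.le, Real.norm_of_nonneg hsT.le, mul_div_assoc]
    have h7 : (Real.sqrt T : ℂ) * vz z v.1 v.2 ≠ 0 := by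
      rw [← norm_pos_iff, h6]
      positivity
    have h8 : (0 : ℝ) ≤ if v = 0 then (1 : ℝ) else 0 := by split_ifs <;> norm_num
    have hN4 : ‖(v.1 : ℂ) * z + v.2‖ ^ (-(4 : ℝ)) = (‖(v.1 : ℂ) * z + v.2‖ ^ 4)⁻¹ := by
      rw [Real.rpow_neg hN.le]
      norm_cast
    have e1 : Real.sqrt T ^ 4 = T ^ 2 := by
      rw [show (4 : ℕ) = 2 * 2 by norm_num, pow_mul, Real.sq_sqrt hT.le]
    have e2 : Real.sqrt z.im ^ 4 = z.im ^ 2 := by
      rw [show (4 : ℕ) = 2 * 2 by norm_num, pow_mul, Real.sq_sqrt hy.le]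
    calc ‖gl l ((Real.sqrt T : ℂ) * vz z v.1 v.2)‖
        ≤ (1 + (l + 4).factorial) * ‖(Real.sqrt T : ℂ) * vz z v.1 v.2‖ ^ (-4 : ℝ) :=
          GSM_bound l _ h7
      _ = (1 + (l + 4).factorial) *
            ((z.im / T) ^ 2 * ‖(v.1 : ℂ) * z + v.2‖ ^ (-(4 : ℝ))) := by
          congr 1
          rw [hN4, h6, Real.rpow_neg (by positivity)]
          have h9 : (Real.sqrt T * ‖(v.1 : ℂ) * z + v.2‖ / Real.sqrt z.im) ^ (4 : ℝ) =
              (Real.sqrt T * ‖(v.1 : ℂ) * z + v.2‖ / Real.sqrt z.im) ^ 4 := by norm_cast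
          rw [h9, div_pow, mul_pow, e1, e2]
          field_simp
      _ ≤ (1 + (l + 4).factorial) * ((z.im / T) ^ 2 * (EisensteinSeries.r z ^ (-(4 : ℝ)) *
            ‖(finTwoArrowEquiv ℤ).symm v‖ ^ (-(4 : ℝ)))) := by
          refine mul_le_mul_of_nonneg_left (mul_le_mul_of_nonneg_left h4 (by positivity))
            (by positivity)
      _ = K * ‖(finTwoArrowEquiv ℤ).symm v‖ ^ (-(4 : ℝ)) := by rw [hK]; ring
      _ ≤ _ := by linarith

end Pool.Agent.Lib.MP_058a58_ag.MT
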