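import Pool.Agent.Lib.MP_058a58_ag.MT.DStm
import Pool.Agent.Lib.MP_058a58_ag.MT.P.VOL

set_option autoImplicit false

/-!
# [MD GVOL] the power `y ^ (3/4)` is integrable on the fundamental domain (helper5)
-/

open UpperHalfPlane MeasureTheory Filter Topology
open scoped MatrixGroups Modular ENNReal

namespace Pool.Agent.Lib.MP_058a58_ag.MT

theorem GVOL_fin : ∫⁻ y in Set.Ici (1 / 2 : ℝ), ((1 / ‖y‖₊ : NNReal) ^ 2 : NNReal) *
    ENNReal.ofReal (y ^ (3 / 4 : ℝ)) < ⊤ := by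
  have h1 : IntegrableOn (fun y : ℝ => y ^ (-(5 / 4) : ℝ)) (Set.Ici (1 / 2)) := by
    rw [integrableOn_Ici_iff_integrableOn_Ioi]
    exact integrableOn_Ioi_rpow_of_lt (by norm_num) (by norm_num)
  have h2 : ∫⁻ y in Set.Ici (1 / 2 : ℝ), ((1 / ‖y‖₊ : NNReal) ^ 2 : NNReal) *
      ENNReal.ofReal (y ^ (3 / 4 : ℝ)) = ∫⁻ y in Set.Ici (1 / 2 : ℝ), ‖y ^ (-(5 / 4) : ℝ)‖ₑ := by
    refine setLIntegral_congr_fun measurableSet_Ici fun y hy => ?_
    have hy0 : (0 : ℝ) < y := lt_of_lt_of_le (by norm_num) hy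
    have h3 : (((1 / ‖y‖₊ : NNReal) ^ 2 : NNReal) : ℝ≥0∞) = ENNReal.ofReal ((1 / y) ^ 2) := by
      rw [ENNReal.ofReal]
      congr 1
      apply NNReal.eq
      rw [Real.coe_toNNReal _ (by positivity)]
      simp [abs_of_pos hy0]
    show (((1 / ‖y‖₊ : NNReal) ^ 2 : NNReal) : ℝ≥0∞) * ENNReal.ofReal (y ^ (3 / 4 : ℝ)) = _
    rw [h3, ← ENNReal.ofReal_mul (by positivity),
      Real.enorm_of_nonneg (Real.rpow_nonneg hy0.le _)]
    congr 1
    rw [one_div, inv_pow, ← Real.rpow_natCast, ← Real.rpow_neg hy0.le,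
      ← Real.rpow_add hy0]
    norm_num
  rw [h2]
  exact h1.2

theorem p_GVOL : S_GVOL := by
  have hc : Continuous (fun z : ℍ => z.im ^ (3 / 4 : ℝ)) :=
    continuous_im.rpow_const fun z => Or.inr (by norm_num)
  have hS : IntegrableOn (fun z : ℍ => z.im ^ (3 / 4 : ℝ)) VOL_S := by
    refine ⟨hc.aestronglyMeasurable, ?_⟩
    have hm : Measurable (fun y : ℝ => ENNReal.ofReal (y ^ (3 / 4 : ℝ))) :=
      (measurable_id.pow_const (3 / 4 : ℝ)).ennreal_ofReal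
    have h1 := VOL_lintegral (fun y => ENNReal.ofReal (y ^ (3 / 4 : ℝ))) hm
    refine lt_of_le_of_lt (le_trans (le_of_eq ?_) h1) GVOL_fin
    refine lintegral_congr fun z => ?_
    exact Real.enorm_of_nonneg (Real.rpow_nonneg z.im_pos.le _)
  exact hS.mono_set VOL_fd_sub

end Pool.Agent.Lib.MP_058a58_ag.MT
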