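import Pool.Agent.Lib.MP_058a58_ag.MT.DStm2
import Pool.Agent.Lib.MP_058a58_ag.MT.P.HR

set_option autoImplicit false

/-!
# Piece HRC: the Hecke relation for the Dirichlet series, complex exponents
-/

open UpperHalfPlane MeasureTheory Filter Topology
open scoped MatrixGroups Modular ComplexConjugate

namespace Pool.Agent.Lib.MP_058a58_ag.MT

theorem HRC_norm_le (n : ℕ) (σ : ℂ) : ‖(n : ℂ) ^ (-σ)‖ ≤ (n : ℝ) ^ (-σ.re) := by
  rcases Nat.eq_zero_or_pos n with rfl | hn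
  · by_cases h : σ = 0
    · simp [h]
    · have h1 : -σ ≠ 0 := neg_ne_zero.2 h
      rw [Nat.cast_zero, Complex.zero_cpow h1, norm_zero]
      exact Real.rpow_nonneg (Nat.cast_nonneg 0) _
  · rw [Complex.norm_natCast_cpow_of_pos hn, Complex.neg_re]

theorem HRC_shift {p : ℕ} (hp : p.Prime) (u v : ℕ → ℝ) (σ : ℂ) :
    ∑' n : ℕ, ((upc p u n * v n : ℝ) : ℂ) * (n : ℂ) ^ (-σ) =
      (p : ℂ) ^ (-σ) * ∑' m : ℕ, ((u m * v (p * m) : ℝ) : ℂ) * (m : ℂ) ^ (-σ) := by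
  have hinj : Function.Injective (fun m : ℕ => p * m) := fun i j h =>
    Nat.eq_of_mul_eq_mul_left hp.pos h
  have h1 := hinj.tsum_eq (f := fun n : ℕ => ((upc p u n * v n : ℝ) : ℂ) * (n : ℂ) ^ (-σ)) (by
    intro n hn
    have h2 : p ∣ n := by
      by_contra h
      apply hn
      simp [upc, h]
    obtain ⟨m, rfl⟩ := h2
    exact ⟨m, rfl⟩)
  rw [← h1, ← tsum_mul_left]
  apply tsum_congr
  intro m
  have h3 : upc p u (p * m) = u m := by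
    rw [upc, if_pos (dvd_mul_right p m), Nat.mul_div_cancel_left _ hp.pos]
  rw [h3, Nat.cast_mul, Complex.natCast_mul_natCast_cpow]
  ring

theorem HRC_prod {u v : ℕ → ℝ} {σ : ℂ}
    (hu : Summable (fun n : ℕ => u n ^ 2 * (n : ℝ) ^ (-σ.re)))
    (hv : Summable (fun n : ℕ => v n ^ 2 * (n : ℝ) ^ (-σ.re))) :
    Summable (fun n : ℕ => ((u n * v n : ℝ) : ℂ) * (n : ℂ) ^ (-σ)) := by
  refine Summable.of_norm_bounded ((hu.add hv)) (fun n => ?_)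
  have h0 : 0 ≤ (n : ℝ) ^ (-σ.re) := Real.rpow_nonneg (Nat.cast_nonneg n) _
  rw [norm_mul, Complex.norm_real, Real.norm_eq_abs, ← add_mul]
  refine mul_le_mul ?_ (HRC_norm_le n σ) (norm_nonneg _) (by positivity)
  rw [abs_le]
  constructor
  · nlinarith [sq_nonneg (u n + v n), sq_nonneg (u n), sq_nonneg (v n)]
  · nlinarith [sq_nonneg (u n - v n), sq_nonneg (u n), sq_nonneg (v n)]

theorem HRC_one {N k p : ℕ} {u v : ℕ → ℝ} {σ : ℂ} (hv : HeckeSeq N k v) (hp : p.Prime)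
    (hpN : ¬ p ∣ N) (hu2 : Summable (fun n : ℕ => u n ^ 2 * (n : ℝ) ^ (-σ.re)))
    (hv2 : Summable (fun n : ℕ => v n ^ 2 * (n : ℝ) ^ (-σ.re))) :
    (p : ℂ) ^ σ * ∑' n : ℕ, ((upc p u n * v n : ℝ) : ℂ) * (n : ℂ) ^ (-σ) =
      (v p : ℂ) * ∑' n : ℕ, ((u n * v n : ℝ) : ℂ) * (n : ℂ) ^ (-σ) -
        (p : ℂ) ^ (k - 1) * ∑' n : ℕ, ((u n * upc p v n : ℝ) : ℂ) * (n : ℂ) ^ (-σ) := by
  have hp0 : (p : ℂ) ≠ 0 := by exact_mod_cast hp.pos.ne'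
  have h1 : (p : ℂ) ^ σ * (p : ℂ) ^ (-σ) = 1 := by
    rw [← Complex.cpow_add _ _ hp0]
    simp
  rw [HRC_shift hp, ← mul_assoc, h1, one_mul, ← tsum_mul_left, ← tsum_mul_left,
    ← ((HRC_prod hu2 hv2).mul_left (v p : ℂ)).tsum_sub
      ((HRC_prod hu2 (HR_sq hp hv2)).mul_left ((p : ℂ) ^ (k - 1)))]
  apply tsum_congr
  intro n
  rw [HR_rel hv hp hpN]
  push_cast
  ring

theorem p_HRC : S_HRC := by
  intro N N' k p a b σ ha hb hp hpN ha2 hb2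
  have hN : ¬ p ∣ N := fun h => hpN (Dvd.dvd.mul_right h N')
  have hN' : ¬ p ∣ N' := fun h => hpN (Dvd.dvd.mul_left h N)
  have h1 := HRC_one (u := a) (v := b) hb hp hN' ha2 hb2
  have h2 := HRC_one (u := b) (v := a) ha hp hN hb2 ha2
  have e1 : ∑' n : ℕ, ((b n * a n : ℝ) : ℂ) * (n : ℂ) ^ (-σ) =
      ∑' n : ℕ, ((a n * b n : ℝ) : ℂ) * (n : ℂ) ^ (-σ) :=
    tsum_congr fun n => by rw [mul_comm (b n)]
  have e2 : ∑' n : ℕ, ((upc p b n * a n : ℝ) : ℂ) * (n : ℂ) ^ (-σ) =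
      ∑' n : ℕ, ((a n * upc p b n : ℝ) : ℂ) * (n : ℂ) ^ (-σ) :=
    tsum_congr fun n => by rw [mul_comm (a n)]
  have e3 : ∑' n : ℕ, ((b n * upc p a n : ℝ) : ℂ) * (n : ℂ) ^ (-σ) =
      ∑' n : ℕ, ((upc p a n * b n : ℝ) : ℂ) * (n : ℂ) ^ (-σ) :=
    tsum_congr fun n => by rw [mul_comm (b n)]
  have e4 : ∑' n : ℕ, ((upc p a n * b n - a n * upc p b n : ℝ) : ℂ) * (n : ℂ) ^ (-σ) =
      ∑' n : ℕ, ((upc p a n * b n : ℝ) : ℂ) * (n : ℂ) ^ (-σ) -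
        ∑' n : ℕ, ((a n * upc p b n : ℝ) : ℂ) * (n : ℂ) ^ (-σ) := by
    rw [← (HRC_prod (HR_sq hp ha2) hb2).tsum_sub (HRC_prod ha2 (HR_sq hp hb2))]
    exact tsum_congr fun n => by
      push_cast
      ring
  rw [e1, e2, e3] at h2
  rw [e4, Complex.ofReal_sub]
  linear_combination h1 * (-1) + h2

end Pool.Agent.Lib.MP_058a58_ag.MT
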