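import Pool.Agent.Lib.MP_058a58_ag.MT.DStm

set_option autoImplicit false

/-!
# Bounds and measurability of the integrals `IG`
-/

open MeasureTheory Filter Topology Set

namespace Pool.Agent.Lib.MP_058a58_ag.MT

private theorem IGB_exp (p : ℝ) (hp : 0 ≤ p) :
    ∃ C : ℝ, 0 ≤ C ∧ ∀ x : ℝ, 0 < x → x ^ p * Real.exp (-Real.pi * x) ≤ C := by
  set N := ⌈p⌉₊ with hN
  refine ⟨1 + N.factorial, by positivity, fun x hx => ?_⟩
  have h1 : x ^ p ≤ 1 + x ^ N := by
    rcases le_total x 1 with h | h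
    · have h2 := Real.rpow_le_one hx.le h hp
      have h3 : 0 ≤ x ^ N := by positivity
      linarith
    · have h2 : x ^ p ≤ x ^ (N : ℝ) := Real.rpow_le_rpow_of_exponent_le h (Nat.le_ceil p)
      rw [Real.rpow_natCast] at h2
      linarith
  have hf : (0 : ℝ) < N.factorial := by exact_mod_cast N.factorial_pos
  have h2 : x ^ N ≤ N.factorial * Real.exp x := by
    have := Real.pow_div_factorial_le_exp x hx.le N
    rw [div_le_iff₀ hf] at this
    linarith
  have h3 : Real.exp (-Real.pi * x) ≤ Real.exp (-x) :=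
    Real.exp_le_exp.2 (by nlinarith [Real.pi_gt_three])
  have h4 : Real.exp (-x) ≤ 1 := Real.exp_le_one_iff.2 (by linarith)
  have h5 : Real.exp x * Real.exp (-x) = 1 := by rw [← Real.exp_add]; simp
  have h6 : 0 < Real.exp (-x) := Real.exp_pos _
  have h7 : 0 ≤ x ^ p := Real.rpow_nonneg hx.le _
  calc x ^ p * Real.exp (-Real.pi * x) ≤ x ^ p * Real.exp (-x) :=
        mul_le_mul_of_nonneg_left h3 h7
    _ ≤ (1 + x ^ N) * Real.exp (-x) := mul_le_mul_of_nonneg_right h1 h6.le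
    _ = Real.exp (-x) + x ^ N * Real.exp (-x) := by ring
    _ ≤ 1 + (N.factorial * Real.exp x) * Real.exp (-x) :=
        add_le_add h4 (mul_le_mul_of_nonneg_right h2 h6.le)
    _ = 1 + N.factorial := by rw [mul_assoc, h5, mul_one]

private theorem IGB_gr (l : ℕ) (A : ℝ) (hA : 0 ≤ A) :
    ∃ C : ℝ, 0 ≤ C ∧ ∀ x : ℝ, 0 < x → gr l x ≤ C * x ^ (-A) := by
  obtain ⟨C, hC0, hC⟩ := IGB_exp ((l : ℝ) / 2 + A) (by positivity)
  refine ⟨C, hC0, fun x hx => ?_⟩
  have h1 : gr l x = (x ^ ((l : ℝ) / 2 + A) * Real.exp (-Real.pi * x)) * x ^ (-A) := by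
    unfold gr
    rw [mul_right_comm, ← Real.rpow_add hx]
    congr 2
    ring
  rw [h1]
  exact mul_le_mul_of_nonneg_right (hC x hx) (Real.rpow_nonneg hx.le _)

private theorem IGB_sum2 : Summable (fun n : ℕ => 1 / (n : ℝ) ^ 2) :=
  Real.summable_one_div_nat_pow.2 (by norm_num)

private theorem IGB_term (l : ℕ) (A C : ℝ) (hA : 1 ≤ A) (hC0 : 0 ≤ C)
    (hC : ∀ x : ℝ, 0 < x → gr l x ≤ C * x ^ (-A)) (T y : ℝ) (hT : 0 < T) (hy : 0 < y)
    (n : ℕ) (hn : 1 ≤ n) :
    gr l (T * (n : ℝ) ^ 2 / y) ≤ (C * T ^ (-A) * y ^ A) * (1 / (n : ℝ) ^ 2) := by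
  have hn1 : (1 : ℝ) ≤ n := by exact_mod_cast hn
  have hn2 : (1 : ℝ) ≤ (n : ℝ) ^ 2 := by nlinarith
  have hn0 : (0 : ℝ) < (n : ℝ) ^ 2 := by linarith
  have h1 : (T * (n : ℝ) ^ 2 / y) ^ (-A) = T ^ (-A) * y ^ A * ((n : ℝ) ^ 2) ^ (-A) := by
    rw [Real.div_rpow (by positivity) hy.le, Real.mul_rpow hT.le hn0.le, Real.rpow_neg hy.le,
      div_inv_eq_mul]
    ring
  have h2 : ((n : ℝ) ^ 2) ^ (-A) ≤ 1 / (n : ℝ) ^ 2 := by
    calc ((n : ℝ) ^ 2) ^ (-A) ≤ ((n : ℝ) ^ 2) ^ (-1 : ℝ) :=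
          Real.rpow_le_rpow_of_exponent_le hn2 (by linarith)
      _ = 1 / (n : ℝ) ^ 2 := by rw [Real.rpow_neg_one, one_div]
  have h3 := hC (T * (n : ℝ) ^ 2 / y) (by positivity)
  rw [h1] at h3
  have h4 : 0 ≤ T ^ (-A) := Real.rpow_nonneg hT.le _
  have h5 : 0 ≤ y ^ A := Real.rpow_nonneg hy.le _
  calc gr l (T * (n : ℝ) ^ 2 / y) ≤ C * (T ^ (-A) * y ^ A * ((n : ℝ) ^ 2) ^ (-A)) := h3
    _ = (C * T ^ (-A) * y ^ A) * ((n : ℝ) ^ 2) ^ (-A) := by ring
    _ ≤ (C * T ^ (-A) * y ^ A) * (1 / (n : ℝ) ^ 2) :=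
      mul_le_mul_of_nonneg_left h2 (by positivity)

private theorem IGB_ug (M l : ℕ) (A C : ℝ) (hA : 1 ≤ A) (hC0 : 0 ≤ C)
    (hC : ∀ x : ℝ, 0 < x → gr l x ≤ C * x ^ (-A)) (T y : ℝ) (hT : 0 < T) (hy : 0 < y)
    (hs : Summable (fun n : ℕ => if 1 ≤ n ∧ n.Coprime M then
      gr l (T * (n : ℝ) ^ 2 / y) else 0)) :
    ug M l T y ≤ (C * ∑' n : ℕ, 1 / (n : ℝ) ^ 2) * T ^ (-A) * y ^ A := by
  unfold ug
  rw [if_pos hy]
  have h4 : 0 ≤ T ^ (-A) := Real.rpow_nonneg hT.le _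
  have h5 : 0 ≤ y ^ A := Real.rpow_nonneg hy.le _
  have h1 : ∀ n : ℕ, (if 1 ≤ n ∧ n.Coprime M then gr l (T * (n : ℝ) ^ 2 / y) else 0) ≤
      (C * T ^ (-A) * y ^ A) * (1 / (n : ℝ) ^ 2) := by
    intro n
    split_ifs with h
    · exact IGB_term l A C hA hC0 hC T y hT hy n h.1
    · positivity
  refine (hs.tsum_le_tsum h1 (IGB_sum2.mul_left _)).trans (le_of_eq ?_)
  rw [tsum_mul_left]
  ring

theorem p_IGB : S_IGB := by
  intro hHT M l K hM hK
  obtain ⟨hjm, hHT2⟩ := hHT M l hM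
  refine ⟨?_, ?_⟩
  · intro A hA
    obtain ⟨C, hC0, hC⟩ := IGB_gr l A (by linarith)
    set Z : ℝ := ∑' n : ℕ, 1 / (n : ℝ) ^ 2 with hZ
    have hZ0 : 0 ≤ Z := tsum_nonneg (fun n => by positivity)
    have hq : 0 < K - 1 + A := by linarith
    have hG : 0 < Real.Gamma (K - 1 + A) := Real.Gamma_pos_of_pos hq
    refine ⟨(C * Z) * ((4 * Real.pi) ^ (-(K - 1 + A)) * Real.Gamma (K - 1 + A)), by positivity, ?_⟩
    intro T hT n hn
    obtain ⟨hm, hnn, hs, -, -⟩ := hHT2 T hT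
    have hn0 : (0 : ℝ) < n := by exact_mod_cast hn
    have hr : (0 : ℝ) < 4 * Real.pi * n := by positivity
    have hI : IntegrableOn (fun y : ℝ => Real.exp (-4 * Real.pi * n * y) * y ^ (K - 2 + A))
        (Ioi 0) := by
      have h := integrableOn_rpow_mul_exp_neg_mul_rpow (p := 1) (s := K - 2 + A)
        (b := 4 * Real.pi * n) (by linarith) one_pos hr
      refine h.congr_fun ?_ measurableSet_Ioi
      intro y _
      simp only [Real.rpow_one]
      ring_nf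
    have hJ : ∫ y in Ioi (0 : ℝ), Real.exp (-4 * Real.pi * n * y) * y ^ (K - 2 + A) =
        (4 * Real.pi * n) ^ (-(K - 1 + A)) * Real.Gamma (K - 1 + A) := by
      have h := Real.integral_rpow_mul_exp_neg_mul_Ioi hq hr
      rw [Real.rpow_neg hr.le, ← Real.inv_rpow hr.le, ← one_div, ← h]
      refine setIntegral_congr_fun measurableSet_Ioi ?_
      intro y _
      have e1 : K - 1 + A - 1 = K - 2 + A := by ring
      have e2 : -(4 * Real.pi * n * y) = -4 * Real.pi * n * y := by ring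
      simp only [e1, e2]
      ring
    have hpt : ∀ y ∈ Ioi (0 : ℝ), ‖Real.exp (-4 * Real.pi * n * y) * y ^ (K - 2) *
        ug M l T y‖ ≤ ((C * Z) * T ^ (-A)) *
          (Real.exp (-4 * Real.pi * n * y) * y ^ (K - 2 + A)) := by
      intro y hy
      have hy : 0 < y := hy
      have h1 := IGB_ug M l A C hA hC0 hC T y hT hy (hs y hy)
      have h2 : 0 ≤ Real.exp (-4 * Real.pi * n * y) * y ^ (K - 2) :=
        mul_nonneg (Real.exp_pos _).le (Real.rpow_nonneg hy.le _)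
      rw [Real.norm_of_nonneg (mul_nonneg h2 (hnn y))]
      calc Real.exp (-4 * Real.pi * n * y) * y ^ (K - 2) * ug M l T y
          ≤ Real.exp (-4 * Real.pi * n * y) * y ^ (K - 2) * ((C * Z) * T ^ (-A) * y ^ A) :=
            mul_le_mul_of_nonneg_left h1 h2
        _ = _ := by
            rw [Real.rpow_add hy]
            ring
    refine ⟨?_, ?_⟩
    · unfold IG
      refine setIntegral_nonneg measurableSet_Ioi ?_
      intro y hy
      have hy : 0 < y := hy
      exact mul_nonneg (mul_nonneg (Real.exp_pos _).le (Real.rpow_nonneg hy.le _)) (hnn y)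
    · have h3 : ‖IG K (ug M l T) n‖ ≤ ∫ y in Ioi (0 : ℝ), ((C * Z) * T ^ (-A)) *
          (Real.exp (-4 * Real.pi * n * y) * y ^ (K - 2 + A)) :=
        norm_integral_le_of_norm_le (hI.const_mul _)
          ((ae_restrict_iff' measurableSet_Ioi).2 (Eventually.of_forall hpt))
      refine (Real.le_norm_self _).trans (h3.trans (le_of_eq ?_))
      rw [integral_const_mul, hJ, Real.mul_rpow (by positivity) hn0.le]
      ring
  · intro n
    have h1 : Measurable (fun q : ℝ × ℝ => Real.exp (-4 * Real.pi * n * q.2) * q.2 ^ (K - 2) *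
        (if 0 < q.1 then ug M l q.1 q.2 else 0)) := by
      refine Measurable.mul (Measurable.mul ?_ ?_) hjm
      · exact Real.measurable_exp.comp (measurable_const.mul measurable_snd)
      · exact measurable_snd.pow_const _
    have h2 : StronglyMeasurable (fun T : ℝ => ∫ y, Real.exp (-4 * Real.pi * n * y) *
        y ^ (K - 2) * (if 0 < T then ug M l T y else 0) ∂(volume.restrict (Ioi (0 : ℝ)))) :=
      (h1.stronglyMeasurable).integral_prod_right (ν := volume.restrict (Ioi (0 : ℝ)))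
    have h3 : (fun T : ℝ => if 0 < T then IG K (ug M l T) n else 0) =
        (fun T : ℝ => ∫ y, Real.exp (-4 * Real.pi * n * y) *
        y ^ (K - 2) * (if 0 < T then ug M l T y else 0) ∂(volume.restrict (Ioi (0 : ℝ)))) := by
      funext T
      by_cases hT : 0 < T
      · simp only [if_pos hT]
        rfl
      · simp only [if_neg hT, mul_zero, integral_zero]
    rw [h3]
    exact h2.measurable

end Pool.Agent.Lib.MP_058a58_ag.MT
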