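import Pool.Agent.Lib.MP_058a58_ag.MT.DStm

set_option autoImplicit false

open MeasureTheory Filter Topology

namespace Pool.Agent.Lib.MP_058a58_ag.MT

/-- real gamma integral, value and convergence -/
private theorem IGM_real {a r : ℝ} (ha : 0 < a) (hr : 0 < r) :
    IntegrableOn (fun t : ℝ => t ^ (a - 1) * Real.exp (-(r * t))) (Set.Ioi 0) ∧
      ∫ t in Set.Ioi (0 : ℝ), t ^ (a - 1) * Real.exp (-(r * t)) = (1 / r) ^ a * Real.Gamma a := by
  have h := Real.integral_rpow_mul_exp_neg_mul_Ioi ha hr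
  refine ⟨?_, h⟩
  by_contra hc
  have h0 := integral_undef hc
  rw [h] at h0
  have : 0 < (1 / r) ^ a * Real.Gamma a :=
    mul_pos (Real.rpow_pos_of_pos (by positivity) _) (Real.Gamma_pos_of_pos ha)
  exact this.ne' h0

private theorem IGM_grT (l : ℕ) {σ c T : ℝ} (hc : 0 < c) (hT0 : 0 < T) :
    c ^ ((l : ℝ) / 2) *
      (T ^ (σ + (l : ℝ) / 2 - 1) * Real.exp (-(Real.pi * c * T))) =
      T ^ (σ - 1) * gr l (T * c) := by
  unfold gr
  rw [Real.mul_rpow hT0.le hc.le, show σ + (l : ℝ) / 2 - 1 = (σ - 1) + (l : ℝ) / 2 by ring,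
    Real.rpow_add hT0, show -(Real.pi * c * T) = -Real.pi * (T * c) by ring]
  ring

/-- the integral over T, real exponent -/
private theorem IGM_Tr (l : ℕ) {σ c : ℝ} (hσ : 0 < σ) (hc : 0 < c) :
    IntegrableOn (fun T : ℝ => T ^ (σ - 1) * gr l (T * c)) (Set.Ioi 0) ∧
      ∫ T in Set.Ioi (0 : ℝ), T ^ (σ - 1) * gr l (T * c) =
        c ^ (-σ) * (Real.Gamma (σ + l / 2) * Real.pi ^ (-(σ + l / 2))) := by
  have ha : 0 < σ + (l : ℝ) / 2 := by positivity
  have hr : 0 < Real.pi * c := mul_pos Real.pi_pos hc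
  obtain ⟨h1, h2⟩ := IGM_real ha hr
  have hf : Set.EqOn (fun T : ℝ => c ^ ((l : ℝ) / 2) *
      (T ^ (σ + (l : ℝ) / 2 - 1) * Real.exp (-(Real.pi * c * T))))
      (fun T : ℝ => T ^ (σ - 1) * gr l (T * c)) (Set.Ioi 0) :=
    fun T hT => IGM_grT l hc hT
  refine ⟨?_, ?_⟩
  · exact IntegrableOn.congr_fun (h1.const_mul (c ^ ((l : ℝ) / 2))) hf measurableSet_Ioi
  · rw [← setIntegral_congr_fun measurableSet_Ioi hf, integral_const_mul, h2]
    have e1 : (1 / (Real.pi * c)) ^ (σ + (l : ℝ) / 2) =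
        Real.pi ^ (-(σ + (l : ℝ) / 2)) * c ^ (-(σ + (l : ℝ) / 2)) := by
      rw [one_div, Real.inv_rpow hr.le, ← Real.rpow_neg hr.le, Real.mul_rpow Real.pi_pos.le hc.le]
    have e2 : c ^ ((l : ℝ) / 2) * c ^ (-(σ + (l : ℝ) / 2)) = c ^ (-σ) := by
      rw [← Real.rpow_add hc]
      congr 1
      ring
    rw [e1, ← e2]
    ring

/-- the integral over T, complex exponent -/
private theorem IGM_Tc (l : ℕ) {s : ℂ} {c : ℝ} (hs : 0 < s.re) (hc : 0 < c) :
    ∫ T in Set.Ioi (0 : ℝ), (T : ℂ) ^ (s - 1) * ((gr l (T * c) : ℝ) : ℂ) =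
        (c : ℂ) ^ (-s) * (Complex.Gamma (s + l / 2) * (Real.pi : ℂ) ^ (-(s + l / 2))) := by
  have ha : 0 < (s + (l : ℂ) / 2).re := by
    have : ((l : ℂ) / 2).re = (l : ℝ) / 2 := by
      rw [show ((l : ℂ) / 2) = (((l : ℝ) / 2 : ℝ) : ℂ) by push_cast; ring, Complex.ofReal_re]
    rw [Complex.add_re, this]
    positivity
  have hr : 0 < Real.pi * c := mul_pos Real.pi_pos hc
  have hc0 : (c : ℂ) ≠ 0 := Complex.ofReal_ne_zero.mpr hc.ne'
  have hp0 : (Real.pi : ℂ) ≠ 0 := Complex.ofReal_ne_zero.mpr Real.pi_pos.ne'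
  have h2 := Complex.integral_cpow_mul_exp_neg_mul_Ioi ha hr
  have hf : Set.EqOn (fun T : ℝ => (c : ℂ) ^ ((l : ℂ) / 2) *
      ((T : ℂ) ^ (s + (l : ℂ) / 2 - 1) * Complex.exp (-((Real.pi * c : ℝ) * T))))
      (fun T : ℝ => (T : ℂ) ^ (s - 1) * ((gr l (T * c) : ℝ) : ℂ)) (Set.Ioi 0) := by
    intro T hT
    have hT0 : 0 < T := hT
    have hT1 : (T : ℂ) ≠ 0 := Complex.ofReal_ne_zero.mpr hT0.ne'
    have e0 : ((gr l (T * c) : ℝ) : ℂ) = (T : ℂ) ^ ((l : ℂ) / 2) * (c : ℂ) ^ ((l : ℂ) / 2) *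
        Complex.exp (-((Real.pi * c : ℝ) * T)) := by
      unfold gr
      rw [Real.mul_rpow hT0.le hc.le]
      push_cast
      rw [Complex.ofReal_cpow hT0.le, Complex.ofReal_cpow hc.le]
      push_cast
      rw [show -((Real.pi : ℂ) * c * T) = -Real.pi * (T * c) by ring]
    simp only
    rw [e0, show s + (l : ℂ) / 2 - 1 = (s - 1) + (l : ℂ) / 2 by ring, Complex.cpow_add _ _ hT1]
    ring
  rw [← setIntegral_congr_fun measurableSet_Ioi hf, integral_const_mul, h2]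
  have e1 : (1 / ((Real.pi * c : ℝ) : ℂ)) ^ (s + (l : ℂ) / 2) =
      (Real.pi : ℂ) ^ (-(s + (l : ℂ) / 2)) * (c : ℂ) ^ (-(s + (l : ℂ) / 2)) := by
    rw [one_div, Complex.inv_cpow _ _ (by
      rw [Complex.arg_ofReal_of_nonneg hr.le]; exact Real.pi_pos.ne), ← Complex.cpow_neg]
    push_cast
    rw [Complex.mul_cpow_ofReal_nonneg Real.pi_pos.le hc.le]
  have e2 : (c : ℂ) ^ ((l : ℂ) / 2) * (c : ℂ) ^ (-(s + (l : ℂ) / 2)) = (c : ℂ) ^ (-s) := by
    rw [← Complex.cpow_add _ _ hc0]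
    congr 1
    ring
  rw [e1, ← e2]
  ring


/-- the summand, real exponent -/
private noncomputable def IGM_gm (l n m : ℕ) (K σ : ℝ) (p : ℝ × ℝ) : ℝ :=
  p.1 ^ (σ - 1) * (Real.exp (-4 * Real.pi * n * p.2) * p.2 ^ (K - 2) *
    gr l (p.1 * (m : ℝ) ^ 2 / p.2))

private noncomputable def IGM_Gm (l n m : ℕ) (K : ℝ) (s : ℂ) (p : ℝ × ℝ) : ℂ :=
  (p.1 : ℂ) ^ (s - 1) * ((Real.exp (-4 * Real.pi * n * p.2) * p.2 ^ (K - 2) *
    gr l (p.1 * (m : ℝ) ^ 2 / p.2) : ℝ) : ℂ)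

private noncomputable abbrev IGM_mu : Measure ℝ := volume.restrict (Set.Ioi 0)

private theorem IGM_gr_meas (l : ℕ) : Measurable (gr l) := by
  unfold gr
  fun_prop

private theorem IGM_gm_meas (l n m : ℕ) (K σ : ℝ) : Measurable (IGM_gm l n m K σ) := by
  unfold IGM_gm
  have h := IGM_gr_meas l
  fun_prop

private theorem IGM_Gm_meas (l n m : ℕ) (K : ℝ) (s : ℂ) : Measurable (IGM_Gm l n m K s) := by
  unfold IGM_Gm
  have h := IGM_gr_meas l
  fun_prop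

private theorem IGM_gr_nonneg (l : ℕ) {x : ℝ} (hx : 0 ≤ x) : 0 ≤ gr l x := by
  unfold gr
  positivity

private theorem IGM_gm_nonneg (l n m : ℕ) (K σ : ℝ) {p : ℝ × ℝ} (h1 : 0 < p.1) (h2 : 0 < p.2) :
    0 ≤ IGM_gm l n m K σ p := by
  unfold IGM_gm
  have := IGM_gr_nonneg l (x := p.1 * (m : ℝ) ^ 2 / p.2) (by positivity)
  positivity

private theorem IGM_norm (l n m : ℕ) (K : ℝ) (s : ℂ) {p : ℝ × ℝ} (h1 : 0 < p.1) (h2 : 0 < p.2) :
    ‖IGM_Gm l n m K s p‖ = IGM_gm l n m K s.re p := by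
  unfold IGM_Gm IGM_gm
  have := IGM_gr_nonneg l (x := p.1 * (m : ℝ) ^ 2 / p.2) (by positivity)
  rw [norm_mul, Complex.norm_cpow_eq_rpow_re_of_pos h1, Complex.norm_real, Real.norm_of_nonneg
    (by positivity), Complex.sub_re, Complex.one_re]

/-- the inner integral of the real summand -/
private theorem IGM_inner (l n : ℕ) {m : ℕ} (hm : 1 ≤ m) (K : ℝ) {σ y : ℝ} (hσ : 0 < σ)
    (hy : 0 < y) :
    Integrable (fun T => IGM_gm l n m K σ (T, y)) IGM_mu ∧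
      ∫ T, IGM_gm l n m K σ (T, y) ∂IGM_mu =
        (((m : ℝ) ^ 2) ^ (-σ) * (Real.Gamma (σ + l / 2) * Real.pi ^ (-(σ + l / 2)))) *
          (y ^ ((σ + K - 1) - 1) * Real.exp (-((4 * Real.pi * n) * y))) := by
  have hm0 : (0 : ℝ) < (m : ℝ) ^ 2 := by positivity
  have hc : 0 < (m : ℝ) ^ 2 / y := by positivity
  obtain ⟨h1, h2⟩ := IGM_Tr l hσ hc
  have e : (fun T : ℝ => IGM_gm l n m K σ (T, y)) =
      fun T => (Real.exp (-4 * Real.pi * n * y) * y ^ (K - 2)) *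
        (T ^ (σ - 1) * gr l (T * ((m : ℝ) ^ 2 / y))) := by
    funext T
    unfold IGM_gm
    simp only
    rw [mul_div_assoc]
    ring
  rw [e]
  refine ⟨h1.const_mul _, ?_⟩
  rw [integral_const_mul, h2, Real.div_rpow hm0.le hy.le, Real.rpow_neg hy.le,
    show (σ + K - 1) - 1 = (K - 2) + σ by ring, Real.rpow_add hy,
    show -((4 * Real.pi * n) * y) = -4 * Real.pi * n * y by ring]
  have hy1 : y ^ σ ≠ 0 := (Real.rpow_pos_of_pos hy σ).ne'
  field_simp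

private theorem IGM_gm_int (l : ℕ) {n m : ℕ} (hn : 1 ≤ n) (hm : 1 ≤ m) {K σ : ℝ} (hK : 2 ≤ K)
    (hσ : 0 < σ) :
    Integrable (IGM_gm l n m K σ) (IGM_mu.prod IGM_mu) ∧
      ∫ p, IGM_gm l n m K σ p ∂(IGM_mu.prod IGM_mu) =
        (((m : ℝ) ^ 2) ^ (-σ) * (Real.Gamma (σ + l / 2) * Real.pi ^ (-(σ + l / 2)))) *
          ((1 / (4 * Real.pi * n)) ^ (σ + K - 1) * Real.Gamma (σ + K - 1)) := by
  have hn0 : (0 : ℝ) < 4 * Real.pi * n := by
    have : (0 : ℝ) < n := by exact_mod_cast hn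
    positivity
  have ha : 0 < σ + K - 1 := by linarith
  obtain ⟨g1, g2⟩ := IGM_real ha hn0
  have hpos : ∀ᵐ y ∂IGM_mu, 0 < y := ae_restrict_mem measurableSet_Ioi
  have hi : Integrable (IGM_gm l n m K σ) (IGM_mu.prod IGM_mu) := by
    rw [integrable_prod_iff' (IGM_gm_meas l n m K σ).aestronglyMeasurable]
    refine ⟨?_, ?_⟩
    · filter_upwards [hpos] with y hy
      exact (IGM_inner l n hm K hσ hy).1
    · refine (g1.const_mul (((m : ℝ) ^ 2) ^ (-σ) *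
        (Real.Gamma (σ + l / 2) * Real.pi ^ (-(σ + l / 2))))).congr ?_
      filter_upwards [hpos] with y hy
      rw [← (IGM_inner l n hm K hσ hy).2]
      refine integral_congr_ae ?_
      filter_upwards [hpos] with T hT
      rw [Real.norm_of_nonneg (IGM_gm_nonneg l n m K σ hT hy)]
  refine ⟨hi, ?_⟩
  rw [integral_prod_symm _ hi, ← g2, ← integral_const_mul]
  refine integral_congr_ae ?_
  filter_upwards [hpos] with y hy
  exact (IGM_inner l n hm K hσ hy).2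

private theorem IGM_ae : ∀ᵐ p ∂(IGM_mu.prod IGM_mu), 0 < p.1 ∧ 0 < p.2 := by
  rw [Measure.prod_restrict]
  filter_upwards [ae_restrict_mem (measurableSet_Ioi.prod measurableSet_Ioi)] with p hp
  exact hp

private theorem IGM_Gm_int (l : ℕ) {n m : ℕ} (hn : 1 ≤ n) (hm : 1 ≤ m) {K : ℝ} {s : ℂ}
    (hK : 2 ≤ K) (hs : 0 < s.re) :
    Integrable (IGM_Gm l n m K s) (IGM_mu.prod IGM_mu) ∧
      ∫ p, IGM_Gm l n m K s p ∂(IGM_mu.prod IGM_mu) =
        ((((m : ℝ) ^ 2 : ℝ) : ℂ) ^ (-s) *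
          (Complex.Gamma (s + l / 2) * (Real.pi : ℂ) ^ (-(s + l / 2)))) *
          ((1 / ((4 * Real.pi * n : ℝ) : ℂ)) ^ (s + K - 1) * Complex.Gamma (s + K - 1)) := by
  have hn0 : (0 : ℝ) < 4 * Real.pi * n := by
    have : (0 : ℝ) < n := by exact_mod_cast hn
    positivity
  have hpos : ∀ᵐ y ∂IGM_mu, 0 < y := ae_restrict_mem measurableSet_Ioi
  have hi : Integrable (IGM_Gm l n m K s) (IGM_mu.prod IGM_mu) := by
    refine (IGM_gm_int l hn hm hK hs).1.mono' (IGM_Gm_meas l n m K s).aestronglyMeasurable ?_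
    filter_upwards [IGM_ae] with p hp
    rw [IGM_norm l n m K s hp.1 hp.2]
  refine ⟨hi, ?_⟩
  have ha : 0 < (s + K - 1).re := by
    rw [Complex.sub_re, Complex.add_re, Complex.ofReal_re, Complex.one_re]
    linarith
  rw [integral_prod_symm _ hi, ← Complex.integral_cpow_mul_exp_neg_mul_Ioi ha hn0,
    ← integral_const_mul]
  refine integral_congr_ae ?_
  filter_upwards [hpos] with y hy
  have hm0 : (0 : ℝ) < (m : ℝ) ^ 2 := by positivity
  have hc : 0 < (m : ℝ) ^ 2 / y := by positivity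
  have h2 := IGM_Tc l hs hc
  have e : (fun T : ℝ => IGM_Gm l n m K s (T, y)) =
      fun T : ℝ => ((Real.exp (-4 * Real.pi * n * y) * y ^ (K - 2) : ℝ) : ℂ) *
        ((T : ℂ) ^ (s - 1) * ((gr l (T * ((m : ℝ) ^ 2 / y)) : ℝ) : ℂ)) := by
    funext T
    unfold IGM_Gm
    simp only
    rw [mul_div_assoc]
    push_cast
    ring
  rw [e, integral_const_mul, h2]
  have hy0 : (y : ℂ) ≠ 0 := Complex.ofReal_ne_zero.mpr hy.ne'
  have e1 : (((m : ℝ) ^ 2 / y : ℝ) : ℂ) ^ (-s) = (((m : ℝ) ^ 2 : ℝ) : ℂ) ^ (-s) * (y : ℂ) ^ s := by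
    rw [div_eq_mul_inv, Complex.ofReal_mul,
      Complex.mul_cpow_ofReal_nonneg hm0.le (inv_nonneg.mpr hy.le), Complex.ofReal_inv,
      Complex.inv_cpow _ _ (by rw [Complex.arg_ofReal_of_nonneg hy.le]; exact Real.pi_pos.ne),
      Complex.cpow_neg, Complex.cpow_neg, inv_inv]
  have e2 : (y : ℂ) ^ (s + K - 1 - 1) = (y : ℂ) ^ s * ((y ^ (K - 2) : ℝ) : ℂ) := by
    rw [Complex.ofReal_cpow hy.le, ← Complex.cpow_add _ _ hy0]
    congr 1
    push_cast
    ring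
  rw [e1, e2]
  push_cast
  rw [show (-(4 * (Real.pi : ℂ) * n * y)) = -4 * Real.pi * n * y by ring]
  ring


private theorem IGM_real_sum (M : ℕ) {σ : ℝ} (hσ : 1 / 2 < σ) :
    Summable (fun m : ℕ => if 1 ≤ m ∧ m.Coprime M then ((m : ℝ) ^ 2) ^ (-σ) else 0) := by
  have h1 : Summable (fun m : ℕ => ((m : ℝ) ^ (2 * σ))⁻¹) :=
    Real.summable_nat_rpow_inv.mpr (by linarith)
  refine Summable.of_nonneg_of_le (fun m => ?_) (fun m => ?_) h1
  · split_ifs
    · positivity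
    · exact le_refl _
  · split_ifs
    · rw [Real.rpow_neg (by positivity), ← Real.rpow_natCast (m : ℝ) 2, ← Real.rpow_mul
        (Nat.cast_nonneg m)]
      norm_num
    · positivity

private theorem IGM_R (M l : ℕ) {n : ℕ} (hn : 1 ≤ n) {K σ : ℝ} (hK : 2 ≤ K)
    (hσ : 1 / 2 < σ) :
    Integrable (fun p => ∑' m : ℕ, if 1 ≤ m ∧ m.Coprime M then IGM_gm l n m K σ p else 0)
      (IGM_mu.prod IGM_mu) := by
  have hσ0 : 0 < σ := by linarith
  have hn0 : (0 : ℝ) < 4 * Real.pi * n := by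
    have : (0 : ℝ) < n := by exact_mod_cast hn
    positivity
  have hint : ∀ m : ℕ, Integrable
      (fun p => if 1 ≤ m ∧ m.Coprime M then IGM_gm l n m K σ p else 0)
      (IGM_mu.prod IGM_mu) := by
    intro m
    split_ifs with h
    · exact (IGM_gm_int l hn h.1 hK hσ0).1
    · exact integrable_zero _ _ _
  have hval : ∀ m : ℕ, ∫ p, (if 1 ≤ m ∧ m.Coprime M then IGM_gm l n m K σ p else 0)
      ∂(IGM_mu.prod IGM_mu) = (if 1 ≤ m ∧ m.Coprime M then ((m : ℝ) ^ 2) ^ (-σ) else 0) *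
        ((Real.Gamma (σ + l / 2) * Real.pi ^ (-(σ + l / 2))) *
          ((1 / (4 * Real.pi * n)) ^ (σ + K - 1) * Real.Gamma (σ + K - 1))) := by
    intro m
    split_ifs with h
    · rw [(IGM_gm_int l hn h.1 hK hσ0).2]
      ring
    · simp
  have hnorm : ∀ m : ℕ, ∫ p, ‖(if 1 ≤ m ∧ m.Coprime M then IGM_gm l n m K σ p else 0)‖
      ∂(IGM_mu.prod IGM_mu) = ∫ p, (if 1 ≤ m ∧ m.Coprime M then IGM_gm l n m K σ p else 0)
      ∂(IGM_mu.prod IGM_mu) := by
    intro m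
    refine integral_congr_ae ?_
    filter_upwards [IGM_ae] with p hp
    split_ifs
    · rw [Real.norm_of_nonneg (IGM_gm_nonneg l n m K σ hp.1 hp.2)]
    · simp
  have hsum := (IGM_real_sum M hσ).mul_right
    ((Real.Gamma (σ + l / 2) * Real.pi ^ (-(σ + l / 2))) *
          ((1 / (4 * Real.pi * n)) ^ (σ + K - 1) * Real.Gamma (σ + K - 1)))
  have hs := hasSum_integral_of_summable_integral_norm hint (by
    simp only [hnorm, hval]
    exact hsum)
  by_contra hc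
  have h0 := integral_undef hc
  rw [h0] at hs
  simp only [hval] at hs
  have hpos : 0 < ((Real.Gamma (σ + l / 2) * Real.pi ^ (-(σ + l / 2))) *
          ((1 / (4 * Real.pi * n)) ^ (σ + K - 1) * Real.Gamma (σ + K - 1))) := by
    have h1 := Real.Gamma_pos_of_pos (show 0 < σ + (l : ℝ) / 2 by positivity)
    have h2 := Real.Gamma_pos_of_pos (show 0 < σ + K - 1 by linarith)
    positivity
  have hle : ∀ m : ℕ, 0 ≤ (if 1 ≤ m ∧ m.Coprime M then ((m : ℝ) ^ 2) ^ (-σ) else 0) *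
      ((Real.Gamma (σ + l / 2) * Real.pi ^ (-(σ + l / 2))) *
          ((1 / (4 * Real.pi * n)) ^ (σ + K - 1) * Real.Gamma (σ + K - 1))) := by
    intro m
    refine mul_nonneg ?_ hpos.le
    split_ifs
    · positivity
    · exact le_refl _
  have h1 := hs.summable.tsum_pos hle 1 (by
    rw [if_pos ⟨le_refl 1, Nat.coprime_one_left M⟩]
    refine mul_pos ?_ hpos
    positivity)
  rw [hs.tsum_eq] at h1
  exact lt_irrefl _ h1

/-- the function of both variables -/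
private noncomputable def IGM_F (M l n : ℕ) (K : ℝ) (s : ℂ) (p : ℝ × ℝ) : ℂ :=
  (p.1 : ℂ) ^ (s - 1) * ((Real.exp (-4 * Real.pi * n * p.2) * p.2 ^ (K - 2) *
    ug M l p.1 p.2 : ℝ) : ℂ)

private theorem IGM_F_eq (M l n : ℕ) (K : ℝ) (s : ℂ) {p : ℝ × ℝ} (h2 : 0 < p.2) :
    IGM_F M l n K s p = ∑' m : ℕ, if 1 ≤ m ∧ m.Coprime M then IGM_Gm l n m K s p else 0 := by
  unfold IGM_F ug
  rw [if_pos h2, ← tsum_mul_left, Complex.ofReal_tsum, ← tsum_mul_left]
  refine tsum_congr fun m => ?_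
  unfold IGM_Gm
  split_ifs <;> simp

private theorem IGM_R_eq (M l n : ℕ) (K σ : ℝ) {p : ℝ × ℝ} (h2 : 0 < p.2) :
    (∑' m : ℕ, if 1 ≤ m ∧ m.Coprime M then IGM_gm l n m K σ p else 0) =
      p.1 ^ (σ - 1) * (Real.exp (-4 * Real.pi * n * p.2) * p.2 ^ (K - 2) * ug M l p.1 p.2) := by
  unfold ug
  rw [if_pos h2, ← tsum_mul_left, ← tsum_mul_left]
  refine tsum_congr fun m => ?_
  unfold IGM_gm
  split_ifs <;> simp

private theorem IGM_F_int (M l : ℕ) {n : ℕ} (hn : 1 ≤ n) {K : ℝ} {s : ℂ} (hK : 2 ≤ K)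
    (hs : 1 / 2 < s.re)
    (hmeas : Measurable (fun q : ℝ × ℝ => if 0 < q.1 then ug M l q.1 q.2 else 0))
    (hug : ∀ T : ℝ, 0 < T → ∀ y : ℝ, 0 ≤ ug M l T y) :
    Integrable (IGM_F M l n K s) (IGM_mu.prod IGM_mu) ∧
      ∫ p, IGM_F M l n K s p ∂(IGM_mu.prod IGM_mu) =
        Complex.Gamma (s + l / 2) * (Real.pi : ℂ) ^ (-(s + l / 2)) * zM M (2 * s) *
        Complex.Gamma (s + K - 1) * (4 * Real.pi * n : ℂ) ^ (-(s + K - 1)) := by
  have hs0 : 0 < s.re := by linarith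
  have hn0 : (0 : ℝ) < 4 * Real.pi * n := by
    have : (0 : ℝ) < n := by exact_mod_cast hn
    positivity
  have hR := IGM_R M l hn hK hs
  have hi : Integrable (IGM_F M l n K s) (IGM_mu.prod IGM_mu) := by
    refine hR.mono' ?_ ?_
    · have h1 : Measurable (fun p : ℝ × ℝ => (p.1 : ℂ) ^ (s - 1) *
          ((Real.exp (-4 * Real.pi * n * p.2) * p.2 ^ (K - 2) *
          (if 0 < p.1 then ug M l p.1 p.2 else 0) : ℝ) : ℂ)) := by
        have h2 : Measurable (fun p : ℝ × ℝ => (p.1 : ℂ) ^ (s - 1)) := by fun_prop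
        have h3 : Measurable (fun p : ℝ × ℝ =>
            Real.exp (-4 * Real.pi * n * p.2) * p.2 ^ (K - 2)) := by fun_prop
        exact h2.mul (Complex.measurable_ofReal.comp (h3.mul hmeas))
      refine h1.aestronglyMeasurable.congr ?_
      filter_upwards [IGM_ae] with p hp
      unfold IGM_F
      rw [if_pos hp.1]
    · filter_upwards [IGM_ae] with p hp
      rw [IGM_R_eq M l n K s.re hp.2]
      unfold IGM_F
      have h4 := hug p.1 hp.1 p.2
      have h5 : 0 ≤ p.2 ^ (K - 2) := Real.rpow_nonneg hp.2.le _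
      rw [norm_mul, Complex.norm_cpow_eq_rpow_re_of_pos hp.1, Complex.norm_real,
        Real.norm_of_nonneg (by positivity), Complex.sub_re, Complex.one_re]
  refine ⟨hi, ?_⟩
  have hint : ∀ m : ℕ, Integrable
      (fun p => if 1 ≤ m ∧ m.Coprime M then IGM_Gm l n m K s p else 0)
      (IGM_mu.prod IGM_mu) := by
    intro m
    split_ifs with h
    · exact (IGM_Gm_int l hn h.1 hK hs0).1
    · exact integrable_zero _ _ _
  have hnorm : ∀ m : ℕ, ∫ p, ‖(if 1 ≤ m ∧ m.Coprime M then IGM_Gm l n m K s p else 0)‖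
      ∂(IGM_mu.prod IGM_mu) = (if 1 ≤ m ∧ m.Coprime M then ((m : ℝ) ^ 2) ^ (-s.re) else 0) *
        ((Real.Gamma (s.re + l / 2) * Real.pi ^ (-(s.re + l / 2))) *
          ((1 / (4 * Real.pi * n)) ^ (s.re + K - 1) * Real.Gamma (s.re + K - 1))) := by
    intro m
    split_ifs with h
    · have h6 : ∫ p, ‖IGM_Gm l n m K s p‖ ∂(IGM_mu.prod IGM_mu) =
          ∫ p, IGM_gm l n m K s.re p ∂(IGM_mu.prod IGM_mu) := by
        refine integral_congr_ae ?_
        filter_upwards [IGM_ae] with p hp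
        exact IGM_norm l n m K s hp.1 hp.2
      rw [h6, (IGM_gm_int l hn h.1 hK hs0).2]
      ring
    · simp
  have hsum := (IGM_real_sum M hs).mul_right
    ((Real.Gamma (s.re + l / 2) * Real.pi ^ (-(s.re + l / 2))) *
          ((1 / (4 * Real.pi * n)) ^ (s.re + K - 1) * Real.Gamma (s.re + K - 1)))
  have h7 := integral_tsum_of_summable_integral_norm hint (by
    simp only [hnorm]
    exact hsum)
  have h8 : ∫ p, IGM_F M l n K s p ∂(IGM_mu.prod IGM_mu) =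
      ∫ p, (∑' m : ℕ, if 1 ≤ m ∧ m.Coprime M then IGM_Gm l n m K s p else 0)
        ∂(IGM_mu.prod IGM_mu) := by
    refine integral_congr_ae ?_
    filter_upwards [IGM_ae] with p hp
    exact IGM_F_eq M l n K s hp.2
  rw [h8, ← h7]
  have h9 : ∀ m : ℕ, ∫ p, (if 1 ≤ m ∧ m.Coprime M then IGM_Gm l n m K s p else 0)
      ∂(IGM_mu.prod IGM_mu) = (if 1 ≤ m ∧ m.Coprime M then (m : ℂ) ^ (-(2 * s)) else 0) *
        ((Complex.Gamma (s + l / 2) * (Real.pi : ℂ) ^ (-(s + l / 2))) *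
          ((1 / ((4 * Real.pi * n : ℝ) : ℂ)) ^ (s + K - 1) * Complex.Gamma (s + K - 1))) := by
    intro m
    split_ifs with h
    · rw [(IGM_Gm_int l hn h.1 hK hs0).2]
      have h10 : (((m : ℝ) ^ 2 : ℝ) : ℂ) ^ (-s) = (m : ℂ) ^ (-(2 * s)) := by
        rw [pow_two, Complex.ofReal_mul, Complex.mul_cpow_ofReal_nonneg (Nat.cast_nonneg m)
          (Nat.cast_nonneg m), Complex.ofReal_natCast,
          ← Complex.cpow_add _ _ (by exact_mod_cast (Nat.one_le_iff_ne_zero.mp h.1))]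
        congr 1
        ring
      rw [h10]
      ring
    · simp
  simp only [h9]
  rw [tsum_mul_right]
  have h11 : (1 / ((4 * Real.pi * n : ℝ) : ℂ)) ^ (s + K - 1) =
      (4 * Real.pi * n : ℂ) ^ (-(s + K - 1)) := by
    rw [one_div, Complex.inv_cpow _ _ (by
      rw [Complex.arg_ofReal_of_nonneg hn0.le]; exact Real.pi_pos.ne), ← Complex.cpow_neg]
    push_cast
    rfl
  rw [h11]
  unfold zM
  ring

private theorem IGM_inner_eq (M l n : ℕ) (K : ℝ) (s : ℂ) (T : ℝ) :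
    ∫ y, IGM_F M l n K s (T, y) ∂IGM_mu = (T : ℂ) ^ (s - 1) * (IG K (ug M l T) n : ℂ) := by
  unfold IGM_F IG
  simp only
  rw [integral_const_mul, integral_complex_ofReal]

private theorem IGM_main (M l : ℕ) {n : ℕ} (hn : 1 ≤ n) {K : ℝ} {s : ℂ} (hK : 2 ≤ K)
    (hs : 1 / 2 < s.re)
    (hmeas : Measurable (fun q : ℝ × ℝ => if 0 < q.1 then ug M l q.1 q.2 else 0))
    (hug : ∀ T : ℝ, 0 < T → ∀ y : ℝ, 0 ≤ ug M l T y) :
    MellinConvergent (fun T : ℝ => (IG K (ug M l T) n : ℂ)) s ∧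
    mellin (fun T : ℝ => (IG K (ug M l T) n : ℂ)) s =
      Complex.Gamma (s + l / 2) * (Real.pi : ℂ) ^ (-(s + l / 2)) * zM M (2 * s) *
        Complex.Gamma (s + K - 1) * (4 * Real.pi * n : ℂ) ^ (-(s + K - 1)) := by
  obtain ⟨h1, h2⟩ := IGM_F_int M l hn hK hs hmeas hug
  refine ⟨?_, ?_⟩
  · have h3 := h1.integral_prod_left
    unfold MellinConvergent IntegrableOn
    refine h3.congr ?_
    exact Filter.Eventually.of_forall fun T => IGM_inner_eq M l n K s T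
  · rw [← h2, integral_prod _ h1]
    unfold mellin
    refine integral_congr_ae ?_
    refine Filter.Eventually.of_forall fun T => ?_
    simp only [smul_eq_mul]
    exact (IGM_inner_eq M l n K s T).symm

theorem p_IGM : S_IGM := by
  intro hG M l K hM hK s hs
  obtain ⟨hmeas, hT⟩ := hG M l hM
  have hug : ∀ T : ℝ, 0 < T → ∀ y : ℝ, 0 ≤ ug M l T y := fun T h => (hT T h).2.1
  refine ⟨fun n hn => IGM_main M l hn hK hs hmeas hug, ?_⟩
  -- the bound of the norms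
  set σ : ℝ := s.re with hσ
  have hsσ : 1 / 2 < ((σ : ℝ) : ℂ).re := by rwa [Complex.ofReal_re]
  refine ⟨‖Complex.Gamma ((σ : ℂ) + l / 2) * (Real.pi : ℂ) ^ (-((σ : ℂ) + l / 2)) *
    zM M (2 * (σ : ℂ)) * Complex.Gamma ((σ : ℂ) + K - 1)‖ * (4 * Real.pi) ^ (-(σ + K - 1)),
    fun n hn => ?_⟩
  have hn0 : (0 : ℝ) < n := by exact_mod_cast hn
  obtain ⟨-, h2⟩ := IGM_main M l hn hK hsσ hmeas hug
  have hIG : ∀ T : ℝ, 0 < T → 0 ≤ IG K (ug M l T) n := by
    intro T h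
    unfold IG
    refine setIntegral_nonneg measurableSet_Ioi fun y hy => ?_
    have h3 : 0 ≤ y ^ (K - 2) := Real.rpow_nonneg (le_of_lt hy) _
    have h4 := hug T h y
    positivity
  have h5 : ∫ T in Set.Ioi (0 : ℝ), ‖(T : ℂ) ^ (s - 1) * (IG K (ug M l T) n : ℂ)‖ =
      ∫ T in Set.Ioi (0 : ℝ), T ^ (σ - 1) * IG K (ug M l T) n := by
    refine setIntegral_congr_fun measurableSet_Ioi fun T hT0 => ?_
    rw [norm_mul, Complex.norm_cpow_eq_rpow_re_of_pos hT0, Complex.norm_real,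
      Real.norm_of_nonneg (hIG T hT0), Complex.sub_re, Complex.one_re]
  have h6 : ((∫ T in Set.Ioi (0 : ℝ), T ^ (σ - 1) * IG K (ug M l T) n : ℝ) : ℂ) =
      mellin (fun T : ℝ => (IG K (ug M l T) n : ℂ)) (σ : ℂ) := by
    unfold mellin
    rw [← integral_complex_ofReal]
    refine setIntegral_congr_fun measurableSet_Ioi fun T hT0 => ?_
    have hT1 : (0 : ℝ) < T := hT0
    simp only [smul_eq_mul]
    rw [Complex.ofReal_mul, Complex.ofReal_cpow hT1.le]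
    push_cast
    rfl
  have h7 : 0 ≤ ∫ T in Set.Ioi (0 : ℝ), T ^ (σ - 1) * IG K (ug M l T) n := by
    refine setIntegral_nonneg measurableSet_Ioi fun T hT0 => ?_
    have h3 : 0 ≤ T ^ (σ - 1) := Real.rpow_nonneg (le_of_lt hT0) _
    exact mul_nonneg h3 (hIG T hT0)
  rw [h5]
  have h8 : (∫ T in Set.Ioi (0 : ℝ), T ^ (σ - 1) * IG K (ug M l T) n) =
      ‖mellin (fun T : ℝ => (IG K (ug M l T) n : ℂ)) (σ : ℂ)‖ := by
    rw [← h6, Complex.norm_real, Real.norm_of_nonneg h7]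
  rw [h8, h2, norm_mul]
  have h9 : ‖(4 * Real.pi * n : ℂ) ^ (-((σ : ℂ) + K - 1))‖ =
      (4 * Real.pi) ^ (-(σ + K - 1)) * (n : ℝ) ^ (-(σ + K - 1)) := by
    have h10 : (4 * Real.pi * n : ℂ) = ((4 * Real.pi * n : ℝ) : ℂ) := by push_cast; rfl
    rw [h10, Complex.norm_cpow_eq_rpow_re_of_pos (by positivity)]
    have h11 : (-((σ : ℂ) + K - 1)).re = -(σ + K - 1) := by
      simp
    rw [h11, Real.mul_rpow (by positivity) hn0.le]
  rw [h9]
  exact (mul_assoc _ _ _).symm.le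

end Pool.Agent.Lib.MP_058a58_ag.MT
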