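import Pool.Agent.Lib.MP_058a58_ag.MT.DStm2

set_option autoImplicit false

open Filter Topology

namespace Pool.Agent.Lib.MP_058a58_ag.MT

/-- Iterated differences. -/
noncomputable def JMP_D (g : ℕ → ℝ) : ℕ → ℕ → ℝ
  | 0 => g
  | (r + 1) => fun a => JMP_D g r a - JMP_D g r (a + 1)

theorem JMP_succ (g : ℕ → ℝ) (r a : ℕ) : JMP_D g (r + 1) a = JMP_D g r a - JMP_D g r (a + 1) := rfl

theorem JMP_hasSum (w x L : ℕ → ℝ) (h : ∀ k, 1 ≤ k → HasSum (fun n => w n * x n ^ k) (L k)) :
    ∀ r a : ℕ, 1 ≤ a → HasSum (fun n => w n * (x n ^ a * (1 - x n) ^ r)) (JMP_D L r a) := by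
  intro r
  induction r with
  | zero => intro a ha; simpa [JMP_D] using h a ha
  | succ r ih =>
    intro a ha
    have h1 := (ih a ha).sub (ih (a + 1) (by omega))
    refine h1.congr_fun ?_ |> fun h2 => h2
    intro n
    ring

theorem JMP_tendsto {F : Filter ℝ} (G : ℝ → ℕ → ℝ) (g : ℕ → ℝ)
    (h : ∀ k, 1 ≤ k → Tendsto (fun u => G u k) F (𝓝 (g k))) :
    ∀ r a : ℕ, 1 ≤ a → Tendsto (fun u => JMP_D (G u) r a) F (𝓝 (JMP_D g r a)) := by
  intro r
  induction r with
  | zero => intro a ha; simpa [JMP_D] using h a ha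
  | succ r ih =>
    intro a ha
    exact (ih a ha).sub (ih (a + 1) (by omega))

theorem JMP_const (t : ℝ) (r : ℕ) : ∀ a : ℕ, JMP_D (fun _ => t) (r + 1) a = 0 := by
  induction r with
  | zero => intro a; simp [JMP_D]
  | succ r ih => intro a; rw [JMP_succ, ih, ih, sub_zero]

theorem JMP_lin (g h e : ℕ → ℝ) (r : ℕ) : ∀ a : ℕ,
    JMP_D (fun k => g k - h k - e k) r a = JMP_D g r a - JMP_D h r a - JMP_D e r a := by
  induction r with
  | zero => intro a; simp [JMP_D]
  | succ r ih => intro a; simp only [JMP_D, ih]; ring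

theorem JMP_inv (s : ℝ) (hs : 0 ≤ s) (r : ℕ) : ∀ a : ℕ, 1 ≤ a →
    JMP_D (fun k => ((k : ℝ) + s)⁻¹) r a = r.factorial / ∏ i ∈ Finset.range (r + 1), ((a : ℝ) + i + s) := by
  induction r with
  | zero => intro a ha; simp [JMP_D]
  | succ r ih =>
    intro a ha
    have ha' : (1 : ℝ) ≤ a := by exact_mod_cast ha
    rw [JMP_succ, ih a ha, ih (a + 1) (by omega)]
    have h1 : ∏ i ∈ Finset.range (r + 1), ((a : ℝ) + i + s) =
        (∏ i ∈ Finset.range r, ((a : ℝ) + (i + 1) + s)) * (a + s) := by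
      rw [Finset.prod_range_succ']
      simp
    have h2 : ∏ i ∈ Finset.range (r + 1), (((a + 1 : ℕ) : ℝ) + i + s) =
        (∏ i ∈ Finset.range r, ((a : ℝ) + (i + 1) + s)) * (a + (r + 1) + s) := by
      rw [Finset.prod_range_succ]
      congr 1
      · apply Finset.prod_congr rfl
        intro i _
        push_cast
        ring
      · push_cast
        ring
    have h3 : ∏ i ∈ Finset.range (r + 1 + 1), ((a : ℝ) + i + s) =
        (∏ i ∈ Finset.range r, ((a : ℝ) + (i + 1) + s)) * (a + s) * (a + (r + 1) + s) := by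
      rw [Finset.prod_range_succ, h1]
      push_cast
      ring
    rw [h1, h2, h3]
    have h4 : (∏ i ∈ Finset.range r, ((a : ℝ) + (i + 1) + s)) ≠ 0 :=
      Finset.prod_ne_zero_iff.2 (fun i _ => by positivity)
    have h5 : (a : ℝ) + s ≠ 0 := by positivity
    have h6 : (a : ℝ) + (r + 1) + s ≠ 0 := by positivity
    rw [Nat.factorial_succ]
    push_cast
    field_simp
    ring

theorem JMP_deriv (r : ℕ) (s : ℝ) (hs : 0 ≤ s) : ∀ a : ℕ, 1 ≤ a →
    HasDerivAt (fun s : ℝ => JMP_D (fun k => Real.log ((k : ℝ) + s)) r a)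
      (JMP_D (fun k => ((k : ℝ) + s)⁻¹) r a) s := by
  induction r with
  | zero =>
    intro a ha
    have ha' : (1 : ℝ) ≤ a := by exact_mod_cast ha
    have h1 : HasDerivAt (fun s : ℝ => (a : ℝ) + s) 1 s := (hasDerivAt_id s).const_add _
    have h2 := h1.log (by positivity)
    simpa [JMP_D] using h2
  | succ r ih =>
    intro a ha
    exact (ih a ha).sub (ih (a + 1) (by omega))

theorem JMP_log (r a : ℕ) (ha : 1 ≤ a) :
    - JMP_D (fun k => Real.log k) (r + 1) a ≤
      r.factorial / ∏ i ∈ Finset.range (r + 1), ((a : ℝ) + i) := by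
  have ha' : (1 : ℝ) ≤ a := by exact_mod_cast ha
  have h0 : ∀ a' : ℕ, JMP_D (fun k => Real.log ((k : ℝ) + (1 : ℝ))) r a' =
      JMP_D (fun k => Real.log k) r (a' + 1) := by
    induction r with
    | zero => intro a'; simp [JMP_D]
    | succ r ih => intro a'; simp only [JMP_D, ih]
  have h00 : JMP_D (fun k => Real.log ((k : ℝ) + (0 : ℝ))) r a =
      JMP_D (fun k => Real.log k) r a := by simp
  have hd : ∀ s ∈ Set.Icc (0 : ℝ) 1, HasDerivAt
      (fun s : ℝ => JMP_D (fun k => Real.log ((k : ℝ) + s)) r a)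
      (r.factorial / ∏ i ∈ Finset.range (r + 1), ((a : ℝ) + i + s)) s := by
    intro s hs
    rw [← JMP_inv s hs.1 r a ha]
    exact JMP_deriv r s hs.1 a ha
  obtain ⟨ξ, hξ, h1⟩ := exists_hasDerivAt_eq_slope
    (fun s : ℝ => JMP_D (fun k => Real.log ((k : ℝ) + s)) r a)
    (fun s : ℝ => r.factorial / ∏ i ∈ Finset.range (r + 1), ((a : ℝ) + i + s))
    (zero_lt_one) (fun s hs => (hd s hs).continuousAt.continuousWithinAt)
    (fun s hs => hd s ⟨hs.1.le, hs.2.le⟩)
  have h2 : - JMP_D (fun k => Real.log k) (r + 1) a =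
      r.factorial / ∏ i ∈ Finset.range (r + 1), ((a : ℝ) + i + ξ) := by
    rw [JMP_succ, ← h0 a, ← h00]
    simp only [sub_zero, div_one] at h1
    rw [h1]
    ring
  rw [h2]
  apply div_le_div_of_nonneg_left (by positivity)
  · exact Finset.prod_pos (fun i _ => by positivity)
  · apply Finset.prod_le_prod
    · intro i _; positivity
    · intro i _; linarith [hξ.1]

/-- The bound `4 ^ (m + 1) * (m!)² / (2 m + 1)!`. -/
theorem JMP_B (m : ℕ) : ((4 : ℝ) ^ (m + 1) * (m.factorial / ∏ i ∈ Finset.range (m + 1),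
    (((m + 1 : ℕ) : ℝ) + i))) ^ 2 * (m + 1) ≤ 16 := by
  have key : ∀ m : ℕ, (m.factorial : ℝ) * ∏ i ∈ Finset.range (m + 1), (((m + 1 : ℕ) : ℝ) + i) =
      ((2 * m + 1).factorial : ℝ) := by
    intro m
    have h1 : ∀ j : ℕ, (m.factorial : ℝ) * ∏ i ∈ Finset.range j, (((m + 1 : ℕ) : ℝ) + i) =
        ((m + j).factorial : ℝ) := by
      intro j
      induction j with
      | zero => simp
      | succ j ih =>
        rw [Finset.prod_range_succ, ← mul_assoc, ih, ← Nat.add_assoc, Nat.factorial_succ]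
        push_cast
        ring
    rw [h1, show m + (m + 1) = 2 * m + 1 by ring]
  have h2 : ∀ m : ℕ, (m.factorial : ℝ) / ∏ i ∈ Finset.range (m + 1), (((m + 1 : ℕ) : ℝ) + i) =
      (m.factorial : ℝ) ^ 2 / ((2 * m + 1).factorial : ℝ) := by
    intro m
    rw [← key m]
    have h3 : (m.factorial : ℝ) ≠ 0 := by positivity
    have h4 : ∏ i ∈ Finset.range (m + 1), (((m + 1 : ℕ) : ℝ) + i) ≠ 0 :=
      Finset.prod_ne_zero_iff.2 (fun i _ => by positivity)
    field_simp
  rw [h2]
  induction m with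
  | zero => norm_num
  | succ m ih =>
    have h5 : (((2 * (m + 1) + 1).factorial : ℕ) : ℝ) =
        (2 * m + 3) * (2 * m + 2) * ((2 * m + 1).factorial : ℝ) := by
      rw [show 2 * (m + 1) + 1 = (2 * m + 1) + 1 + 1 by ring, Nat.factorial_succ, Nat.factorial_succ]
      push_cast
      ring
    have h6 : ((4 : ℝ) ^ (m + 1 + 1) * (((m + 1).factorial : ℝ) ^ 2 /
        (((2 * (m + 1) + 1).factorial : ℕ) : ℝ))) =
        ((4 : ℝ) ^ (m + 1) * ((m.factorial : ℝ) ^ 2 / ((2 * m + 1).factorial : ℝ))) *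
          ((2 * m + 2) / (2 * m + 3)) := by
      rw [h5, Nat.factorial_succ]
      have h7 : ((2 * m + 1).factorial : ℝ) ≠ 0 := by positivity
      have h8 : (2 * (m : ℝ) + 3) ≠ 0 := by positivity
      have h9 : (2 * (m : ℝ) + 2) ≠ 0 := by positivity
      push_cast
      field_simp
      ring
    rw [h6]
    push_cast
    refine le_trans ?_ ih
    rw [mul_pow, mul_assoc]
    apply mul_le_mul_of_nonneg_left _ (by positivity)
    rw [div_pow, div_mul_eq_mul_div, div_le_iff₀ (by positivity)]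
    nlinarith [Nat.cast_nonneg (α := ℝ) m]

theorem JMP_main : ∀ (c : ℕ → ℝ) (g₀ : ℝ), (∀ n, 0 ≤ c n) →
  (∀ s : ℝ, 1 < s → Summable (fun n : ℕ => c n * (n : ℝ) ^ (-s))) →
  Tendsto (fun s : ℝ => ∑' n : ℕ, c n * (n : ℝ) ^ (-s) - Real.log (1 / (s - 1))) (𝓝[>] 1) (𝓝 g₀) →
  Tendsto (fun n : ℕ => c n / n) atTop (𝓝 0) := by
  intro c g₀ hc hs ht
  set L : ℝ → ℕ → ℝ := fun u k => ∑' n : ℕ, c n * (n : ℝ) ^ (-(1 + k * u)) with hL
  -- the limit
  have h1 : ∀ k : ℕ, 1 ≤ k → Tendsto (fun u : ℝ => L u k + Real.log k + Real.log u) (𝓝[>] 0) (𝓝 g₀) := by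
    intro k hk
    have hk' : (0 : ℝ) < k := by exact_mod_cast hk
    have h2 : Tendsto (fun u : ℝ => 1 + k * u) (𝓝[>] 0) (𝓝[>] 1) := by
      rw [tendsto_nhdsWithin_iff]
      constructor
      · have : Tendsto (fun u : ℝ => 1 + k * u) (𝓝 0) (𝓝 (1 + k * 0)) :=
          (Continuous.tendsto (by fun_prop) 0)
        rw [mul_zero, add_zero] at this
        exact this.mono_left nhdsWithin_le_nhds
      · filter_upwards [self_mem_nhdsWithin] with u hu
        have : 0 < k * u := mul_pos hk' hu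
        simp only [Set.mem_Ioi]; linarith
    have h3 := ht.comp h2
    refine h3.congr' ?_
    filter_upwards [self_mem_nhdsWithin] with u hu
    have hu' : (0 : ℝ) < u := hu
    simp only [Function.comp, hL]
    rw [show 1 + (k : ℝ) * u - 1 = k * u by ring, one_div, Real.log_inv,
      Real.log_mul hk'.ne' hu'.ne']
    ring
  have h2 : ∀ r : ℕ, Tendsto (fun u : ℝ => JMP_D (L u) (r + 1) (r + 1)) (𝓝[>] 0)
      (𝓝 (- JMP_D (fun k => Real.log k) (r + 1) (r + 1))) := by
    intro r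
    have h3 := JMP_tendsto (F := 𝓝[>] (0 : ℝ)) (fun u k => L u k + Real.log k + Real.log u)
      (fun _ => g₀) h1 (r + 1) (r + 1) (by omega)
    rw [JMP_const] at h3
    have h4 : ∀ u : ℝ, JMP_D (L u) (r + 1) (r + 1) =
        JMP_D (fun k => L u k + Real.log k + Real.log u) (r + 1) (r + 1) -
          JMP_D (fun k => Real.log k) (r + 1) (r + 1) := by
      intro u
      have h5 := JMP_lin (fun k => L u k + Real.log k + Real.log u) (fun k => Real.log k)
        (fun _ => Real.log u) (r + 1) (r + 1)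
      rw [JMP_const, sub_zero] at h5
      rw [← h5]
      congr 1
      funext k
      ring
    have h5 := h3.sub_const (JMP_D (fun k => Real.log k) (r + 1) (r + 1))
    rw [zero_sub] at h5
    exact h5.congr (fun u => (h4 u).symm)
  have h3 : ∀ u : ℝ, 0 < u → ∀ r : ℕ, HasSum (fun n : ℕ => c n / n *
      (((n : ℝ) ^ (-u)) ^ (r + 1) * (1 - (n : ℝ) ^ (-u)) ^ (r + 1)))
      (JMP_D (L u) (r + 1) (r + 1)) := by
    intro u hu r
    refine JMP_hasSum (fun n => c n / n) (fun n => (n : ℝ) ^ (-u)) (L u) ?_ (r + 1) (r + 1) (by omega)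
    intro k hk
    have hk' : (0 : ℝ) < k := by exact_mod_cast hk
    have h4 := (hs (1 + k * u) (by nlinarith)).hasSum
    refine h4.congr_fun ?_ |> fun h2 => h2
    intro n
    rcases Nat.eq_zero_or_pos n with hn | hn
    · subst hn
      rw [Nat.cast_zero, div_zero, zero_mul, Real.zero_rpow (by nlinarith), mul_zero]
    · have hn' : (0 : ℝ) < n := by exact_mod_cast hn
      rw [← Real.rpow_natCast, ← Real.rpow_mul hn'.le, neg_add, Real.rpow_add hn',
        Real.rpow_neg_one, div_eq_mul_inv, mul_assoc, show -((k : ℝ) * u) = -u * k by ring]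
  have h4 : Tendsto (fun n : ℕ => Real.log 2 / Real.log n) atTop (𝓝[>] 0) := by
    rw [tendsto_nhdsWithin_iff]
    constructor
    · exact Tendsto.div_atTop tendsto_const_nhds
        (Real.tendsto_log_atTop.comp tendsto_natCast_atTop_atTop)
    · filter_upwards [eventually_ge_atTop 2] with n hn
      have hn' : (1 : ℝ) < n := by exact_mod_cast (by omega : 1 < n)
      exact div_pos (Real.log_pos one_lt_two) (Real.log_pos hn')
  have h5 : ∀ r : ℕ, ∀ᶠ n : ℕ in atTop, c n / n ≤
      4 ^ (r + 1) * JMP_D (L (Real.log 2 / Real.log n)) (r + 1) (r + 1) := by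
    intro r
    filter_upwards [eventually_ge_atTop 2] with n hn
    have hn' : (1 : ℝ) < n := by exact_mod_cast (by omega : 1 < n)
    have hln : 0 < Real.log n := Real.log_pos hn'
    have hu : 0 < Real.log 2 / Real.log n := div_pos (Real.log_pos one_lt_two) hln
    have h6 := h3 _ hu r
    have h7 : (n : ℝ) ^ (-(Real.log 2 / Real.log n)) = 1 / 2 := by
      rw [Real.rpow_def_of_pos (by linarith), show Real.log n * -(Real.log 2 / Real.log n) =
        - Real.log 2 by field_simp, Real.exp_neg, Real.exp_log (by norm_num)]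
      norm_num
    have h8 := le_hasSum h6 n (fun j _ => by
      have h9 : (j : ℝ) ^ (-(Real.log 2 / Real.log n)) ≤ 1 := by
        rcases Nat.eq_zero_or_pos j with hj | hj
        · subst hj
          rw [Nat.cast_zero, Real.zero_rpow (by linarith)]
          exact zero_le_one
        · exact Real.rpow_le_one_of_one_le_of_nonpos (by exact_mod_cast hj) (by linarith)
      have h10 : 0 ≤ (j : ℝ) ^ (-(Real.log 2 / Real.log n)) := by positivity
      have h11 := hc j
      have h12 : 0 ≤ 1 - (j : ℝ) ^ (-(Real.log 2 / Real.log n)) := by linarith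
      positivity)
    simp only [h7] at h8
    have h9 : c n / n * ((1 / 2) ^ (r + 1) * (1 - 1 / 2) ^ (r + 1)) * 4 ^ (r + 1) = c n / n := by
      rw [mul_assoc, ← mul_pow, ← mul_pow]
      norm_num
    calc c n / n = c n / n * ((1 / 2) ^ (r + 1) * (1 - 1 / 2) ^ (r + 1)) * 4 ^ (r + 1) := h9.symm
      _ ≤ JMP_D (L (Real.log 2 / Real.log n)) (r + 1) (r + 1) * 4 ^ (r + 1) :=
        mul_le_mul_of_nonneg_right h8 (by positivity)
      _ = _ := mul_comm _ _
  rw [tendsto_order]
  refine ⟨fun b hb => Eventually.of_forall fun n => lt_of_lt_of_le hb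
    (div_nonneg (hc n) (Nat.cast_nonneg n)), fun ε hε => ?_⟩
  obtain ⟨r, hr⟩ := exists_nat_gt (16 / ε ^ 2)
  have h6 : (4 : ℝ) ^ (r + 1) * (- JMP_D (fun k => Real.log k) (r + 1) (r + 1)) < ε := by
    have h7 := JMP_log r (r + 1) (by omega)
    have h8 := JMP_B r
    set B : ℝ := (4 : ℝ) ^ (r + 1) * (r.factorial / ∏ i ∈ Finset.range (r + 1),
      (((r + 1 : ℕ) : ℝ) + i)) with hB
    have hB0 : 0 ≤ B := by rw [hB]; positivity
    refine lt_of_le_of_lt (mul_le_mul_of_nonneg_left h7 (by positivity)) ?_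
    rw [← hB]
    rw [div_lt_iff₀ (by positivity)] at hr
    by_contra hcon
    rw [not_lt] at hcon
    have h9 : ε ^ 2 ≤ B ^ 2 := by gcongr
    nlinarith [sq_nonneg ε, sq_nonneg B]
  have h7 := (((h2 r).comp h4).const_mul ((4 : ℝ) ^ (r + 1))).eventually (gt_mem_nhds h6)
  filter_upwards [h5 r, h7] with n hn hn2
  exact lt_of_le_of_lt hn hn2

theorem p_JMP : S_JMP := JMP_main

end Pool.Agent.Lib.MP_058a58_ag.MT
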