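import Pool.Agent.Lib.MP_058a58_ag.MT.DStm2

set_option autoImplicit false

open UpperHalfPlane MeasureTheory Filter Topology
open scoped MatrixGroups Modular ComplexConjugate

namespace Pool.Agent.Lib.MP_058a58_ag.MT

private lemma KEY_tendsto : Tendsto (fun s : ℝ => Real.log (1 / (s - 1))) (𝓝[>] 1) atTop := by
  have h1 : Tendsto (fun s : ℝ => s - 1) (𝓝[>] (1:ℝ)) (𝓝[>] 0) := by
    rw [tendsto_nhdsWithin_iff]
    constructor
    · have : Tendsto (fun s : ℝ => s - 1) (𝓝 1) (𝓝 (1 - 1)) := tendsto_id.sub_const 1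
      rw [sub_self] at this
      exact this.mono_left nhdsWithin_le_nhds
    · filter_upwards [self_mem_nhdsWithin] with s hs
      have : (1:ℝ) < s := hs
      exact Set.mem_Ioi.mpr (by linarith)
  have h2 : Tendsto (fun s : ℝ => 1 / (s - 1)) (𝓝[>] (1:ℝ)) atTop := by
    simp only [one_div]
    exact tendsto_inv_nhdsGT_zero.comp h1
  exact Real.tendsto_log_atTop.comp h2

private lemma KEY_bound {h : ℕ → ℝ} {κ : ℝ} (hκ : 0 < κ)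
    (hs : Summable (fun p : Nat.Primes => h p ^ 2 * ((p : ℕ) : ℝ) ^ (-1 : ℝ))) {s : ℝ}
    (h1 : 1 < s) : TatePole.RR h s ≤
      (∑' p : Nat.Primes, h p ^ 2 * ((p : ℕ) : ℝ) ^ (-1 : ℝ)) / (2 * κ) +
        κ / 2 * TatePole.RR (fun _ => (1:ℝ)) s := by
  have hs1 : Summable (fun p : Nat.Primes => ((p : ℕ) : ℝ) ^ (-s)) :=
    Nat.Primes.summable_rpow.mpr (by linarith)
  have hs2 : Summable (fun p : Nat.Primes => (1 / (2 * κ)) * (h p ^ 2 * ((p : ℕ) : ℝ) ^ (-1 : ℝ)) +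
      κ / 2 * ((p : ℕ) : ℝ) ^ (-s)) := (hs.mul_left _).add (hs1.mul_left _)
  have hle : ∀ p : Nat.Primes, |h p| * ((p : ℕ) : ℝ) ^ (-s) ≤
      (1 / (2 * κ)) * (h p ^ 2 * ((p : ℕ) : ℝ) ^ (-1 : ℝ)) + κ / 2 * ((p : ℕ) : ℝ) ^ (-s) := by
    intro p
    have hp1 : (1:ℝ) ≤ ((p : ℕ) : ℝ) := by exact_mod_cast p.2.one_lt.le
    have hp0 : (0:ℝ) ≤ ((p : ℕ) : ℝ) ^ (-s) := Real.rpow_nonneg (Nat.cast_nonneg _) _
    have hps : ((p : ℕ) : ℝ) ^ (-s) ≤ ((p : ℕ) : ℝ) ^ (-1 : ℝ) :=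
      Real.rpow_le_rpow_of_exponent_le hp1 (by linarith)
    have e1 : |h p| ≤ (1 / (2 * κ)) * h p ^ 2 + κ / 2 := by
      have e2 : 0 ≤ (|h p| - κ) ^ 2 := sq_nonneg _
      have e3 : |h p| ^ 2 = h p ^ 2 := sq_abs _
      have e4 : (1 / (2 * κ)) * h p ^ 2 + κ / 2 - |h p| = (|h p| - κ) ^ 2 / (2 * κ) := by
        rw [← e3]; field_simp; ring
      have e5 : 0 ≤ (|h p| - κ) ^ 2 / (2 * κ) := by positivity
      linarith
    calc |h p| * ((p : ℕ) : ℝ) ^ (-s)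
        ≤ ((1 / (2 * κ)) * h p ^ 2 + κ / 2) * ((p : ℕ) : ℝ) ^ (-s) :=
          mul_le_mul_of_nonneg_right e1 hp0
      _ = (1 / (2 * κ)) * (h p ^ 2 * ((p : ℕ) : ℝ) ^ (-s)) + κ / 2 * ((p : ℕ) : ℝ) ^ (-s) := by
          ring
      _ ≤ _ := by
          have : h p ^ 2 * ((p : ℕ) : ℝ) ^ (-s) ≤ h p ^ 2 * ((p : ℕ) : ℝ) ^ (-1 : ℝ) :=
            mul_le_mul_of_nonneg_left hps (sq_nonneg _)
          have h3 : (1 / (2 * κ)) * (h p ^ 2 * ((p : ℕ) : ℝ) ^ (-s)) ≤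
              (1 / (2 * κ)) * (h p ^ 2 * ((p : ℕ) : ℝ) ^ (-1 : ℝ)) :=
            mul_le_mul_of_nonneg_left this (by positivity)
          linarith
  have hs3 : Summable (fun p : Nat.Primes => h p * ((p : ℕ) : ℝ) ^ (-s)) := by
    refine Summable.of_norm_bounded hs2 fun p => ?_
    have hp0 : (0:ℝ) ≤ ((p : ℕ) : ℝ) ^ (-s) := Real.rpow_nonneg (Nat.cast_nonneg _) _
    rw [norm_mul, Real.norm_eq_abs, Real.norm_eq_abs, abs_of_nonneg hp0]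
    exact hle p
  have hmain : TatePole.RR h s ≤ ∑' p : Nat.Primes, ((1 / (2 * κ)) *
      (h p ^ 2 * ((p : ℕ) : ℝ) ^ (-1 : ℝ)) + κ / 2 * ((p : ℕ) : ℝ) ^ (-s)) := by
    unfold TatePole.RR
    refine hs3.tsum_le_tsum (fun p => ?_) hs2
    have hp0 : (0:ℝ) ≤ ((p : ℕ) : ℝ) ^ (-s) := Real.rpow_nonneg (Nat.cast_nonneg _) _
    exact (mul_le_mul_of_nonneg_right (le_abs_self _) hp0).trans (hle p)
  rw [(hs.mul_left _).tsum_add (hs1.mul_left _), tsum_mul_left, tsum_mul_left] at hmain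
  have e : TatePole.RR (fun _ => (1:ℝ)) s = ∑' p : Nat.Primes, ((p : ℕ) : ℝ) ^ (-s) := by
    unfold TatePole.RR
    exact tsum_congr fun p => by rw [one_mul]
  rw [e]
  have e2 : (∑' p : Nat.Primes, h p ^ 2 * ((p : ℕ) : ℝ) ^ (-1 : ℝ)) / (2 * κ) =
    1 / (2 * κ) * ∑' p : Nat.Primes, h p ^ 2 * ((p : ℕ) : ℝ) ^ (-1 : ℝ) := by ring
  rw [e2]
  exact hmain

theorem p_KEY : S_KEY := by
  intro h κ C hκ hs hev
  obtain ⟨K, hK⟩ := TatePole.hasMean_one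
  set S := ∑' p : Nat.Primes, h p ^ 2 * ((p : ℕ) : ℝ) ^ (-1 : ℝ) with hS
  have h3 := KEY_tendsto.eventually_gt_atTop ((C + S / (2 * κ) + κ / 2 * K) / (κ / 2))
  obtain ⟨s, ⟨⟨h4, h5⟩, h6⟩, h7⟩ := (((hev.and hK).and h3).and self_mem_nhdsWithin).exists
  have h8 := KEY_bound hκ hs (s := s) h7
  rw [one_mul] at h5
  have h9 := (abs_le.mp h5).2
  have h10 : κ / 2 * TatePole.RR (fun _ => (1:ℝ)) s ≤ κ / 2 * (Real.log (1 / (s - 1)) + K) :=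
    mul_le_mul_of_nonneg_left (by linarith) (by positivity)
  rw [div_lt_iff₀ (by positivity)] at h6
  nlinarith

end Pool.Agent.Lib.MP_058a58_ag.MT
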