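import Pool.Agent.Lib.MP_058a58_ag.MT.DStm2

set_option autoImplicit false

open Filter Topology

namespace Pool.Agent.Lib.MP_058a58_ag.MT

theorem LAND_term (c : ℕ → ℝ) (s : ℂ) (hs : 1 < s.re) (n : ℕ) :
    LSeries.term (fun n => (c n : ℂ)) s n = (c n : ℂ) * (n : ℂ) ^ (-s) := by
  have hs0 : s ≠ 0 := by
    rintro rfl
    simp at hs
    linarith
  rcases Nat.eq_zero_or_pos n with hn | hn
  · subst hn
    rw [LSeries.term_zero, Nat.cast_zero, Complex.zero_cpow (neg_ne_zero.2 hs0), mul_zero]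
  · rw [LSeries.term_of_ne_zero hn.ne', Complex.cpow_neg, div_eq_mul_inv]

theorem LAND_abs (c : ℕ → ℝ)
    (hs : ∀ σ : ℝ, 1 < σ → Summable (fun n : ℕ => c n * (n : ℝ) ^ (-σ))) :
    LSeries.abscissaOfAbsConv (fun n => (c n : ℂ)) ≤ 1 := by
  refine LSeries.abscissaOfAbsConv_le_of_forall_lt_LSeriesSummable (x := 1) ?_
  intro y hy
  have h1 : LSeries.term (fun n => (c n : ℂ)) (y : ℂ) =
      fun n => ((c n * (n : ℝ) ^ (-y) : ℝ) : ℂ) := by
    funext n
    rw [LAND_term c (y : ℂ) (by simpa using hy) n, Complex.ofReal_mul,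
      Complex.ofReal_cpow (Nat.cast_nonneg n)]
    simp
  rw [LSeriesSummable, h1]
  exact Complex.summable_ofReal.2 (hs y hy)

theorem LAND_log (a : ℕ → ℂ) (j n : ℕ) : (LSeries.logMul^[j] a) n = (Real.log n : ℂ) ^ j * a n := by
  induction j generalizing n with
  | zero => simp
  | succ j ih =>
    rw [Function.iterate_succ_apply', LSeries.logMul, ih, pow_succ, Complex.natCast_log]
    ring

theorem LAND_l (c : ℕ → ℝ)
    (hs : ∀ σ : ℝ, 1 < σ → Summable (fun n : ℕ => c n * (n : ℝ) ^ (-σ))) (j : ℕ) :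
    Summable (fun n : ℕ => c n * (n : ℝ) ^ (-2 : ℝ) * Real.log n ^ j) ∧
    (-1) ^ j * iteratedDeriv j (LSeries (fun n => (c n : ℂ))) 2 =
      ((∑' n : ℕ, c n * (n : ℝ) ^ (-2 : ℝ) * Real.log n ^ j : ℝ) : ℂ) := by
  have h0 := LAND_abs c hs
  have h1 : LSeries.abscissaOfAbsConv (fun n => (c n : ℂ)) < (2 : ℂ).re :=
    lt_of_le_of_lt h0 (by
      rw [show (2 : ℂ).re = 2 from rfl]
      exact_mod_cast one_lt_two)
  have h2 : LSeries.term (LSeries.logMul^[j] (fun n => (c n : ℂ))) 2 =
      fun n => ((c n * (n : ℝ) ^ (-2 : ℝ) * Real.log n ^ j : ℝ) : ℂ) := by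
    funext n
    rcases Nat.eq_zero_or_pos n with hn | hn
    · subst hn
      rw [LSeries.term_zero, Nat.cast_zero, Real.zero_rpow (by norm_num)]
      simp
    · rw [LSeries.term_of_ne_zero hn.ne', LAND_log, Complex.ofReal_mul, Complex.ofReal_mul,
        Complex.ofReal_cpow (Nat.cast_nonneg n), Complex.ofReal_pow]
      rw [show ((-2 : ℝ) : ℂ) = -2 by norm_num, Complex.cpow_neg, Complex.ofReal_natCast]
      ring
  have h3 : LSeriesSummable (LSeries.logMul^[j] (fun n => (c n : ℂ))) 2 :=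
    LSeriesSummable_of_abscissaOfAbsConv_lt_re (by rw [LSeries.absicssaOfAbsConv_logPowMul]; exact h1)
  refine ⟨?_, ?_⟩
  · rw [LSeriesSummable, h2] at h3
    exact Complex.summable_ofReal.1 h3
  · rw [LSeries_iteratedDeriv j h1, ← mul_assoc, ← pow_add, Even.neg_one_pow ⟨j, rfl⟩, one_mul,
      LSeries, h2, Complex.ofReal_tsum]

theorem LAND_main : ∀ (c : ℕ → ℝ) (F : ℂ → ℂ), (∀ n, 0 ≤ c n) →
  (∀ σ : ℝ, 1 < σ → Summable (fun n : ℕ => c n * (n : ℝ) ^ (-σ))) → DifferentiableOn ℂ F HP →
  (∀ s : ℂ, 1 < s.re → F s = Complex.exp (∑' n : ℕ, (c n : ℂ) * (n : ℂ) ^ (-s))) →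
  ∀ σ : ℝ, 1 / 4 < σ → Summable (fun n : ℕ => c n * (n : ℝ) ^ (-σ)) := by
  intro c F hc hs hF hE σ hσ
  rcases lt_or_ge 1 σ with h1 | h1
  · exact hs σ h1
  set a : ℕ → ℂ := fun n => (c n : ℂ) with ha
  set L : ℂ → ℂ := LSeries a with hL
  set l : ℕ → ℝ := fun j => ∑' n : ℕ, c n * (n : ℝ) ^ (-2 : ℝ) * Real.log n ^ j with hl
  have hab := LAND_abs c hs
  have hU : IsOpen {s : ℂ | 1 < s.re} := isOpen_lt continuous_const Complex.continuous_re
  have h2U : (2 : ℂ) ∈ {s : ℂ | 1 < s.re} := by norm_num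
  have hLd : DifferentiableOn ℂ L {s : ℂ | 1 < s.re} := by
    refine (LSeries_differentiableOn a).mono ?_
    intro s hs'
    exact lt_of_le_of_lt hab (by exact_mod_cast hs')
  have hFL : ∀ s ∈ {s : ℂ | 1 < s.re}, F s = Complex.exp (L s) := by
    intro s hs'
    rw [hE s hs', hL, LSeries]
    congr 1
    exact tsum_congr (fun n => (LAND_term c s hs' n).symm)
  have hFd : ∀ s ∈ {s : ℂ | 1 < s.re}, deriv F s = deriv L s * F s := by
    intro s hs'
    have h2 : F =ᶠ[𝓝 s] fun s => Complex.exp (L s) := by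
      filter_upwards [hU.mem_nhds hs'] with t ht using hFL t ht
    rw [h2.deriv_eq, ((hLd.differentiableAt (hU.mem_nhds hs')).hasDerivAt.cexp).deriv, hFL s hs']
    ring
  have hLa : AnalyticAt ℂ L 2 := (hLd.analyticOnNhd hU) 2 h2U
  have hFa : AnalyticAt ℂ F 2 := by
    have h2 : IsOpen HP := isOpen_lt continuous_const Complex.continuous_re
    exact (hF.analyticOnNhd h2) 2 (by simp [HP]; norm_num)
  have hrec : ∀ j : ℕ, iteratedDeriv (j + 1) F 2 = ∑ i ∈ Finset.range (j + 1),
      (j.choose i : ℂ) * iteratedDeriv (i + 1) L 2 * iteratedDeriv (j - i) F 2 := by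
    intro j
    have h2 : deriv F =ᶠ[𝓝 2] (deriv L * F) := by
      filter_upwards [hU.mem_nhds h2U] with t ht using hFd t ht
    rw [iteratedDeriv_succ', h2.iteratedDeriv_eq, iteratedDeriv_mul hLa.deriv.contDiffAt hFa.contDiffAt]
    apply Finset.sum_congr rfl
    intro i _
    rw [← iteratedDeriv_succ']
  have hlj : ∀ j : ℕ, (-1) ^ j * iteratedDeriv j L 2 = (l j : ℂ) := fun j => (LAND_l c hs j).2
  have hl0 : ∀ j : ℕ, 0 ≤ l j := fun j => tsum_nonneg (fun n => by
    have := hc n
    have := Real.log_natCast_nonneg n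
    positivity)
  have hF2 : ∃ r : ℝ, 1 ≤ r ∧ F 2 = (r : ℂ) := by
    refine ⟨Real.exp (l 0), Real.one_le_exp (hl0 0), ?_⟩
    have := hlj 0
    rw [pow_zero, one_mul, iteratedDeriv_zero] at this
    rw [hFL 2 h2U, this, Complex.ofReal_exp]
  obtain ⟨r, hr1, hr⟩ := hF2
  have hg : ∀ j : ℕ, ∃ g : ℝ, 0 ≤ g ∧ (-1) ^ j * iteratedDeriv j F 2 = (g : ℂ) := by
    intro j
    induction j using Nat.strong_induction_on with
    | _ j ih =>
      rcases j with _ | j
      · exact ⟨r, by linarith, by rw [pow_zero, one_mul, iteratedDeriv_zero, hr]⟩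
      · choose! g hg0 hg1 using ih
        refine ⟨∑ i ∈ Finset.range (j + 1), (j.choose i : ℝ) * l (i + 1) * g (j - i), ?_, ?_⟩
        · apply Finset.sum_nonneg
          intro i hi
          have := hl0 (i + 1)
          have := hg0 (j - i) (by omega)
          positivity
        · rw [hrec, Finset.mul_sum]
          push_cast
          apply Finset.sum_congr rfl
          intro i hi
          rw [Finset.mem_range] at hi
          rw [← hlj (i + 1), ← hg1 (j - i) (by omega)]
          have h3 : (-1 : ℂ) ^ (j + 1) = (-1) ^ (i + 1) * (-1) ^ (j - i) := by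
            rw [← pow_add]
            congr 1
            omega
          rw [h3]
          ring
  choose g hg0 hg1 using hg
  have hdom : ∀ j : ℕ, l (j + 1) ≤ g (j + 1) := by
    intro j
    have h3 : g (j + 1) = ∑ i ∈ Finset.range (j + 1), (j.choose i : ℝ) * l (i + 1) * g (j - i) := by
      have h4 : ((g (j + 1) : ℝ) : ℂ) =
          ((∑ i ∈ Finset.range (j + 1), (j.choose i : ℝ) * l (i + 1) * g (j - i) : ℝ) : ℂ) := by
        rw [← hg1 (j + 1), hrec, Finset.mul_sum]
        push_cast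
        apply Finset.sum_congr rfl
        intro i hi
        rw [Finset.mem_range] at hi
        rw [← hlj (i + 1), ← hg1 (j - i)]
        have h3 : (-1 : ℂ) ^ (j + 1) = (-1) ^ (i + 1) * (-1) ^ (j - i) := by
          rw [← pow_add]
          congr 1
          omega
        rw [h3]
        ring
      exact_mod_cast h4
    have h5 : g 0 = r := by
      have := hg1 0
      rw [pow_zero, one_mul, iteratedDeriv_zero, hr] at this
      exact_mod_cast this.symm
    rw [h3]
    refine le_trans ?_ (Finset.single_le_sum (f := fun i => (j.choose i : ℝ) * l (i + 1) * g (j - i))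
      (fun i hi => ?_) (Finset.self_mem_range_succ j))
    · simp only [Nat.choose_self, Nat.cast_one, one_mul, Nat.sub_self, h5]
      nlinarith [hl0 (j + 1)]
    · have := hl0 (i + 1)
      have := hg0 (j - i)
      positivity
  -- the Taylor series
  set x : ℝ := 2 - σ with hx
  have hx0 : 0 ≤ x := by linarith
  have hz : (σ : ℂ) ∈ Metric.ball (2 : ℂ) (7 / 4) := by
    rw [Metric.mem_ball, Complex.dist_eq, show (σ : ℂ) - 2 = ((σ - 2 : ℝ) : ℂ) by push_cast; ring,
      Complex.norm_real, Real.norm_eq_abs, abs_lt]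
    constructor <;> linarith
  have hball : DifferentiableOn ℂ F (Metric.ball (2 : ℂ) (7 / 4)) := by
    refine hF.mono ?_
    intro s hs'
    rw [Metric.mem_ball, Complex.dist_eq] at hs'
    have h3 := Complex.abs_re_le_norm (s - 2)
    rw [Complex.sub_re] at h3
    have h4 := (abs_le.1 h3).1
    have h5 : (2 : ℂ).re = 2 := rfl
    rw [h5] at h4
    simp only [HP, Set.mem_ofPred_eq]
    linarith
  have hT := Complex.hasSum_taylorSeries_on_ball hball hz
  have hT2 : Summable (fun j : ℕ => g j * x ^ j / j.factorial) := by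
    have h3 : (fun n : ℕ ↦ (n.factorial : ℂ)⁻¹ • ((σ : ℂ) - 2) ^ n • iteratedDeriv n F 2) =
        fun n : ℕ => ((g n * x ^ n / n.factorial : ℝ) : ℂ) := by
      funext n
      push_cast
      rw [← hg1 n, hx]
      simp only [smul_eq_mul]
      have h4 : ((σ : ℂ) - 2) ^ n = (-1) ^ n * (((2 - σ : ℝ) : ℂ)) ^ n := by
        rw [← mul_pow]
        push_cast
        ring
      rw [h4]
      push_cast
      ring
    rw [h3] at hT
    exact Complex.summable_ofReal.1 hT.summable
  have hT3 : Summable (fun j : ℕ => l j * x ^ j / j.factorial) := by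
    rw [← summable_nat_add_iff 1] at hT2 ⊢
    refine Summable.of_nonneg_of_le (fun j => ?_) (fun j => ?_) hT2
    · have := hl0 (j + 1)
      positivity
    · have := hdom j
      gcongr
  have hP : Summable (fun q : ℕ × ℕ => c q.2 * (q.2 : ℝ) ^ (-2 : ℝ) * Real.log q.2 ^ q.1 *
      (x ^ q.1 / q.1.factorial)) := by
    rw [summable_prod_of_nonneg]
    · refine ⟨fun j => ?_, ?_⟩
      · have h3 := (LAND_l c hs j).1.mul_right (x ^ j / j.factorial)
        exact h3
      · refine hT3.congr ?_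
        intro j
        rw [hl]
        simp only
        rw [tsum_mul_right, mul_div_assoc]
    · intro q
      have := hc q.2
      have := Real.log_natCast_nonneg q.2
      positivity
  have hP2 := ((Equiv.prodComm ℕ ℕ).summable_iff.2 hP).prod
  refine hP2.congr ?_
  intro n
  simp only [Function.comp, Equiv.prodComm_apply, Prod.swap_prod_mk]
  have h3 : ∀ j : ℕ, c n * (n : ℝ) ^ (-2 : ℝ) * Real.log n ^ j * (x ^ j / j.factorial) =
      c n * (n : ℝ) ^ (-2 : ℝ) * ((Real.log n * x) ^ j / j.factorial) := by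
    intro j
    rw [mul_pow]
    ring
  simp only [h3]
  have h5 : ∑' j : ℕ, ((Real.log n * x) ^ j / j.factorial) = Real.exp (Real.log n * x) := by
    rw [Real.exp_eq_exp_ℝ, NormedSpace.exp_eq_tsum_div]
  rw [tsum_mul_left, h5]
  rcases Nat.eq_zero_or_pos n with hn | hn
  · subst hn
    rw [Nat.cast_zero, Real.zero_rpow (by norm_num), Real.zero_rpow (by linarith)]
    ring
  · have hn' : (0 : ℝ) < n := by exact_mod_cast hn
    rw [← Real.rpow_def_of_pos hn', mul_assoc, ← Real.rpow_add hn']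
    congr 2
    rw [hx]
    ring

theorem p_LAND : S_LAND := LAND_main

end Pool.Agent.Lib.MP_058a58_ag.MT
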