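import Pool.Agent.Lib.MP_058a58_ag.MT.DStm

set_option autoImplicit false

/-!
# Defect form, MEL: the Mellin transform of `Ph`
-/

open UpperHalfPlane MeasureTheory Filter Topology Asymptotics
open scoped MatrixGroups Modular ComplexConjugate

namespace Pool.Agent.Lib.MP_058a58_ag.MT

/-- The bound for the terms, `A > 1`. -/
private lemma MEL_term {M l : ℕ} {K : ℝ} {c : ℕ → ℝ} (hc0 : c 0 = 0)
    (h1 : ∀ A : ℝ, 1 ≤ A → ∃ C : ℝ, 0 ≤ C ∧ ∀ T : ℝ, 0 < T → ∀ n : ℕ, 1 ≤ n →
      0 ≤ IG K (ug M l T) n ∧ IG K (ug M l T) n ≤ C * T ^ (-A) * (n : ℝ) ^ (-(K - 1 + A)))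
    (A : ℝ) (hA : 1 ≤ A) : ∃ C : ℝ, 0 ≤ C ∧ ∀ T : ℝ, 0 < T → ∀ n : ℕ,
      |c n * IG K (ug M l T) n| ≤ C * T ^ (-A) * (|c n| * (n : ℝ) ^ (-(A + K - 1))) := by
  obtain ⟨C, hC, h⟩ := h1 A hA
  refine ⟨C, hC, ?_⟩
  intro T hT n
  rcases Nat.eq_zero_or_pos n with hn | hn
  · subst hn
    simp [hc0]
  · obtain ⟨h2, h3⟩ := h T hT n hn
    rw [abs_mul, abs_of_nonneg h2]
    have e : -(A + K - 1) = -(K - 1 + A) := by ring
    rw [e]
    calc |c n| * IG K (ug M l T) n ≤ |c n| * (C * T ^ (-A) * (n : ℝ) ^ (-(K - 1 + A))) :=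
          mul_le_mul_of_nonneg_left h3 (abs_nonneg _)
      _ = C * T ^ (-A) * (|c n| * (n : ℝ) ^ (-(K - 1 + A))) := by ring

/-- **MEL.** The Mellin transform of `Ph`. -/
theorem p_MEL : S_MEL := by
  intro H1 H2 M l K c hM hK hc0 hc
  obtain ⟨h1, h1m⟩ := H1 M l K hM hK
  have h2 := H2 M l K hM hK
  -- absolute convergence
  have hsum : ∀ A : ℝ, 1 < A → ∃ C : ℝ, 0 ≤ C ∧ ∀ T : ℝ, 0 < T →
      Summable (fun n : ℕ => |c n * IG K (ug M l T) n|) ∧
      |Ph M l K c T| ≤ C * T ^ (-A) := by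
    intro A hA
    obtain ⟨C, hC, h⟩ := MEL_term hc0 h1 A hA.le
    have hs := hc A hA
    refine ⟨C * ∑' n : ℕ, |c n| * (n : ℝ) ^ (-(A + K - 1)), ?_, ?_⟩
    · exact mul_nonneg hC (tsum_nonneg fun n => mul_nonneg (abs_nonneg _)
        (Real.rpow_nonneg (Nat.cast_nonneg _) _))
    intro T hT
    have hs1 : Summable (fun n : ℕ => |c n * IG K (ug M l T) n|) :=
      Summable.of_nonneg_of_le (fun n => abs_nonneg _) (h T hT) (hs.mul_left _)
    refine ⟨hs1, ?_⟩
    have h4 : |Ph M l K c T| ≤ ∑' n : ℕ, |c n * IG K (ug M l T) n| := by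
      have := norm_tsum_le_tsum_norm (f := fun n : ℕ => c n * IG K (ug M l T) n)
        (by simpa only [Real.norm_eq_abs] using hs1)
      simpa only [Real.norm_eq_abs, Ph] using this
    refine h4.trans ?_
    calc ∑' n : ℕ, |c n * IG K (ug M l T) n|
        ≤ ∑' n : ℕ, C * T ^ (-A) * (|c n| * (n : ℝ) ^ (-(A + K - 1))) :=
          Summable.tsum_le_tsum (h T hT) hs1 (hs.mul_left _)
      _ = C * T ^ (-A) * ∑' n : ℕ, (|c n| * (n : ℝ) ^ (-(A + K - 1))) := tsum_mul_left
      _ = C * (∑' n : ℕ, |c n| * (n : ℝ) ^ (-(A + K - 1))) * T ^ (-A) := by ring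
  -- measurability
  have hmeas : AEStronglyMeasurable (fun T : ℝ => (Ph M l K c T : ℂ))
      (volume.restrict (Set.Ioi 0)) := by
    apply aestronglyMeasurable_of_tendsto_ae (u := atTop)
      (f := fun (N : ℕ) (T : ℝ) =>
        ((∑ n ∈ Finset.range N, c n * (if 0 < T then IG K (ug M l T) n else 0) : ℝ) : ℂ))
    · intro N
      apply Measurable.aestronglyMeasurable
      apply Complex.measurable_ofReal.comp
      exact Finset.measurable_fun_sum _ fun n _ => (h1m n).const_mul (c n)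
    · rw [ae_restrict_iff' measurableSet_Ioi]
      refine Filter.Eventually.of_forall fun T hT => ?_
      obtain ⟨C, -, h⟩ := hsum 2 (by norm_num)
      have hT' : 0 < T := hT
      have hs := (h T hT').1
      have hs' : Summable (fun n : ℕ => c n * IG K (ug M l T) n) := hs.of_abs
      have ht := hs'.hasSum.tendsto_sum_nat
      have ht' : Tendsto (fun N : ℕ => ∑ n ∈ Finset.range N,
          c n * (if 0 < T then IG K (ug M l T) n else 0)) atTop (𝓝 (Ph M l K c T)) := by
        simpa only [hT', if_true, Ph] using ht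
      exact (Complex.continuous_ofReal.tendsto _).comp ht'
  refine ⟨?_, ?_, ?_⟩
  · -- local integrability
    obtain ⟨C, -, h⟩ := hsum 2 (by norm_num)
    have hg : LocallyIntegrableOn (fun T : ℝ => C * T ^ (-2 : ℝ)) (Set.Ioi 0) := by
      apply ContinuousOn.locallyIntegrableOn _ measurableSet_Ioi
      apply ContinuousOn.mul continuousOn_const
      intro t ht
      exact (Real.continuousAt_rpow_const t _ (Or.inl (ne_of_gt ht))).continuousWithinAt
    intro t ht
    obtain ⟨u, hu, hi⟩ := hg t ht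
    refine ⟨u ∩ Set.Ioi 0, Filter.inter_mem hu self_mem_nhdsWithin, ?_⟩
    have hi' := hi.mono_set (Set.inter_subset_left (s := u) (t := Set.Ioi (0 : ℝ)))
    refine Integrable.mono' hi' (hmeas.mono_measure
      (Measure.restrict_mono Set.inter_subset_right le_rfl)) ?_
    have h5 : ∀ᵐ T ∂(volume.restrict (Set.Ioi (0 : ℝ))),
        ‖(Ph M l K c T : ℂ)‖ ≤ C * T ^ (-2 : ℝ) := by
      rw [ae_restrict_iff' measurableSet_Ioi]
      refine Filter.Eventually.of_forall fun T hT => ?_
      rw [Complex.norm_real, Real.norm_eq_abs]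
      exact (h T hT).2
    exact ae_mono (Measure.restrict_mono Set.inter_subset_right le_rfl) h5
  · -- decay
    intro A
    obtain ⟨C, hC, h⟩ := hsum (max A 2) (lt_of_lt_of_le (by norm_num) (le_max_right _ _))
    refine ⟨C, fun T hT => ((h T (by linarith)).2).trans ?_⟩
    exact mul_le_mul_of_nonneg_left (Real.rpow_le_rpow_of_exponent_le hT
      (neg_le_neg (le_max_left _ _))) hC
  · -- the transform
    intro s hs
    obtain ⟨h3, C, hC⟩ := h2 s (by linarith)
    set F : ℕ → ℝ → ℂ := fun n T =>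
      (T : ℂ) ^ (s - 1) • ((c n * IG K (ug M l T) n : ℝ) : ℂ) with hF
    have hFe : ∀ n, F n = fun T : ℝ => (c n : ℂ) •
        ((T : ℂ) ^ (s - 1) • (IG K (ug M l T) n : ℂ)) := by
      intro n
      funext T
      simp only [hF, smul_eq_mul, Complex.ofReal_mul]
      ring
    have hF0 : F 0 = fun _ => 0 := by
      funext T
      simp [hF, hc0]
    have hFint : ∀ n, Integrable (F n) (volume.restrict (Set.Ioi 0)) := by
      intro n
      rcases Nat.eq_zero_or_pos n with hn | hn
      · subst hn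
        rw [hF0]
        exact integrable_zero _ _ _
      · rw [hFe n]
        exact ((h3 n hn).1).smul (c n : ℂ)
    have hFnorm : ∀ n, ∫ T in Set.Ioi (0 : ℝ), ‖F n T‖ ≤
        C * (|c n| * (n : ℝ) ^ (-(s.re + K - 1))) := by
      intro n
      rcases Nat.eq_zero_or_pos n with hn | hn
      · subst hn
        simp [hF0, hc0]
      · have : (fun T : ℝ => ‖F n T‖) = fun T : ℝ => |c n| *
            ‖(T : ℂ) ^ (s - 1) * (IG K (ug M l T) n : ℂ)‖ := by
          funext T
          rw [hFe n, norm_smul, Complex.norm_real, Real.norm_eq_abs, smul_eq_mul]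
        rw [this, integral_const_mul]
        calc |c n| * ∫ T in Set.Ioi (0 : ℝ), ‖(T : ℂ) ^ (s - 1) * (IG K (ug M l T) n : ℂ)‖
            ≤ |c n| * (C * (n : ℝ) ^ (-(s.re + K - 1))) :=
              mul_le_mul_of_nonneg_left (hC n hn) (abs_nonneg _)
          _ = C * (|c n| * (n : ℝ) ^ (-(s.re + K - 1))) := by ring
    have hFsum : Summable (fun n => ∫ T in Set.Ioi (0 : ℝ), ‖F n T‖) :=
      Summable.of_nonneg_of_le (fun n => integral_nonneg fun T => norm_nonneg _) hFnorm
        ((hc s.re hs).mul_left C)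
    have key := hasSum_integral_of_summable_integral_norm hFint hFsum
    have hR : ∫ T in Set.Ioi (0 : ℝ), ∑' n, F n T =
        mellin (fun T : ℝ => (Ph M l K c T : ℂ)) s := by
      rw [mellin]
      refine setIntegral_congr_fun measurableSet_Ioi fun T _ => ?_
      simp only [hF, Ph, Complex.ofReal_tsum, smul_eq_mul]
      rw [tsum_mul_left]
    rw [hR] at key
    rw [← key.tsum_eq, DQ, ← tsum_mul_left]
    apply tsum_congr
    intro n
    rcases Nat.eq_zero_or_pos n with hn | hn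
    · subst hn
      simp [hF0, hc0]
    · have h6 := (h3 n hn).2
      rw [mellin] at h6
      rw [hFe n, integral_smul, h6]
      have h7 : (4 * Real.pi * n : ℂ) ^ (-(s + K - 1)) =
          (4 * Real.pi : ℂ) ^ (-(s + K - 1)) * (n : ℂ) ^ (-(s + K - 1)) := by
        have := Complex.mul_cpow_ofReal_nonneg (a := 4 * Real.pi) (b := (n : ℝ))
          (by positivity) (by positivity) (-(s + K - 1))
        push_cast at this
        exact this
      rw [h7, smul_eq_mul]
      ring

end Pool.Agent.Lib.MP_058a58_ag.MT
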