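import Pool.Agent.Lib.MP_058a58_ag.MT.DStm2
import Pool.Agent.Lib.MP_058a58_ag.FieldFamily

set_option autoImplicit false

open UpperHalfPlane MeasureTheory Filter Topology
open scoped MatrixGroups Modular ComplexConjugate

namespace Pool.Agent.Lib.MP_058a58_ag.MT

theorem NZD_nhds : HP ∈ 𝓝 (1 : ℂ) := by
  have h : IsOpen HP := isOpen_lt continuous_const Complex.continuous_re
  refine h.mem_nhds ?_
  show (1 / 4 : ℝ) < (1 : ℂ).re
  rw [Complex.one_re]
  norm_num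

theorem NZD_nonneg (E : Finset ℕ) (x : ℕ → ℝ) (n : ℕ) : 0 ≤ cc E x x n := by
  unfold cc
  split_ifs with h
  · exact div_nonneg (mul_self_nonneg _) (Nat.cast_nonneg _)
  · exact le_rfl

theorem NZD_real (c : ℕ → ℝ) (s : ℝ) :
    ∑' n : ℕ, (c n : ℂ) * (n : ℂ) ^ (-(s : ℂ)) = ((∑' n : ℕ, c n * (n : ℝ) ^ (-s) : ℝ) : ℂ) := by
  rw [Complex.ofReal_tsum]
  refine tsum_congr fun n => ?_
  rw [Complex.ofReal_mul, Complex.ofReal_cpow (Nat.cast_nonneg n), Complex.ofReal_neg,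
    Complex.ofReal_natCast]

theorem NZD_lim (c : ℕ → ℝ) (L : ℂ → ℂ) (hL : DifferentiableOn ℂ L HP) (h1 : L 1 ≠ 0)
    (h : ∀ s : ℂ, 1 < s.re → L s = (s - 1) * Complex.exp (∑' n : ℕ, (c n : ℂ) * (n : ℂ) ^ (-s))) :
    ∃ g₀ : ℝ, Tendsto (fun s : ℝ => ∑' n : ℕ, c n * (n : ℝ) ^ (-s) - Real.log (1 / (s - 1)))
      (𝓝[>] 1) (𝓝 g₀) := by
  have hc : ContinuousAt L 1 := (hL.differentiableAt NZD_nhds).continuousAt
  have hr : Tendsto (fun s : ℝ => (s : ℂ)) (𝓝[>] (1 : ℝ)) (𝓝 (1 : ℂ)) := by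
    have h0 : Tendsto (fun s : ℝ => (s : ℂ)) (𝓝 (1 : ℝ)) (𝓝 ((1 : ℝ) : ℂ)) :=
      Complex.continuous_ofReal.tendsto (1 : ℝ)
    rw [Complex.ofReal_one] at h0
    exact h0.mono_left nhdsWithin_le_nhds
  have h2 : Tendsto (fun s : ℝ => L s) (𝓝[>] (1 : ℝ)) (𝓝 (L 1)) := hc.tendsto.comp hr
  have h4 : Tendsto (fun s : ℝ =>
      ((Real.exp (∑' n : ℕ, c n * (n : ℝ) ^ (-s) - Real.log (1 / (s - 1))) : ℝ) : ℂ))
      (𝓝[>] (1 : ℝ)) (𝓝 (L 1)) := by
    refine h2.congr' ?_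
    filter_upwards [self_mem_nhdsWithin] with s hs
    have hs0 : (1 : ℝ) < s := hs
    have hs' : 1 < (s : ℂ).re := by
      rw [Complex.ofReal_re]
      exact hs
    have h5 : 0 < s - 1 := by linarith
    rw [h s hs', NZD_real, Real.exp_sub, Real.exp_log (by positivity), one_div, div_inv_eq_mul,
      mul_comm, Complex.ofReal_mul, Complex.ofReal_exp, Complex.ofReal_sub, Complex.ofReal_one]
  have h5 : Tendsto (fun s : ℝ => Real.exp (∑' n : ℕ, c n * (n : ℝ) ^ (-s) -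
      Real.log (1 / (s - 1)))) (𝓝[>] (1 : ℝ)) (𝓝 (L 1).re) := by
    have h0 := (Complex.continuous_re.tendsto (L 1)).comp h4
    refine h0.congr fun s => ?_
    exact Complex.ofReal_re _
  have h6 : Tendsto (fun _ : ℝ => (0 : ℝ)) (𝓝[>] (1 : ℝ)) (𝓝 (L 1).im) := by
    have h0 := (Complex.continuous_im.tendsto (L 1)).comp h4
    refine h0.congr fun s => ?_
    exact Complex.ofReal_im _
  have h7 : (L 1).im = 0 := tendsto_nhds_unique h6 tendsto_const_nhds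
  have h8 : (L 1).re ≠ 0 := fun h' => h1 (Complex.ext h' h7)
  refine ⟨Real.log (L 1).re, ?_⟩
  refine (h5.log h8).congr fun s => ?_
  exact Real.log_exp _

theorem NZD_sq (hCCP : S_CCP) (E : Finset ℕ) (x : ℕ → ℝ)
    (hs : Summable (fun n : ℕ => cc E x x n * (n : ℝ) ^ (-(1 / 2) : ℝ))) :
    Summable (fun p : Nat.Primes => (if (p : ℕ) ∈ E then 0 else 2 - x p ^ 2) ^ 2 *
      ((p : ℕ) : ℝ) ^ (-1 : ℝ)) := by
  have hinj : Function.Injective (fun p : Nat.Primes => (p : ℕ) ^ 2) := by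
    intro p q h
    exact Subtype.ext (Nat.pow_left_injective (by norm_num : 2 ≠ 0) h)
  have h1 := (hs.comp_injective hinj).mul_left 2
  refine h1.congr fun p => ?_
  have hp0 : (0 : ℝ) ≤ ((p : ℕ) : ℝ) := Nat.cast_nonneg _
  have e1 := hCCP.1 E x x p 1 p.2
  have t1 : ∀ z : ℝ, tw z (1 + 1) = z * z - 2 := fun z => rfl
  have e4 : (((p : ℕ) ^ 2 : ℕ) : ℝ) ^ (-(1 / 2) : ℝ) = ((p : ℕ) : ℝ) ^ (-1 : ℝ) := by
    rw [Nat.cast_pow, ← Real.rpow_natCast, ← Real.rpow_mul hp0]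
    norm_num
  simp only [Function.comp]
  rw [e4]
  rw [show (p : ℕ) ^ 2 = (p : ℕ) ^ (1 + 1) from rfl, e1, t1]
  by_cases hpE : (p : ℕ) ∈ E
  · simp only [hpE, if_true]
    ring
  · simp only [hpE, if_false]
    push_cast
    ring

theorem NZD_th (N k : ℕ) (a : ℕ → ℝ) (hES : ESeq N k a) (s : ℝ) (hs : 1 < s) :
    Summable (fun p : Nat.Primes => th N k a p * th N k a p * ((p : ℕ) : ℝ) ^ (-s)) := by
  have h1 := (hES.sq s hs).comp_injective Nat.Primes.coe_nat_injective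
  refine Summable.of_nonneg_of_le (fun p => ?_) (fun p => ?_) h1
  · exact mul_nonneg (mul_self_nonneg _) (Real.rpow_nonneg (Nat.cast_nonneg _) _)
  · refine mul_le_mul_of_nonneg_right ?_ (Real.rpow_nonneg (Nat.cast_nonneg _) _)
    unfold th
    split_ifs
    · rw [mul_zero]
      exact sq_nonneg _
    · rw [sq]

theorem NZD_key (hKEY : S_KEY) (hMSQ : R_MSQ) (N k : ℕ) (f : ℍ → ℂ)
    (a : ℕ → ℝ) (hN1 : 1 ≤ N) (hk : 2 ≤ k) (hf : IsForm N k f a) (ha : HeckeSeq N k a)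
    (ea : ESeq N k a) (E : Finset ℕ)
    (hN : ∀ p : ℕ, p.Prime → p ∣ N → p ∈ E)
    (hs : Summable (fun p : Nat.Primes => (if (p : ℕ) ∈ E then 0 else
      2 - lam k a p ^ 2) ^ 2 * ((p : ℕ) : ℝ) ^ (-1 : ℝ))) : False := by
  obtain ⟨C₁, hC₁⟩ := hMSQ N k f a hN1 hk hf ha
  obtain ⟨C₀, hC₀⟩ := TatePole.hasMean_one
  set corr : ℕ → ℝ := fun p => if p ∈ E then (-2 + th N k a p * th N k a p) else 0 with hcorr
  have hfin : (Function.support (fun p : Nat.Primes => |corr p|)).Finite := by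
    refine Set.Finite.subset (Set.Finite.preimage
      (f := fun p : Nat.Primes => (p : ℕ)) (Nat.Primes.coe_nat_injective.injOn)
      E.finite_toSet) ?_
    intro p hp
    rw [Function.mem_support] at hp
    by_contra hpE
    apply hp
    have hpE' : ¬ (p : ℕ) ∈ E := fun h => hpE h
    simp only [hcorr, hpE', if_false, abs_zero]
  have hsc : Summable (fun p : Nat.Primes => |corr p|) := summable_of_finite_support hfin
  refine hKEY (fun p => if p ∈ E then 0 else 2 - lam k a p ^ 2) 1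
    (2 * C₀ + C₁ + ∑' p : Nat.Primes, |corr p|) (by norm_num) hs ?_
  have hlt : ∀ᶠ s in 𝓝[>] (1 : ℝ), s ∈ Set.Ioc (1 : ℝ) 2 :=
    Ioc_mem_nhdsGT (by norm_num)
  filter_upwards [hC₀, hlt] with s h0 hs2
  have hs1 : 1 < s := hs2.1
  have hle : ∀ p : Nat.Primes, |corr p| * ((p : ℕ) : ℝ) ^ (-s) ≤ |corr p| := by
    intro p
    have h1 : ((p : ℕ) : ℝ) ^ (-s) ≤ 1 :=
      Real.rpow_le_one_of_one_le_of_nonpos (by exact_mod_cast p.2.one_lt.le) (by linarith)
    calc |corr p| * ((p : ℕ) : ℝ) ^ (-s) ≤ |corr p| * 1 :=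
          mul_le_mul_of_nonneg_left h1 (abs_nonneg _)
      _ = |corr p| := mul_one _
  have hn : ∀ p : Nat.Primes, ‖corr p * ((p : ℕ) : ℝ) ^ (-s)‖ =
      |corr p| * ((p : ℕ) : ℝ) ^ (-s) := by
    intro p
    rw [norm_mul, Real.norm_eq_abs, Real.norm_eq_abs,
      abs_of_nonneg (Real.rpow_nonneg (Nat.cast_nonneg _) _)]
  have hsn : Summable (fun p : Nat.Primes => |corr p| * ((p : ℕ) : ℝ) ^ (-s)) :=
    Summable.of_nonneg_of_le
      (fun p => mul_nonneg (abs_nonneg _) (Real.rpow_nonneg (Nat.cast_nonneg _) _)) hle hsc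
  have hs4 : Summable (fun p : Nat.Primes => corr p * ((p : ℕ) : ℝ) ^ (-s)) := by
    refine Summable.of_norm (hsn.congr fun p => ?_)
    exact (hn p).symm
  have hlow : -(∑' p : Nat.Primes, |corr p|) ≤ ∑' p : Nat.Primes, corr p * ((p : ℕ) : ℝ) ^ (-s) := by
    have h1 : ‖∑' p : Nat.Primes, corr p * ((p : ℕ) : ℝ) ^ (-s)‖ ≤
        ∑' p : Nat.Primes, ‖corr p * ((p : ℕ) : ℝ) ^ (-s)‖ :=
      norm_tsum_le_tsum_norm (hsn.congr fun p => (hn p).symm)
    rw [tsum_congr hn] at h1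
    have h2 := hsn.tsum_le_tsum hle hsc
    rw [Real.norm_eq_abs] at h1
    have h3 := neg_abs_le (∑' p : Nat.Primes, corr p * ((p : ℕ) : ℝ) ^ (-s))
    linarith
  have hS1 : Summable (fun p : Nat.Primes => (1 : ℝ) * ((p : ℕ) : ℝ) ^ (-s)) := by
    refine (Nat.Primes.summable_rpow.mpr (show -s < -1 by linarith)).congr fun p => ?_
    rw [one_mul]
  have hS2 := NZD_th N k a ea s hs1
  have hsum : TatePole.RR (fun p => if p ∈ E then 0 else 2 - lam k a p ^ 2) s =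
      2 * TatePole.RR (fun _ => (1 : ℝ)) s - TatePole.RR (fun p => th N k a p * th N k a p) s +
        ∑' p : Nat.Primes, corr p * ((p : ℕ) : ℝ) ^ (-s) := by
    unfold TatePole.RR
    rw [← tsum_mul_left, ← (hS1.mul_left 2).tsum_sub hS2,
      ← ((hS1.mul_left 2).sub hS2).tsum_add hs4]
    refine tsum_congr fun p => ?_
    by_cases hpE : (p : ℕ) ∈ E
    · simp only [hcorr, hpE, if_true]
      ring
    · have h1 : ¬ (p : ℕ) ∣ N := fun h => hpE (hN p p.2 h)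
      simp only [hcorr, hpE, if_false, th, h1]
      ring
  rw [hsum]
  have hA := hC₁ s hs1 hs2.2
  have hC := neg_abs_le (TatePole.RR (fun _ => (1 : ℝ)) s - 1 * Real.log (1 / (s - 1)))
  linarith

theorem p_NZD : S_NZD := by
  intro hCND hES hMSQ hCCS hEUL hCCP hLAND hKEY N k f a hN1 hk hf ha
  obtain ⟨M, ρ, G, hM, hρ, hG, h₁⟩ := hCND N k f a hN1 hk hf ha
  have ea := hES N k f a hN1 hk hf ha
  have h0 : N * M ≠ 0 := by positivity
  refine ⟨(N * M).primeFactors, fun p hp => Nat.prime_of_mem_primeFactors hp,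
    fun p hp hd => Nat.mem_primeFactors.mpr ⟨hp, hd.mul_right _, h0⟩, ?_⟩
  intro E hE hsub
  have hmem : ∀ p : ℕ, p.Prime → p ∣ N * M → p ∈ E := fun p hp hd =>
    hsub (Nat.mem_primeFactors.mpr ⟨hp, hd, h0⟩)
  have mN : ∀ p : ℕ, p.Prime → p ∣ N → p ∈ E := fun p hp hd => hmem p hp (hd.mul_right _)
  have m1 : ∀ p : ℕ, p.Prime → p ∣ M → p ∈ E := fun p hp hd => hmem p hp (hd.mul_left _)
  have mm : ∀ A B : ℕ, (∀ p : ℕ, p.Prime → p ∣ A → p ∈ E) →
      (∀ p : ℕ, p.Prime → p ∣ B → p ∈ E) → ∀ p : ℕ, p.Prime → p ∣ A * B → p ∈ E := by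
    intro A B hA hB p hp hd
    rcases (Nat.Prime.dvd_mul hp).1 hd with h | h
    · exact hA p hp h
    · exact hB p hp h
  obtain ⟨e, he, q⟩ := hEUL N N k k M a a E ea ea hM hE (mm _ _ (mm _ _ mN mN) m1)
  have c1 := hCCS N N k k a a E ea ea (mm _ _ mN mN)
  have hsubHP : HP ⊆ {s : ℂ | 0 < s.re} := by
    intro s hs
    have h : (1 / 4 : ℝ) < s.re := hs
    show 0 < s.re
    linarith
  have heHP := he.mono hsubHP
  have hid : DifferentiableOn ℂ (fun s : ℂ => s - 1) HP := differentiableOn_id.sub_const 1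
  have hne : ∀ s : ℂ, 1 < s.re → s - 1 ≠ 0 := by
    intro s hs h
    have h2 : s = 1 := sub_eq_zero.1 h
    rw [h2, Complex.one_re] at hs
    exact lt_irrefl _ hs
  refine NZD_lim (cc E (lam k a) (lam k a)) (fun s => ((s - 1) * G s + ρ) * e s)
    (((hid.mul hG).add_const _).mul heHP) ?_ ?_
  · intro hL1
    have he1 : e 1 = 0 := by
      have h3 : ((1 : ℂ) - 1) * G 1 + ρ ≠ 0 := by
        rw [sub_self, zero_mul, zero_add]
        exact_mod_cast hρ.ne'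
      exact (mul_eq_zero.1 hL1).resolve_left h3
    have hds : DifferentiableOn ℂ (dslope e 1) HP :=
      (Complex.differentiableOn_dslope NZD_nhds).2 heHP
    have hF : DifferentiableOn ℂ (fun s => G s * e s + ρ * dslope e 1 s) HP :=
      (hG.mul heHP).add (hds.const_mul _)
    have hFe : ∀ s : ℂ, 1 < s.re → G s * e s + ρ * dslope e 1 s =
        Complex.exp (∑' n : ℕ, ((cc E (lam k a) (lam k a) n : ℝ) : ℂ) * (n : ℂ) ^ (-s)) := by
      intro s hs
      have hs1 : s ≠ 1 := sub_ne_zero.1 (hne s hs)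
      rw [dslope_of_ne _ hs1, slope_def_field, he1, sub_zero, ← q s hs, ← h₁ s hs]
      ring
    have hsn : ∀ σ : ℝ, 1 < σ → Summable (fun n : ℕ =>
        cc E (lam k a) (lam k a) n * (n : ℝ) ^ (-σ)) := by
      intro σ hσ
      refine (c1 σ hσ).congr fun n => ?_
      rw [abs_of_nonneg (NZD_nonneg _ _ _)]
    have hconv := hLAND (fun n => cc E (lam k a) (lam k a) n) _ (NZD_nonneg E (lam k a)) hsn hF hFe
      (1 / 2) (by norm_num)
    exact NZD_key hKEY hMSQ N k f a hN1 hk hf ha ea E mN (NZD_sq hCCP E (lam k a) hconv)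
  · intro s hs
    show ((s - 1) * G s + ρ) * e s = _
    rw [← q s hs, ← h₁ s hs]
    have := hne s hs
    field_simp

end Pool.Agent.Lib.MP_058a58_ag.MT
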