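import Pool.Agent.Lib.MP_058a58_ag.MT.DStm2
import Pool.Agent.Lib.MP_058a58_ag.FieldFamily

set_option autoImplicit false

open UpperHalfPlane MeasureTheory Filter Topology
open scoped MatrixGroups Modular ComplexConjugate

namespace Pool.Agent.Lib.MP_058a58_ag.MT

private lemma NZO_nhds : HP ∈ 𝓝 (1 : ℂ) := by
  have h : IsOpen HP := isOpen_lt continuous_const Complex.continuous_re
  refine h.mem_nhds ?_
  show (1 / 4 : ℝ) < (1 : ℂ).re
  rw [Complex.one_re]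
  norm_num

private lemma NZO_nonneg (E : Finset ℕ) (x y : ℕ → ℝ) (n : ℕ) :
    0 ≤ cc E x x n + cc E y y n + 2 * cc E x y n := by
  have h1 : ∀ A B m : ℝ, A * A / m + B * B / m + 2 * (A * B / m) = (A + B) ^ 2 / m := by
    intro A B m
    ring
  unfold cc
  split_ifs with h
  · rw [h1]
    positivity
  · norm_num

private lemma NZO_norm (c : ℝ) (n : ℕ) (s : ℂ) (hs : 1 < s.re) :
    ‖(c : ℂ) * (n : ℂ) ^ (-s)‖ = |c| * (n : ℝ) ^ (-s.re) := by
  rw [norm_mul, Complex.norm_real, Real.norm_eq_abs]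
  congr 1
  rcases Nat.eq_zero_or_pos n with rfl | hn
  · have h1 : -s ≠ 0 := by
      intro h
      have h2 := congrArg Complex.re h
      rw [Complex.neg_re, Complex.zero_re] at h2
      linarith
    rw [Nat.cast_zero, Nat.cast_zero, Complex.zero_cpow h1, norm_zero,
      Real.zero_rpow (by linarith)]
  · rw [Complex.norm_natCast_cpow_of_pos hn, Complex.neg_re]

private lemma NZO_summ {c : ℕ → ℝ}
    (h : ∀ σ : ℝ, 1 < σ → Summable (fun n : ℕ => |c n| * (n : ℝ) ^ (-σ)))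
    {s : ℂ} (hs : 1 < s.re) : Summable (fun n : ℕ => (c n : ℂ) * (n : ℂ) ^ (-s)) := by
  refine Summable.of_norm ?_
  refine (h s.re hs).congr fun n => ?_
  exact (NZO_norm _ _ s hs).symm

private lemma NZO_real (c : ℕ → ℝ) (s : ℝ) :
    ∑' n : ℕ, (c n : ℂ) * (n : ℂ) ^ (-(s : ℂ)) = ((∑' n : ℕ, c n * (n : ℝ) ^ (-s) : ℝ) : ℂ) := by
  rw [Complex.ofReal_tsum]
  refine tsum_congr fun n => ?_
  rw [Complex.ofReal_mul, Complex.ofReal_cpow (Nat.cast_nonneg n), Complex.ofReal_neg,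
    Complex.ofReal_natCast]

private lemma NZO_lim (c : ℕ → ℝ) (L : ℂ → ℂ) (hL : DifferentiableOn ℂ L HP) (h1 : L 1 ≠ 0)
    (h : ∀ s : ℂ, 1 < s.re → L s = Complex.exp (∑' n : ℕ, (c n : ℂ) * (n : ℂ) ^ (-s))) :
    ∃ g₀ : ℝ, Tendsto (fun s : ℝ => ∑' n : ℕ, c n * (n : ℝ) ^ (-s)) (𝓝[>] 1) (𝓝 g₀) := by
  have hc : ContinuousAt L 1 := (hL.differentiableAt NZO_nhds).continuousAt
  have hr : Tendsto (fun s : ℝ => (s : ℂ)) (𝓝[>] (1 : ℝ)) (𝓝 (1 : ℂ)) := by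
    have h0 : Tendsto (fun s : ℝ => (s : ℂ)) (𝓝 (1 : ℝ)) (𝓝 ((1 : ℝ) : ℂ)) :=
      Complex.continuous_ofReal.tendsto (1 : ℝ)
    rw [Complex.ofReal_one] at h0
    exact h0.mono_left nhdsWithin_le_nhds
  have h2 : Tendsto (fun s : ℝ => L s) (𝓝[>] (1 : ℝ)) (𝓝 (L 1)) := hc.tendsto.comp hr
  have h4 : Tendsto (fun s : ℝ => ((Real.exp (∑' n : ℕ, c n * (n : ℝ) ^ (-s)) : ℝ) : ℂ))
      (𝓝[>] (1 : ℝ)) (𝓝 (L 1)) := by
    refine h2.congr' ?_
    filter_upwards [self_mem_nhdsWithin] with s hs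
    have hs' : 1 < (s : ℂ).re := by
      rw [Complex.ofReal_re]
      exact hs
    rw [h s hs', NZO_real, Complex.ofReal_exp]
  have h5 : Tendsto (fun s : ℝ => Real.exp (∑' n : ℕ, c n * (n : ℝ) ^ (-s)))
      (𝓝[>] (1 : ℝ)) (𝓝 (L 1).re) := by
    have h0 := (Complex.continuous_re.tendsto (L 1)).comp h4
    refine h0.congr fun s => ?_
    exact Complex.ofReal_re _
  have h6 : Tendsto (fun _ : ℝ => (0 : ℝ)) (𝓝[>] (1 : ℝ)) (𝓝 (L 1).im) := by
    have h0 := (Complex.continuous_im.tendsto (L 1)).comp h4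
    refine h0.congr fun s => ?_
    exact Complex.ofReal_im _
  have h7 : (L 1).im = 0 := tendsto_nhds_unique h6 tendsto_const_nhds
  have h8 : (L 1).re ≠ 0 := fun h' => h1 (Complex.ext h' h7)
  refine ⟨Real.log (L 1).re, ?_⟩
  refine (h5.log h8).congr fun s => ?_
  exact Real.log_exp _

private lemma NZO_sq (hCCP : S_CCP) (E : Finset ℕ) (x y : ℕ → ℝ)
    (hs : Summable (fun n : ℕ => (cc E x x n + cc E y y n + 2 * cc E x y n) *
      (n : ℝ) ^ (-(1 / 2) : ℝ))) :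
    Summable (fun p : Nat.Primes => (if (p : ℕ) ∈ E then 0 else 4 - x p ^ 2 - y p ^ 2) ^ 2 *
      ((p : ℕ) : ℝ) ^ (-1 : ℝ)) := by
  have hinj : Function.Injective (fun p : Nat.Primes => (p : ℕ) ^ 2) := by
    intro p q h
    exact Subtype.ext (Nat.pow_left_injective (by norm_num : 2 ≠ 0) h)
  have h1 := (hs.comp_injective hinj).mul_left 2
  refine h1.congr fun p => ?_
  have hp0 : (0 : ℝ) ≤ ((p : ℕ) : ℝ) := Nat.cast_nonneg _
  have e1 := hCCP.1 E x x p 1 p.2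
  have e2 := hCCP.1 E y y p 1 p.2
  have e3 := hCCP.1 E x y p 1 p.2
  have t1 : ∀ z : ℝ, tw z (1 + 1) = z * z - 2 := fun z => rfl
  have e4 : (((p : ℕ) ^ 2 : ℕ) : ℝ) ^ (-(1 / 2) : ℝ) = ((p : ℕ) : ℝ) ^ (-1 : ℝ) := by
    rw [Nat.cast_pow, ← Real.rpow_natCast, ← Real.rpow_mul hp0]
    norm_num
  simp only [Function.comp]
  rw [e4]
  rw [show (p : ℕ) ^ 2 = (p : ℕ) ^ (1 + 1) from rfl, e1, e2, e3, t1, t1]
  by_cases hpE : (p : ℕ) ∈ E
  · simp only [hpE, if_true]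
    ring
  · simp only [hpE, if_false]
    push_cast
    ring

private lemma NZO_th (N k : ℕ) (a : ℕ → ℝ) (hES : ESeq N k a) (s : ℝ) (hs : 1 < s) :
    Summable (fun p : Nat.Primes => th N k a p * th N k a p * ((p : ℕ) : ℝ) ^ (-s)) := by
  have h1 := (hES.sq s hs).comp_injective Nat.Primes.coe_nat_injective
  refine Summable.of_nonneg_of_le (fun p => ?_) (fun p => ?_) h1
  · exact mul_nonneg (mul_self_nonneg _) (Real.rpow_nonneg (Nat.cast_nonneg _) _)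
  · refine mul_le_mul_of_nonneg_right ?_ (Real.rpow_nonneg (Nat.cast_nonneg _) _)
    unfold th
    split_ifs
    · rw [mul_zero]
      exact sq_nonneg _
    · rw [sq]

private lemma NZO_key (hKEY : S_KEY) (hMSQ : R_MSQ) (hES : R_ES) (N N' k k' : ℕ) (f g : ℍ → ℂ)
    (a b : ℕ → ℝ) (hP : Pair N N' k k' f g a b) (E : Finset ℕ)
    (hN : ∀ p : ℕ, p.Prime → p ∣ N → p ∈ E) (hN' : ∀ p : ℕ, p.Prime → p ∣ N' → p ∈ E)
    (hs : Summable (fun p : Nat.Primes => (if (p : ℕ) ∈ E then 0 else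
      4 - lam k a p ^ 2 - lam k' b p ^ 2) ^ 2 * ((p : ℕ) : ℝ) ^ (-1 : ℝ))) : False := by
  have ea := hES N k f a hP.hN hP.hk hP.hf hP.ha
  have eb := hES N' k' g b hP.hN' hP.hk' hP.hg hP.hb
  obtain ⟨C₁, hC₁⟩ := hMSQ N k f a hP.hN hP.hk hP.hf hP.ha
  obtain ⟨C₂, hC₂⟩ := hMSQ N' k' g b hP.hN' hP.hk' hP.hg hP.hb
  obtain ⟨C₀, hC₀⟩ := TatePole.hasMean_one
  set corr : ℕ → ℝ := fun p => if p ∈ E then
    (-4 + th N k a p * th N k a p + th N' k' b p * th N' k' b p) else 0 with hcorr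
  have hfin : (Function.support (fun p : Nat.Primes => |corr p|)).Finite := by
    refine Set.Finite.subset (Set.Finite.preimage
      (f := fun p : Nat.Primes => (p : ℕ)) (Nat.Primes.coe_nat_injective.injOn)
      E.finite_toSet) ?_
    intro p hp
    rw [Function.mem_support] at hp
    by_contra hpE
    apply hp
    have hpE' : ¬ (p : ℕ) ∈ E := fun h => hpE h
    simp only [hcorr, hpE', if_false, abs_zero]
  have hsc : Summable (fun p : Nat.Primes => |corr p|) := summable_of_finite_support hfin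
  refine hKEY (fun p => if p ∈ E then 0 else 4 - lam k a p ^ 2 - lam k' b p ^ 2) 2
    (4 * C₀ + C₁ + C₂ + ∑' p : Nat.Primes, |corr p|) (by norm_num) hs ?_
  have hlt : ∀ᶠ s in 𝓝[>] (1 : ℝ), s ∈ Set.Ioc (1 : ℝ) 2 :=
    Ioc_mem_nhdsGT (by norm_num)
  filter_upwards [hC₀, hlt] with s h0 hs2
  have hs1 : 1 < s := hs2.1
  have hle : ∀ p : Nat.Primes, |corr p| * ((p : ℕ) : ℝ) ^ (-s) ≤ |corr p| := by
    intro p
    have h1 : ((p : ℕ) : ℝ) ^ (-s) ≤ 1 :=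
      Real.rpow_le_one_of_one_le_of_nonpos (by exact_mod_cast p.2.one_lt.le) (by linarith)
    calc |corr p| * ((p : ℕ) : ℝ) ^ (-s) ≤ |corr p| * 1 :=
          mul_le_mul_of_nonneg_left h1 (abs_nonneg _)
      _ = |corr p| := mul_one _
  have hn : ∀ p : Nat.Primes, ‖corr p * ((p : ℕ) : ℝ) ^ (-s)‖ =
      |corr p| * ((p : ℕ) : ℝ) ^ (-s) := by
    intro p
    rw [norm_mul, Real.norm_eq_abs, Real.norm_eq_abs,
      abs_of_nonneg (Real.rpow_nonneg (Nat.cast_nonneg _) _)]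
  have hsn : Summable (fun p : Nat.Primes => |corr p| * ((p : ℕ) : ℝ) ^ (-s)) :=
    Summable.of_nonneg_of_le
      (fun p => mul_nonneg (abs_nonneg _) (Real.rpow_nonneg (Nat.cast_nonneg _) _)) hle hsc
  have hs4 : Summable (fun p : Nat.Primes => corr p * ((p : ℕ) : ℝ) ^ (-s)) := by
    refine Summable.of_norm (hsn.congr fun p => ?_)
    exact (hn p).symm
  have hlow : -(∑' p : Nat.Primes, |corr p|) ≤ ∑' p : Nat.Primes, corr p * ((p : ℕ) : ℝ) ^ (-s) := by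
    have h1 : ‖∑' p : Nat.Primes, corr p * ((p : ℕ) : ℝ) ^ (-s)‖ ≤
        ∑' p : Nat.Primes, ‖corr p * ((p : ℕ) : ℝ) ^ (-s)‖ :=
      norm_tsum_le_tsum_norm (hsn.congr fun p => (hn p).symm)
    rw [tsum_congr hn] at h1
    have h2 := hsn.tsum_le_tsum hle hsc
    rw [Real.norm_eq_abs] at h1
    have h3 := neg_abs_le (∑' p : Nat.Primes, corr p * ((p : ℕ) : ℝ) ^ (-s))
    linarith
  have hS1 : Summable (fun p : Nat.Primes => (1 : ℝ) * ((p : ℕ) : ℝ) ^ (-s)) := by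
    refine (Nat.Primes.summable_rpow.mpr (show -s < -1 by linarith)).congr fun p => ?_
    rw [one_mul]
  have hS2 := NZO_th N k a ea s hs1
  have hS3 := NZO_th N' k' b eb s hs1
  have hsum : TatePole.RR (fun p => if p ∈ E then 0 else 4 - lam k a p ^ 2 - lam k' b p ^ 2) s =
      4 * TatePole.RR (fun _ => (1 : ℝ)) s - TatePole.RR (fun p => th N k a p * th N k a p) s -
        TatePole.RR (fun p => th N' k' b p * th N' k' b p) s +
        ∑' p : Nat.Primes, corr p * ((p : ℕ) : ℝ) ^ (-s) := by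
    unfold TatePole.RR
    rw [← tsum_mul_left, ← (hS1.mul_left 4).tsum_sub hS2,
      ← ((hS1.mul_left 4).sub hS2).tsum_sub hS3,
      ← (((hS1.mul_left 4).sub hS2).sub hS3).tsum_add hs4]
    refine tsum_congr fun p => ?_
    by_cases hpE : (p : ℕ) ∈ E
    · simp only [hcorr, hpE, if_true]
      ring
    · have h1 : ¬ (p : ℕ) ∣ N := fun h => hpE (hN p p.2 h)
      have h2 : ¬ (p : ℕ) ∣ N' := fun h => hpE (hN' p p.2 h)
      simp only [hcorr, hpE, if_false, th, h1, h2]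
      ring
  rw [hsum]
  have hA := hC₁ s hs1 hs2.2
  have hB := hC₂ s hs1 hs2.2
  have hC := neg_abs_le (TatePole.RR (fun _ => (1 : ℝ)) s - 1 * Real.log (1 / (s - 1)))
  linarith

theorem p_NZO : S_NZO := by
  intro hCND hCNO hES hMSQ hCCS hEUL hCCP hLAND hKEY N N' k k' f g a b hP hne
  obtain ⟨M₁, ρ₁, G₁, hM₁, hρ₁, hG₁, h₁⟩ := hCND N k f a hP.hN hP.hk hP.hf hP.ha
  obtain ⟨M₂, ρ₂, G₂, hM₂, hρ₂, hG₂, h₂⟩ := hCND N' k' g b hP.hN' hP.hk' hP.hg hP.hb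
  obtain ⟨M₃, H, hM₃, hH, h₃⟩ := hCNO N N' k k' f g a b hP hne
  have ea := hES N k f a hP.hN hP.hk hP.hf hP.ha
  have eb := hES N' k' g b hP.hN' hP.hk' hP.hg hP.hb
  have h0 : N * N' * (M₁ * M₂ * M₃) ≠ 0 := by
    have := hP.hN
    have := hP.hN'
    positivity
  refine ⟨(N * N' * (M₁ * M₂ * M₃)).primeFactors, fun p hp => Nat.prime_of_mem_primeFactors hp,
    ?_, ?_⟩
  · intro p hp hd
    exact Nat.mem_primeFactors.mpr ⟨hp, hd.mul_right _, h0⟩
  intro E hE hsub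
  have hmem : ∀ p : ℕ, p.Prime → p ∣ N * N' * (M₁ * M₂ * M₃) → p ∈ E := fun p hp hd =>
    hsub (Nat.mem_primeFactors.mpr ⟨hp, hd, h0⟩)
  have mN : ∀ p : ℕ, p.Prime → p ∣ N → p ∈ E := fun p hp hd =>
    hmem p hp ((hd.mul_right _).mul_right _)
  have mN' : ∀ p : ℕ, p.Prime → p ∣ N' → p ∈ E := fun p hp hd =>
    hmem p hp ((hd.mul_left _).mul_right _)
  have m1 : ∀ p : ℕ, p.Prime → p ∣ M₁ → p ∈ E := fun p hp hd =>
    hmem p hp (((hd.mul_right _).mul_right _).mul_left _)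
  have m2 : ∀ p : ℕ, p.Prime → p ∣ M₂ → p ∈ E := fun p hp hd =>
    hmem p hp (((hd.mul_left _).mul_right _).mul_left _)
  have m3 : ∀ p : ℕ, p.Prime → p ∣ M₃ → p ∈ E := fun p hp hd =>
    hmem p hp ((hd.mul_left _).mul_left _)
  have mm : ∀ A B : ℕ, (∀ p : ℕ, p.Prime → p ∣ A → p ∈ E) →
      (∀ p : ℕ, p.Prime → p ∣ B → p ∈ E) → ∀ p : ℕ, p.Prime → p ∣ A * B → p ∈ E := by
    intro A B hA hB p hp hd
    rcases (Nat.Prime.dvd_mul hp).1 hd with h | h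
    · exact hA p hp h
    · exact hB p hp h
  obtain ⟨e₁, he₁, q₁⟩ := hEUL N N k k M₁ a a E ea ea hM₁ hE (mm _ _ (mm _ _ mN mN) m1)
  obtain ⟨e₂, he₂, q₂⟩ := hEUL N' N' k' k' M₂ b b E eb eb hM₂ hE (mm _ _ (mm _ _ mN' mN') m2)
  obtain ⟨e₃, he₃, q₃⟩ := hEUL N N' k k' M₃ a b E ea eb hM₃ hE (mm _ _ (mm _ _ mN mN') m3)
  have c1 := hCCS N N k k a a E ea ea (mm _ _ mN mN)
  have c2 := hCCS N' N' k' k' b b E eb eb (mm _ _ mN' mN')
  have c3 := hCCS N N' k k' a b E ea eb (mm _ _ mN mN')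
  have hsubHP : HP ⊆ {s : ℂ | 0 < s.re} := by
    intro s hs
    have h : (1 / 4 : ℝ) < s.re := hs
    show 0 < s.re
    linarith
  have hL : DifferentiableOn ℂ (fun s => H s * e₃ s) HP := hH.mul (he₃.mono hsubHP)
  have hLe : ∀ s : ℂ, 1 < s.re → H s * e₃ s =
      Complex.exp (∑' n : ℕ, ((cc E (lam k a) (lam k' b) n : ℝ) : ℂ) * (n : ℂ) ^ (-s)) := by
    intro s hs
    rw [h₃ s hs, q₃ s hs]
  refine NZO_lim (cc E (lam k a) (lam k' b)) (fun s => H s * e₃ s) hL ?_ hLe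
  intro hL1
  -- the function `F`
  set L : ℂ → ℂ := fun s => H s * e₃ s with hLdef
  have hL1' : L 1 = 0 := hL1
  have hds : DifferentiableOn ℂ (dslope L 1) HP :=
    (Complex.differentiableOn_dslope NZO_nhds).2 hL
  have hid : DifferentiableOn ℂ (fun s : ℂ => s - 1) HP := differentiableOn_id.sub_const 1
  have hF : DifferentiableOn ℂ (fun s => (((s - 1) * G₁ s + ρ₁) * e₁ s) *
      (((s - 1) * G₂ s + ρ₂) * e₂ s) * (dslope L 1 s * dslope L 1 s)) HP := by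
    refine DifferentiableOn.mul (DifferentiableOn.mul ?_ ?_) (hds.mul hds)
    · exact ((hid.mul hG₁).add_const _).mul (he₁.mono hsubHP)
    · exact ((hid.mul hG₂).add_const _).mul (he₂.mono hsubHP)
  have hFe : ∀ s : ℂ, 1 < s.re → (((s - 1) * G₁ s + ρ₁) * e₁ s) *
      (((s - 1) * G₂ s + ρ₂) * e₂ s) * (dslope L 1 s * dslope L 1 s) =
      Complex.exp (∑' n : ℕ, ((cc E (lam k a) (lam k a) n + cc E (lam k' b) (lam k' b) n +
        2 * cc E (lam k a) (lam k' b) n : ℝ) : ℂ) * (n : ℂ) ^ (-s)) := by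
    intro s hs
    have hs1 : s ≠ 1 := by
      rintro rfl
      rw [Complex.one_re] at hs
      exact lt_irrefl _ hs
    have hs0 : s - 1 ≠ 0 := sub_ne_zero.mpr hs1
    have hd : dslope L 1 s = L s / (s - 1) := by
      rw [dslope_of_ne _ hs1, slope_def_field, hL1', sub_zero]
    have s1 := NZO_summ c1 hs
    have s2 := NZO_summ c2 hs
    have s3 := NZO_summ c3 hs
    have hexp : (∑' n : ℕ, ((cc E (lam k a) (lam k a) n + cc E (lam k' b) (lam k' b) n +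
        2 * cc E (lam k a) (lam k' b) n : ℝ) : ℂ) * (n : ℂ) ^ (-s)) =
        (∑' n : ℕ, ((cc E (lam k a) (lam k a) n : ℝ) : ℂ) * (n : ℂ) ^ (-s)) +
        (∑' n : ℕ, ((cc E (lam k' b) (lam k' b) n : ℝ) : ℂ) * (n : ℂ) ^ (-s)) +
        (∑' n : ℕ, ((cc E (lam k a) (lam k' b) n : ℝ) : ℂ) * (n : ℂ) ^ (-s)) +
        (∑' n : ℕ, ((cc E (lam k a) (lam k' b) n : ℝ) : ℂ) * (n : ℂ) ^ (-s)) := by
      rw [← s1.tsum_add s2, ← (s1.add s2).tsum_add s3, ← ((s1.add s2).add s3).tsum_add s3]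
      refine tsum_congr fun n => ?_
      push_cast
      ring
    rw [hexp, Complex.exp_add, Complex.exp_add, Complex.exp_add, ← q₁ s hs, ← q₂ s hs,
      ← hLe s hs, ← h₁ s hs, ← h₂ s hs, hd]
    show _ = (G₁ s + ρ₁ / (s - 1)) * e₁ s * ((G₂ s + ρ₂ / (s - 1)) * e₂ s) * L s * L s
    field_simp
  have hsn : ∀ σ : ℝ, 1 < σ → Summable (fun n : ℕ => (cc E (lam k a) (lam k a) n +
      cc E (lam k' b) (lam k' b) n + 2 * cc E (lam k a) (lam k' b) n) * (n : ℝ) ^ (-σ)) := by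
    intro σ hσ
    have hab : ∀ {c : ℕ → ℝ}, Summable (fun n : ℕ => |c n| * (n : ℝ) ^ (-σ)) →
        Summable (fun n : ℕ => c n * (n : ℝ) ^ (-σ)) := by
      intro c hc
      refine Summable.of_norm (hc.congr fun n => ?_)
      rw [norm_mul, Real.norm_eq_abs, Real.norm_eq_abs,
        abs_of_nonneg (Real.rpow_nonneg (Nat.cast_nonneg _) _)]
    refine ((hab (c1 σ hσ)).add (hab (c2 σ hσ))).add ((hab (c3 σ hσ)).mul_left 2) |>.congr
      fun n => ?_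
    ring
  have hconv := hLAND (fun n => cc E (lam k a) (lam k a) n + cc E (lam k' b) (lam k' b) n +
    2 * cc E (lam k a) (lam k' b) n) _ (NZO_nonneg E (lam k a) (lam k' b)) hsn hF hFe (1 / 2)
    (by norm_num)
  exact NZO_key hKEY hMSQ hES N N' k k' f g a b hP E mN mN'
    (NZO_sq hCCP E (lam k a) (lam k' b) hconv)

end Pool.Agent.Lib.MP_058a58_ag.MT
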