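import Pool.Agent.Lib.MP_058a58_ag.MT.DStm2
import Pool.Agent.Lib.MP_058a58_ag.MT.P.LGF

set_option autoImplicit false

/-!
# Defect form, piece REM: the terms `m ≥ 2` are negligible
-/

open UpperHalfPlane MeasureTheory Filter Topology
open scoped MatrixGroups Modular

namespace Pool.Agent.Lib.MP_058a58_ag.MT

theorem REM_tw_eq (x : ℝ) (α : ℂ) (h0 : α ≠ 0) (h : α + α⁻¹ = x) :
    ∀ m : ℕ, ((tw x m : ℝ) : ℂ) = α ^ m + (α⁻¹) ^ m
  | 0 => by
    rw [tw, pow_zero, pow_zero]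
    push_cast
    norm_num
  | 1 => by
    rw [tw, pow_one, pow_one, h]
  | (m + 2) => by
    have h1 := REM_tw_eq x α h0 h (m + 1)
    have h2 := REM_tw_eq x α h0 h m
    have h3 : α * α⁻¹ = 1 := mul_inv_cancel₀ h0
    rw [tw]
    push_cast
    rw [h1, h2, ← h]
    linear_combination ((α⁻¹) ^ m + α ^ m) * h3

theorem REM_tw {x B : ℝ} {α : ℂ} (h : Sat x B α) (m : ℕ) : tw x m ^ 2 ≤ 4 * (‖α‖ ^ 2) ^ m := by
  have h0 := (LGF_sat h).1
  have h1 := REM_tw_eq x α h0 h.add m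
  have h2 : |tw x m| ≤ 2 * ‖α‖ ^ m := by
    have h3 : |tw x m| = ‖((tw x m : ℝ) : ℂ)‖ := by
      rw [Complex.norm_real, Real.norm_eq_abs]
    rw [h3, h1]
    refine (norm_add_le _ _).trans ?_
    rw [norm_pow, norm_pow, norm_inv]
    have h4 : ‖α‖⁻¹ ≤ ‖α‖ := (inv_le_one_of_one_le₀ h.one_le).trans h.one_le
    have h5 := pow_le_pow_left₀ (inv_nonneg.2 (norm_nonneg α)) h4 m
    linarith
  have h6 := pow_le_pow_left₀ (abs_nonneg _) h2 2
  rw [sq_abs] at h6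
  refine h6.trans (le_of_eq ?_)
  rw [mul_pow, ← pow_mul, ← pow_mul, mul_comm m 2]
  norm_num

theorem REM_loc {x B u κ : ℝ} {α : ℂ} (h : Sat x B α) (hu : 0 ≤ u) (hκ : κ ≤ 1 / 2)
    (hx : (x ^ 2 + 2) * u ≤ κ) :
    Summable (fun j : ℕ => tw x (j + 2) ^ 2 / ((j : ℝ) + 2) * u ^ (j + 2)) ∧
      ∑' j : ℕ, tw x (j + 2) ^ 2 / ((j : ℝ) + 2) * u ^ (j + 2) ≤ 4 * κ * ((x ^ 2 + 2) * u) := by
  set v : ℝ := ‖α‖ ^ 2 * u with hv
  have hv0 : 0 ≤ v := mul_nonneg (sq_nonneg _) hu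
  have hvx : v ≤ (x ^ 2 + 2) * u := mul_le_mul_of_nonneg_right (LGF_sat h).2 hu
  have hvκ : v ≤ κ := hvx.trans hx
  have hv2 : v ≤ 1 / 2 := hvκ.trans hκ
  have hterm : ∀ j : ℕ, tw x (j + 2) ^ 2 / ((j : ℝ) + 2) * u ^ (j + 2) ≤ 2 * v ^ 2 * v ^ j := by
    intro j
    have hj : (0 : ℝ) ≤ j := Nat.cast_nonneg j
    have h1 : tw x (j + 2) ^ 2 / ((j : ℝ) + 2) ≤ 2 * (‖α‖ ^ 2) ^ (j + 2) := by
      rw [div_le_iff₀ (by linarith)]
      have h2 := REM_tw h (j + 2)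
      have h3 : 0 ≤ (‖α‖ ^ 2) ^ (j + 2) := by positivity
      nlinarith
    calc tw x (j + 2) ^ 2 / ((j : ℝ) + 2) * u ^ (j + 2)
        ≤ 2 * (‖α‖ ^ 2) ^ (j + 2) * u ^ (j + 2) :=
          mul_le_mul_of_nonneg_right h1 (pow_nonneg hu _)
      _ = 2 * v ^ 2 * v ^ j := by
          rw [hv, mul_assoc, ← mul_pow, pow_add]
          ring
  have hgeo : Summable (fun j : ℕ => 2 * v ^ 2 * v ^ j) :=
    (summable_geometric_of_lt_one hv0 (by linarith)).mul_left _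
  have hnn : ∀ j : ℕ, 0 ≤ tw x (j + 2) ^ 2 / ((j : ℝ) + 2) * u ^ (j + 2) := by
    intro j
    have hj : (0 : ℝ) ≤ j := Nat.cast_nonneg j
    exact mul_nonneg (div_nonneg (sq_nonneg _) (by linarith)) (pow_nonneg hu _)
  have hs := Summable.of_nonneg_of_le hnn hterm hgeo
  refine ⟨hs, (hs.tsum_le_tsum hterm hgeo).trans ?_⟩
  rw [tsum_mul_left, tsum_geometric_of_lt_one hv0 (by linarith)]
  have h1 : (1 - v)⁻¹ ≤ 2 := by
    rw [inv_le_comm₀ (by linarith) (by norm_num)]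
    linarith
  calc 2 * v ^ 2 * (1 - v)⁻¹ ≤ 2 * v ^ 2 * 2 := mul_le_mul_of_nonneg_left h1 (by positivity)
    _ = 4 * v * v := by ring
    _ ≤ 4 * κ * ((x ^ 2 + 2) * u) := by
        refine mul_le_mul (by linarith) hvx hv0 (by linarith)

private lemma REM_log : Tendsto (fun x : ℝ => Real.log (1 / (x - 1))) (𝓝[>] 1) atTop := by
  have h1 : Tendsto (fun x : ℝ => x - 1) (𝓝[>] 1) (𝓝[>] 0) := by
    refine tendsto_nhdsWithin_iff.mpr ⟨?_, ?_⟩
    · have : Tendsto (fun x : ℝ => x - 1) (𝓝 1) (𝓝 (1 - 1)) := tendsto_id.sub_const 1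
      rw [sub_self] at this
      exact this.mono_left nhdsWithin_le_nhds
    · filter_upwards [self_mem_nhdsWithin] with x hx
      have : (1:ℝ) < x := hx
      simp only [Set.mem_Ioi]; linarith
  have h2 : Tendsto (fun y : ℝ => 1 / y) (𝓝[>] 0) atTop := by
    simpa using tendsto_inv_nhdsGT_zero (𝕜 := ℝ)
  exact Real.tendsto_log_atTop.comp (h2.comp h1)

theorem p_REM : S_REM := by
  classical
  intro hNZD hJMP hCCP hES' hMSQ hCCS N k f a hN hk hf hH η hη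
  have hES := hES' N k f a hN hk hf hH
  set η₁ : ℝ := min η 1 with hη₁
  have hη₁0 : 0 < η₁ := lt_min hη one_pos
  have hη₁1 : η₁ ≤ 1 := min_le_right _ _
  have hη₁η : η₁ ≤ η := min_le_left _ _
  set κ : ℝ := η₁ / 16 with hκ
  have hκ0 : 0 < κ := by positivity
  have hκ1 : κ ≤ 1 / 2 := by rw [hκ]; linarith
  obtain ⟨E₀, hE₀p, hE₀N, hE₀⟩ := hNZD N k f a hN hk hf hH
  obtain ⟨g₀, hg₀⟩ := hE₀ E₀ hE₀p (Finset.Subset.refl _)
  have hc0 : ∀ n, 0 ≤ cc E₀ (lam k a) (lam k a) n := by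
    intro n
    unfold cc
    split_ifs
    · exact div_nonneg (mul_self_nonneg _) (Nat.cast_nonneg _)
    · exact le_rfl
  have hcs : ∀ s : ℝ, 1 < s →
      Summable (fun n : ℕ => cc E₀ (lam k a) (lam k a) n * (n : ℝ) ^ (-s)) := by
    intro s hs
    have h1 := hCCS N N k k a a E₀ hES hES (fun p hp h => hE₀N p hp
      ((hp.dvd_mul.1 h).elim id id)) s hs
    refine h1.congr fun n => ?_
    rw [abs_of_nonneg (hc0 n)]
  have hJ := hJMP (cc E₀ (lam k a) (lam k a)) g₀ hc0 hcs hg₀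
  obtain ⟨P₁, hP₁⟩ := eventually_atTop.1 (hJ.eventually_lt_const (show (0 : ℝ) < κ / 2 by positivity))
  set P₀ : ℕ := max P₁ ⌈4 / κ⌉₊ with hP₀
  set E₁ : Finset ℕ := E₀ ∪ (Finset.range (P₀ + 1)).filter Nat.Prime with hE₁
  have hE₁p : ∀ p ∈ E₁, p.Prime := by
    intro p hp
    rcases Finset.mem_union.1 hp with h | h
    · exact hE₀p p h
    · exact (Finset.mem_filter.1 h).2
  refine ⟨E₁, hE₁p, fun p hp h => Finset.mem_union_left _ (hE₀N p hp h), fun E hEp hE => ?_⟩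
  -- the primes outside `E`
  have hout : ∀ p : ℕ, p.Prime → p ∉ E → ¬ p ∣ N ∧ (lam k a p ^ 2 + 2) / p ≤ κ := by
    intro p hp hpE
    have hpE₁ : p ∉ E₁ := fun h => hpE (hE h)
    have hpE₀ : p ∉ E₀ := fun h => hpE₁ (Finset.mem_union_left _ h)
    have hpP : P₀ < p := by
      by_contra hcon
      push Not at hcon
      apply hpE₁
      refine Finset.mem_union_right _ (Finset.mem_filter.2 ⟨Finset.mem_range.2 ?_, hp⟩)
      omega
    refine ⟨fun h => hpE₀ (hE₀N p hp h), ?_⟩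
    have hp0 : (0 : ℝ) < p := by exact_mod_cast hp.pos
    have h1 := hP₁ p ((le_max_left _ _).trans hpP.le)
    have h2 := hCCP.1 E₀ (lam k a) (lam k a) p 0 hp
    rw [if_neg hpE₀, zero_add, pow_one] at h2
    have h3 : tw (lam k a p) 1 = lam k a p := rfl
    rw [h3] at h2
    rw [h2] at h1
    push_cast at h1
    rw [zero_add, div_one] at h1
    have h4 : 4 / κ ≤ p := by
      have h5 : (⌈4 / κ⌉₊ : ℝ) ≤ P₀ := by exact_mod_cast le_max_right P₁ ⌈4 / κ⌉₊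
      have h6 : (P₀ : ℝ) < p := by exact_mod_cast hpP
      exact (Nat.le_ceil _).trans (h5.trans h6.le)
    have h7 : 2 / (p : ℝ) ≤ κ / 2 := by
      rw [div_le_iff₀ hκ0] at h4
      rw [div_le_iff₀ hp0]
      linarith
    rw [add_div, sq]
    linarith
  obtain ⟨C, hC⟩ := hMSQ N k f a hN hk hf hH
  obtain ⟨K1, hK1⟩ := TatePole.hasMean_one
  have hlt2 : ∀ᶠ s in 𝓝[>] (1 : ℝ), s < 2 :=
    nhdsWithin_le_nhds (Iio_mem_nhds (by norm_num))
  filter_upwards [self_mem_nhdsWithin, hlt2, hK1,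
    REM_log.eventually (eventually_ge_atTop (max (C + 2 * K1) 0))] with s hs1 hs2 hK hL
  have hs : (1 : ℝ) < s := hs1
  have hL0 : 0 ≤ Real.log (1 / (s - 1)) := (le_max_right _ _).trans hL
  have hLC : C + 2 * K1 ≤ Real.log (1 / (s - 1)) := (le_max_left _ _).trans hL
  have hth := hC s hs hs2.le
  rw [one_mul] at hK
  have hR1 := (abs_le.1 hK).2
  -- the sum over the primes
  set gp : Nat.Primes → ℝ := fun p => if (p : ℕ) ∈ E then 0 else
    (lam k a p ^ 2 + 2) * ((p : ℕ) : ℝ) ^ (-s) with hgp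
  have hpn : ∀ p : Nat.Primes, 0 ≤ ((p : ℕ) : ℝ) ^ (-s) := fun p =>
    Real.rpow_nonneg (Nat.cast_nonneg _) _
  have hgp0 : ∀ p, 0 ≤ gp p := by
    intro p
    simp only [hgp]
    split_ifs
    · exact le_rfl
    · exact mul_nonneg (by positivity) (hpn p)
  have hsth : Summable (fun p : Nat.Primes => (th N k a p * th N k a p) * ((p : ℕ) : ℝ) ^ (-s)) := by
    have h1 : Summable (fun p : Nat.Primes => lam k a p ^ 2 * ((p : ℕ) : ℝ) ^ (-s)) :=
      (hES.sq s hs).comp_injective (i := fun p : Nat.Primes => (p : ℕ)) Subtype.val_injective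
    refine Summable.of_nonneg_of_le (fun p => mul_nonneg (mul_self_nonneg _) (hpn p))
      (fun p => mul_le_mul_of_nonneg_right ?_ (hpn p)) h1
    unfold th
    split_ifs
    · rw [mul_zero]; positivity
    · rw [sq]
  have hs1' : Summable (fun p : Nat.Primes => (1 : ℝ) * ((p : ℕ) : ℝ) ^ (-s)) :=
    TatePole.summable_RR (g := fun _ => 1) (C := 1) (fun _ _ => by simp) hs
  have hle : ∀ p : Nat.Primes, gp p ≤ (th N k a p * th N k a p) * ((p : ℕ) : ℝ) ^ (-s) +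
      2 * ((1 : ℝ) * ((p : ℕ) : ℝ) ^ (-s)) := by
    intro p
    simp only [hgp]
    split_ifs with hpE
    · exact add_nonneg (mul_nonneg (mul_self_nonneg _) (hpn p))
        (mul_nonneg (by norm_num) (mul_nonneg zero_le_one (hpn p)))
    · have h1 := (hout p p.2 hpE).1
      unfold th
      rw [if_neg h1]
      apply le_of_eq
      ring
  have hgs : Summable gp := Summable.of_nonneg_of_le hgp0 hle (hsth.add (hs1'.mul_left 2))
  have hgt : ∑' p, gp p ≤ 3 * Real.log (1 / (s - 1)) + (C + 2 * K1) := by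
    have h1 := hgs.tsum_le_tsum hle (hsth.add (hs1'.mul_left 2))
    rw [hsth.tsum_add (hs1'.mul_left 2), tsum_mul_left] at h1
    have h2 : ∑' p : Nat.Primes, (th N k a p * th N k a p) * ((p : ℕ) : ℝ) ^ (-s) ≤
        Real.log (1 / (s - 1)) + C := hth
    have h3 : ∑' p : Nat.Primes, (1 : ℝ) * ((p : ℕ) : ℝ) ^ (-s) - Real.log (1 / (s - 1)) ≤ K1 := hR1
    linarith
  -- the local sums
  have hloc : ∀ p : Nat.Primes, Summable (fun j : ℕ => if (p : ℕ) ∈ E then 0 else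
      tw (lam k a p) (j + 2) ^ 2 / ((j : ℝ) + 2) * (((p : ℕ) : ℝ) ^ (-s)) ^ (j + 2)) ∧
      ∑' j : ℕ, (if (p : ℕ) ∈ E then 0 else
      tw (lam k a p) (j + 2) ^ 2 / ((j : ℝ) + 2) * (((p : ℕ) : ℝ) ^ (-s)) ^ (j + 2)) ≤
      4 * κ * gp p := by
    intro p
    by_cases hpE : (p : ℕ) ∈ E
    · simp only [hgp, if_pos hpE]
      refine ⟨summable_zero, ?_⟩
      rw [tsum_zero, mul_zero]
    · simp only [hgp, if_neg hpE]
      obtain ⟨hpN, hpκ⟩ := hout p p.2 hpE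
      obtain ⟨α, hα⟩ := hES.sat p p.2 hpN
      refine REM_loc hα (hpn p) hκ1 (le_trans ?_ hpκ)
      rw [div_eq_mul_inv]
      refine mul_le_mul_of_nonneg_left ?_ (by positivity)
      have hp1 : (1 : ℝ) ≤ ((p : ℕ) : ℝ) := by exact_mod_cast p.2.one_le
      rw [← Real.rpow_neg_one]
      exact Real.rpow_le_rpow_of_exponent_le hp1 (by linarith)
  have hnn : ∀ q : Nat.Primes × ℕ, 0 ≤ (if (q.1 : ℕ) ∈ E then 0 else
      tw (lam k a q.1) (q.2 + 2) ^ 2 / ((q.2 : ℝ) + 2) * (((q.1 : ℕ) : ℝ) ^ (-s)) ^ (q.2 + 2)) := by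
    intro q
    split_ifs
    · exact le_rfl
    · have hj : (0 : ℝ) ≤ q.2 := Nat.cast_nonneg _
      exact mul_nonneg (div_nonneg (sq_nonneg _) (by linarith)) (pow_nonneg (hpn q.1) _)
  have hsp : Summable (fun p : Nat.Primes => ∑' j : ℕ, (if (p : ℕ) ∈ E then 0 else
      tw (lam k a p) (j + 2) ^ 2 / ((j : ℝ) + 2) * (((p : ℕ) : ℝ) ^ (-s)) ^ (j + 2))) :=
    Summable.of_nonneg_of_le (fun p => tsum_nonneg fun j => hnn (p, j))
      (fun p => (hloc p).2) (hgs.mul_left (4 * κ))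
  have hS : Summable (fun q : Nat.Primes × ℕ => if (q.1 : ℕ) ∈ E then 0 else
      tw (lam k a q.1) (q.2 + 2) ^ 2 / ((q.2 : ℝ) + 2) *
        (((q.1 : ℕ) : ℝ) ^ (-s)) ^ (q.2 + 2)) :=
    (summable_prod_of_nonneg hnn).2 ⟨fun p => (hloc p).1, hsp⟩
  refine ⟨hS, ?_⟩
  rw [hS.tsum_prod]
  refine (hsp.tsum_le_tsum (fun p => (hloc p).2) (hgs.mul_left (4 * κ))).trans ?_
  rw [tsum_mul_left]
  have h4 : 4 * κ * ∑' p, gp p ≤ 4 * κ * (4 * Real.log (1 / (s - 1))) :=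
    mul_le_mul_of_nonneg_left (by linarith) (by positivity)
  refine h4.trans ?_
  have h5 : 4 * κ * (4 * Real.log (1 / (s - 1))) = η₁ * Real.log (1 / (s - 1)) := by
    rw [hκ]; ring
  rw [h5]
  exact mul_le_mul_of_nonneg_right hη₁η hL0

end Pool.Agent.Lib.MP_058a58_ag.MT
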