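import Pool.Agent.Lib.MP_058a58_ag.MT.DStm2

set_option autoImplicit false

/-! # Defect form: the piece ZMP (the Euler product of `zM`), helper93 -/

namespace Pool.Agent.Lib.MP_058a58_ag.MT

private theorem ZMP_lt (p : ℕ) (hp : p.Prime) (z : ℂ) (hz : 0 < z.re) : ‖(p : ℂ) ^ (-z)‖ < 1 := by
  rw [Complex.norm_natCast_cpow_of_pos hp.pos, Complex.neg_re]
  have h1 : (1 : ℝ) < p := by exact_mod_cast hp.one_lt
  exact Real.rpow_lt_one_of_one_lt_of_neg h1 (by linarith)

open Classical in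
private noncomputable def ZMP_u (M : ℕ) (n : ℕ) : ℝ := if 1 ≤ n ∧ n.Coprime M then 1 else 0

theorem p_ZMP : S_ZMP := by
  intro hEPC M z hM hz
  have h0 : ZMP_u M 0 = 0 := by simp [ZMP_u]
  have h1 : ZMP_u M 1 = 1 := by simp [ZMP_u]
  have hmul : ∀ m n : ℕ, m.Coprime n → ZMP_u M (m * n) = ZMP_u M m * ZMP_u M n := by
    intro m n _
    unfold ZMP_u
    by_cases hm : 1 ≤ m ∧ m.Coprime M
    · by_cases hn : 1 ≤ n ∧ n.Coprime M
      · have hmn : 1 ≤ m * n ∧ (m * n).Coprime M :=
          ⟨Nat.mul_pos hm.1 hn.1, Nat.Coprime.mul_left hm.2 hn.2⟩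
        rw [if_pos hm, if_pos hn, if_pos hmn, mul_one]
      · have hmn : ¬ (1 ≤ m * n ∧ (m * n).Coprime M) := by
          rintro ⟨g1, g2⟩
          apply hn
          refine ⟨Nat.pos_of_ne_zero ?_, Nat.Coprime.coprime_mul_left g2⟩
          rintro rfl
          simp at g1
        rw [if_neg hn, if_neg hmn, mul_zero]
    · have hmn : ¬ (1 ≤ m * n ∧ (m * n).Coprime M) := by
        rintro ⟨g1, g2⟩
        apply hm
        refine ⟨Nat.pos_of_ne_zero ?_, Nat.Coprime.coprime_mul_right g2⟩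
        rintro rfl
        simp at g1
      rw [if_neg hm, if_neg hmn, zero_mul]
  have hsum : Summable (fun n : ℕ => |ZMP_u M n| * (n : ℝ) ^ (-z.re)) := by
    have hs : Summable (fun n : ℕ => (n : ℝ) ^ (-z.re)) :=
      Real.summable_nat_rpow.2 (by linarith)
    refine Summable.of_nonneg_of_le (fun n => by positivity) (fun n => ?_) hs
    have hle : |ZMP_u M n| ≤ 1 := by
      unfold ZMP_u
      split_ifs <;> simp
    calc |ZMP_u M n| * (n : ℝ) ^ (-z.re) ≤ 1 * (n : ℝ) ^ (-z.re) :=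
          mul_le_mul_of_nonneg_right hle (by positivity)
      _ = _ := one_mul _
  have key := hEPC (ZMP_u M) z h0 h1 hmul hsum
  have e1 : ∑' n : ℕ, ((ZMP_u M n : ℝ) : ℂ) * (n : ℂ) ^ (-z) = zM M z := by
    unfold zM ZMP_u
    refine tsum_congr fun n => ?_
    split_ifs <;> simp
  have e2 : (fun p : Nat.Primes => DpC (ZMP_u M) z p) = fun p : Nat.Primes =>
      if (p : ℕ) ∣ M then (1 : ℂ) else (1 - (p : ℂ) ^ (-z))⁻¹ := by
    funext p
    have hp : (p : ℕ).Prime := p.2
    unfold DpC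
    by_cases hd : (p : ℕ) ∣ M
    · rw [if_pos hd]
      rw [tsum_eq_single 0]
      · rw [pow_zero, pow_zero, h1]
        simp
      · intro r hr
        have hu : ZMP_u M ((p : ℕ) ^ r) = 0 := by
          unfold ZMP_u
          rw [if_neg]
          rintro ⟨_, g⟩
          have g2 := (Nat.coprime_pow_left_iff (Nat.pos_of_ne_zero hr) _ _).1 g
          exact (hp.coprime_iff_not_dvd.1 g2) hd
        rw [hu]
        simp
    · rw [if_neg hd, ← tsum_geometric_of_norm_lt_one (ZMP_lt p hp z (by linarith))]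
      refine tsum_congr fun r => ?_
      have hu : ZMP_u M ((p : ℕ) ^ r) = 1 := by
        unfold ZMP_u
        rw [if_pos]
        exact ⟨Nat.pow_pos hp.pos, Nat.Coprime.pow_left _ (hp.coprime_iff_not_dvd.2 hd)⟩
      rw [hu]
      simp
  rw [e1, e2] at key
  exact key

end Pool.Agent.Lib.MP_058a58_ag.MT
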