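import Pool.Agent.Lib.MP_058a58_ag.MT.DStm2

set_option autoImplicit false

/-!
# EUL: the Euler product of the Rankin-Selberg series
-/

open UpperHalfPlane MeasureTheory Filter Topology
open scoped MatrixGroups Modular ComplexConjugate

namespace Pool.Agent.Lib.MP_058a58_ag.MT

private lemma EUL_norm_cpow (n : ℕ) (s : ℂ) (hs : 1 < s.re) :
    ‖(n : ℂ) ^ (-s)‖ = (n : ℝ) ^ (-s.re) := by
  rcases Nat.eq_zero_or_pos n with rfl | hn
  · have h1 : (-s) ≠ 0 := by
      intro h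
      have : s = 0 := neg_eq_zero.mp h
      rw [this] at hs
      simp at hs
      linarith
    have h2 : (-s.re) ≠ 0 := by
      intro h
      have : s.re = 0 := neg_eq_zero.mp h
      linarith
    simp [Complex.zero_cpow h1, Real.zero_rpow h2]
  · rw [Complex.norm_natCast_cpow_of_pos hn]
    simp

private lemma EUL_summable (N N' k k' : ℕ) (a b : ℕ → ℝ) (hA : ESeq N k a) (hB : ESeq N' k' b)
    (σ : ℝ) (hσ : 1 < σ) :
    Summable (fun n : ℕ => |lam k a n * lam k' b n| * (n : ℝ) ^ (-σ)) := by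
  have h := ((hA.sq σ hσ).add (hB.sq σ hσ))
  refine Summable.of_nonneg_of_le (fun n => by positivity) (fun n => ?_) h
  have hn : 0 ≤ (n : ℝ) ^ (-σ) := by positivity
  rw [← add_mul]
  refine mul_le_mul_of_nonneg_right ?_ hn
  rw [abs_mul]
  have h1 := sq_abs (lam k a n)
  have h2 := sq_abs (lam k' b n)
  have h3 := sq_nonneg (|lam k a n| - |lam k' b n|)
  have h4 := mul_nonneg (abs_nonneg (lam k a n)) (abs_nonneg (lam k' b n))
  nlinarith

private lemma EUL_pow_cpow (p m : ℕ) (s : ℂ) :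
    ((p ^ m : ℕ) : ℂ) ^ (-s) = ((p : ℂ) ^ (-s)) ^ m := by
  rw [Nat.cast_pow]
  induction m with
  | zero => simp
  | succ m ih =>
    rw [pow_succ, pow_succ, ← ih]
    have := Complex.natCast_mul_natCast_cpow (p ^ m) p (-s)
    push_cast at this
    exact this

private lemma EUL_u_lt (p : ℕ) (hp : p.Prime) (s : ℂ) (hs : 1 < s.re) :
    ‖(p : ℂ) ^ (-s)‖ < 1 ∧ Real.sqrt p ^ 2 * ‖(p : ℂ) ^ (-s)‖ < 1 := by
  rw [EUL_norm_cpow p s hs]
  have hp1 : (1 : ℝ) < p := by exact_mod_cast hp.one_lt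
  have hp0 : (0 : ℝ) < p := by linarith
  constructor
  · exact Real.rpow_lt_one_of_one_lt_of_neg hp1 (by linarith)
  · rw [Real.sq_sqrt hp0.le]
    have h1 : (p : ℝ) * (p : ℝ) ^ (-s.re) = (p : ℝ) ^ (1 + -s.re) := by
      rw [Real.rpow_add hp0, Real.rpow_one]
    rw [h1]
    exact Real.rpow_lt_one_of_one_lt_of_neg hp1 (by linarith)

private lemma EUL_one_sub_ne (p : ℕ) (hp : p.Prime) (s : ℂ) (hs : 1 < s.re) :
    (1 : ℂ) - ((p : ℂ) ^ (-s)) ^ 2 ≠ 0 := by
  intro h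
  have h1 : ((p : ℂ) ^ (-s)) ^ 2 = 1 := (sub_eq_zero.mp h).symm
  have h2 : ‖(p : ℂ) ^ (-s)‖ ^ 2 = 1 := by rw [← norm_pow, h1, norm_one]
  have h3 := (EUL_u_lt p hp s hs).1
  have h4 : 0 ≤ ‖(p : ℂ) ^ (-s)‖ := norm_nonneg _
  nlinarith

private lemma EUL_sq (p : ℕ) (s : ℂ) : (p : ℂ) ^ (-(2 * s)) = ((p : ℂ) ^ (-s)) ^ 2 := by
  have h : (-(2 * s)) = (2 : ℕ) * (-s) := by push_cast; ring
  rw [h, Complex.cpow_nat_mul]

/-- The Euler product of the Rankin-Selberg series. -/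
theorem p_EUL : S_EUL := by
  intro hEL1 hEPC hZMP hELB hCCP hCCS N N' k k' M a b E hA hB hM hE1 hE2
  classical
  have hee : ∀ p : ℕ, ∃ e : ℂ → ℂ, DifferentiableOn ℂ e {s : ℂ | 0 < s.re} ∧ (p.Prime →
      ∀ s : ℂ, 1 < s.re → DpC (fun n => lam k a n * lam k' b n) s p *
        (if p ∣ M then (1 : ℂ) else (1 - (p : ℂ) ^ (-(2 * s)))⁻¹) * e s = 1) := by
    intro p
    by_cases hp : p.Prime
    · obtain ⟨e, h1, h2⟩ := hELB N N' k k' M p a b hA hB hp
      exact ⟨e, h1, fun _ => h2⟩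
    · exact ⟨fun _ => 1, differentiableOn_const _, fun h => absurd h hp⟩
  choose ee hed hev using hee
  refine ⟨fun s => ∏ p ∈ E, ee p s, ?_, ?_⟩
  · exact DifferentiableOn.fun_finsetProd (fun p _ => hed p)
  intro s hs
  -- the product over all primes
  have hE : HasProd (fun p : Nat.Primes => DpC (fun n => lam k a n * lam k' b n) s p)
      (DDc k k' a b s) := by
    have := hEPC (fun n => lam k a n * lam k' b n) s (by simp [hA.zero]) (by simp [hA.one, hB.one])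
      (fun m n hmn => by
        simp only [hA.mul m n hmn, hB.mul m n hmn]
        ring)
      (EUL_summable N N' k k' a b hA hB s.re hs)
    exact this
  have hz : (1 : ℝ) < (2 * s).re := by
    simp
    linarith
  have hZ := hZMP M (2 * s) hM hz
  have hfin : HasProd (fun p : Nat.Primes => if (p : ℕ) ∈ E then ee p s else 1)
      (∏ p ∈ E, ee p s) := by
    have h1 : HasProd (fun p : Nat.Primes => if (p : ℕ) ∈ E then ee p s else 1)
        (∏ p ∈ E.subtype Nat.Prime, (if (p : ℕ) ∈ E then ee p s else 1)) := by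
      refine hasProd_prod_of_ne_finset_one (fun p hp => ?_)
      rw [if_neg]
      intro h
      exact hp (Finset.mem_subtype.mpr h)
    have h2 : (∏ p ∈ E.subtype Nat.Prime, (if (p : ℕ) ∈ E then ee p s else 1)) =
        ∏ p ∈ E, ee p s := by
      rw [Finset.prod_subtype_of_mem (fun p : ℕ => if p ∈ E then ee p s else 1) hE1]
      exact Finset.prod_congr rfl (fun p hp => if_pos hp)
    rw [h2] at h1
    exact h1
  have hL := (hZ.mul hE).mul hfin
  -- the sum over the prime powers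
  obtain ⟨hc1, hc2, hc3, -⟩ := hCCP
  have hEN : ∀ p : ℕ, p.Prime → p ∣ N * N' → p ∈ E := fun p hp hd =>
    hE2 p hp (hd.trans (dvd_mul_right _ _))
  have hS := hCCS N N' k k' a b E hA hB hEN s.re hs
  have hSC : Summable (fun n : ℕ => ((cc E (lam k a) (lam k' b) n : ℝ) : ℂ) * (n : ℂ) ^ (-s)) := by
    refine Summable.of_norm ?_
    refine hS.congr (fun n => ?_)
    rw [norm_mul, EUL_norm_cpow n s hs, Complex.norm_real, Real.norm_eq_abs]
  obtain ⟨h3, h4⟩ := hc3 (fun n : ℕ => ((cc E (lam k a) (lam k' b) n : ℝ) : ℂ) * (n : ℂ) ^ (-s))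
    (fun n hn => by simp only [hc2 E _ _ n hn]; simp)
  have hSP := h3.mp hSC
  have hH : HasSum (fun q : Nat.Primes × ℕ =>
      ((cc E (lam k a) (lam k' b) ((q.1 : ℕ) ^ (q.2 + 1)) : ℝ) : ℂ) *
        (((q.1 : ℕ) ^ (q.2 + 1) : ℕ) : ℂ) ^ (-s))
      (∑' n : ℕ, ((cc E (lam k a) (lam k' b) n : ℝ) : ℂ) * (n : ℂ) ^ (-s)) := by
    rw [h4]
    exact hSP.hasSum
  have hG := hH.prod_fiberwise (fun p => (hSP.prod_factor p).hasSum)
  have hR := hG.cexp
  have hEq : (fun p : Nat.Primes => ((if (p : ℕ) ∣ M then (1 : ℂ) else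
        (1 - (p : ℂ) ^ (-(2 * s)))⁻¹) * DpC (fun n => lam k a n * lam k' b n) s p) *
        (if (p : ℕ) ∈ E then ee p s else 1)) =
      (Complex.exp ∘ fun p : Nat.Primes => ∑' m : ℕ,
        ((cc E (lam k a) (lam k' b) ((p : ℕ) ^ (m + 1)) : ℝ) : ℂ) *
        (((p : ℕ) ^ (m + 1) : ℕ) : ℂ) ^ (-s)) := by
    funext p
    simp only [Function.comp_apply]
    by_cases hpE : (p : ℕ) ∈ E
    · have h5 : ∀ m : ℕ, ((cc E (lam k a) (lam k' b) ((p : ℕ) ^ (m + 1)) : ℝ) : ℂ) *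
          (((p : ℕ) ^ (m + 1) : ℕ) : ℂ) ^ (-s) = 0 := by
        intro m
        rw [hc1 E _ _ p m p.2, if_pos hpE]
        simp
      rw [tsum_congr h5, tsum_zero, Complex.exp_zero, if_pos hpE]
      have := hev p p.2 s hs
      rw [mul_comm (DpC _ _ _)] at this
      exact this
    · have hpN : ¬ (p : ℕ) ∣ N * N' * M := fun h => hpE (hE2 p p.2 h)
      have hN1 : ¬ (p : ℕ) ∣ N := fun h => hpN ((h.mul_right N').mul_right M)
      have hN2 : ¬ (p : ℕ) ∣ N' := fun h => hpN ((h.mul_left N).mul_right M)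
      have hN3 : ¬ (p : ℕ) ∣ M := fun h => hpN (h.mul_left (N * N'))
      obtain ⟨α, hα⟩ := hA.sat p p.2 hN1
      obtain ⟨γ, hγ⟩ := hB.sat p p.2 hN2
      obtain ⟨hu1, hu2⟩ := EUL_u_lt p p.2 s hs
      obtain ⟨-, -, -, h6⟩ := hEL1 (lam k a p) (lam k' b p) (Real.sqrt p) α γ ((p : ℂ) ^ (-s))
        hα hγ hu1 hu2
      have h7 : ∀ m : ℕ, ((cc E (lam k a) (lam k' b) ((p : ℕ) ^ (m + 1)) : ℝ) : ℂ) *
          (((p : ℕ) ^ (m + 1) : ℕ) : ℂ) ^ (-s) =
          ((tw (lam k a p) (m + 1) * tw (lam k' b p) (m + 1) / ((m : ℝ) + 1) : ℝ) : ℂ) *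
            ((p : ℂ) ^ (-s)) ^ (m + 1) := by
        intro m
        rw [hc1 E _ _ p m p.2, if_neg hpE, EUL_pow_cpow]
      have h8 : DpC (fun n => lam k a n * lam k' b n) s p =
          ∑' r : ℕ, ((U (lam k a p) r * U (lam k' b p) r : ℝ) : ℂ) * ((p : ℂ) ^ (-s)) ^ r := by
        unfold DpC
        refine tsum_congr (fun r => ?_)
        simp only [hA.good p p.2 hN1 r, hB.good p p.2 hN2 r]
      rw [tsum_congr h7, if_neg hpE, if_neg hN3, mul_one, h8, ← h6, EUL_sq]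
      have h9 := EUL_one_sub_ne p p.2 s hs
      field_simp
  rw [hEq] at hL
  exact hL.unique hR

end Pool.Agent.Lib.MP_058a58_ag.MT
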