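import Pool.Agent.Lib.MP_058a58_ag.MT.DStm

set_option autoImplicit false

/-!
# Defect form, piece GCO: counting
-/

open UpperHalfPlane MeasureTheory Filter Topology
open scoped MatrixGroups Modular

namespace Pool.Agent.Lib.MP_058a58_ag.MT

private lemma GCO_jf_ne (γ : SL(2, ℤ)) (z : ℍ) : jf γ z ≠ 0 := by
  have h := denom_ne_zero (γ : GL (Fin 2) ℝ) z
  have e : denom (γ : GL (Fin 2) ℝ) z = jf γ z := by
    rw [ModularGroup.denom_apply]
    rfl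
  rwa [e] at h

private lemma GCO_im (γ : SL(2, ℤ)) (z : ℍ) : (γ • z).im = z.im / ‖jf γ z‖ ^ 2 := by
  have h := ModularGroup.im_smul_eq_div_normSq γ z
  have e : denom (γ : GL (Fin 2) ℝ) z = jf γ z := by
    rw [ModularGroup.denom_apply]
    rfl
  rw [e, Complex.normSq_eq_norm_sq] at h
  exact h

private lemma GCO_vz (γ : SL(2, ℤ)) (z : ℍ) :
    vz z (γ 1 0) (γ 1 1) = jf γ z / (Real.sqrt z.im : ℂ) := rfl

private lemma GCO_norm (γ : SL(2, ℤ)) (z : ℍ) :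
    ‖vz z (γ 1 0) (γ 1 1)‖ = ‖jf γ z‖ / Real.sqrt z.im := by
  rw [GCO_vz, norm_div, Complex.norm_real, Real.norm_of_nonneg (Real.sqrt_nonneg _)]

private lemma GCO_inv (γ : SL(2, ℤ)) (z : ℍ) :
    (γ • z).im = (‖vz z (γ 1 0) (γ 1 1)‖ ^ 2)⁻¹ := by
  rw [GCO_norm, div_pow, Real.sq_sqrt z.im_pos.le, inv_div, GCO_im]

private lemma GCO_arg (γ : SL(2, ℤ)) (z : ℍ) :
    jf γ z / ‖jf γ z‖ = vz z (γ 1 0) (γ 1 1) / ‖vz z (γ 1 0) (γ 1 1)‖ := by
  have h1 : (Real.sqrt z.im : ℂ) ≠ 0 := by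
    exact_mod_cast (Real.sqrt_pos.2 z.im_pos).ne'
  have h2 : (‖jf γ z‖ : ℂ) ≠ 0 := by
    exact_mod_cast (norm_pos_iff.2 (GCO_jf_ne γ z)).ne'
  rw [GCO_norm, GCO_vz, Complex.ofReal_div]
  field_simp

private lemma GCO_ne (γ : SL(2, ℤ)) (z : ℍ) : vz z (γ 1 0) (γ 1 1) ≠ 0 := by
  rw [GCO_vz]
  refine div_ne_zero (GCO_jf_ne γ z) ?_
  exact_mod_cast (Real.sqrt_pos.2 z.im_pos).ne'

private lemma GCO_smul (z : ℍ) (n : ℕ) (c d : ℤ) :
    vz z (n * c) (n * d) = (n : ℂ) * vz z c d := by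
  unfold vz
  push_cast
  ring

/-- The Gaussian function in polar coordinates. -/
private lemma GCO_gl (l n : ℕ) (T : ℝ) (hT : 0 < T) (hn : 1 ≤ n) (v : ℂ) (hv : v ≠ 0) :
    (v / ‖v‖) ^ l * ((gr l (T * (n : ℝ) ^ 2 / (‖v‖ ^ 2)⁻¹) : ℝ) : ℂ) =
      gl l ((Real.sqrt T : ℂ) * ((n : ℂ) * v)) := by
  have hv0 : 0 < ‖v‖ := norm_pos_iff.2 hv
  have hvc : (‖v‖ : ℂ) ≠ 0 := by exact_mod_cast hv0.ne'
  have hn0 : (0 : ℝ) ≤ n := Nat.cast_nonneg n
  have hT0 : 0 ≤ Real.sqrt T := Real.sqrt_nonneg T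
  have hnorm : ‖(Real.sqrt T : ℂ) * ((n : ℂ) * v)‖ = Real.sqrt T * (n * ‖v‖) := by
    rw [norm_mul, norm_mul, Complex.norm_real, Real.norm_of_nonneg hT0, Complex.norm_natCast]
  have hx : T * (n : ℝ) ^ 2 / (‖v‖ ^ 2)⁻¹ = (Real.sqrt T * (n * ‖v‖)) ^ 2 := by
    rw [div_inv_eq_mul, mul_pow, mul_pow, Real.sq_sqrt hT.le]
    ring
  have hr0 : 0 ≤ Real.sqrt T * (n * ‖v‖) := by positivity
  have hpow : ((Real.sqrt T * (n * ‖v‖)) ^ 2) ^ ((l : ℝ) / 2) = (Real.sqrt T * (n * ‖v‖)) ^ l := by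
    rw [← Real.rpow_natCast (Real.sqrt T * (n * ‖v‖)) 2, ← Real.rpow_mul hr0,
      ← Real.rpow_natCast (Real.sqrt T * (n * ‖v‖)) l]
    congr 1
    push_cast
    ring
  rw [gl, hnorm, gr, hx, hpow, Complex.ofReal_mul, ← mul_assoc]
  congr 1
  push_cast
  rw [div_pow, mul_pow, mul_pow, mul_pow, mul_pow]
  field_simp

private lemma GCO_pair (z : ℍ) (n : ℕ) (c d : ℤ) (hn : 1 ≤ n) (h : vz z c d ≠ 0) :
    ((n : ℤ) * c, (n : ℤ) * d) ≠ (0, 0) := by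
  intro h0
  have hn0 : (n : ℤ) ≠ 0 := by exact_mod_cast (show n ≠ 0 by omega)
  obtain ⟨h1, h2⟩ := Prod.mk.inj h0
  have hc : c = 0 := (mul_eq_zero.1 h1).resolve_left hn0
  have hd : d = 0 := (mul_eq_zero.1 h2).resolve_left hn0
  apply h
  rw [hc, hd]
  simp [vz]

theorem p_GCO : S_GCO := by
  classical
  intro hSM hCO1 hCO2 M l T hM hT F hF z
  set H : ℤ × ℤ → ℂ := fun v => if v = (0, 0) then 0 else
    gl l ((Real.sqrt T : ℂ) * vz z v.1 v.2) with hH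
  have hH0 : H (0, 0) = 0 := if_pos rfl
  have hHs : Summable (fun v => ‖H v‖) := by
    refine Summable.of_nonneg_of_le (fun v => norm_nonneg _) (fun v => ?_) (hSM l T hT z)
    by_cases hv : v = (0, 0)
    · simp only [hH, if_pos hv, norm_zero]
      exact norm_nonneg _
    · simp only [hH, if_neg hv]
      exact le_rfl
  have hterm : ∀ γ : CongruenceSubgroup.Gamma0 M,
      strip.indicator (fun z => F z * (ug M l T z.im : ℂ)) ((γ : SL(2, ℤ)) • z) =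
      if (γ : SL(2, ℤ)) • z ∈ strip then
        (fun c d : ℤ => F z * ∑' n : ℕ, (if 1 ≤ n ∧ n.Coprime M then
          H (n * c, n * d) else 0)) ((γ : SL(2, ℤ)) 1 0) ((γ : SL(2, ℤ)) 1 1)
      else 0 := by
    intro γ
    rw [Set.indicator_apply]
    refine if_congr Iff.rfl ?_ rfl
    dsimp only
    rw [hF γ γ.2 z, mul_comm (_ ^ l) (F z), mul_assoc]
    congr 1
    rw [ug, if_pos (UpperHalfPlane.im_pos _), Complex.ofReal_tsum, ← tsum_mul_left]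
    refine tsum_congr fun n => ?_
    by_cases hn : 1 ≤ n ∧ n.Coprime M
    · rw [if_pos hn, if_pos hn, GCO_arg, GCO_inv, GCO_gl l n T hT hn.1 _ (GCO_ne _ z), ← GCO_smul]
      simp only [hH]
      rw [if_neg (GCO_pair z n _ _ hn.1 (GCO_ne _ z))]
    · rw [if_neg hn, if_neg hn, Complex.ofReal_zero, mul_zero]
  refine (tsum_congr hterm).trans ((hCO1 M z (fun c d : ℤ => F z * ∑' n : ℕ,
    (if 1 ≤ n ∧ n.Coprime M then H (n * c, n * d) else 0)) (by omega)).trans ?_)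
  have h2 := hCO2 M H (by omega) hH0 hHs
  have h3 : ∑' v : ℤ × ℤ, (if (M : ℤ) ∣ v.1 ∧ IsCoprime v.2 (M : ℤ) then H v else 0) =
      Th M l T z := by
    rw [Th]
    refine tsum_congr fun v => ?_
    refine if_ctx_congr Iff.rfl (fun hv => ?_) fun _ => rfl
    have hv0 : v ≠ (0, 0) := by
      rintro rfl
      have h4 : IsUnit (M : ℤ) := isCoprime_zero_left.1 hv.2
      have h5 := Int.isUnit_iff.1 h4
      omega
    simp only [hH]
    rw [if_neg hv0]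
  rw [← h3, ← h2, ← tsum_mul_left]
  refine tsum_congr fun v => ?_
  split_ifs with h
  · rfl
  · rw [mul_zero]

end Pool.Agent.Lib.MP_058a58_ag.MT
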