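import Pool.Agent.Lib.MP_058a58_ag.MT.DStm2
import Pool.Agent.Lib.MP_058a58_ag.MT.P.OR
import Pool.Agent.Lib.MP_058a58_ag.MT.P.HL

set_option autoImplicit false

/-!
# [MD POS] the Petersson norm is positive (helper98)
-/

open UpperHalfPlane MeasureTheory Filter Topology
open scoped MatrixGroups Modular ComplexConjugate

namespace Pool.Agent.Lib.MP_058a58_ag.MT

/-- The invariant measure is positive on nonempty open sets. -/
theorem POS_open : (volume : Measure ℍ).IsOpenPosMeasure := by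
  refine ⟨fun U hU hne h0 => ?_⟩
  rw [UpperHalfPlane.volume_eq_lintegral] at h0
  have hS : IsOpen (UpperHalfPlane.coe '' U) :=
    UpperHalfPlane.isOpenEmbedding_coe.isOpenMap U hU
  have hSne : (UpperHalfPlane.coe '' U).Nonempty := hne.image _
  have hpos := hS.measure_pos (volume : Measure ℂ) hSne
  have hmeas : Measurable (fun z : ℂ => (((1 / ‖z.im‖₊) ^ 2 : NNReal) : ENNReal)) := by
    have h1 : Measurable (fun z : ℂ => ‖z.im‖₊) := Complex.measurable_im.nnnorm
    exact ((measurable_const.div h1).pow_const 2).coe_nnreal_ennreal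
  rw [lintegral_eq_zero_iff hmeas, Filter.EventuallyEq, ae_restrict_iff' hS.measurableSet] at h0
  have h1 : (volume : Measure ℂ) (UpperHalfPlane.coe '' U) = 0 := by
    refine measure_mono_null (fun z hz => ?_) (ae_iff.mp h0)
    intro hh
    have h2 := hh hz
    obtain ⟨τ, _, rfl⟩ := hz
    have h3 : τ.im ≠ 0 := τ.im_pos.ne'
    simp at h2
    exact h3 h2
  exact hpos.ne' h1

/-- The real function `‖f z‖² y^k`. -/
noncomputable def POS_G (k : ℕ) (f : ℍ → ℂ) (z : ℍ) : ℝ :=
  Complex.normSq (f z) * z.im ^ (((k : ℝ) + k) / 2)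

theorem POS_Fl (k : ℕ) (f : ℍ → ℂ) (z : ℍ) : Fl k k f f z = (POS_G k f z : ℂ) := by
  unfold Fl POS_G
  rw [Complex.mul_conj]
  push_cast
  rfl

theorem POS_G_nn (k : ℕ) (f : ℍ → ℂ) (z : ℍ) : 0 ≤ POS_G k f z :=
  mul_nonneg (Complex.normSq_nonneg _) (Real.rpow_nonneg z.im_pos.le _)

theorem p_POS : S_POS := by
  intro hPV hV N M k f a R w hN hNM hM hf ha hw
  have := POS_open
  -- continuity, boundedness, invariance
  obtain ⟨hFc, ⟨C, hFC⟩, hFinv⟩ := p_HL N N k 0 f f a a hf hf
  rw [Nat.add_zero] at hFc hFC hFinv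
  have hFi : Integrable (fun z : ℍ => (w z : ℂ) * Fl k k f f z) := OR_int hV M R w hw _ hFc C hFC
  have hinv : ∀ γ ∈ CongruenceSubgroup.Gamma0 M, ∀ z : ℍ, POS_G k f (γ • z) = POS_G k f z := by
    intro γ hγ z
    have hγN : γ ∈ CongruenceSubgroup.Gamma0 N := by
      rw [HL_mem] at hγ ⊢
      exact (Int.natCast_dvd_natCast.mpr hNM).trans hγ
    have hj : 0 < Complex.normSq (jf γ z) := Complex.normSq_pos.mpr (HL_jf_ne γ z)
    have hk : ((k : ℝ) + k) / 2 = (k : ℕ) := by ring
    unfold POS_G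
    rw [hf.mod γ hγN z, HL_im, map_mul, map_pow, hk, Real.rpow_natCast, Real.rpow_natCast,
      div_pow]
    field_simp
  have hGc : Continuous (POS_G k f) := by
    have h1 : Continuous (fun z => (Fl k k f f z).re) := Complex.continuous_re.comp hFc
    have h2 : (fun z => (Fl k k f f z).re) = POS_G k f := by
      funext z
      rw [POS_Fl, Complex.ofReal_re]
    rwa [h2] at h1
  have hcast : (fun z : ℍ => (w z : ℂ) * Fl k k f f z) =
      fun z : ℍ => ((w z * POS_G k f z : ℝ) : ℂ) := by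
    funext z
    rw [POS_Fl]
    push_cast
    rfl
  have hint : ∫ z : ℍ, (w z : ℂ) * Fl k k f f z = ((∫ z : ℍ, w z * POS_G k f z : ℝ) : ℂ) := by
    rw [hcast]
    exact integral_ofReal
  have hRi : Integrable (fun z : ℍ => w z * POS_G k f z) := by
    rw [hcast] at hFi
    have h1 := hFi.re
    simpa using h1
  have hnn : ∀ z, 0 ≤ w z * POS_G k f z := fun z => mul_nonneg (hw.nn z) (POS_G_nn k f z)
  refine ⟨∫ z : ℍ, w z * POS_G k f z, ?_, hint⟩
  refine lt_of_le_of_ne (integral_nonneg hnn) (fun h0 => ?_)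
  have h1 := (integral_eq_zero_iff_of_nonneg hnn hRi).mp h0.symm
  have hcount : Countable (CongruenceSubgroup.Gamma0 M) := OR_count _
  have h2 : ∀ᵐ z : ℍ, ∀ γ : CongruenceSubgroup.Gamma0 M,
      w ((γ : SL(2, ℤ)) • z) * POS_G k f ((γ : SL(2, ℤ)) • z) = 0 := by
    rw [ae_all_iff]
    intro γ
    exact (OR_mp (γ : SL(2, ℤ))).quasiMeasurePreserving.ae h1
  have h3 : ∀ᵐ z : ℍ, POS_G k f z = 0 := by
    filter_upwards [h2] with z hz
    have h4 := (hw.sum z).mul_right (POS_G k f z)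
    have h5 : (fun γ : CongruenceSubgroup.Gamma0 M =>
        w ((γ : SL(2, ℤ)) • z) * POS_G k f z) = fun _ => 0 := by
      funext γ
      rw [← hz γ, hinv γ γ.2 z]
    rw [h5, one_mul] at h4
    exact h4.unique hasSum_zero
  have h4 : POS_G k f = fun _ => 0 :=
    (Continuous.ae_eq_iff_eq (volume : Measure ℍ) hGc continuous_const).mp h3
  have hf0 : ∀ z, f z = 0 := by
    intro z
    have h5 := congrFun h4 z
    unfold POS_G at h5
    rcases mul_eq_zero.mp h5 with h6 | h6
    · exact Complex.normSq_eq_zero.mp h6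
    · exact absurd h6 (Real.rpow_pos_of_pos z.im_pos _).ne'
  obtain ⟨h5, -⟩ := hPV k k f f a a hf.toIsQ hf.toIsQ
  obtain ⟨h6, h7⟩ := h5 1 one_pos
  simp only [hf0, zero_mul, integral_zero] at h7
  have h8 : ∑' n : ℕ, a n * a n * Real.exp (-4 * Real.pi * n * 1) = 0 := by
    exact_mod_cast h7.symm
  have h9 : Summable (fun n : ℕ => a n * a n * Real.exp (-4 * Real.pi * n * 1)) := by
    refine h6.congr (fun n => ?_)
    rw [abs_mul_self]
  have h10 := h9.le_tsum 1 (fun n _ => mul_nonneg (mul_self_nonneg _) (Real.exp_pos _).le)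
  rw [h8, ha] at h10
  have := Real.exp_pos (-4 * Real.pi * ((1 : ℕ) : ℝ) * 1)
  linarith

end Pool.Agent.Lib.MP_058a58_ag.MT
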